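import Pool.Agent.W2helper91.SP.Sweep

/-!
# The spine construction for pieces of 2-trees
-/

set_option autoImplicit false

namespace Pool.Agent.W2helper91.SP

/-- Pieces of 2-trees on a pair of poles `(s, t)`: a list of components.  The component
`(m; L, R)` has the vertex `m` adjacent to `s` and `t`, a piece `L` on `(s, m)` and a piece `R` on
`(m, t)`; `N` is the list of the other components. -/
inductive T (V : Type*)
  | nil : T V
  | node (m : V) (L R N : T V) : T V

namespace T

variable {V : Type*}

/-- Number of inner vertices. -/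
def size : T V → ℕ
  | nil => 0
  | node _ L R N => size L + size R + 1 + size N

/-- Inner vertices. -/
def verts : T V → Multiset V
  | nil => 0
  | node m L R N => {m} + verts L + verts R + verts N

/-- Edges of the piece on the poles `s`, `t` (without the edge `st`). -/
def edges : V → V → T V → Multiset (Sym2 V)
  | _, _, nil => 0
  | s, t, node m L R N => {s(s, m)} + {s(m, t)} + edges s m L + edges m t R + edges s t N

/-- Inner vertices of a component. -/
def cverts (m : V) (L R : T V) : Multiset V := {m} + verts L + verts R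

/-- Edges of a component. -/
def cedges (s t : V) (m : V) (L R : T V) : Multiset (Sym2 V) :=
  {s(s, m)} + {s(m, t)} + edges s m L + edges m t R

theorem verts_node (m : V) (L R N : T V) : verts (node m L R N) = cverts m L R + verts N := rfl

theorem edges_node (s t m : V) (L R N : T V) :
    edges s t (node m L R N) = cedges s t m L R + edges s t N := rfl

theorem card_verts (X : T V) : X.verts.card = X.size := by
  induction X with
  | nil => simp [verts, size]
  | node m L R N ihL ihR ihN =>
    simp only [verts, size, Multiset.card_add, Multiset.card_singleton, ihL, ihR, ihN]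
    omega

theorem card_edges (X : T V) (s t : V) : (X.edges s t).card = 2 * X.size := by
  induction X generalizing s t with
  | nil => simp [edges, size]
  | node m L R N ihL ihR ihN =>
    simp only [edges, size, Multiset.card_add, Multiset.card_singleton, ihL, ihR, ihN]
    omega

/-- Number of components with more than `θ` vertices. -/
def big (θ : ℕ) : T V → ℕ
  | nil => 0
  | node _ L R N => (if θ < size L + size R + 1 then 1 else 0) + big θ N

theorem big_mul_le (θ : ℕ) (X : T V) : X.big θ * (θ + 1) ≤ X.size := by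
  induction X with
  | nil => simp [big, size]
  | node m L R N _ _ ihN =>
    simp only [big, size]
    split_ifs with h
    · nlinarith
    · nlinarith

end T

open T

variable {V : Type*}

/-- Components with at most `n` vertices fit between bars at distance at least `d`. -/
def CFits (V : Type*) (n : ℕ) (d : ℤ) : Prop :=
  ∀ (m : V) (L R : T V), size L + size R + 1 ≤ n → ∀ x y : V,
    Fits (cverts m L R) (cedges x y m L R) x y d

theorem CFits.piece {n : ℕ} {d : ℤ} (h : CFits V n d) (X : T V) (hX : X.size ≤ n) (x y : V) :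
    Fits X.verts (X.edges x y) x y d := by
  induction X with
  | nil => exact Fits.zero x y d
  | node m L R N _ _ ihN =>
    simp only [size] at hX
    rw [verts_node, edges_node]
    exact (h m L R (by omega) x y).add (ihN (by omega))

/-! ### Nesting -/

section nest

variable {b m : V} {rb rm lo : ℤ} {Γ : Set (V × ℤ)}

theorem nest_base {hi : ℤ} {d : ℤ} {U : Multiset V} {E : Multiset (Sym2 V)}
    (hΓ : Γ ⊆ {(b, rb)}) (hd : 0 < d) (hdist : d ≤ |rm - rb|)
    (h1 : lo ≤ rb) (h2 : lo ≤ rm) (h3 : rb ≤ hi) (h4 : rm ≤ hi) (hU : Fits U E m b d) :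
    Sweep lo hi {(b, rb)} ({m} + U) ({s(m, b)} + E) (insert (m, rm) Γ) := by
  have hne : rm ≠ rb := by
    intro h
    subst h
    simp at hdist
    omega
  have s1 : Sweep lo hi {(b, rb)} {m} 0 (insert (m, rm) {(b, rb)}) := by
    refine Sweep.add _ m rm h2 h4 ?_
    intro p hp
    rw [Set.mem_singleton_iff] at hp
    subst hp
    exact fun h => hne h.symm
  have s2 : Sweep lo hi (insert (m, rm) {(b, rb)}) 0 {s(m, b)} (insert (m, rm) {(b, rb)}) := by
    rcases lt_or_gt_of_ne hne with h | h
    · refine Sweep.edge _ m b rm rb (by simp) (by simp) h2 h h3 ?_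
      intro p hp
      simp only [Set.mem_insert_iff, Set.mem_singleton_iff] at hp
      rcases hp with rfl | rfl <;> simp
    · rw [Sym2.eq_swap]
      refine Sweep.edge _ b m rb rm (by simp) (by simp) h1 h h4 ?_
      intro p hp
      simp only [Set.mem_insert_iff, Set.mem_singleton_iff] at hp
      rcases hp with rfl | rfl <;> simp
  have s3 : Sweep lo hi (insert (m, rm) {(b, rb)}) U E (insert (m, rm) {(b, rb)}) :=
    (hU rm rb hdist).mono (le_min h2 h1) (max_le h4 h3)
  have s4 : Sweep lo hi (insert (m, rm) {(b, rb)}) 0 0 (insert (m, rm) Γ) :=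
    Sweep.drop _ _ (Set.insert_subset_insert hΓ)
  exact ((s1.trans _ _ _ _ _ _ _ (s2.trans _ _ _ _ _ _ _ (s3.trans _ _ _ _ _ _ _ s4)))).congr
    rfl (by abel) (by abel) rfl

theorem nest_step {y : ℤ} {d : ℤ} {U U1 U2 : Multiset V} {E E1 E2 : Multiset (Sym2 V)} {v : V}
    (hΓ : Γ ⊆ {(b, rb)}) (hΓ' : Γ = ∅ ∨ rb < rm)
    (h1 : lo ≤ rb) (h2 : lo ≤ rm) (h3 : rb ≤ y) (h4 : rm ≤ y)
    (h5 : d ≤ y + 1 - rb) (h6 : d ≤ y + 1 - rm)
    (hN : Sweep lo y {(b, rb)} U E (insert (m, rm) Γ))
    (hU1 : Fits U1 E1 m v d) (hU2 : Fits U2 E2 v b d) :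
    Sweep lo (y + 1) {(b, rb)} ({v} + U1 + U2 + U) ({s(m, v)} + {s(v, b)} + E1 + E2 + E)
      (insert (m, rm) Γ) := by
  have hΓrow : ∀ p ∈ Γ, p.2 = rb := by
    intro p hp
    have := hΓ hp
    rw [Set.mem_singleton_iff] at this
    rw [this]
  -- open the bar of `v`
  have s1 : Sweep lo (y + 1) {(b, rb)} {v} 0 (insert (v, y + 1) {(b, rb)}) := by
    refine Sweep.add _ v (y + 1) (by omega) le_rfl ?_
    intro p hp
    rw [Set.mem_singleton_iff] at hp
    subst hp
    simp only
    omega
  have s2 : Sweep lo (y + 1) (insert (v, y + 1) {(b, rb)}) 0 {s(v, b)}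
      (insert (v, y + 1) {(b, rb)}) := by
    rw [Sym2.eq_swap]
    refine Sweep.edge _ b v rb (y + 1) (by simp) (by simp) h1 (by omega) le_rfl ?_
    intro p hp
    simp only [Set.mem_insert_iff, Set.mem_singleton_iff] at hp
    rcases hp with rfl | rfl <;> simp
  have s3 : Sweep lo (y + 1) (insert (v, y + 1) {(b, rb)}) U2 E2
      (insert (v, y + 1) {(b, rb)}) := by
    refine hU2.symm.block (rx := rb) (ry := y + 1) (by simp) (by simp) h1 (by omega) le_rfl
      (by omega) ?_
    intro p hp g1 g2
    simp only [Set.mem_insert_iff, Set.mem_singleton_iff] at hp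
    tauto
  have s4 : Sweep lo (y + 1) (insert (v, y + 1) {(b, rb)}) U E
      (insert (v, y + 1) (insert (m, rm) Γ)) := by
    have := (hN.frame {(v, y + 1)} (by
      intro p hp
      rw [Set.mem_singleton_iff] at hp
      subst hp
      right
      simp)).mono (le_refl lo) (show y ≤ y + 1 by omega)
    refine this.congr ?_ rfl rfl ?_
    · rw [Set.union_singleton]
    · rw [Set.union_singleton]
  have s5 : Sweep lo (y + 1) (insert (v, y + 1) (insert (m, rm) Γ)) 0 {s(m, v)}
      (insert (v, y + 1) (insert (m, rm) Γ)) := by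
    refine Sweep.edge _ m v rm (y + 1) (by simp) (by simp) h2 (by omega) le_rfl ?_
    intro p hp
    simp only [Set.mem_insert_iff] at hp
    rcases hp with rfl | rfl | hp
    · simp
    · simp
    · have h7 := hΓrow p hp
      rcases hΓ' with h | h
      · rw [h] at hp; exact absurd hp (Set.notMem_empty _)
      · omega
  have s6 : Sweep lo (y + 1) (insert (v, y + 1) (insert (m, rm) Γ)) U1 E1
      (insert (v, y + 1) (insert (m, rm) Γ)) := by
    refine hU1.block (rx := rm) (ry := y + 1) (by simp) (by simp) h2 (by omega) le_rfl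
      (by omega) ?_
    intro p hp g1 g2
    simp only [Set.mem_insert_iff] at hp
    rcases hp with rfl | rfl | hp
    · exact absurd rfl g2
    · exact absurd rfl g1
    · have h7 := hΓrow p hp
      rcases hΓ' with h | h
      · rw [h] at hp; exact absurd hp (Set.notMem_empty _)
      · omega
  have s7 : Sweep lo (y + 1) (insert (v, y + 1) (insert (m, rm) Γ)) 0 0 (insert (m, rm) Γ) :=
    Sweep.drop _ _ (Set.subset_insert _ _)
  exact (s1.trans _ _ _ _ _ _ _ (s2.trans _ _ _ _ _ _ _ (s3.trans _ _ _ _ _ _ _
    (s4.trans _ _ _ _ _ _ _ (s5.trans _ _ _ _ _ _ _ (s6.trans _ _ _ _ _ _ _ s7)))))).congr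
    rfl (by abel) (by abel) rfl

end nest

section nestT

variable {b m : V} {rb rm lo y0 : ℤ} {Γ : Set (V × ℤ)}

theorem nestR {θ N : ℕ} {D W : ℤ} (hD : CFits V θ D) (hW : CFits V N W) (hDpos : 0 < D)
    (hΓ : Γ ⊆ {(b, rb)}) (hΓ' : Γ = ∅ ∨ rb < rm) (hdist : D ≤ |rm - rb|)
    (h1 : lo ≤ rb) (h2 : lo ≤ rm) (h3 : rb ≤ y0) (h4 : rm ≤ y0)
    (h5 : W ≤ y0 + 1 - rb) (h6 : W ≤ y0 + 1 - rm) (X : T V) :
    X.size ≤ N → ∀ (Us : Multiset V) (Es : Multiset (Sym2 V)), Fits Us Es m b D →
      Sweep lo (y0 + X.big θ) {(b, rb)} ({m} + (Us + X.verts)) ({s(m, b)} + (Es + X.edges m b))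
        (insert (m, rm) Γ) := by
  induction X with
  | nil =>
    intro _ Us Es hU
    simp only [big, verts, edges, Nat.cast_zero, add_zero]
    exact nest_base hΓ hDpos hdist h1 h2 h3 h4 hU
  | node v L R X _ _ ih =>
    intro hX Us Es hU
    simp only [size] at hX
    simp only [big]
    split_ifs with hbig
    · have h := ih (by omega) Us Es hU
      have h' := nest_step (d := W) hΓ hΓ' h1 h2 (by omega) (by omega) (by omega) (by omega) h
        (hW.piece L (by omega) m v) (hW.piece R (by omega) v b)
      refine h'.congr rfl ?_ ?_ rfl |>.mono le_rfl (by push_cast; omega)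
      · simp only [verts]; abel
      · simp only [edges]; abel
    · have h := ih (by omega) (Us + cverts v L R) (Es + cedges m b v L R)
        (hU.add (hD v L R (by omega) m b))
      refine h.congr rfl ?_ ?_ rfl |>.mono le_rfl (by push_cast; omega)
      · simp only [verts_node]; abel
      · simp only [edges_node]; abel

theorem nestL {θ N : ℕ} {D W : ℤ} (hD : CFits V θ D) (hW : CFits V N W) (hDpos : 0 < D)
    (hΓ : Γ ⊆ {(b, rb)}) (hΓ' : Γ = ∅ ∨ rb < rm) (hdist : D ≤ |rm - rb|)
    (h1 : lo ≤ rb) (h2 : lo ≤ rm) (h3 : rb ≤ y0) (h4 : rm ≤ y0)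
    (h5 : W ≤ y0 + 1 - rb) (h6 : W ≤ y0 + 1 - rm) (X : T V) :
    X.size ≤ N → ∀ (Us : Multiset V) (Es : Multiset (Sym2 V)), Fits Us Es m b D →
      Sweep lo (y0 + X.big θ) {(b, rb)} ({m} + (Us + X.verts)) ({s(m, b)} + (Es + X.edges b m))
        (insert (m, rm) Γ) := by
  induction X with
  | nil =>
    intro _ Us Es hU
    simp only [big, verts, edges, Nat.cast_zero, add_zero]
    exact nest_base hΓ hDpos hdist h1 h2 h3 h4 hU
  | node v L R X _ _ ih =>
    intro hX Us Es hU
    simp only [size] at hX
    simp only [big]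
    split_ifs with hbig
    · have h := ih (by omega) Us Es hU
      have h' := nest_step (d := W) hΓ hΓ' h1 h2 (by omega) (by omega) (by omega) (by omega) h
        (hW.piece R (by omega) v m).symm (hW.piece L (by omega) b v).symm
      refine h'.congr rfl ?_ ?_ rfl |>.mono le_rfl (by push_cast; omega)
      · simp only [verts]; abel
      · simp only [edges]
        rw [Sym2.eq_swap (a := m) (b := v), Sym2.eq_swap (a := v) (b := b)]
        abel
    · have h := ih (by omega) (Us + cverts v L R) (Es + cedges b m v L R)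
        (hU.add (hD v L R (by omega) b m).symm)
      refine h.congr rfl ?_ ?_ rfl |>.mono le_rfl (by push_cast; omega)
      · simp only [verts_node]; abel
      · simp only [edges_node]; abel

end nestT

/-! ### The spine -/

/-- A piece with at most `n` vertices either fits, or has one heavy component and a remainder that
fits. -/
theorem heavy_split {n N : ℕ} {W : ℤ} (hW : CFits V N W) (hn : n ≤ 2 * N + 1) (X : T V)
    (x y : V) : X.size ≤ n →
    Fits X.verts (X.edges x y) x y W ∨
      ∃ (m : V) (L R : T V) (U : Multiset V) (E : Multiset (Sym2 V)),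
        X.verts = cverts m L R + U ∧ X.edges x y = cedges x y m L R + E ∧
        Fits U E x y W ∧ size L + size R + 1 ≤ X.size := by
  induction X with
  | nil => intro _; left; exact Fits.zero x y W
  | node m L R X _ _ ih =>
    intro hX
    simp only [size] at hX
    by_cases hs : size L + size R + 1 ≤ N
    · rcases ih (by omega) with h | ⟨m', L', R', U, E, g1, g2, g3, g4⟩
      · left
        rw [verts_node, edges_node]
        exact (hW m L R hs x y).add h
      · right
        refine ⟨m', L', R', cverts m L R + U, cedges x y m L R + E, ?_, ?_, ?_, ?_⟩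
        · rw [verts_node, g1]; abel
        · rw [edges_node, g2]; abel
        · exact (hW m L R hs x y).add g3
        · simp only [size]; omega
    · right
      refine ⟨m, L, R, X.verts, X.edges x y, rfl, rfl, hW.piece X (by omega) x y, ?_⟩
      simp only [size]; omega

/-- One step of the spine, in the direction up: `a` is above `b`. -/
theorem spine_step {a b m : V} {ra rb rm lo lo2 hi y : ℤ} {Γ Sr : Set (V × ℤ)} {d : ℤ}
    {U Ul Ur : Multiset V} {E El Er : Multiset (Sym2 V)}
    (hΓ : ∀ p ∈ Γ, p.2 < lo2 ∧ p.2 < rm)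
    (hN : Sweep lo y {(b, rb)} U E (insert (m, rm) Γ)) (hy : y < ra) (hra : ra ≤ hi)
    (hlo : lo ≤ lo2) (hlom : lo ≤ rm) (hd : d ≤ ra - rm) (hrm : rm < ra)
    (hl : Fits Ul El a m d)
    (hr : Sweep lo2 hi {(a, ra), (m, rm)} Ur Er Sr) :
    Sweep lo hi {(a, ra), (b, rb)} (U + (Ul + Ur)) (E + ({s(a, m)} + (El + Er))) (Sr ∪ Γ) := by
  have s1 : Sweep lo hi {(a, ra), (b, rb)} U E (insert (m, rm) Γ ∪ {(a, ra)}) := by
    have := (hN.frame {(a, ra)} (by
      intro p hp
      rw [Set.mem_singleton_iff] at hp
      subst hp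
      right
      exact hy)).mono (le_refl lo) (show y ≤ hi by omega)
    refine this.congr ?_ rfl rfl rfl
    rw [Set.union_singleton]
  have s2 : Sweep lo hi (insert (m, rm) Γ ∪ {(a, ra)}) 0 {s(a, m)}
      (insert (m, rm) Γ ∪ {(a, ra)}) := by
    rw [Sym2.eq_swap]
    refine Sweep.edge _ m a rm ra (by simp) (by simp) hlom hrm hra ?_
    intro p hp
    simp only [Set.mem_union, Set.mem_insert_iff, Set.mem_singleton_iff] at hp
    rcases hp with (rfl | hp) | rfl
    · simp
    · have := hΓ p hp
      omega
    · simp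
  have s3 : Sweep lo hi (insert (m, rm) Γ ∪ {(a, ra)}) Ul El
      (insert (m, rm) Γ ∪ {(a, ra)}) := by
    refine hl.symm.block (rx := rm) (ry := ra) (by simp) (by simp) hlom hrm hra hd ?_
    intro p hp g1 g2
    simp only [Set.mem_union, Set.mem_insert_iff, Set.mem_singleton_iff] at hp
    rcases hp with (rfl | hp) | rfl
    · exact absurd rfl g1
    · have := hΓ p hp
      omega
    · exact absurd rfl g2
  have s4 : Sweep lo hi (insert (m, rm) Γ ∪ {(a, ra)}) Ur Er (Sr ∪ Γ) := by
    have := (hr.frame Γ (fun p hp => Or.inl (hΓ p hp).1)).mono hlo (le_refl hi)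
    refine this.congr ?_ rfl rfl rfl
    ext p
    simp only [Set.mem_union, Set.mem_insert_iff, Set.mem_singleton_iff]
    tauto
  exact (s1.trans _ _ _ _ _ _ _ (s2.trans _ _ _ _ _ _ _ (s3.trans _ _ _ _ _ _ _ s4))).congr
    rfl (by abel) (by abel) rfl

theorem flip_pair (x y : V) (r s : ℤ) :
    Sweep.flip ({(x, r), (y, s)} : Set (V × ℤ)) = {(x, -r), (y, -s)} := by
  ext ⟨a, b⟩
  simp only [Sweep.mem_flip, Set.mem_insert_iff, Set.mem_singleton_iff, Prod.mk.injEq,
    neg_eq_iff_eq_neg]

/-- The final state of the spine construction: only the poles are kept. -/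
def keep (a b : V) (ra rb H : ℤ) : Set (V × ℤ) :=
  {p | (p = (a, ra) ∧ ra = H) ∨ (p = (b, rb) ∧ rb = 0)}

theorem keep_up {a b m : V} {ra rb rm H : ℤ} (h : rm ≠ 0) :
    keep a m ra rm H ∪ {p : V × ℤ | p = (b, rb) ∧ rb = 0} = keep a b ra rb H := by
  ext p
  simp only [keep, Set.mem_union, Set.mem_ofPred_eq]
  constructor
  · rintro ((h1 | h1) | h1)
    · exact Or.inl h1
    · exact absurd h1.2 h
    · exact Or.inr h1
  · rintro (h1 | h1)
    · exact Or.inl (Or.inl h1)
    · exact Or.inr h1

theorem keep_down {a b m : V} {ra rb rm H : ℤ} (h : rm ≠ H) :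
    Sweep.flip (keep m b rm rb H) ∪ {p : V × ℤ | p = (a, -ra) ∧ ra = H} =
      {p : V × ℤ | p = (b, -rb) ∧ rb = 0} ∪ {p : V × ℤ | p = (a, -ra) ∧ ra = H} := by
  ext ⟨x, y⟩
  simp only [Sweep.mem_flip, keep, Set.mem_union, Set.mem_ofPred_eq, Prod.mk.injEq,
    neg_eq_iff_eq_neg]
  constructor
  · rintro ((h1 | h1) | h1)
    · exact absurd h1.2 h
    · exact Or.inl h1
    · exact Or.inr h1
  · rintro (h1 | h1)
    · exact Or.inl (Or.inr h1)
    · exact Or.inr h1

theorem flip_keep {a b : V} {ra rb H : ℤ} :
    Sweep.flip (keep a b ra rb H) =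
      {p : V × ℤ | p = (b, -rb) ∧ rb = 0} ∪ {p : V × ℤ | p = (a, -ra) ∧ ra = H} := by
  ext ⟨x, y⟩
  simp only [Sweep.mem_flip, keep, Set.mem_union, Set.mem_ofPred_eq, Prod.mk.injEq,
    neg_eq_iff_eq_neg]
  constructor
  · rintro (h1 | h1)
    · exact Or.inr h1
    · exact Or.inl h1
  · rintro (h1 | h1)
    · exact Or.inr h1
    · exact Or.inl h1

theorem spine {θ N q : ℕ} {D W' W : ℤ} (hD : CFits V θ D) (hW : CFits V N W') (hDpos : 0 < D)
    (hWpos : 0 < W') (hWW : W' + q ≤ W) (hq : N < (q + 1) * (θ + 1)) :
    ∀ (k : ℕ) (m : V) (L R : T V) (a b : V) (ra rb : ℤ), size L + size R + 1 ≤ k →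
      k ≤ 2 * N + 1 → (ra = 4 * D + W ∨ ra = 3 * D + W ∨ ra = 2 * D + W) →
      (rb = 0 ∨ rb = D ∨ rb = 2 * D) →
      Sweep (min D rb) (max (3 * D + W) ra) {(a, ra), (b, rb)} (cverts m L R) (cedges a b m L R)
        (keep a b ra rb (4 * D + W)) := by
  have hbig : ∀ X : T V, X.size ≤ N → (X.big θ : ℤ) ≤ q := by
    intro X hX
    have h1 := big_mul_le θ X
    have h2 : X.big θ < q + 1 := by
      by_contra hcon
      push Not at hcon
      have := Nat.mul_le_mul_right (θ + 1) hcon
      omega
    omega
  intro k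
  induction k with
  | zero => intro m L R a b ra rb h; omega
  | succ k ih =>
    intro m L R a b ra rb hk hkN hra hrb
    rcases le_or_gt R.size L.size with hcase | hcase
    · -- the new vertex is at the bottom
      obtain ⟨rm, hrm, hdist⟩ : ∃ rm : ℤ, (rm = D ∨ rm = 2 * D) ∧ D ≤ |rm - rb| := by
        rcases hrb with rfl | rfl | rfl
        · exact ⟨D, Or.inl rfl, by rw [sub_zero]; exact le_abs_self D⟩
        · exact ⟨2 * rb, Or.inr rfl, by
            rw [show 2 * rb - rb = rb by ring]; exact le_abs_self rb⟩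
        · refine ⟨D, Or.inl rfl, ?_⟩
          rw [show D - 2 * D = -D by ring, abs_neg]
          exact le_abs_self D
      set Γ : Set (V × ℤ) := {p | p = (b, rb) ∧ rb = 0} with hΓdef
      have hΓ : Γ ⊆ {(b, rb)} := fun p hp => hp.1
      have hΓ' : Γ = ∅ ∨ rb < rm := by
        by_cases h0 : rb = 0
        · right; omega
        · left
          ext p
          simp [hΓdef, h0]
      have hN := nestR (b := b) (m := m) (rb := rb) (rm := rm) (lo := min D rb)
        (y0 := 2 * D + W' - 1) hD hW hDpos hΓ hΓ' hdist (min_le_right _ _) (by omega) (by omega)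
        (by omega) (by omega) (by omega) R (by omega) 0 0 (Fits.zero m b D)
      have hb := hbig R (by omega)
      have hΓ2 : ∀ p ∈ Γ, p.2 < D ∧ p.2 < rm := by
        intro p hp
        have : p.2 = 0 := by rw [hp.1]; exact hp.2
        omega
      rcases heavy_split (n := 2 * N + 1) hW (by omega) L a m (by omega) with
        h | ⟨m', L', R', Ul, El, g1, g2, g3, g4⟩
      · have hr : Sweep D (max (3 * D + W) ra) {(a, ra), (m, rm)} 0 0
            {p : V × ℤ | p = (a, ra) ∧ ra = 4 * D + W} :=
          Sweep.drop _ _ (by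
            intro p hp
            rw [hp.1]
            simp)
        refine (spine_step hΓ2 hN (by omega) (le_max_right _ _) (by omega) (by omega)
          (d := W') (by omega) (by omega) h hr).congr rfl ?_ ?_ ?_
        · simp only [cverts]; abel
        · simp only [cedges]; abel
        · ext p
          simp only [keep, hΓdef, Set.mem_union, Set.mem_ofPred_eq]
      · have hr := ih m' L' R' a m ra rm (by omega) (by omega) hra (by tauto)
        rw [min_eq_left (show D ≤ rm by omega)] at hr
        refine (spine_step hΓ2 hN (by omega) (le_max_right _ _) (by omega) (by omega)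
          (d := W') (by omega) (by omega) g3 hr).congr rfl ?_ ?_ ?_
        · simp only [cverts] at g1 ⊢
          rw [g1]
          abel
        · simp only [cedges] at g2 ⊢
          rw [g2]
          abel
        · exact keep_up (by omega)
    · -- the new vertex is at the top
      obtain ⟨rm, hrm, hdist⟩ : ∃ rm : ℤ, (rm = 3 * D + W ∨ rm = 2 * D + W) ∧
          D ≤ |-rm - -ra| := by
        rcases hra with rfl | rfl | rfl
        · refine ⟨3 * D + W, Or.inl rfl, ?_⟩
          rw [show -(3 * D + W) - -(4 * D + W) = D by ring]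
          exact le_abs_self D
        · refine ⟨2 * D + W, Or.inr rfl, ?_⟩
          rw [show -(2 * D + W) - -(3 * D + W) = D by ring]
          exact le_abs_self D
        · refine ⟨3 * D + W, Or.inl rfl, ?_⟩
          rw [show -(3 * D + W) - -(2 * D + W) = -D by ring, abs_neg]
          exact le_abs_self D
      set Γ : Set (V × ℤ) := {p | p = (a, -ra) ∧ ra = 4 * D + W} with hΓdef
      have hΓ : Γ ⊆ {(a, -ra)} := fun p hp => hp.1
      have hΓ' : Γ = ∅ ∨ -ra < -rm := by
        by_cases h0 : ra = 4 * D + W
        · right; omega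
        · left
          ext p
          simp [hΓdef, h0]
      have hN := nestL (b := a) (m := m) (rb := -ra) (rm := -rm) (lo := -max (3 * D + W) ra)
        (y0 := 2 * D + W' - 1 - (4 * D + W)) hD hW hDpos hΓ hΓ' hdist (by omega) (by omega)
        (by omega) (by omega) (by omega) (by omega) L (by omega) 0 0 (Fits.zero m a D)
      have hb := hbig L (by omega)
      have hΓ2 : ∀ p ∈ Γ, p.2 < -(3 * D + W) ∧ p.2 < -rm := by
        intro p hp
        have : p.2 = -ra := by rw [hp.1]
        have h2 := hp.2
        omega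
      have hflip : Sweep.flip (keep a b ra rb (4 * D + W)) =
          {p : V × ℤ | p = (b, -rb) ∧ rb = 0} ∪ Γ := flip_keep
      have hfin : ∀ {U : Multiset V} {E : Multiset (Sym2 V)},
          Sweep (-max (3 * D + W) ra) (-min D rb) {(b, -rb), (a, -ra)} U E
            ({p : V × ℤ | p = (b, -rb) ∧ rb = 0} ∪ Γ) →
          Sweep (min D rb) (max (3 * D + W) ra) {(a, ra), (b, rb)} U E
            (keep a b ra rb (4 * D + W)) := by
        intro U E h
        have h' := h.neg
        rw [← hflip, flip_pair, neg_neg, neg_neg, neg_neg, neg_neg, Set.pair_comm] at h'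
        refine h'.congr rfl rfl rfl ?_
        ext ⟨x, y⟩
        simp only [Sweep.mem_flip, neg_neg]
      rcases heavy_split (n := 2 * N + 1) hW (by omega) R m b (by omega) with
        h | ⟨m', L', R', Ul, El, g1, g2, g3, g4⟩
      · have hr : Sweep (-(3 * D + W)) (-min D rb) {(b, -rb), (m, -rm)} 0 0
            {p : V × ℤ | p = (b, -rb) ∧ rb = 0} :=
          Sweep.drop _ _ (by
            intro p hp
            rw [hp.1]
            simp)
        apply hfin
        refine (spine_step hΓ2 hN (by omega) (by omega) (by omega) (by omega)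
          (d := W') (by omega) (by omega) h.symm hr).congr rfl ?_ ?_ rfl
        · simp only [cverts]; abel
        · simp only [cedges]
          rw [Sym2.eq_swap (a := m) (b := a), Sym2.eq_swap (a := b) (b := m)]
          abel
      · have hr := (ih m' L' R' m b rm rb (by omega) (by omega) (by tauto) hrb).neg
        rw [max_eq_left (show rm ≤ 3 * D + W by omega), flip_pair, Set.pair_comm] at hr
        apply hfin
        refine (spine_step hΓ2 hN (by omega) (by omega) (by omega) (by omega)
          (d := W') (by omega) (by omega) g3.symm hr).congr rfl ?_ ?_ ?_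
        · simp only [cverts] at g1 ⊢
          rw [g1]
          abel
        · simp only [cedges] at g2 ⊢
          rw [g2, Sym2.eq_swap (a := m) (b := a), Sym2.eq_swap (a := b) (b := m)]
          abel
        · exact keep_down (by omega)

/-- The recursion for the height. -/
theorem CFits.double {θ N q : ℕ} {D W' : ℤ} (hD : CFits V θ D) (hW : CFits V N W')
    (hDpos : 0 < D) (hWpos : 0 < W') (hq : N < (q + 1) * (θ + 1)) :
    CFits V (2 * N + 1) (W' + q + 4 * D) := by
  intro m L R hs x y
  refine Fits.of_top ?_ (by omega)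
  intro rx ry hlt hd
  have h := spine (W := rx - ry - 4 * D) hD hW hDpos hWpos (by omega) hq (2 * N + 1) m L R x y
    (rx - ry) 0 hs le_rfl (by left; ring) (Or.inl rfl)
  have hk : keep x y (rx - ry) 0 (4 * D + (rx - ry - 4 * D)) = {(x, rx - ry), (y, 0)} := by
    ext p
    simp only [keep, Set.mem_ofPred_eq, Set.mem_insert_iff, Set.mem_singleton_iff]
    constructor
    · rintro (h | h)
      · exact Or.inl h.1
      · exact Or.inr h.1
    · rintro (h | h)
      · exact Or.inl ⟨h, by ring⟩
      · exact Or.inr ⟨h, trivial⟩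
  rw [hk] at h
  have h' := h.shift ry
  rw [Sweep.move_pair, sub_add_cancel, zero_add] at h'
  exact h'.mono (by omega) (by omega)

/-- Components with no vertices do not exist. -/
theorem CFits.zero (d : ℤ) : CFits V 0 d := by
  intro m L R hs
  omega

theorem CFits.le {n n' : ℕ} {d : ℤ} (h : CFits V n d) (hn : n' ≤ n) : CFits V n' d :=
  fun m L R hs x y => h m L R (hs.trans hn) x y

theorem CFits.mono {n : ℕ} {d d' : ℤ} (h : CFits V n d) (hd : d ≤ d') : CFits V n d' :=
  fun m L R hs x y => (h m L R hs x y).mono hd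

/-- Doubling `g` times with the same threshold. -/
theorem CFits.iterate {θ : ℕ} {D : ℤ} (hD : CFits V θ D) (hDpos : 0 < D) (g : ℕ) :
    CFits V (2 ^ g * (θ + 1) - 1) (2 ^ g + (4 * g + 1) * D) := by
  induction g with
  | zero =>
    refine (hD.le (by simp)).mono ?_
    push_cast
    nlinarith
  | succ g ih =>
    have hpos : 0 < 2 ^ g * (θ + 1) := by positivity
    have h := hD.double ih hDpos (by positivity) (q := 2 ^ g - 1) (by
      have : 2 ^ g - 1 + 1 = 2 ^ g := Nat.sub_add_cancel Nat.one_le_two_pow
      rw [this]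
      omega)
    refine (h.le ?_).mono ?_
    · rw [pow_succ]
      have : 2 ^ g * 2 * (θ + 1) = 2 * (2 ^ g * (θ + 1)) := by ring
      omega
    · have h1 : ((2 ^ g - 1 : ℕ) : ℤ) = 2 ^ g - 1 := by
        rw [Nat.cast_sub Nat.one_le_two_pow]
        simp
      rw [h1]
      push_cast
      rw [pow_succ]
      nlinarith

/-- The height of the layouts: components with fewer than `2 ^ (g * J)` vertices need height at
most `2 ^ g * (4 g + 2) ^ J`. -/
theorem CFits.main (g J : ℕ) : CFits V (2 ^ (g * J) - 1) (2 ^ g * (4 * g + 2) ^ J) := by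
  induction J with
  | zero => exact CFits.zero _
  | succ J ih =>
    have h := ih.iterate (by positivity) g
    have h1 : 2 ^ (g * J) - 1 + 1 = 2 ^ (g * J) := Nat.sub_add_cancel Nat.one_le_two_pow
    rw [h1] at h
    refine (h.le ?_).mono ?_
    · rw [Nat.mul_succ, pow_add, mul_comm (2 ^ (g * J))]
    · have h2 : (1 : ℤ) ≤ (4 * g + 2) ^ J := one_le_pow₀ (by omega)
      have h3 : (0 : ℤ) < 2 ^ g := by positivity
      rw [pow_succ]
      nlinarith [mul_le_mul_of_nonneg_left h2 h3.le]

end Pool.Agent.W2helper91.SP
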