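import Pool.Agent.W2helper91.SP.Rows
import Pool.Agent.W2helper91.SP.Spine

/-!
# From subgraphs of the drawn graph to nested families of connected sets
-/

set_option autoImplicit false

namespace Pool.Agent.W2helper91.SP

open T

variable {V : Type*}

theorem Piece.mono {R : SimpleGraph Pt} (qs : List ℕ) : ∀ {x y : Pt} {Ω Ω' : Set Pt},
    Piece R qs x y Ω → Ω ⊆ Ω' → Piece R qs x y Ω' := by
  induction qs with
  | nil => intro x y Ω Ω' _ _; trivial
  | cons q qs ih =>
    rintro x y Ω Ω' ⟨h, m, K, h1, h2⟩ hΩ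
    refine ⟨ih h hΩ, m, K, h1, fun i => ?_⟩
    obtain ⟨g1, g2⟩ := h2 i
    exact ⟨g1.trans hΩ, g2⟩

/-- The list of the components. -/
def T.comps : T V → List (V × T V × T V)
  | nil => []
  | node m L R N => (m, L, R) :: T.comps N

theorem T.ends_mem (X : T V) : ∀ (s t : V) (e : Sym2 V), e ∈ X.edges s t → ∀ v ∈ e,
    v = s ∨ v = t ∨ v ∈ X.verts := by
  induction X with
  | nil => intro s t e he; simp [edges] at he
  | node m L R N ihL ihR ihN =>
    intro s t e he v hv
    simp only [edges, verts, Multiset.mem_add, Multiset.mem_singleton] at he ⊢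
    rcases he with (((rfl | rfl) | he) | he) | he
    · rcases Sym2.mem_iff.1 hv with rfl | rfl <;> simp
    · rcases Sym2.mem_iff.1 hv with rfl | rfl <;> simp
    · rcases ihL s m e he v hv with h | h | h <;> simp [h]
    · rcases ihR m t e he v hv with h | h | h <;> simp [h]
    · rcases ihN s t e he v hv with h | h | h <;> simp [h]

theorem T.exists_inner (X : T V) : ∀ (s t : V) (e : Sym2 V), e ∈ X.edges s t → ∃ v ∈ e,
    v ∈ X.verts := by
  induction X with
  | nil => intro s t e he; simp [edges] at he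
  | node m L R N ihL ihR ihN =>
    intro s t e he
    simp only [edges, verts, Multiset.mem_add, Multiset.mem_singleton] at he ⊢
    rcases he with (((rfl | rfl) | he) | he) | he
    · exact ⟨m, by simp, by simp⟩
    · exact ⟨m, by simp, by simp⟩
    · obtain ⟨v, h1, h2⟩ := ihL s m e he
      exact ⟨v, h1, by simp [h2]⟩
    · obtain ⟨v, h1, h2⟩ := ihR m t e he
      exact ⟨v, h1, by simp [h2]⟩
    · obtain ⟨v, h1, h2⟩ := ihN s t e he
      exact ⟨v, h1, by simp [h2]⟩

theorem cedges_ends {s t m : V} {L R : T V} {e : Sym2 V} (he : e ∈ cedges s t m L R) {v : V}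
    (hv : v ∈ e) : v = s ∨ v = t ∨ v ∈ cverts m L R := by
  have := T.ends_mem (node m L R nil) s t e (by simpa [edges, cedges] using he) v hv
  simpa [verts, cverts] using this

theorem cedges_inner {s t m : V} {L R : T V} {e : Sym2 V} (he : e ∈ cedges s t m L R) :
    ∃ v ∈ e, v ∈ cverts m L R := by
  have := T.exists_inner (node m L R nil) s t e (by simpa [edges, cedges] using he)
  simpa [verts, cverts] using this

section
variable {G : SimpleGraph V} (M : RowModel G)

/-- The nodes of a piece, without its poles. -/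
def pset (x y : V) (X : T V) : Set Pt :=
  {p | (∃ e ∈ X.edges x y, p ∈ M.seg e) ∧ p ≠ M.pos x ∧ p ≠ M.pos y}

/-- The nodes of a component, without its poles. -/
def cset (x y m : V) (L R : T V) : Set Pt :=
  {p | (∃ e ∈ cedges x y m L R, p ∈ M.seg e) ∧ p ≠ M.pos x ∧ p ≠ M.pos y}

theorem pos_notMem {e : Sym2 V} (he : e ∈ G.edgeSet) {w : V} (hw : w ∉ e) {p : Pt}
    (hp : p ∈ M.seg e) : p ≠ M.pos w := by
  rintro rfl
  exact hw (M.vertex e he w hp)

/-- The component is a subgraph of the graph, with different vertices. -/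
structure CIn (G : SimpleGraph V) (x y m : V) (L R : T V) : Prop where
  edge : ∀ e ∈ cedges x y m L R, e ∈ G.edgeSet
  nodup : ({x} + {y} + cverts m L R : Multiset V).Nodup

/-- The piece is a subgraph of the graph, with different vertices. -/
structure PIn (G : SimpleGraph V) (x y : V) (X : T V) : Prop where
  edge : ∀ e ∈ X.edges x y, e ∈ G.edgeSet
  nodup : ({x} + {y} + X.verts : Multiset V).Nodup

theorem PIn.head {x y m : V} {L R N : T V} (h : PIn G x y (node m L R N)) : CIn G x y m L R where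
  edge := fun e he => h.edge e (by rw [edges_node]; exact Multiset.mem_add.2 (Or.inl he))
  nodup := by
    refine Multiset.nodup_of_le ?_ h.nodup
    rw [verts_node, ← add_assoc]
    exact Multiset.le_add_right _ _

theorem PIn.tail {x y m : V} {L R N : T V} (h : PIn G x y (node m L R N)) : PIn G x y N where
  edge := fun e he => h.edge e (by rw [edges_node]; exact Multiset.mem_add.2 (Or.inr he))
  nodup := by
    refine Multiset.nodup_of_le ?_ h.nodup
    rw [verts_node]
    have : ({x} + {y} + (cverts m L R + N.verts) : Multiset V) =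
      ({x} + {y} + N.verts) + cverts m L R := by abel
    rw [this]
    exact Multiset.le_add_right _ _

theorem CIn.left {x y m : V} {L R : T V} (h : CIn G x y m L R) : PIn G x m L where
  edge := fun e he => h.edge e (by simp [cedges, he])
  nodup := by
    refine Multiset.nodup_of_le ?_ h.nodup
    rw [cverts]
    have : ({x} + {y} + ({m} + L.verts + R.verts) : Multiset V) =
      ({x} + {m} + L.verts) + ({y} + R.verts) := by abel
    rw [this]
    exact Multiset.le_add_right _ _

theorem CIn.right {x y m : V} {L R : T V} (h : CIn G x y m L R) : PIn G m y R where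
  edge := fun e he => h.edge e (by simp [cedges, he])
  nodup := by
    refine Multiset.nodup_of_le ?_ h.nodup
    rw [cverts]
    have : ({x} + {y} + ({m} + L.verts + R.verts) : Multiset V) =
      ({m} + {y} + R.verts) + ({x} + L.verts) := by abel
    rw [this]
    exact Multiset.le_add_right _ _

/-- `y` is not a vertex of the left piece. -/
theorem CIn.y_notMem_left {x y m : V} {L R : T V} (h : CIn G x y m L R) {e : Sym2 V}
    (he : e ∈ L.edges x m) : y ∉ e := by
  intro hy
  have hnd := h.nodup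
  have : ({x} + {y} + cverts m L R : Multiset V) = ({y} + ({x} + {m} + L.verts)) + R.verts := by
    rw [cverts]; abel
  rw [this] at hnd
  have hnd' := Multiset.nodup_of_le (Multiset.le_add_right _ _) hnd
  rw [Multiset.singleton_add, Multiset.nodup_cons] at hnd'
  apply hnd'.1
  rcases L.ends_mem x m e he y hy with rfl | rfl | h'
  · simp
  · simp
  · simp [h']

/-- `x` is not a vertex of the right piece. -/
theorem CIn.x_notMem_right {x y m : V} {L R : T V} (h : CIn G x y m L R) {e : Sym2 V}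
    (he : e ∈ R.edges m y) : x ∉ e := by
  intro hx
  have hnd := h.nodup
  have : ({x} + {y} + cverts m L R : Multiset V) = ({x} + ({m} + {y} + R.verts)) + L.verts := by
    rw [cverts]; abel
  rw [this] at hnd
  have hnd' := Multiset.nodup_of_le (Multiset.le_add_right _ _) hnd
  rw [Multiset.singleton_add, Multiset.nodup_cons] at hnd'
  apply hnd'.1
  rcases R.ends_mem m y e he x hx with rfl | rfl | h'
  · simp
  · simp
  · simp [h']

theorem CIn.ne {x y m : V} {L R : T V} (h : CIn G x y m L R) : x ≠ y ∧ x ≠ m ∧ m ≠ y := by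
  have hnd := h.nodup
  have : ({x} + {y} + cverts m L R : Multiset V) = ({x} + {y} + {m}) + (L.verts + R.verts) := by
    rw [cverts]; abel
  rw [this] at hnd
  have hnd' := Multiset.nodup_of_le (Multiset.le_add_right _ _) hnd
  rw [add_assoc, Multiset.singleton_add, Multiset.singleton_add] at hnd'
  simp only [Multiset.nodup_cons, Multiset.mem_cons, Multiset.mem_singleton, not_or,
    Multiset.nodup_singleton] at hnd'
  exact ⟨hnd'.1.1, hnd'.1.2, fun e => hnd'.2.1 e.symm⟩

theorem CIn.seg_subset {x y m : V} {L R : T V} (h : CIn G x y m L R) :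
    M.seg s(m, x) \ {M.pos x} ⊆ cset M x y m L R ∧
    M.seg s(m, y) \ {M.pos y} ⊆ cset M x y m L R ∧
    pset M x m L ⊆ cset M x y m L R \ {M.pos m} ∧
    pset M m y R ⊆ cset M x y m L R \ {M.pos m} := by
  obtain ⟨n1, n2, n3⟩ := h.ne
  refine ⟨?_, ?_, ?_, ?_⟩
  · rintro p ⟨hp, hpx⟩
    have he : s(m, x) ∈ G.edgeSet := h.edge _ (by simp [cedges, Sym2.eq_swap])
    refine ⟨⟨_, by simp [cedges, Sym2.eq_swap], hp⟩, hpx, pos_notMem M he ?_ hp⟩
    simp [n1.symm, n3.symm]
  · rintro p ⟨hp, hpy⟩
    have he : s(m, y) ∈ G.edgeSet := h.edge _ (by simp [cedges])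
    refine ⟨⟨_, by simp [cedges], hp⟩, pos_notMem M he ?_ hp, hpy⟩
    simp [n1, n2]
  · rintro p ⟨⟨e, he, hp⟩, h1, h2⟩
    refine ⟨⟨⟨e, by simp [cedges, he], hp⟩, h1, ?_⟩, h2⟩
    exact pos_notMem M (h.left.edge e he) (h.y_notMem_left he) hp
  · rintro p ⟨⟨e, he, hp⟩, h1, h2⟩
    refine ⟨⟨⟨e, by simp [cedges, he], hp⟩, ?_, h2⟩, h1⟩
    exact pos_notMem M (h.right.edge e he) (h.x_notMem_right he) hp

theorem pos_mem_seg {u v : V} (h : G.Adj u v) : M.pos u ∈ M.seg s(u, v) := by
  obtain ⟨p, hp, hpv, -⟩ := M.last u v h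
  exact (M.conn u v h p hp hpv).left.1

theorem CIn.m_mem {x y m : V} {L R : T V} (h : CIn G x y m L R) :
    M.pos m ∈ cset M x y m L R := by
  have hadj : G.Adj m x := h.edge s(m, x) (by simp [cedges, Sym2.eq_swap])
  exact (h.seg_subset M).1 ⟨pos_mem_seg M hadj, fun e => h.ne.2.1 (M.pos_inj e).symm⟩

theorem adj_pole {x y m : V} {L R : T V} (h : CIn G x y m L R) :
    (∃ u ∈ cset M x y m L R, M.R.Adj (M.pos x) u ∧ Conn M.R (cset M x y m L R) (M.pos m) u) ∧
    ∃ u ∈ cset M x y m L R, M.R.Adj (M.pos y) u ∧ Conn M.R (cset M x y m L R) (M.pos m) u := by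
  obtain ⟨s1, s2, -, -⟩ := h.seg_subset M
  constructor
  · have hadj : G.Adj m x := h.edge s(m, x) (by simp [cedges, Sym2.eq_swap])
    obtain ⟨q, hq, hqx, ha⟩ := M.last m x hadj
    exact ⟨q, s1 ⟨hq, hqx⟩, ha.symm, (M.conn m x hadj q hq hqx).mono s1⟩
  · have hadj : G.Adj m y := h.edge s(m, y) (by simp [cedges])
    obtain ⟨q, hq, hqx, ha⟩ := M.last m y hadj
    exact ⟨q, s2 ⟨hq, hqx⟩, ha.symm, (M.conn m y hadj q hq hqx).mono s2⟩

/-- The nodes of a component are connected, given the corresponding facts for the two pieces. -/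
theorem cset_conn_aux {x y m : V} {L R : T V} (h : CIn G x y m L R)
    (hL : ∀ p ∈ pset M x m L, Conn M.R (pset M x m L ∪ {M.pos m}) (M.pos m) p)
    (hRr : ∀ p ∈ pset M m y R, Conn M.R (pset M m y R ∪ {M.pos m}) (M.pos m) p) :
    ∀ p ∈ cset M x y m L R, Conn M.R (cset M x y m L R) (M.pos m) p := by
  obtain ⟨s1, s2, s3, s4⟩ := h.seg_subset M
  have hm := h.m_mem M
  rintro p hp
  obtain ⟨⟨e, he, hpe⟩, hpx, hpy⟩ := id hp
  by_cases hpm : p = M.pos m
  · rw [hpm]; exact Conn.refl hm
  simp only [cedges, Multiset.mem_add, Multiset.mem_singleton] at he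
  rcases he with ((rfl | rfl) | he) | he
  · have hadj : G.Adj m x := h.edge s(m, x) (by simp [cedges, Sym2.eq_swap])
    rw [Sym2.eq_swap] at hpe
    exact (M.conn m x hadj p hpe hpx).mono s1
  · have hadj : G.Adj m y := h.edge s(m, y) (by simp [cedges])
    exact (M.conn m y hadj p hpe hpy).mono s2
  · refine (hL p ⟨⟨e, he, hpe⟩, hpx, hpm⟩).mono ?_
    rintro q (hq | hq)
    · exact (s3 hq).1
    · rw [Set.mem_singleton_iff] at hq
      rw [hq]; exact hm
  · refine (hRr p ⟨⟨e, he, hpe⟩, hpm, hpy⟩).mono ?_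
    rintro q (hq | hq)
    · exact (s4 hq).1
    · rw [Set.mem_singleton_iff] at hq
      rw [hq]; exact hm

theorem cset_subset_pset {x y m : V} {L R N : T V} :
    cset M x y m L R ⊆ pset M x y (node m L R N) := by
  rintro p ⟨⟨e, he, hp⟩, h1, h2⟩
  exact ⟨⟨e, by rw [edges_node]; exact Multiset.mem_add.2 (Or.inl he), hp⟩, h1, h2⟩

theorem pset_subset_pset {x y m : V} {L R N : T V} :
    pset M x y N ⊆ pset M x y (node m L R N) := by
  rintro p ⟨⟨e, he, hp⟩, h1, h2⟩
  exact ⟨⟨e, by rw [edges_node]; exact Multiset.mem_add.2 (Or.inr he), hp⟩, h1, h2⟩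

theorem pset_conn (X : T V) : ∀ (x y : V), PIn G x y X → ∀ p ∈ pset M x y X,
    Conn M.R (pset M x y X ∪ {M.pos x}) (M.pos x) p ∧
      Conn M.R (pset M x y X ∪ {M.pos y}) (M.pos y) p := by
  induction X with
  | nil =>
    rintro x y _ p ⟨⟨e, he, -⟩, -⟩
    simp [edges] at he
  | node m L R N ihL ihR ihN =>
    rintro x y h p hp
    have hc := h.head
    obtain ⟨⟨e, he, hpe⟩, hpx, hpy⟩ := id hp
    rw [edges_node, Multiset.mem_add] at he
    rcases he with he | he
    · have hpc : p ∈ cset M x y m L R := ⟨⟨e, he, hpe⟩, hpx, hpy⟩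
      have h1 := cset_conn_aux M hc (fun q hq => (ihL x m hc.left q hq).2)
        (fun q hq => (ihR m y hc.right q hq).1) p hpc
      obtain ⟨⟨u, hu, hxu, hmu⟩, v, hv, hyv, hmv⟩ := adj_pole M hc
      have hsub := cset_subset_pset M (x := x) (y := y) (m := m) (L := L) (R := R) (N := N)
      constructor
      · refine (Conn.of_adj hxu (Or.inr rfl) (Or.inl (hsub hu))).trans ?_
        exact (hmu.symm.trans h1).mono (fun q hq => Or.inl (hsub hq))
      · refine (Conn.of_adj hyv (Or.inr rfl) (Or.inl (hsub hv))).trans ?_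
        exact (hmv.symm.trans h1).mono (fun q hq => Or.inl (hsub hq))
    · have hsub := pset_subset_pset M (x := x) (y := y) (m := m) (L := L) (R := R) (N := N)
      obtain ⟨h1, h2⟩ := ihN x y h.tail p ⟨⟨e, he, hpe⟩, hpx, hpy⟩
      exact ⟨h1.mono (Set.union_subset_union_left _ hsub),
        h2.mono (Set.union_subset_union_left _ hsub)⟩

theorem cset_isConn {x y m : V} {L R : T V} (h : CIn G x y m L R) :
    IsConn M.R (cset M x y m L R) := by
  have h1 := cset_conn_aux M h (fun q hq => (pset_conn M L x m h.left q hq).2)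
    (fun q hq => (pset_conn M R m y h.right q hq).1)
  intro a ha b hb
  exact (h1 a ha).symm.trans (h1 b hb)

theorem cset_disjoint {x y m m' : V} {L R L' R' : T V} (h : CIn G x y m L R)
    (h' : CIn G x y m' L' R') (hd : Disjoint (cverts m L R) (cverts m' L' R')) :
    Disjoint (cset M x y m L R) (cset M x y m' L' R') := by
  rw [Set.disjoint_left]
  rintro p ⟨⟨e, he, hp⟩, hpx, hpy⟩ ⟨⟨f, hf, hp'⟩, -, -⟩
  have hnx : x ∉ cverts m L R ∧ y ∉ cverts m L R := by
    have hnd := h.nodup
    rw [add_assoc, Multiset.singleton_add, Multiset.singleton_add] at hnd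
    simp only [Multiset.nodup_cons, Multiset.mem_cons, not_or] at hnd
    exact ⟨hnd.1.2, hnd.2.1⟩
  have hef : e ≠ f := by
    rintro rfl
    obtain ⟨v, hv, hv'⟩ := cedges_inner he
    rcases cedges_ends hf hv with h1 | h1 | h1
    · exact hnx.1 (h1 ▸ hv')
    · exact hnx.2 (h1 ▸ hv')
    · exact Multiset.disjoint_left.1 hd hv' h1
  obtain ⟨w, hw1, hw2, rfl⟩ := M.inter e (h.edge e he) f (h'.edge f hf) hef p hp hp'
  rcases cedges_ends he hw1 with h1 | h1 | h1
  · exact hpx (by rw [h1])
  · exact hpy (by rw [h1])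
  · rcases cedges_ends hf hw2 with h2 | h2 | h2
    · exact hpx (by rw [h2])
    · exact hpy (by rw [h2])
    · exact Multiset.disjoint_left.1 hd h1 h2

end

/-! ### Rich pieces -/

/-- Rich pieces. -/
def Rich : List ℕ → T V → Prop
  | [], _ => True
  | q :: qs, X => Rich qs X ∧ ∃ l : List (V × T V × T V), l.length = q ∧
      l.Sublist X.comps ∧ ∀ κ ∈ l, Rich qs κ.2.1 ∧ Rich qs κ.2.2

theorem comps_spec {G : SimpleGraph V} {x y : V} (X : T V) (h : PIn G x y X) :
    (∀ κ ∈ X.comps, CIn G x y κ.1 κ.2.1 κ.2.2 ∧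
      cverts κ.1 κ.2.1 κ.2.2 ≤ X.verts ∧ cedges x y κ.1 κ.2.1 κ.2.2 ≤ X.edges x y) ∧
    X.comps.Pairwise (fun κ κ' => Disjoint (cverts κ.1 κ.2.1 κ.2.2)
      (cverts κ'.1 κ'.2.1 κ'.2.2)) := by
  induction X with
  | nil => simp [comps]
  | node m L R N _ _ ihN =>
    obtain ⟨h1, h2⟩ := ihN h.tail
    have hnd : (cverts m L R + N.verts).Nodup := by
      have := h.nodup
      rw [verts_node] at this
      exact Multiset.nodup_of_le (Multiset.le_add_left _ _) this
    constructor
    · intro κ hκ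
      simp only [comps, List.mem_cons] at hκ
      rcases hκ with rfl | hκ
      · exact ⟨h.head, by rw [verts_node]; exact Multiset.le_add_right _ _,
          by rw [edges_node]; exact Multiset.le_add_right _ _⟩
      · obtain ⟨g1, g2, g3⟩ := h1 κ hκ
        exact ⟨g1, by rw [verts_node]; exact g2.trans (Multiset.le_add_left _ _),
          by rw [edges_node]; exact g3.trans (Multiset.le_add_left _ _)⟩
    · simp only [comps, List.pairwise_cons]
      refine ⟨fun κ hκ => ?_, h2⟩
      rw [Multiset.nodup_add] at hnd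
      exact hnd.2.2.mono_right (h1 κ hκ).2.1

theorem piece_of_rich {G : SimpleGraph V} (M : RowModel G) (qs : List ℕ) : ∀ (x y : V) (X : T V),
    PIn G x y X → Rich qs X → Piece M.R qs (M.pos x) (M.pos y) (pset M x y X) := by
  induction qs with
  | nil => intro x y X _ _; trivial
  | cons q qs ih =>
    rintro x y X h ⟨h0, l, rfl, hl, hrich⟩
    obtain ⟨h1, h2⟩ := comps_spec X h
    have hlm : ∀ κ ∈ l, κ ∈ X.comps := fun κ hκ => hl.subset hκ
    have hpw := h2.sublist hl
    rw [piece_cons]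
    refine ⟨ih x y X h h0, fun i => M.pos (l[i]).1,
      fun i => cset M x y (l[i]).1 (l[i]).2.1 (l[i]).2.2, ?_, ?_⟩
    · have key : ∀ i j : Fin l.length, i < j → Disjoint
          (cset M x y (l[i]).1 (l[i]).2.1 (l[i]).2.2) (cset M x y (l[j]).1 (l[j]).2.1 (l[j]).2.2) := by
        intro i j hij
        have := List.pairwise_iff_getElem.1 hpw i j i.2 j.2 hij
        exact cset_disjoint M (h1 _ (hlm _ (List.getElem_mem i.2))).1
          (h1 _ (hlm _ (List.getElem_mem j.2))).1 this
      intro i j hij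
      rcases lt_or_gt_of_ne hij with h | h
      · exact key i j h
      · exact (key j i h).symm
    · intro i
      have hi := hlm _ (List.getElem_mem i.2)
      obtain ⟨hc, -, hce⟩ := h1 _ hi
      obtain ⟨r1, r2⟩ := hrich _ (List.getElem_mem i.2)
      obtain ⟨⟨u, hu, hxu, -⟩, v, hv, hyv, -⟩ := adj_pole M hc
      obtain ⟨-, -, s3, s4⟩ := hc.seg_subset M
      refine ⟨?_, ?_, ?_, hc.m_mem M, cset_isConn M hc, ⟨u, hu, hxu⟩, ⟨v, hv, hyv⟩, ?_, ?_⟩
      · rintro p ⟨⟨e, he, hp⟩, g1, g2⟩
        exact ⟨⟨e, Multiset.mem_of_le hce he, hp⟩, g1, g2⟩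
      · exact fun h => h.2.1 rfl
      · exact fun h => h.2.2 rfl
      · exact (ih _ _ _ hc.left r1).mono _ s3
      · exact (ih _ _ _ hc.right r2).mono _ s4

end Pool.Agent.W2helper91.SP
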