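import Pool.Agent.W2helper91.SP.Defs

/-!
# Graphs without a `K₄` minor have a vertex of degree at most two
-/

set_option autoImplicit false

namespace Pool.Agent.W2helper91.SP

variable {V : Type*}

theorem HasK4Minor.mono {G G' : SimpleGraph V} (h : HasK4Minor G) (hle : G ≤ G') :
    HasK4Minor G' := by
  obtain ⟨B, h1, h2, h3⟩ := h
  refine ⟨B, fun i => (h1 i).mono ?_, h2, fun i j hij => ?_⟩
  · intro a b hab
    exact hle hab
  · obtain ⟨x, hx, y, hy, hxy⟩ := h3 i j hij
    exact ⟨x, hx, y, hy, hle hxy⟩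

/-- Contracting `v` into `u`; the vertex `v` becomes isolated. -/
def contract (G : SimpleGraph V) (u v : V) : SimpleGraph V where
  Adj x y := x ≠ y ∧ x ≠ v ∧ y ≠ v ∧ (G.Adj x y ∨ (x = u ∧ G.Adj v y) ∨ (y = u ∧ G.Adj v x))
  symm := ⟨by
    rintro x y ⟨h1, h2, h3, h4⟩
    refine ⟨h1.symm, h3, h2, ?_⟩
    rcases h4 with h | h | h
    · exact Or.inl h.symm
    · exact Or.inr (Or.inr h)
    · exact Or.inr (Or.inl h)⟩
  loopless := ⟨fun x h => h.1 rfl⟩

theorem contract_adj {G : SimpleGraph V} {u v x y : V} : (contract G u v).Adj x y ↔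
    x ≠ y ∧ x ≠ v ∧ y ≠ v ∧ (G.Adj x y ∨ (x = u ∧ G.Adj v y) ∨ (y = u ∧ G.Adj v x)) := Iff.rfl

theorem HasK4Minor.of_contract {G : SimpleGraph V} {u v : V} (huv : G.Adj u v)
    (h : HasK4Minor (contract G u v)) : HasK4Minor G := by
  classical
  obtain ⟨B, h1, h2, h3⟩ := h
  -- `v` is in no branch set
  have hv : ∀ i, v ∉ B i := by
    intro i hvi
    obtain ⟨j, hij⟩ : ∃ j : Fin 4, i ≠ j := ⟨i + 1, by fin_cases i <;> decide⟩
    obtain ⟨x, hx, y, hy, hxy⟩ := h3 i j hij
    have hxv : x ≠ v := hxy.2.1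
    obtain ⟨w⟩ := (h1 i).preconnected ⟨v, hvi⟩ ⟨x, hx⟩
    cases w with
    | nil => exact hxv rfl
    | cons hadj _ => exact (show (contract G u v).Adj _ _ from hadj).2.1 rfl
  let B' : Fin 4 → Set V := fun i => if u ∈ B i then insert v (B i) else B i
  have hsub : ∀ i, B i ⊆ B' i := by
    intro i x hx
    simp only [B']
    split_ifs
    · exact Set.mem_insert_of_mem _ hx
    · exact hx
  refine ⟨B', ?_, ?_, ?_⟩
  · intro i
    have hne : (B' i).Nonempty := by
      obtain ⟨x⟩ := (h1 i).nonempty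
      exact ⟨x.1, hsub i x.2⟩
    -- one step of the contracted graph lifts
    have hstep : ∀ x y : V, ∀ hx : x ∈ B i, ∀ hy : y ∈ B i, (contract G u v).Adj x y →
        (G.induce (B' i)).Reachable ⟨x, hsub i hx⟩ ⟨y, hsub i hy⟩ := by
      intro x y hx hy hxy
      rcases hxy.2.2.2 with h | ⟨rfl, h⟩ | ⟨rfl, h⟩
      · exact SimpleGraph.Adj.reachable (show (G.induce (B' i)).Adj _ _ from h)
      · have hvB : v ∈ B' i := by simp only [B', if_pos hx]; exact Set.mem_insert _ _
        have e1 : (G.induce (B' i)).Adj ⟨x, hsub i hx⟩ ⟨v, hvB⟩ := huv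
        have e2 : (G.induce (B' i)).Adj ⟨v, hvB⟩ ⟨y, hsub i hy⟩ := h
        exact e1.reachable.trans e2.reachable
      · have hvB : v ∈ B' i := by simp only [B', if_pos hy]; exact Set.mem_insert _ _
        have e1 : (G.induce (B' i)).Adj ⟨y, hsub i hy⟩ ⟨v, hvB⟩ := huv
        have e2 : (G.induce (B' i)).Adj ⟨v, hvB⟩ ⟨x, hsub i hx⟩ := h
        exact (e1.reachable.trans e2.reachable).symm
    have hlift : ∀ x y : B i, ((contract G u v).induce (B i)).Reachable x y →
        (G.induce (B' i)).Reachable ⟨x.1, hsub i x.2⟩ ⟨y.1, hsub i y.2⟩ := by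
      intro x y hxy
      obtain ⟨w⟩ := hxy
      induction w with
      | nil => exact SimpleGraph.Reachable.refl _
      | @cons a b c hadj _ ih => exact (hstep a.1 b.1 a.2 b.2 hadj).trans ih
    have hall : ∀ x ∈ B' i, ∃ z, ∃ hz : z ∈ B i, ∀ hx : x ∈ B' i,
        (G.induce (B' i)).Reachable ⟨x, hx⟩ ⟨z, hsub i hz⟩ := by
      intro x hx
      by_cases hxB : x ∈ B i
      · exact ⟨x, hxB, fun _ => SimpleGraph.Reachable.refl _⟩
      · by_cases hu : u ∈ B i
        · have hxv : x = v := by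
            simp only [B', if_pos hu] at hx
            rcases hx with h | h
            · exact h
            · exact absurd h hxB
          subst hxv
          refine ⟨u, hu, fun hx => ?_⟩
          exact SimpleGraph.Adj.reachable (show (G.induce (B' i)).Adj _ _ from huv.symm)
        · simp only [B', if_neg hu] at hx
          exact absurd hx hxB
    have : Nonempty (B' i) := hne.to_subtype
    refine ⟨?_⟩
    rintro ⟨x, hx⟩ ⟨y, hy⟩
    obtain ⟨x', hx', h4⟩ := hall x hx
    obtain ⟨y', hy', h5⟩ := hall y hy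
    exact ((h4 hx).trans (hlift ⟨x', hx'⟩ ⟨y', hy'⟩ ((h1 i).preconnected _ _))).trans (h5 hy).symm
  · intro i j hij
    have hd := h2 i j hij
    rw [Set.disjoint_left] at hd ⊢
    intro x hx hx'
    simp only [B'] at hx hx'
    by_cases hi : u ∈ B i
    · have hj : u ∉ B j := fun h => hd hi h
      rw [if_pos hi] at hx
      rw [if_neg hj] at hx'
      rcases hx with rfl | hx
      · exact hv j hx'
      · exact hd hx hx'
    · rw [if_neg hi] at hx
      by_cases hj : u ∈ B j
      · rw [if_pos hj] at hx'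
        rcases hx' with rfl | hx'
        · exact hv i hx
        · exact hd hx hx'
      · rw [if_neg hj] at hx'
        exact hd hx hx'
  · intro i j hij
    obtain ⟨x, hx, y, hy, hxy⟩ := h3 i j hij
    rcases hxy.2.2.2 with h | ⟨rfl, h⟩ | ⟨rfl, h⟩
    · exact ⟨x, hsub i hx, y, hsub j hy, h⟩
    · refine ⟨v, ?_, y, hsub j hy, h⟩
      simp only [B', if_pos hx]
      exact Set.mem_insert _ _
    · refine ⟨x, hsub i hx, v, ?_, h.symm⟩
      simp only [B', if_pos hy]
      exact Set.mem_insert _ _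

theorem connected_single (G : SimpleGraph V) (a : V) : (G.induce {a}).Connected := by
  have : Nonempty ({a} : Set V) := ⟨⟨a, rfl⟩⟩
  exact SimpleGraph.Connected.of_subsingleton

theorem HasK4Minor.of_clique {G : SimpleGraph V} {a b c d : V} (hab : G.Adj a b)
    (hac : G.Adj a c) (had : G.Adj a d) (hbc : G.Adj b c) (hbd : G.Adj b d) (hcd : G.Adj c d) :
    HasK4Minor G := by
  refine ⟨![{a}, {b}, {c}, {d}], ?_, ?_, ?_⟩
  · intro i
    fin_cases i
    · exact connected_single G a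
    · exact connected_single G b
    · exact connected_single G c
    · exact connected_single G d
  · intro i j hij
    have n1 := hab.ne
    have n2 := hac.ne
    have n3 := had.ne
    have n4 := hbc.ne
    have n5 := hbd.ne
    have n6 := hcd.ne
    fin_cases i <;> fin_cases j <;>
      first
        | exact absurd rfl hij
        | (simp [*, n1.symm, n2.symm, n3.symm, n4.symm, n5.symm, n6.symm])
  · intro i j hij
    fin_cases i <;> fin_cases j <;>
      first
        | exact absurd rfl hij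
        | (simp [*, hab.symm, hac.symm, had.symm, hbc.symm, hbd.symm, hcd.symm])

/-! ### Degrees -/

open Classical in
/-- The neighbours of `x` inside `A`. -/
noncomputable def nb (G : SimpleGraph V) (A : Finset V) (x : V) : Finset V := A.filter (G.Adj x)

theorem mem_nb {G : SimpleGraph V} {A : Finset V} {x y : V} : y ∈ nb G A x ↔ y ∈ A ∧ G.Adj x y := by
  simp [nb]

open Classical in
/-- The induction hypothesis in the form in which it is used. -/
theorem low_of_contract {G : SimpleGraph V} {A : Finset V} (hG : ∀ x y, G.Adj x y → x ∈ A)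
    (hK : ¬ HasK4Minor G)
    (ih : ∀ A' : Finset V, A'.card < A.card → ∀ G' : SimpleGraph V, (∀ x y, G'.Adj x y → x ∈ A') →
      A'.Nonempty → ¬ HasK4Minor G' → ∃ x ∈ A', (nb G' A' x).card ≤ 2)
    {u v : V} (huv : G.Adj u v) :
    ∃ z ∈ A.erase v, (nb (contract G u v) (A.erase v) z).card ≤ 2 := by
  have hu : u ∈ A := hG u v huv
  have hv : v ∈ A := hG v u huv.symm
  refine ih _ (Finset.card_erase_lt_of_mem hv) _ ?_ ⟨u, Finset.mem_erase.2 ⟨huv.ne, hu⟩⟩
    (fun h => hK (h.of_contract huv))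
  rintro x y ⟨h1, h2, h3, h4⟩
  refine Finset.mem_erase.2 ⟨h2, ?_⟩
  rcases h4 with h | ⟨rfl, h⟩ | ⟨rfl, h⟩
  · exact hG x y h
  · exact hu
  · exact hG x v h.symm

open Classical in
/-- Every edge is in a triangle, and there is a vertex of degree three. -/
theorem triangle {G : SimpleGraph V} {A : Finset V} (hG : ∀ x y, G.Adj x y → x ∈ A)
    (hK : ¬ HasK4Minor G)
    (ih : ∀ A' : Finset V, A'.card < A.card → ∀ G' : SimpleGraph V, (∀ x y, G'.Adj x y → x ∈ A') →
      A'.Nonempty → ¬ HasK4Minor G' → ∃ x ∈ A', (nb G' A' x).card ≤ 2)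
    (hdeg : ∀ x ∈ A, 3 ≤ (nb G A x).card) {u v : V} (huv : G.Adj u v) :
    (∃ z, G.Adj z u ∧ G.Adj z v) ∧ ∃ z ∈ A, (nb G A z).card = 3 := by
  have hu : u ∈ A := hG u v huv
  have hv : v ∈ A := hG v u huv.symm
  obtain ⟨z, hz, hcard⟩ := low_of_contract hG hK ih huv
  obtain ⟨hzv, hzA⟩ := Finset.mem_erase.1 hz
  by_cases hzu : z = u
  · subst hzu
    have s1 : (nb G A z).erase v ⊆ nb (contract G z v) (A.erase v) z := by
      intro y hy
      obtain ⟨hyv, hy⟩ := Finset.mem_erase.1 hy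
      obtain ⟨hyA, hzy⟩ := mem_nb.1 hy
      exact mem_nb.2 ⟨Finset.mem_erase.2 ⟨hyv, hyA⟩, hzy.ne, hzv, hyv, Or.inl hzy⟩
    have s2 : (nb G A v).erase z ⊆ nb (contract G z v) (A.erase v) z := by
      intro y hy
      obtain ⟨hyz, hy⟩ := Finset.mem_erase.1 hy
      obtain ⟨hyA, hvy⟩ := mem_nb.1 hy
      exact mem_nb.2 ⟨Finset.mem_erase.2 ⟨hvy.ne.symm, hyA⟩, Ne.symm hyz, hzv, hvy.ne.symm,
        Or.inr (Or.inl ⟨rfl, hvy⟩)⟩
    have c1 : ((nb G A z).erase v).card = (nb G A z).card - 1 :=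
      Finset.card_erase_of_mem (mem_nb.2 ⟨hv, huv⟩)
    have c2 : ((nb G A v).erase z).card = (nb G A v).card - 1 :=
      Finset.card_erase_of_mem (mem_nb.2 ⟨hu, huv.symm⟩)
    have d1 := hdeg z hzA
    have d2 := hdeg v hv
    have l1 := Finset.card_le_card s1
    have l2 := Finset.card_le_card s2
    have e1 := Finset.eq_of_subset_of_card_le s1 (by omega)
    have e2 := Finset.eq_of_subset_of_card_le s2 (by omega)
    refine ⟨?_, z, hzA, by omega⟩
    have hne : ((nb G A z).erase v).Nonempty := by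
      rw [← Finset.card_pos]
      omega
    obtain ⟨y, hy⟩ := hne
    have hy' : y ∈ (nb G A v).erase z := by rw [e2, ← e1]; exact hy
    exact ⟨y, (mem_nb.1 (Finset.mem_erase.1 hy).2).2.symm,
      (mem_nb.1 (Finset.mem_erase.1 hy').2).2.symm⟩
  · have d1 := hdeg z hzA
    by_cases h1 : G.Adj z v
    · by_cases h2 : G.Adj z u
      · refine ⟨⟨z, h2, h1⟩, z, hzA, ?_⟩
        have s1 : (nb G A z).erase v ⊆ nb (contract G u v) (A.erase v) z := by
          intro y hy
          obtain ⟨hyv, hy⟩ := Finset.mem_erase.1 hy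
          obtain ⟨hyA, hzy⟩ := mem_nb.1 hy
          exact mem_nb.2 ⟨Finset.mem_erase.2 ⟨hyv, hyA⟩, hzy.ne, hzv, hyv, Or.inl hzy⟩
        have c1 : ((nb G A z).erase v).card = (nb G A z).card - 1 :=
          Finset.card_erase_of_mem (mem_nb.2 ⟨hv, h1⟩)
        have l1 := Finset.card_le_card s1
        omega
      · exfalso
        have s1 : insert u ((nb G A z).erase v) ⊆ nb (contract G u v) (A.erase v) z := by
          intro y hy
          rcases Finset.mem_insert.1 hy with rfl | hy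
          · exact mem_nb.2 ⟨Finset.mem_erase.2 ⟨huv.ne, hu⟩, hzu, hzv, huv.ne,
              Or.inr (Or.inr ⟨rfl, h1.symm⟩)⟩
          · obtain ⟨hyv, hy⟩ := Finset.mem_erase.1 hy
            obtain ⟨hyA, hzy⟩ := mem_nb.1 hy
            exact mem_nb.2 ⟨Finset.mem_erase.2 ⟨hyv, hyA⟩, hzy.ne, hzv, hyv, Or.inl hzy⟩
        have hnot : u ∉ (nb G A z).erase v := fun h => h2 (mem_nb.1 (Finset.mem_erase.1 h).2).2
        have c1 : ((nb G A z).erase v).card = (nb G A z).card - 1 :=
          Finset.card_erase_of_mem (mem_nb.2 ⟨hv, h1⟩)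
        have l1 := Finset.card_le_card s1
        rw [Finset.card_insert_of_notMem hnot] at l1
        omega
    · exfalso
      have s1 : nb G A z ⊆ nb (contract G u v) (A.erase v) z := by
        intro y hy
        obtain ⟨hyA, hzy⟩ := mem_nb.1 hy
        have hyv : y ≠ v := by rintro rfl; exact h1 hzy
        exact mem_nb.2 ⟨Finset.mem_erase.2 ⟨hyv, hyA⟩, hzy.ne, hzv, hyv, Or.inl hzy⟩
      have l1 := Finset.card_le_card s1
      omega

open Classical in
theorem core2 {G : SimpleGraph V} {A : Finset V} (hG : ∀ x y, G.Adj x y → x ∈ A)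
    (hK : ¬ HasK4Minor G)
    (ih : ∀ A' : Finset V, A'.card < A.card → ∀ G' : SimpleGraph V, (∀ x y, G'.Adj x y → x ∈ A') →
      A'.Nonempty → ¬ HasK4Minor G' → ∃ x ∈ A', (nb G' A' x).card ≤ 2)
    (hdeg : ∀ x ∈ A, 3 ≤ (nb G A x).card) {w a b c : V}
    (hw : nb G A w = {a, b, c}) (ha : nb G A a = {w, b, c}) (hab : a ≠ b) 
    (hbc : ¬ G.Adj b c) (hb : (nb G A b).card = 3) : False := by
  have hwb : G.Adj w b := (mem_nb.1 (show b ∈ nb G A w by rw [hw]; simp)).2
  have hab' : G.Adj a b := (mem_nb.1 (show b ∈ nb G A a by rw [ha]; simp)).2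
  have hwa : G.Adj w a := (mem_nb.1 (show a ∈ nb G A w by rw [hw]; simp)).2
  have hbA : b ∈ A := hG b w hwb.symm
  -- the third neighbour of `b`
  have hx : ∃ x ∈ nb G A b, x ∉ ({w, a} : Finset V) := by
    by_contra hcon
    push Not at hcon
    have : (nb G A b).card ≤ ({w, a} : Finset V).card := Finset.card_le_card hcon
    have h2 : ({w, a} : Finset V).card ≤ 2 := Finset.card_le_two
    omega
  obtain ⟨x, hxb, hx⟩ := hx
  have hbx := (mem_nb.1 hxb).2
  simp only [Finset.mem_insert, Finset.mem_singleton, not_or] at hx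
  obtain ⟨⟨z, hzb, hzx⟩, -⟩ := triangle hG hK ih hdeg hbx
  have hsub : ({w, a, x} : Finset V) ⊆ nb G A b := by
    intro y hy
    simp only [Finset.mem_insert, Finset.mem_singleton] at hy
    rcases hy with rfl | rfl | rfl
    · exact mem_nb.2 ⟨hG _ _ hwb, hwb.symm⟩
    · exact mem_nb.2 ⟨hG _ _ hab', hab'.symm⟩
    · exact hxb
  have hc3 : ({w, a, x} : Finset V).card = 3 := by
    rw [Finset.card_eq_three]
    exact ⟨w, a, x, hwa.ne, Ne.symm hx.1, Ne.symm hx.2, rfl⟩
  have heq := Finset.eq_of_subset_of_card_le hsub (by omega)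
  have hz : z ∈ ({w, a, x} : Finset V) := by
    rw [heq]
    exact mem_nb.2 ⟨hG _ _ hzb, hzb.symm⟩
  simp only [Finset.mem_insert, Finset.mem_singleton] at hz
  rcases hz with rfl | rfl | rfl
  · have : x ∈ nb G A z := mem_nb.2 ⟨hG _ _ hzx.symm, hzx⟩
    rw [hw] at this
    simp only [Finset.mem_insert, Finset.mem_singleton] at this
    rcases this with rfl | rfl | rfl
    · exact hx.2 rfl
    · exact hbx.ne rfl
    · exact hbc hbx
  · have : x ∈ nb G A z := mem_nb.2 ⟨hG _ _ hzx.symm, hzx⟩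
    rw [ha] at this
    simp only [Finset.mem_insert, Finset.mem_singleton] at this
    rcases this with rfl | rfl | rfl
    · exact hx.1 rfl
    · exact hbx.ne rfl
    · exact hbc hbx
  · exact hzx.ne rfl

open Classical in
theorem core1 {G : SimpleGraph V} {A : Finset V} (hG : ∀ x y, G.Adj x y → x ∈ A)
    (hK : ¬ HasK4Minor G)
    (ih : ∀ A' : Finset V, A'.card < A.card → ∀ G' : SimpleGraph V, (∀ x y, G'.Adj x y → x ∈ A') →
      A'.Nonempty → ¬ HasK4Minor G' → ∃ x ∈ A', (nb G' A' x).card ≤ 2)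
    (hdeg : ∀ x ∈ A, 3 ≤ (nb G A x).card) {w a b c : V}
    (hw : nb G A w = {a, b, c}) (hab : a ≠ b) (hac : a ≠ c) (hbc : b ≠ c)
    (h1 : G.Adj a b) (h2 : G.Adj a c) : False := by
  have hwa : G.Adj w a := (mem_nb.1 (show a ∈ nb G A w by rw [hw]; simp)).2
  have hwb : G.Adj w b := (mem_nb.1 (show b ∈ nb G A w by rw [hw]; simp)).2
  have hwc : G.Adj w c := (mem_nb.1 (show c ∈ nb G A w by rw [hw]; simp)).2
  have hnw : ∀ y, G.Adj w y → y = a ∨ y = b ∨ y = c := by
    intro y hy
    have : y ∈ nb G A w := mem_nb.2 ⟨hG _ _ hy.symm, hy⟩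
    rw [hw] at this
    simpa using this
  have hwA : w ∈ A := hG _ _ hwa
  have haA : a ∈ A := hG _ _ h1
  have hbA : b ∈ A := hG _ _ h1.symm
  have hcA : c ∈ A := hG _ _ h2.symm
  by_cases h3 : G.Adj b c
  · exact hK (HasK4Minor.of_clique hwa hwb hwc h1 h2 h3)
  -- contract `w` into `b`
  set G1 := contract G b w with hG1
  have hG1s : ∀ x y, G1.Adj x y → x ∈ A.erase w := by
    rintro x y ⟨k1, k2, k3, k4⟩
    refine Finset.mem_erase.2 ⟨k2, ?_⟩
    rcases k4 with h | ⟨rfl, h⟩ | ⟨rfl, h⟩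
    · exact hG x y h
    · exact hbA
    · exact hG x w h.symm
  have hK1 : ¬ HasK4Minor G1 := fun h => hK (h.of_contract hwb.symm)
  have hA1 : (A.erase w).card < A.card := Finset.card_erase_lt_of_mem hwA
  obtain ⟨z, hz, hcard⟩ := ih (A.erase w) hA1 G1 hG1s
    ⟨b, Finset.mem_erase.2 ⟨hwb.ne.symm, hbA⟩⟩ hK1
  obtain ⟨hzw, hzA⟩ := Finset.mem_erase.1 hz
  have hz_a : z = a := by
    by_contra hza
    have dz := hdeg z hzA
    by_cases hzb : z = b
    · subst hzb
      have s1 : insert c ((nb G A z).erase w) ⊆ nb G1 (A.erase w) z := by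
        intro y hy
        rcases Finset.mem_insert.1 hy with rfl | hy
        · exact mem_nb.2 ⟨Finset.mem_erase.2 ⟨hwc.ne.symm, hcA⟩, hbc, hzw, hwc.ne.symm,
            Or.inr (Or.inl ⟨rfl, hwc⟩)⟩
        · obtain ⟨hyv, hy⟩ := Finset.mem_erase.1 hy
          obtain ⟨hyA, hzy⟩ := mem_nb.1 hy
          exact mem_nb.2 ⟨Finset.mem_erase.2 ⟨hyv, hyA⟩, hzy.ne, hzw, hyv, Or.inl hzy⟩
      have hnot : c ∉ (nb G A z).erase w := fun h => h3 (mem_nb.1 (Finset.mem_erase.1 h).2).2
      have l1 := Finset.card_le_card s1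
      rw [Finset.card_insert_of_notMem hnot,
        Finset.card_erase_of_mem (mem_nb.2 ⟨hwA, hwb.symm⟩)] at l1
      omega
    · by_cases hzc : z = c
      · subst hzc
        have s1 : insert b ((nb G A z).erase w) ⊆ nb G1 (A.erase w) z := by
          intro y hy
          rcases Finset.mem_insert.1 hy with rfl | hy
          · exact mem_nb.2 ⟨Finset.mem_erase.2 ⟨hwb.ne.symm, hbA⟩, hbc.symm, hzw, hwb.ne.symm,
              Or.inr (Or.inr ⟨rfl, hwc⟩)⟩
          · obtain ⟨hyv, hy⟩ := Finset.mem_erase.1 hy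
            obtain ⟨hyA, hzy⟩ := mem_nb.1 hy
            exact mem_nb.2 ⟨Finset.mem_erase.2 ⟨hyv, hyA⟩, hzy.ne, hzw, hyv, Or.inl hzy⟩
        have hnot : b ∉ (nb G A z).erase w :=
          fun h => h3 (mem_nb.1 (Finset.mem_erase.1 h).2).2.symm
        have l1 := Finset.card_le_card s1
        rw [Finset.card_insert_of_notMem hnot,
          Finset.card_erase_of_mem (mem_nb.2 ⟨hwA, hwc.symm⟩)] at l1
        omega
      · have s1 : nb G A z ⊆ nb G1 (A.erase w) z := by
          intro y hy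
          obtain ⟨hyA, hzy⟩ := mem_nb.1 hy
          have hyw : y ≠ w := by
            rintro rfl
            rcases hnw z hzy.symm with h | h | h
            · exact hza h
            · exact hzb h
            · exact hzc h
          exact mem_nb.2 ⟨Finset.mem_erase.2 ⟨hyw, hyA⟩, hzy.ne, hzw, hyw, Or.inl hzy⟩
        have l1 := Finset.card_le_card s1
        omega
  subst hz_a
  -- now `z` has degree three
  have dz := hdeg z hzA
  have s1 : (nb G A z).erase w ⊆ nb G1 (A.erase w) z := by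
    intro y hy
    obtain ⟨hyv, hy⟩ := Finset.mem_erase.1 hy
    obtain ⟨hyA, hzy⟩ := mem_nb.1 hy
    exact mem_nb.2 ⟨Finset.mem_erase.2 ⟨hyv, hyA⟩, hzy.ne, hzw, hyv, Or.inl hzy⟩
  have l1 := Finset.card_le_card s1
  rw [Finset.card_erase_of_mem (mem_nb.2 ⟨hwA, hwa.symm⟩)] at l1
  have hsub : ({w, b, c} : Finset V) ⊆ nb G A z := by
    intro y hy
    simp only [Finset.mem_insert, Finset.mem_singleton] at hy
    rcases hy with rfl | rfl | rfl
    · exact mem_nb.2 ⟨hwA, hwa.symm⟩
    · exact mem_nb.2 ⟨hbA, h1⟩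
    · exact mem_nb.2 ⟨hcA, h2⟩
  have hc3 : ({w, b, c} : Finset V).card = 3 := by
    rw [Finset.card_eq_three]
    exact ⟨w, b, c, hwb.ne, hwc.ne, hbc, rfl⟩
  have ha := (Finset.eq_of_subset_of_card_le hsub (by omega)).symm
  have hnz : ∀ y, G.Adj z y → y = w ∨ y = b ∨ y = c := by
    intro y hy
    have : y ∈ nb G A z := mem_nb.2 ⟨hG _ _ hy.symm, hy⟩
    rw [ha] at this
    simpa using this
  -- contract `z` into `b`
  have hbz1 : G1.Adj b z := ⟨h1.ne.symm, hwb.ne.symm, hzw, Or.inl h1.symm⟩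
  set G2 := contract G1 b z with hG2
  have hG2s : ∀ x y, G2.Adj x y → x ∈ (A.erase w).erase z := by
    rintro x y ⟨k1, k2, k3, k4⟩
    refine Finset.mem_erase.2 ⟨k2, ?_⟩
    rcases k4 with h | ⟨rfl, h⟩ | ⟨rfl, h⟩
    · exact hG1s x y h
    · exact Finset.mem_erase.2 ⟨hwb.ne.symm, hbA⟩
    · exact hG1s x z h.symm
  have hK2 : ¬ HasK4Minor G2 := fun h => hK1 (h.of_contract hbz1)
  have hA2 : ((A.erase w).erase z).card < A.card :=
    (Finset.card_erase_lt_of_mem hz).trans hA1
  obtain ⟨t, ht, htcard⟩ := ih _ hA2 G2 hG2s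
    ⟨b, Finset.mem_erase.2 ⟨h1.ne.symm, Finset.mem_erase.2 ⟨hwb.ne.symm, hbA⟩⟩⟩ hK2
  obtain ⟨htz, ht'⟩ := Finset.mem_erase.1 ht
  obtain ⟨htw, htA⟩ := Finset.mem_erase.1 ht'
  have dt := hdeg t htA
  -- edges of `G2`
  have hadj2 : ∀ x y, G.Adj x y → x ≠ w → y ≠ w → x ≠ z → y ≠ z → G2.Adj x y := by
    intro x y hxy k1 k2 k3 k4
    exact ⟨hxy.ne, k3, k4, Or.inl ⟨hxy.ne, k1, k2, Or.inl hxy⟩⟩
  have hbc2 : G2.Adj b c :=
    ⟨hbc, h1.ne.symm, h2.ne.symm, Or.inl ⟨hbc, hwb.ne.symm, hwc.ne.symm,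
      Or.inr (Or.inl ⟨rfl, hwc⟩)⟩⟩
  have hmem : ∀ y, G2.Adj t y → y ∈ nb G2 ((A.erase w).erase z) t :=
    fun y hy => mem_nb.2 ⟨hG2s _ _ hy.symm, hy⟩
  by_cases htb : t = b
  · subst htb
    have s1 : insert c (((nb G A t).erase w).erase z) ⊆ nb G2 ((A.erase w).erase z) t := by
      intro y hy
      rcases Finset.mem_insert.1 hy with rfl | hy
      · exact hmem _ hbc2
      · obtain ⟨hyz, hy⟩ := Finset.mem_erase.1 hy
        obtain ⟨hyw, hy⟩ := Finset.mem_erase.1 hy
        exact hmem y (hadj2 t y (mem_nb.1 hy).2 htw hyw htz hyz)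
    have hnot : c ∉ ((nb G A t).erase w).erase z :=
      fun h => h3 (mem_nb.1 (Finset.mem_erase.1 (Finset.mem_erase.1 h).2).2).2
    have l2 := Finset.card_le_card s1
    rw [Finset.card_insert_of_notMem hnot,
      Finset.card_erase_of_mem (Finset.mem_erase.2 ⟨hzw, mem_nb.2 ⟨hzA, h1.symm⟩⟩),
      Finset.card_erase_of_mem (mem_nb.2 ⟨hwA, hwb.symm⟩)] at l2
    exact core2 hG hK ih hdeg hw ha hab h3 (by omega)
  · by_cases htc : t = c
    · subst htc
      have s1 : insert b (((nb G A t).erase w).erase z) ⊆ nb G2 ((A.erase w).erase z) t := by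
        intro y hy
        rcases Finset.mem_insert.1 hy with rfl | hy
        · exact hmem _ hbc2.symm
        · obtain ⟨hyz, hy⟩ := Finset.mem_erase.1 hy
          obtain ⟨hyw, hy⟩ := Finset.mem_erase.1 hy
          exact hmem y (hadj2 t y (mem_nb.1 hy).2 htw hyw htz hyz)
      have hnot : b ∉ ((nb G A t).erase w).erase z :=
        fun h => h3 (mem_nb.1 (Finset.mem_erase.1 (Finset.mem_erase.1 h).2).2).2.symm
      have l2 := Finset.card_le_card s1
      rw [Finset.card_insert_of_notMem hnot,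
        Finset.card_erase_of_mem (Finset.mem_erase.2 ⟨hzw, mem_nb.2 ⟨hzA, h2.symm⟩⟩),
        Finset.card_erase_of_mem (mem_nb.2 ⟨hwA, hwc.symm⟩)] at l2
      have hw' : nb G A w = {z, t, b} := by rw [hw]; ext y; simp; tauto
      have ha' : nb G A z = {w, t, b} := by rw [ha]; ext y; simp; tauto
      exact core2 hG hK ih hdeg hw' ha' hac (fun h => h3 h.symm) (by omega)
    · have s1 : nb G A t ⊆ nb G2 ((A.erase w).erase z) t := by
        intro y hy
        have hty := (mem_nb.1 hy).2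
        refine hmem y (hadj2 t y hty htw ?_ htz ?_)
        · rintro rfl
          rcases hnw t hty.symm with h | h | h
          · exact htz h
          · exact htb h
          · exact htc h
        · rintro rfl
          rcases hnz t hty.symm with h | h | h
          · exact htw h
          · exact htb h
          · exact htc h
      have l2 := Finset.card_le_card s1
      omega

open Classical in
/-- A graph without a `K₄` minor has a vertex of degree at most two. -/
theorem exists_low (n : ℕ) : ∀ A : Finset V, A.card = n → ∀ G : SimpleGraph V,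
    (∀ x y, G.Adj x y → x ∈ A) → A.Nonempty → ¬ HasK4Minor G → ∃ x ∈ A, (nb G A x).card ≤ 2 := by
  induction n using Nat.strong_induction_on with
  | _ n IH =>
    intro A hA G hG hne hK
    by_contra hcon
    push Not at hcon
    have hdeg : ∀ x ∈ A, 3 ≤ (nb G A x).card := fun x hx => hcon x hx
    have ih : ∀ A' : Finset V, A'.card < A.card → ∀ G' : SimpleGraph V,
        (∀ x y, G'.Adj x y → x ∈ A') → A'.Nonempty → ¬ HasK4Minor G' →
        ∃ x ∈ A', (nb G' A' x).card ≤ 2 :=
      fun A' hA' => IH A'.card (by omega) A' rfl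
    obtain ⟨x0, hx0⟩ := hne
    have hne0 : (nb G A x0).Nonempty := by
      rw [← Finset.card_pos]
      have := hdeg x0 hx0
      omega
    obtain ⟨y0, hy0⟩ := hne0
    obtain ⟨-, w, hwA, hw3⟩ := triangle hG hK ih hdeg (mem_nb.1 hy0).2
    obtain ⟨a, b, c, hab, hac, hbc, hw⟩ := Finset.card_eq_three.1 hw3
    have hnw : ∀ y, G.Adj w y → y = a ∨ y = b ∨ y = c := by
      intro y hy
      have : y ∈ nb G A w := mem_nb.2 ⟨hG _ _ hy.symm, hy⟩
      rw [hw] at this
      simpa using this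
    have key : ∀ x, G.Adj w x → (x ≠ a ∧ G.Adj a x) ∨ (x ≠ b ∧ G.Adj b x) ∨ (x ≠ c ∧ G.Adj c x) := by
      intro x hx
      obtain ⟨⟨z, hz1, hz2⟩, -⟩ := triangle hG hK ih hdeg hx
      rcases hnw z hz1.symm with rfl | rfl | rfl
      · exact Or.inl ⟨hz2.ne.symm, hz2⟩
      · exact Or.inr (Or.inl ⟨hz2.ne.symm, hz2⟩)
      · exact Or.inr (Or.inr ⟨hz2.ne.symm, hz2⟩)
    have ka := key a (mem_nb.1 (show a ∈ nb G A w by rw [hw]; simp)).2
    have kb := key b (mem_nb.1 (show b ∈ nb G A w by rw [hw]; simp)).2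
    have kc := key c (mem_nb.1 (show c ∈ nb G A w by rw [hw]; simp)).2
    have hwb : nb G A w = {b, a, c} := by rw [hw]; ext y; simp; tauto
    have hwc : nb G A w = {c, a, b} := by rw [hw]; ext y; simp; tauto
    have A1 : ¬ (G.Adj a b ∧ G.Adj a c) := fun h =>
      core1 hG hK ih hdeg hw hab hac hbc h.1 h.2
    have A2 : ¬ (G.Adj b a ∧ G.Adj b c) := fun h =>
      core1 hG hK ih hdeg hwb hab.symm hbc hac h.1 h.2
    have A3 : ¬ (G.Adj c a ∧ G.Adj c b) := fun h =>
      core1 hG hK ih hdeg hwc hac.symm hbc.symm hab h.1 h.2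
    have ka' : G.Adj a b ∨ G.Adj a c := by
      rcases ka with h | h | h
      · exact absurd rfl h.1
      · exact Or.inl h.2.symm
      · exact Or.inr h.2.symm
    have kb' : G.Adj a b ∨ G.Adj b c := by
      rcases kb with h | h | h
      · exact Or.inl h.2
      · exact absurd rfl h.1
      · exact Or.inr h.2.symm
    have kc' : G.Adj a c ∨ G.Adj b c := by
      rcases kc with h | h | h
      · exact Or.inl h.2
      · exact Or.inr h.2
      · exact absurd rfl h.1
    rcases ka' with h1 | h1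
    · rcases kc' with h2 | h2
      · exact A1 ⟨h1, h2⟩
      · exact A2 ⟨h1.symm, h2⟩
    · rcases kb' with h2 | h2
      · exact A1 ⟨h2, h1⟩
      · exact A3 ⟨h1.symm, h2.symm⟩

end Pool.Agent.W2helper91.SP
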