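import Pool.Agent.W2helper91.SP.Bridge
import Pool.Agent.W2helper91.SP.Minor

/-!
# Explicit rich 2-trees, and 2-trees are series-parallel
-/

set_option autoImplicit false

namespace Pool.Agent.W2helper91.SP

open T

variable {V : Type*}

/-! ### 2-trees have no `K₄` minor -/

/-- The graph of a 2-tree. -/
def tG (s t : V) (X : T V) : SimpleGraph V :=
  SimpleGraph.fromEdgeSet {e | e = s(s, t) ∨ e ∈ X.edges s t}

theorem tG_adj {s t : V} {X : T V} {x y : V} :
    (tG s t X).Adj x y ↔ (s(x, y) = s(s, t) ∨ s(x, y) ∈ X.edges s t) ∧ x ≠ y := by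
  unfold tG
  rw [SimpleGraph.fromEdgeSet_adj]
  rfl

theorem T.leaf (X : T V) (hX : X ≠ nil) : ∀ s t : V, ∃ (v : V) (X' : T V) (a b : V),
    X.verts = {v} + X'.verts ∧
    (∀ e ∈ X.edges s t, e ∈ X'.edges s t ∨ e = s(a, v) ∨ e = s(v, b)) ∧
    (s(a, b) = s(s, t) ∨ s(a, b) ∈ X'.edges s t) := by
  induction X with
  | nil => exact absurd rfl hX
  | node m L R N ihL ihR _ =>
    intro s t
    by_cases hL : L = nil
    · by_cases hR : R = nil
      · subst hL hR
        refine ⟨m, N, s, t, by simp [verts], ?_, Or.inl rfl⟩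
        intro e he
        simp only [edges, add_zero, Multiset.mem_add, Multiset.mem_singleton] at he
        rcases he with (he | he) | he
        · exact Or.inr (Or.inl he)
        · exact Or.inr (Or.inr he)
        · exact Or.inl he
      · obtain ⟨v, R', a, b, h1, h2, h3⟩ := ihR hR m t
        refine ⟨v, node m L R' N, a, b, ?_, ?_, ?_⟩
        · simp only [verts, h1]; abel
        · intro e he
          simp only [edges, Multiset.mem_add, Multiset.mem_singleton] at he ⊢
          rcases he with (((he | he) | he) | he) | he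
          · exact Or.inl (Or.inl (Or.inl (Or.inl (Or.inl he))))
          · exact Or.inl (Or.inl (Or.inl (Or.inl (Or.inr he))))
          · exact Or.inl (Or.inl (Or.inl (Or.inr he)))
          · rcases h2 e he with h | h
            · exact Or.inl (Or.inl (Or.inr h))
            · exact Or.inr h
          · exact Or.inl (Or.inr he)
        · right
          simp only [edges, Multiset.mem_add, Multiset.mem_singleton]
          rcases h3 with h | h
          · exact Or.inl (Or.inl (Or.inl (Or.inr h)))
          · exact Or.inl (Or.inr h)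
    · obtain ⟨v, L', a, b, h1, h2, h3⟩ := ihL hL s m
      refine ⟨v, node m L' R N, a, b, ?_, ?_, ?_⟩
      · simp only [verts, h1]; abel
      · intro e he
        simp only [edges, Multiset.mem_add, Multiset.mem_singleton] at he ⊢
        rcases he with (((he | he) | he) | he) | he
        · exact Or.inl (Or.inl (Or.inl (Or.inl (Or.inl he))))
        · exact Or.inl (Or.inl (Or.inl (Or.inl (Or.inr he))))
        · rcases h2 e he with h | h
          · exact Or.inl (Or.inl (Or.inl (Or.inr h)))
          · exact Or.inr h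
        · exact Or.inl (Or.inl (Or.inr he))
        · exact Or.inl (Or.inr he)
      · right
        simp only [edges, Multiset.mem_add, Multiset.mem_singleton]
        rcases h3 with h | h
        · exact Or.inl (Or.inl (Or.inl (Or.inl h)))
        · exact Or.inl (Or.inl (Or.inr h))

/-- Removing a vertex of degree two whose neighbours are adjacent. -/
theorem HasK4Minor.of_leaf {G G' : SimpleGraph V} {v a b : V} 
    (h1 : ∀ w, G.Adj v w → w = a ∨ w = b)
    (h2 : ∀ x y, G.Adj x y → x ≠ v → y ≠ v → G'.Adj x y) (h3 : G'.Adj a b)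
    (hK : HasK4Minor G) : HasK4Minor G' := by
  obtain ⟨B, c1, c2, c3⟩ := hK
  -- no bag is `{v}`
  have hne : ∀ i, ∃ x ∈ B i, x ≠ v := by
    intro i
    by_contra hcon
    push Not at hcon
    have hj : ∀ j, i ≠ j → ∃ y ∈ B j, y = a ∨ y = b := by
      intro j hij
      obtain ⟨x, hx, y, hy, hxy⟩ := c3 i j hij
      rw [hcon x hx] at hxy
      exact ⟨y, hy, h1 y hxy⟩
    obtain ⟨j, k, l, hij, hik, hil, hjk, hjl, hkl⟩ : ∃ j k l : Fin 4, i ≠ j ∧ i ≠ k ∧ i ≠ l ∧
        j ≠ k ∧ j ≠ l ∧ k ≠ l := by
      fin_cases i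
      · exact ⟨1, 2, 3, by decide⟩
      · exact ⟨0, 2, 3, by decide⟩
      · exact ⟨0, 1, 3, by decide⟩
      · exact ⟨0, 1, 2, by decide⟩
    obtain ⟨y1, m1, e1⟩ := hj j hij
    obtain ⟨y2, m2, e2⟩ := hj k hik
    obtain ⟨y3, m3, e3⟩ := hj l hil
    have d1 := Set.disjoint_left.1 (c2 j k hjk)
    have d2 := Set.disjoint_left.1 (c2 j l hjl)
    have d3 := Set.disjoint_left.1 (c2 k l hkl)
    rcases e1 with rfl | rfl <;> rcases e2 with rfl | rfl <;> rcases e3 with rfl | rfl
    · exact d1 m1 m2
    · exact d1 m1 m2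
    · exact d2 m1 m3
    · exact d3 m2 m3
    · exact d3 m2 m3
    · exact d2 m1 m3
    · exact d1 m1 m2
    · exact d1 m1 m2
  -- two neighbours of `v`
  have htwo : ∀ z z', G.Adj v z → G.Adj v z' → z ≠ z' → G'.Adj z z' := by
    intro z z' hz hz' hne
    rcases h1 z hz with rfl | rfl <;> rcases h1 z' hz' with rfl | rfl
    · exact absurd rfl hne
    · exact h3
    · exact h3.symm
    · exact absurd rfl hne
  -- connectivity
  have hconn : ∀ i (x y : B i), (G.induce (B i)).Reachable x y → ∀ hy : y.1 ≠ v,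
      (∀ hx : x.1 ≠ v, (G'.induce (B i \ {v})).Reachable ⟨x.1, x.2, hx⟩ ⟨y.1, y.2, hy⟩) ∧
      (x.1 = v → ∀ z, ∀ hz : z ∈ B i, ∀ hzv : z ≠ v, G.Adj v z →
        (G'.induce (B i \ {v})).Reachable ⟨z, hz, hzv⟩ ⟨y.1, y.2, hy⟩) := by
    rintro i x y ⟨w⟩
    induction w with
    | nil =>
      intro hy
      exact ⟨fun hx => SimpleGraph.Reachable.refl _, fun hx => absurd hx hy⟩
    | @cons x x' y hadj w ih =>
      intro hy
      have hadj' : G.Adj x.1 x'.1 := hadj
      obtain ⟨ih1, ih2⟩ := ih hy
      constructor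
      · intro hx
        by_cases hx' : x'.1 = v
        · exact ih2 hx' x.1 x.2 hx (by rw [← hx']; exact hadj'.symm)
        · have : (G'.induce (B i \ {v})).Adj ⟨x.1, x.2, hx⟩ ⟨x'.1, x'.2, hx'⟩ :=
            h2 _ _ hadj' hx hx'
          exact this.reachable.trans (ih1 hx')
      · intro hx z hz hzv hvz
        have hx' : x'.1 ≠ v := by
          intro e
          rw [hx, e] at hadj'
          exact G.irrefl hadj'
        rw [hx] at hadj'
        by_cases hzx : z = x'.1
        · subst hzx
          exact ih1 hx'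
        · have : (G'.induce (B i \ {v})).Adj ⟨z, hz, hzv⟩ ⟨x'.1, x'.2, hx'⟩ :=
            htwo _ _ hvz hadj' hzx
          exact this.reachable.trans (ih1 hx')
  -- if `v` is in a bag, then a neighbour of `v` is in the bag
  have hnb : ∀ i, v ∈ B i → ∃ z ∈ B i, G.Adj v z := by
    intro i hv
    obtain ⟨x, hx, hxv⟩ := hne i
    obtain ⟨w⟩ := (c1 i).preconnected ⟨v, hv⟩ ⟨x, hx⟩
    cases w with
    | nil => exact absurd rfl hxv
    | @cons _ x' _ hadj _ => exact ⟨x'.1, x'.2, hadj⟩
  refine ⟨fun i => B i \ {v}, ?_, ?_, ?_⟩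
  · intro i
    obtain ⟨x, hx, hxv⟩ := hne i
    have : Nonempty ↑(B i \ {v}) := ⟨⟨x, hx, hxv⟩⟩
    refine ⟨?_⟩
    rintro ⟨p, hp, hpv⟩ ⟨q, hq, hqv⟩
    exact (hconn i ⟨p, hp⟩ ⟨q, hq⟩ ((c1 i).preconnected _ _) hqv).1 hpv
  · intro i j hij
    exact (c2 i j hij).mono Set.sdiff_subset Set.sdiff_subset
  · intro i j hij
    have hd := Set.disjoint_left.1 (c2 i j hij)
    obtain ⟨x, hx, y, hy, hxy⟩ := c3 i j hij
    by_cases hxv : x = v
    · have hyv : y ≠ v := by
        rintro rfl
        exact hd (hxv ▸ hx) hy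
      rw [hxv] at hx hxy
      obtain ⟨z, hz, hvz⟩ := hnb i hx
      have hzy : z ≠ y := by
        rintro rfl
        exact hd hz hy
      exact ⟨z, ⟨hz, hvz.ne.symm⟩, y, ⟨hy, hyv⟩, htwo z y hvz hxy hzy⟩
    · by_cases hyv : y = v
      · rw [hyv] at hy hxy
        obtain ⟨z, hz, hvz⟩ := hnb j hy
        have hzx : x ≠ z := by
          rintro rfl
          exact hd hx hz
        exact ⟨x, ⟨hx, hxv⟩, z, ⟨hz, hvz.ne.symm⟩, htwo x z hxy.symm hvz hzx⟩
      · exact ⟨x, ⟨hx, hxv⟩, y, ⟨hy, hyv⟩, h2 x y hxy hxv hyv⟩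

theorem nodup_of_add {A B C : Multiset V} (h : B.Nodup) (e : B = A + C) : A.Nodup := by
  rw [e] at h
  exact Multiset.nodup_of_le (Multiset.le_add_right _ _) h

/-- Edges of a piece are no loops. -/
theorem T.no_loop (Y : T V) : ∀ s t : V, ({s} + {t} + Y.verts : Multiset V).Nodup →
    ∀ a, s(a, a) ∉ Y.edges s t := by
  induction Y with
  | nil => intro s t _ a; simp [edges]
  | node m L R N ihL ihR ihN =>
    intro s t hn a ha
    have n1 : ({s} + {m} : Multiset V).Nodup :=
      nodup_of_add (C := {t} + L.verts + R.verts + N.verts) hn (by simp only [verts]; abel)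
    have n2 : ({m} + {t} : Multiset V).Nodup :=
      nodup_of_add (C := {s} + L.verts + R.verts + N.verts) hn (by simp only [verts]; abel)
    have n3 : ({s} + {m} + L.verts : Multiset V).Nodup :=
      nodup_of_add (C := {t} + R.verts + N.verts) hn (by simp only [verts]; abel)
    have n4 : ({m} + {t} + R.verts : Multiset V).Nodup :=
      nodup_of_add (C := {s} + L.verts + N.verts) hn (by simp only [verts]; abel)
    have n5 : ({s} + {t} + N.verts : Multiset V).Nodup :=
      nodup_of_add (C := {m} + L.verts + R.verts) hn (by simp only [verts]; abel)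
    rw [Multiset.singleton_add] at n1 n2
    simp only [Multiset.nodup_cons, Multiset.mem_singleton, Multiset.nodup_singleton,
      and_true] at n1 n2
    simp only [edges, Multiset.mem_add, Multiset.mem_singleton] at ha
    rcases ha with (((ha | ha) | ha) | ha) | ha
    · rcases Sym2.eq_iff.1 ha with ⟨e1, e2⟩ | ⟨e1, e2⟩
      · exact n1 (e1.symm.trans e2)
      · exact n1 (e2.symm.trans e1)
    · rcases Sym2.eq_iff.1 ha with ⟨e1, e2⟩ | ⟨e1, e2⟩
      · exact n2 (e1.symm.trans e2)
      · exact n2 (e2.symm.trans e1)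
    · exact ihL s m n3 a ha
    · exact ihR m t n4 a ha
    · exact ihN s t n5 a ha

/-- 2-trees have no `K₄` minor. -/
theorem seriesParallel_tG (n : ℕ) : ∀ (X : T V) (s t : V), X.size = n →
    ({s} + {t} + X.verts : Multiset V).Nodup → SeriesParallel (tG s t X) := by
  induction n with
  | zero =>
    intro X s t hX hnd
    rintro ⟨B, c1, c2, c3⟩
    have hX' : X = nil := by
      cases X with
      | nil => rfl
      | node m L R N => simp only [size] at hX; omega
    subst hX'
    have hmem : ∀ i, s ∈ B i ∨ t ∈ B i := by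
      intro i
      obtain ⟨j, hij⟩ : ∃ j : Fin 4, i ≠ j := ⟨i + 1, by fin_cases i <;> decide⟩
      obtain ⟨x, hx, y, -, hxy⟩ := c3 i j hij
      rw [tG_adj] at hxy
      simp only [edges, Multiset.notMem_zero, or_false] at hxy
      rcases Sym2.eq_iff.1 hxy.1 with ⟨rfl, -⟩ | ⟨rfl, -⟩
      · exact Or.inl hx
      · exact Or.inr hx
    have hd : ∀ i j, i ≠ j → ∀ x, x ∈ B i → x ∈ B j → False :=
      fun i j hij x h1 h2 => Set.disjoint_left.1 (c2 i j hij) h1 h2
    rcases hmem 0 with h0 | h0 <;> rcases hmem 1 with h1 | h1 <;> rcases hmem 2 with h2 | h2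
    · exact hd 0 1 (by decide) _ h0 h1
    · exact hd 0 1 (by decide) _ h0 h1
    · exact hd 0 2 (by decide) _ h0 h2
    · exact hd 1 2 (by decide) _ h1 h2
    · exact hd 1 2 (by decide) _ h1 h2
    · exact hd 0 2 (by decide) _ h0 h2
    · exact hd 0 1 (by decide) _ h0 h1
    · exact hd 0 1 (by decide) _ h0 h1
  | succ n ih =>
    intro X s t hX hnd hK
    have hne : X ≠ nil := by rintro rfl; simp [size] at hX
    obtain ⟨v, X', a, b, g1, g2, g3⟩ := X.leaf hne s t
    have hsize : X'.size = n := by
      have := congrArg Multiset.card g1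
      rw [X.card_verts, Multiset.card_add, Multiset.card_singleton, X'.card_verts] at this
      omega
    have hnd' : ({v} + ({s} + {t} + X'.verts) : Multiset V).Nodup := by
      have : ({v} + ({s} + {t} + X'.verts) : Multiset V) = {s} + {t} + X.verts := by
        rw [g1]; abel
      rw [this]; exact hnd
    rw [Multiset.singleton_add, Multiset.nodup_cons] at hnd'
    have hin : ∀ e, (e = s(s, t) ∨ e ∈ X'.edges s t) → ∀ w ∈ e,
        w ∈ ({s} + {t} + X'.verts : Multiset V) := by
      rintro e (rfl | he) w hw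
      · rcases Sym2.mem_iff.1 hw with rfl | rfl <;> simp
      · rcases X'.ends_mem s t e he w hw with rfl | rfl | h
        · simp
        · simp
        · simp [h]
    have hav : a ≠ v := by
      rintro rfl
      exact hnd'.1 (hin _ g3 a (by simp))
    have hbv : b ≠ v := by
      rintro rfl
      exact hnd'.1 (hin _ g3 b (by simp))
    have hst : s ≠ t := by
      have := Multiset.nodup_of_le (Multiset.le_add_right _ _) hnd'.2
      rw [Multiset.singleton_add] at this
      simp only [Multiset.nodup_cons, Multiset.mem_singleton] at this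
      exact this.1
    have hab : a ≠ b := by
      rcases g3 with h | h
      · rcases Sym2.eq_iff.1 h with ⟨rfl, rfl⟩ | ⟨rfl, rfl⟩
        · exact hst
        · exact hst.symm
      · -- edges of the piece are no loops
        intro e
        subst e
        exact T.no_loop X' s t hnd'.2 a h
    exact ih X' s t hsize hnd'.2 (hK.of_leaf (v := v) (a := a) (b := b) (by
      intro w hw
      rw [tG_adj] at hw
      have hwv : w ≠ v := hw.2.symm
      have hvin : v ∈ s(v, w) := by simp
      rcases hw.1 with h | h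
      · exact absurd (hin _ (Or.inl h) v hvin) hnd'.1
      · rcases g2 _ h with h | h | h
        · exact absurd (hin _ (Or.inr h) v hvin) hnd'.1
        · rcases Sym2.eq_iff.1 h with ⟨e1, e2⟩ | ⟨e1, e2⟩
          · exact absurd e2 hwv
          · exact Or.inl e2
        · rcases Sym2.eq_iff.1 h with ⟨e1, e2⟩ | ⟨e1, e2⟩
          · exact Or.inr e2
          · exact absurd e2 hwv) (by
      intro x y hxy hx hy
      rw [tG_adj] at hxy ⊢
      refine ⟨?_, hxy.2⟩
      rcases hxy.1 with h | h
      · exact Or.inl h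
      · rcases g2 _ h with h | h | h
        · exact Or.inr h
        · rcases Sym2.eq_iff.1 h with ⟨e1, e2⟩ | ⟨e1, e2⟩
          · exact absurd e2 hy
          · exact absurd e1 hx
        · rcases Sym2.eq_iff.1 h with ⟨e1, e2⟩ | ⟨e1, e2⟩
          · exact absurd e1 hx
          · exact absurd e2 hy) (tG_adj.2 ⟨g3, hab⟩))

/-! ### Explicit rich pieces -/

/-- Relabelling. -/
def T.map {W : Type*} (f : V → W) : T V → T W
  | nil => nil
  | node m L R N => node (f m) (T.map f L) (T.map f R) (T.map f N)

theorem T.map_verts {W : Type*} (f : V → W) (X : T V) : (X.map f).verts = X.verts.map f := by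
  induction X with
  | nil => simp [T.map, verts]
  | node m L R N ihL ihR ihN => simp only [T.map, verts, ihL, ihR, ihN, Multiset.map_add,
      Multiset.map_singleton]

theorem T.map_comps {W : Type*} (f : V → W) (X : T V) :
    (X.map f).comps = X.comps.map fun κ => (f κ.1, κ.2.1.map f, κ.2.2.map f) := by
  induction X with
  | nil => rfl
  | node m L R N _ _ ihN => simp only [T.map, comps, ihN, List.map_cons]

theorem Rich.map {W : Type*} (f : V → W) (qs : List ℕ) : ∀ (X : T V), Rich qs X →
    Rich qs (X.map f) := by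
  induction qs with
  | nil => intro X _; trivial
  | cons q qs ih =>
    rintro X ⟨h, l, h1, h2, h3⟩
    refine ⟨ih X h, l.map fun κ => (f κ.1, κ.2.1.map f, κ.2.2.map f), by simpa using h1, ?_, ?_⟩
    · rw [T.map_comps]
      exact h2.map _
    · intro κ hκ
      rw [List.mem_map] at hκ
      obtain ⟨κ', hκ', rfl⟩ := hκ
      exact ⟨ih _ (h3 κ' hκ').1, ih _ (h3 κ' hκ').2⟩

theorem Rich.node {qs : List ℕ} : ∀ {N : T V}, Rich qs N → ∀ (m : V) (L R : T V),
    Rich qs (node m L R N) := by
  induction qs with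
  | nil => intro N _ m L R; trivial
  | cons q qs ih =>
    rintro N ⟨h, l, h1, h2, h3⟩ m L R
    exact ⟨ih h m L R, l, h1, h2.trans (List.sublist_cons_self _ _), h3⟩

/-- `q` components with pieces given by `f`, followed by a piece given by `g`. The labels start
with `n`; the pieces given by `f` have `s` vertices. -/
def bunch (f g : ℕ → T ℕ) (s : ℕ) : ℕ → ℕ → T ℕ
  | 0, n => g n
  | q + 1, n => node n (f (n + 1)) (f (n + 1 + s)) (bunch f g s q (n + 1 + s + s))

/-- Sizes of the rich pieces. -/
def fs : List ℕ → ℕ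
  | [] => 0
  | q :: qs => q * (2 * fs qs + 1) + fs qs

/-- Rich pieces; the labels start with `n`. -/
def full : List ℕ → ℕ → T ℕ
  | [], _ => nil
  | q :: qs, n => bunch (full qs) (full qs) (fs qs) q n

theorem bunch_verts {f g : ℕ → T ℕ} {s u : ℕ} (hf : ∀ n, (f n).verts = Multiset.Ico n (n + s))
    (hg : ∀ n, (g n).verts = Multiset.Ico n (n + u)) (q : ℕ) :
    ∀ n, (bunch f g s q n).verts = Multiset.Ico n (n + (q * (2 * s + 1) + u)) := by
  induction q with
  | zero =>
    intro n
    simp only [bunch, hg, Nat.zero_mul, Nat.zero_add]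
  | succ q ih =>
    intro n
    have h0 : ({n} : Multiset ℕ) = Multiset.Ico n (n + 1) :=
      (congrArg Finset.val (Nat.Ico_succ_singleton (a := n))).symm
    simp only [bunch, verts, hf, ih, h0]
    rw [Multiset.Ico_add_Ico_eq_Ico (by omega) (by omega),
      Multiset.Ico_add_Ico_eq_Ico (by omega) (by omega),
      Multiset.Ico_add_Ico_eq_Ico (by omega) (by omega)]
    congr 1
    ring

theorem full_verts (qs : List ℕ) : ∀ n, (full qs n).verts = Multiset.Ico n (n + fs qs) := by
  induction qs with
  | nil => intro n; simp [full, fs, verts]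
  | cons q qs ih => intro n; exact bunch_verts ih ih q n

theorem bunch_rich {qs rs : List ℕ} {f g : ℕ → T ℕ} {s : ℕ} (hf : ∀ n, Rich qs (f n))
    (hg : ∀ n, Rich rs (g n)) (q : ℕ) : ∀ n, Rich rs (bunch f g s q n) ∧
      ∃ l : List (ℕ × T ℕ × T ℕ), l.length = q ∧ l.Sublist (bunch f g s q n).comps ∧
        ∀ κ ∈ l, Rich qs κ.2.1 ∧ Rich qs κ.2.2 := by
  induction q with
  | zero =>
    intro n
    exact ⟨hg n, [], rfl, List.nil_sublist _, by simp⟩
  | succ q ih =>
    intro n
    obtain ⟨h1, l, h2, h3, h4⟩ := ih (n + 1 + s + s)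
    refine ⟨h1.node _ _ _, (n, f (n + 1), f (n + 1 + s)) :: l, by simp [h2], ?_, ?_⟩
    · exact h3.cons_cons _
    · intro κ hκ
      rcases List.mem_cons.1 hκ with rfl | hκ
      · exact ⟨hf _, hf _⟩
      · exact h4 κ hκ

theorem full_rich (qs : List ℕ) : ∀ n, Rich qs (full qs n) := by
  induction qs with
  | nil => intro n; trivial
  | cons q qs ih =>
    intro n
    obtain ⟨h1, h2⟩ := bunch_rich (s := fs qs) ih ih q n
    exact ⟨h1, h2⟩

/-- `N` vertices adjacent to the poles, and a rich piece. -/
def leaves (N : ℕ) (qs : List ℕ) (n : ℕ) : T ℕ := bunch (fun _ => nil) (full qs) 0 N n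

theorem leaves_verts (N : ℕ) (qs : List ℕ) (n : ℕ) :
    (leaves N qs n).verts = Multiset.Ico n (n + (N + fs qs)) := by
  have := bunch_verts (f := fun _ => nil) (g := full qs) (s := 0) (u := fs qs)
    (by intro n; simp [verts]) (full_verts qs) N n
  rw [leaves, this]
  congr 2
  ring

theorem leaves_rich (N : ℕ) (qs : List ℕ) (n : ℕ) : Rich qs (leaves N qs n) :=
  (bunch_rich (qs := []) (f := fun _ => nil) (fun _ => trivial) (full_rich qs) N n).1

theorem leaves_edges (N : ℕ) (qs : List ℕ) (s t : ℕ) : ∀ n i, i < N →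
    s(s, n + i) ∈ (leaves N qs n).edges s t ∧ s(n + i, t) ∈ (leaves N qs n).edges s t := by
  induction N with
  | zero => intro n i hi; omega
  | succ N ih =>
    intro n i hi
    simp only [leaves, bunch, edges, add_zero, Multiset.mem_add, Multiset.mem_singleton]
    cases i with
    | zero => simp
    | succ i =>
      have := ih (n + 1) i (by omega)
      have e : n + (i + 1) = n + 1 + i := by ring
      rw [e]
      exact ⟨Or.inr this.1, Or.inr this.2⟩

theorem T.map_edges {W : Type*} (f : V → W) (X : T V) : ∀ s t : V,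
    (X.map f).edges (f s) (f t) = (X.edges s t).map (Sym2.map f) := by
  induction X with
  | nil => intro s t; simp [T.map, edges]
  | node m L R N ihL ihR ihN =>
    intro s t
    simp only [T.map, edges, ihL, ihR, ihN, Multiset.map_add, Multiset.map_singleton,
      Sym2.map_mk]

/-- The hard graph: `n = N + fs qs + 2` vertices. -/
theorem exists_hard {n N : ℕ} {qs : List ℕ} (hn : n = 2 + (N + fs qs)) :
    ∃ (s t : Fin n) (X : T (Fin n)), SeriesParallel (tG s t X) ∧ PIn (tG s t X) s t X ∧
      Rich qs X ∧ s ≠ t ∧ ∃ M : Finset (Fin n), M.card = N ∧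
        ∀ m ∈ M, m ≠ s ∧ m ≠ t ∧ (tG s t X).Adj s m ∧ (tG s t X).Adj m t := by
  classical
  have hn0 : 0 < n := by omega
  set f : ℕ → Fin n := fun i => if h : i < n then ⟨i, h⟩ else ⟨0, hn0⟩ with hf
  have hfi : ∀ i, ∀ h : i < n, f i = ⟨i, h⟩ := fun i h => by simp [hf, h]
  have hinj : ∀ i j, i < n → j < n → f i = f j → i = j := by
    intro i j hi hj h
    rw [hfi i hi, hfi j hj] at h
    exact congrArg Fin.val h
  set Y := leaves N qs 2 with hY
  have hYv : Y.verts = Multiset.Ico 2 n := by rw [hY, leaves_verts, hn]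
  set X := Y.map f with hX
  have hverts : ({f 0} + {f 1} + X.verts : Multiset (Fin n)) =
      (({0} : Multiset ℕ) + {1} + Y.verts).map f := by
    rw [hX, T.map_verts]
    simp only [Multiset.map_add, Multiset.map_singleton]
  have hnd0 : (({0} : Multiset ℕ) + {1} + Y.verts).Nodup := by
    rw [hYv, add_assoc, Multiset.singleton_add, Multiset.singleton_add, Multiset.nodup_cons,
      Multiset.nodup_cons]
    refine ⟨?_, ?_, (Finset.Ico 2 n).nodup⟩
    · rw [Multiset.mem_cons, not_or]
      exact ⟨by norm_num, by rw [Multiset.mem_Ico]; omega⟩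
    · rw [Multiset.mem_Ico]; omega
  have hlt : ∀ i ∈ (({0} : Multiset ℕ) + {1} + Y.verts), i < n := by
    intro i hi
    rw [hYv] at hi
    simp only [Multiset.mem_add, Multiset.mem_singleton, Multiset.mem_Ico] at hi
    omega
  have hnd : ({f 0} + {f 1} + X.verts : Multiset (Fin n)).Nodup := by
    rw [hverts]
    exact Multiset.Nodup.map_on (fun i hi j hj h => hinj i j (hlt i hi) (hlt j hj) h) hnd0
  have hst : f 0 ≠ f 1 := fun h => by
    have := hinj 0 1 (by omega) (by omega) h
    omega
  have hP : PIn (tG (f 0) (f 1) X) (f 0) (f 1) X := by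
    refine ⟨?_, hnd⟩
    intro e he
    induction e using Sym2.ind with
    | _ x y =>
      rw [SimpleGraph.mem_edgeSet, tG_adj]
      refine ⟨Or.inr he, ?_⟩
      rintro rfl
      exact T.no_loop X _ _ hnd x he
  refine ⟨f 0, f 1, X, seriesParallel_tG _ X _ _ rfl hnd, hP,
    (leaves_rich N qs 2).map f, hst, (Finset.range N).image (fun i => f (2 + i)), ?_, ?_⟩
  · rw [Finset.card_image_of_injOn, Finset.card_range]
    intro i hi j hj h
    have hi' : i < N := by simpa using hi
    have hj' : j < N := by simpa using hj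
    have := hinj _ _ (by omega) (by omega) h
    omega
  · intro m hm
    rw [Finset.mem_image] at hm
    obtain ⟨i, hi, rfl⟩ := hm
    rw [Finset.mem_range] at hi
    obtain ⟨h1, h2⟩ := leaves_edges N qs 0 1 2 i hi
    have n0 : f (2 + i) ≠ f 0 := fun h => by
      have := hinj _ _ (by omega) (by omega) h
      omega
    have n1 : f (2 + i) ≠ f 1 := fun h => by
      have := hinj _ _ (by omega) (by omega) h
      omega
    refine ⟨n0, n1, ?_, ?_⟩
    · rw [tG_adj]
      refine ⟨Or.inr ?_, n0.symm⟩
      rw [hX, T.map_edges]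
      exact Multiset.mem_map_of_mem (Sym2.map f) h1
    · rw [tG_adj]
      refine ⟨Or.inr ?_, n1⟩
      rw [hX, T.map_edges]
      exact Multiset.mem_map_of_mem (Sym2.map f) h2

end Pool.Agent.W2helper91.SP
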