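import Mathlib

/-!
# Poly-line grid drawings and series-parallel graphs: definitions
-/

set_option autoImplicit false

namespace Pool.Agent.W2helper91.SP

/-- The point of the plane with the given integer coordinates. -/
def pt (q : ℤ × ℤ) : ℝ × ℝ := ((q.1 : ℝ), (q.2 : ℝ))

/-- The polygonal chain through the points of the list `l`, as a set of points: the union of the
segments between consecutive points. -/
def chain (l : List (ℤ × ℤ)) : Set (ℝ × ℝ) :=
  {q | ∃ i : ℕ, ∃ h : i + 1 < l.length, q ∈ segment ℝ (pt l[i]) (pt l[i + 1])}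

/-- The polygonal chain does not meet itself: two consecutive segments meet only in their common
end, and two other segments are disjoint. -/
def IsSimpleChain (l : List (ℤ × ℤ)) : Prop :=
  ∀ i j : ℕ, ∀ hi : i + 1 < l.length, ∀ hj : j + 1 < l.length, i < j → ∀ q : ℝ × ℝ,
    q ∈ segment ℝ (pt l[i]) (pt l[i + 1]) → q ∈ segment ℝ (pt l[j]) (pt l[j + 1]) →
      j = i + 1 ∧ q = pt l[j]

/-- Poly-line grid drawings: the vertices are at distinct grid points, every edge is a simple
polygonal chain between its ends all of whose bends are grid points (consecutive points of the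
chain are different), an edge contains no vertices besides its ends, and two different edges meet
only in common ends. -/
structure PolylineDrawing {V : Type*} (G : SimpleGraph V) where
  /-- The positions of the vertices. -/
  pos : V → ℤ × ℤ
  /-- The points (ends and bends) of the polygonal chain of an edge. -/
  path : Sym2 V → List (ℤ × ℤ)
  pos_injective : Function.Injective pos
  ends : ∀ e ∈ G.edgeSet, ∃ u v : V, e = s(u, v) ∧ (path e).head? = some (pos u) ∧
    (path e).getLast? = some (pos v)
  proper : ∀ e ∈ G.edgeSet, ∀ i : ℕ, ∀ h : i + 1 < (path e).length, (path e)[i] ≠ (path e)[i + 1]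
  simple : ∀ e ∈ G.edgeSet, IsSimpleChain (path e)
  vertex : ∀ e ∈ G.edgeSet, ∀ w : V, pt (pos w) ∈ chain (path e) → w ∈ e
  cross : ∀ e ∈ G.edgeSet, ∀ f ∈ G.edgeSet, e ≠ f → ∀ q : ℝ × ℝ, q ∈ chain (path e) →
    q ∈ chain (path f) → ∃ w : V, w ∈ e ∧ w ∈ f ∧ q = pt (pos w)

/-- The drawing lies in an axis-parallel rectangle with width `W` and height `H`. -/
def PolylineDrawing.InBox {V : Type*} {G : SimpleGraph V} (D : PolylineDrawing G) (W H : ℕ) :
    Prop :=
  ∃ x y : ℤ, (∀ v : V, x ≤ (D.pos v).1 ∧ (D.pos v).1 ≤ x + W ∧ y ≤ (D.pos v).2 ∧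
      (D.pos v).2 ≤ y + H) ∧
    ∀ e ∈ G.edgeSet, ∀ q ∈ D.path e, x ≤ q.1 ∧ q.1 ≤ x + W ∧ y ≤ q.2 ∧ q.2 ≤ y + H

/-- The graph has a `K₄` minor: there are four disjoint connected sets of vertices (branch sets),
any two of which are joined by an edge. -/
def HasK4Minor {V : Type*} (G : SimpleGraph V) : Prop :=
  ∃ B : Fin 4 → Set V, (∀ i, (G.induce (B i)).Connected) ∧
    (∀ i j, i ≠ j → Disjoint (B i) (B j)) ∧
    ∀ i j, i ≠ j → ∃ x ∈ B i, ∃ y ∈ B j, G.Adj x y

/-- Series-parallel graphs: no `K₄` minor. -/
def SeriesParallel {V : Type*} (G : SimpleGraph V) : Prop := ¬ HasK4Minor G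

/-- The minimum area (width times height) of a poly-line grid drawing of `G`. -/
noncomputable def minArea {V : Type*} (G : SimpleGraph V) : ℕ :=
  sInf {a : ℕ | ∃ D : PolylineDrawing G, ∃ W H : ℕ, D.InBox W H ∧ a = W * H}

/-- `Ap n` is the maximum, over all series-parallel graphs with `n` vertices, of the minimum area
of a poly-line grid drawing. -/
noncomputable def Ap (n : ℕ) : ℕ :=
  sSup {a : ℕ | ∃ G : SimpleGraph (Fin n), SeriesParallel G ∧ a = minArea G}

end Pool.Agent.W2helper91.SP
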