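import Pool.Agent.W2helper91.SP.Defs

/-!
# From visibility layouts to poly-line grid drawings
-/

set_option autoImplicit false

namespace Pool.Agent.W2helper91.SP

/-- A visibility layout of a graph: `P v c` means that the bar of `v` is present in column `c`,
the bars start in column `l v` and are in row `ρ v`; the edge `e` joins `ex e` (below) and `ey e`
(above) in column `ec e`. -/
structure Layout {V : Type*} (G : SimpleGraph V) where
  l : V → ℤ
  ρ : V → ℤ
  P : V → ℤ → Prop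
  ex : Sym2 V → V
  ey : Sym2 V → V
  ec : Sym2 V → ℤ
  le_of_P : ∀ v c, P v c → l v ≤ c
  P_of_le : ∀ v c c', P v c → l v ≤ c' → c' ≤ c → P v c'
  row_inj : ∀ v w c, P v c → P w c → ρ v = ρ w → v = w
  exists_P : ∀ v, ∃ c, P v c
  edge_eq : ∀ e ∈ G.edgeSet, e = s(ex e, ey e)
  Px : ∀ e ∈ G.edgeSet, P (ex e) (ec e)
  Py : ∀ e ∈ G.edgeSet, P (ey e) (ec e)
  lt : ∀ e ∈ G.edgeSet, ρ (ex e) < ρ (ey e)
  vis : ∀ e ∈ G.edgeSet, ∀ v, P v (ec e) → ρ (ex e) < ρ v → ρ v < ρ (ey e) → False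
  col_inj : ∀ e ∈ G.edgeSet, ∀ f ∈ G.edgeSet, ec e = ec f → e = f

theorem mem_segment_pt {p q : ℤ × ℤ} {z : ℝ × ℝ} (h : z ∈ segment ℝ (pt p) (pt q)) :
    ∃ t : ℝ, 0 ≤ t ∧ t ≤ 1 ∧ z.1 = p.1 + (q.1 - p.1) * t ∧ z.2 = p.2 + (q.2 - p.2) * t := by
  obtain ⟨a, b, ha, hb, hab, rfl⟩ := h
  refine ⟨b, hb, by linarith, ?_, ?_⟩
  · simp only [pt, Prod.fst_add, Prod.smul_fst, smul_eq_mul]
    have : a = 1 - b := by linarith
    rw [this]; ring
  · simp only [pt, Prod.snd_add, Prod.smul_snd, smul_eq_mul]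
    have : a = 1 - b := by linarith
    rw [this]; ring

namespace Layout

variable {V : Type*} {G : SimpleGraph V} (K : Layout G)

theorem P_l (v : V) : K.P v (K.l v) := by
  obtain ⟨c, hc⟩ := K.exists_P v
  exact K.P_of_le v c (K.l v) hc le_rfl (K.le_of_P v c hc)

/-- The three kinds of points of an edge. -/
inductive Kind (e : Sym2 V) (z : ℝ × ℝ) : Prop
  | lower (t : ℝ) (h0 : 0 ≤ t) (h1 : t ≤ 1)
      (hx : z.1 = K.l (K.ex e) + ((K.ec e : ℝ) - K.l (K.ex e)) * t)
      (hy : z.2 = 3 * K.ρ (K.ex e) + t)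
  | middle (hx : z.1 = K.ec e) (h0 : 3 * (K.ρ (K.ex e) : ℝ) + 1 ≤ z.2)
      (h1 : z.2 ≤ 3 * (K.ρ (K.ey e) : ℝ) - 1)
  | upper (t : ℝ) (h0 : 0 ≤ t) (h1 : t ≤ 1)
      (hx : z.1 = K.l (K.ey e) + ((K.ec e : ℝ) - K.l (K.ey e)) * t)
      (hy : z.2 = 3 * K.ρ (K.ey e) - t)

/-- The chain of an edge. -/
def path (e : Sym2 V) : List (ℤ × ℤ) :=
  [(K.l (K.ex e), 3 * K.ρ (K.ex e)), (K.ec e, 3 * K.ρ (K.ex e) + 1),
    (K.ec e, 3 * K.ρ (K.ey e) - 1), (K.l (K.ey e), 3 * K.ρ (K.ey e))]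

theorem seg0 (e : Sym2 V) (z : ℝ × ℝ)
    (h : z ∈ segment ℝ (pt (K.l (K.ex e), 3 * K.ρ (K.ex e)))
      (pt (K.ec e, 3 * K.ρ (K.ex e) + 1))) :
    ∃ t : ℝ, 0 ≤ t ∧ t ≤ 1 ∧ z.1 = K.l (K.ex e) + ((K.ec e : ℝ) - K.l (K.ex e)) * t ∧
      z.2 = 3 * K.ρ (K.ex e) + t := by
  obtain ⟨t, h0, h1, h2, h3⟩ := mem_segment_pt h
  refine ⟨t, h0, h1, h2, ?_⟩
  rw [h3]; push_cast; ring

theorem seg1 (e : Sym2 V) (he : e ∈ G.edgeSet) (z : ℝ × ℝ)
    (h : z ∈ segment ℝ (pt (K.ec e, 3 * K.ρ (K.ex e) + 1))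
      (pt (K.ec e, 3 * K.ρ (K.ey e) - 1))) :
    z.1 = K.ec e ∧ 3 * (K.ρ (K.ex e) : ℝ) + 1 ≤ z.2 ∧ z.2 ≤ 3 * (K.ρ (K.ey e) : ℝ) - 1 := by
  obtain ⟨t, h0, h1, h2, h3⟩ := mem_segment_pt h
  have hlt : (K.ρ (K.ex e) : ℝ) + 1 ≤ K.ρ (K.ey e) := by exact_mod_cast K.lt e he
  simp only at h2 h3
  push_cast at h2 h3
  refine ⟨by rw [h2]; ring, ?_, ?_⟩
  · rw [h3]
    nlinarith
  · rw [h3]
    nlinarith

theorem seg2 (e : Sym2 V) (z : ℝ × ℝ)
    (h : z ∈ segment ℝ (pt (K.ec e, 3 * K.ρ (K.ey e) - 1))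
      (pt (K.l (K.ey e), 3 * K.ρ (K.ey e)))) :
    ∃ t : ℝ, 0 ≤ t ∧ t ≤ 1 ∧ z.1 = K.l (K.ey e) + ((K.ec e : ℝ) - K.l (K.ey e)) * t ∧
      z.2 = 3 * K.ρ (K.ey e) - t := by
  obtain ⟨t, h0, h1, h2, h3⟩ := mem_segment_pt h
  simp only at h2 h3
  push_cast at h2 h3
  refine ⟨1 - t, by linarith, by linarith, ?_, ?_⟩
  · rw [h2]; ring
  · rw [h3]; ring

theorem kind (e : Sym2 V) (he : e ∈ G.edgeSet) (z : ℝ × ℝ) (h : z ∈ chain (K.path e)) :
    K.Kind e z := by
  obtain ⟨i, hi, h⟩ := h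
  simp only [path, List.length_cons, List.length_nil] at hi
  have hi' : i < 3 := by omega
  interval_cases i
  · obtain ⟨t, h0, h1, h2, h3⟩ := K.seg0 e z h
    exact Kind.lower t h0 h1 h2 h3
  · obtain ⟨h1, h2, h3⟩ := K.seg1 e he z h
    exact Kind.middle h1 h2 h3
  · obtain ⟨t, h0, h1, h2, h3⟩ := K.seg2 e z h
    exact Kind.upper t h0 h1 h2 h3

/-- The position of a vertex. -/
def pos (v : V) : ℤ × ℤ := (K.l v, 3 * K.ρ v)

theorem pos_injective : Function.Injective K.pos := by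
  intro v w h
  simp only [pos, Prod.mk.injEq] at h
  have h1 := K.P_l v
  have h2 := K.P_l w
  rw [← h.1] at h2
  exact K.row_inj v w _ h1 h2 (by omega)

theorem simple (e : Sym2 V) (he : e ∈ G.edgeSet) : IsSimpleChain (K.path e) := by
  have hlt : (K.ρ (K.ex e) : ℝ) + 1 ≤ K.ρ (K.ey e) := by exact_mod_cast K.lt e he
  intro i j hi hj hij q h1 h2
  simp only [path, List.length_cons, List.length_nil] at hi hj
  have hj' : j < 3 := by omega
  have hi' : i < j := hij
  interval_cases j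
  · omega
  · have : i = 0 := by omega
    subst this
    obtain ⟨t, g0, g1, g2, g3⟩ := K.seg0 e q h1
    obtain ⟨k1, k2, k3⟩ := K.seg1 e he q h2
    refine ⟨rfl, ?_⟩
    have : t = 1 := by linarith
    subst this
    simp only [path, List.getElem_cons_succ, List.getElem_cons_zero, pt]
    refine Prod.ext k1 ?_
    simp only
    push_cast
    rw [g3]
  · interval_cases i
    · obtain ⟨t, g0, g1, g2, g3⟩ := K.seg0 e q h1
      obtain ⟨t', k0, k1, k2, k3⟩ := K.seg2 e q h2
      exfalso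
      linarith
    · obtain ⟨g1, g2, g3⟩ := K.seg1 e he q h1
      obtain ⟨t', k0, k1, k2, k3⟩ := K.seg2 e q h2
      refine ⟨rfl, ?_⟩
      have : t' = 1 := by linarith
      subst this
      simp only [path, List.getElem_cons_succ, List.getElem_cons_zero, pt]
      refine Prod.ext g1 ?_
      simp only
      push_cast
      rw [k3]

theorem le_cast {a b : ℤ} {x : ℝ} (h1 : (a : ℝ) ≤ x) (h2 : x < b + 1) : a ≤ b := by
  have : (a : ℝ) < b + 1 := lt_of_le_of_lt h1 h2
  have : a < b + 1 := by exact_mod_cast this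
  omega

theorem vertex (e : Sym2 V) (he : e ∈ G.edgeSet) (w : V) (h : pt (K.pos w) ∈ chain (K.path e)) :
    w ∈ e := by
  have hk := K.kind e he _ h
  rw [K.edge_eq e he]
  simp only [Sym2.mem_iff]
  cases hk with
  | lower t h0 h1 hx hy =>
    simp only [pt, pos] at hx hy
    push_cast at hy
    have hr : K.ρ w = K.ρ (K.ex e) := by
      have a1 : (3 * K.ρ w : ℤ) ≤ 3 * K.ρ (K.ex e) + 1 := by
        have : (3 * K.ρ w : ℝ) ≤ 3 * K.ρ (K.ex e) + 1 := by linarith
        exact_mod_cast this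
      have a2 : (3 * K.ρ (K.ex e) : ℤ) ≤ 3 * K.ρ w := by
        have : (3 * K.ρ (K.ex e) : ℝ) ≤ 3 * K.ρ w := by linarith
        exact_mod_cast this
      omega
    rw [hr] at hy
    have ht : t = 0 := by linarith
    subst ht
    left
    apply K.pos_injective
    simp only [pos, Prod.mk.injEq]
    refine ⟨?_, by omega⟩
    have : (K.l w : ℝ) = K.l (K.ex e) := by rw [hx]; ring
    exact_mod_cast this
  | middle hx h0 h1 =>
    exfalso
    simp only [pt, pos] at hx h0 h1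
    have hx' : K.l w = K.ec e := by exact_mod_cast hx
    push_cast at h0 h1
    have a1 : K.ρ (K.ex e) < K.ρ w := by
      have : (K.ρ (K.ex e) : ℝ) < K.ρ w := by linarith
      exact_mod_cast this
    have a2 : K.ρ w < K.ρ (K.ey e) := by
      have : (K.ρ w : ℝ) < K.ρ (K.ey e) := by linarith
      exact_mod_cast this
    have := K.P_l w
    rw [hx'] at this
    exact K.vis e he w this (by omega) (by omega)
  | upper t h0 h1 hx hy =>
    simp only [pt, pos] at hx hy
    push_cast at hy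
    have hr : K.ρ w = K.ρ (K.ey e) := by
      have a1 : (3 * K.ρ w : ℤ) ≤ 3 * K.ρ (K.ey e) := by
        have : (3 * K.ρ w : ℝ) ≤ 3 * K.ρ (K.ey e) := by linarith
        exact_mod_cast this
      have a2 : (3 * K.ρ (K.ey e) : ℤ) - 1 ≤ 3 * K.ρ w := by
        have : (3 * K.ρ (K.ey e) : ℝ) - 1 ≤ 3 * K.ρ w := by linarith
        exact_mod_cast this
      omega
    rw [hr] at hy
    have ht : t = 0 := by linarith
    subst ht
    right
    apply K.pos_injective
    simp only [pos, Prod.mk.injEq]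
    refine ⟨?_, by omega⟩
    have : (K.l w : ℝ) = K.l (K.ey e) := by rw [hx]; ring
    exact_mod_cast this

/-- Two bars in the same row that reach the same abscissa are the same bar. -/
theorem same_bar {v w : V} {c c' : ℤ} (hv : K.P v c) (hw : K.P w c') (hr : K.ρ v = K.ρ w)
    {t t' X : ℝ} (h0 : 0 ≤ t) (h1 : t ≤ 1) (h0' : 0 ≤ t') (h1' : t' ≤ 1)
    (hX : X = K.l v + ((c : ℝ) - K.l v) * t) (hX' : X = K.l w + ((c' : ℝ) - K.l w) * t') :
    v = w := by
  have e1 : (K.l v : ℝ) ≤ c := by exact_mod_cast K.le_of_P v c hv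
  have e2 : (K.l w : ℝ) ≤ c' := by exact_mod_cast K.le_of_P w c' hw
  have b1 : (K.l v : ℝ) ≤ X := by rw [hX]; nlinarith
  have b2 : X ≤ c := by rw [hX]; nlinarith
  have b3 : (K.l w : ℝ) ≤ X := by rw [hX']; nlinarith
  have b4 : X ≤ c' := by rw [hX']; nlinarith
  rcases le_total (K.l v) (K.l w) with h | h
  · have : K.l w ≤ c := by
      have : (K.l w : ℝ) ≤ c := by linarith
      exact_mod_cast this
    exact K.row_inj v w (K.l w) (K.P_of_le v c _ hv h this) (K.P_l w) hr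
  · have : K.l v ≤ c' := by
      have : (K.l v : ℝ) ≤ c' := by linarith
      exact_mod_cast this
    exact K.row_inj v w (K.l v) (K.P_l v) (K.P_of_le w c' _ hw h this) hr

/-- A slanted segment of a bar does not meet the vertical line of another edge. -/
theorem slant_middle {v : V} {c : ℤ} (hv : K.P v c) {f : Sym2 V} (hf : f ∈ G.edgeSet)
    (hc : c ≠ K.ec f) {t : ℝ} {z : ℝ × ℝ} (h0 : 0 ≤ t) (h1 : t ≤ 1)
    (hX : z.1 = K.l v + ((c : ℝ) - K.l v) * t)
    (hY : z.2 = 3 * K.ρ v + t ∨ z.2 = 3 * K.ρ v - t)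
    (hx : z.1 = K.ec f) (g0 : 3 * (K.ρ (K.ex f) : ℝ) + 1 ≤ z.2)
    (g1 : z.2 ≤ 3 * (K.ρ (K.ey f) : ℝ) - 1) : False := by
  have e1 : (K.l v : ℝ) ≤ c := by exact_mod_cast K.le_of_P v c hv
  have b1 : (K.l v : ℝ) ≤ K.ec f := by rw [← hx, hX]; nlinarith
  have b2 : (K.ec f : ℝ) ≤ c := by rw [← hx, hX]; nlinarith
  have hP := K.P_of_le v c (K.ec f) hv (by exact_mod_cast b1) (by exact_mod_cast b2)
  have hne : t ≠ 1 := by
    rintro rfl
    apply hc
    have : (c : ℝ) = K.ec f := by rw [← hx, hX]; ring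
    exact_mod_cast this
  have ht : t < 1 := lt_of_le_of_ne h1 hne
  rcases hY with hY | hY
  · have a1 : K.ρ (K.ex f) < K.ρ v := by
      have : (K.ρ (K.ex f) : ℝ) < K.ρ v := by linarith
      exact_mod_cast this
    have a2 : K.ρ v < K.ρ (K.ey f) := by
      have : (K.ρ v : ℝ) < K.ρ (K.ey f) := by linarith
      exact_mod_cast this
    exact K.vis f hf v hP a1 a2
  · have a1 : K.ρ (K.ex f) < K.ρ v := by
      have : (K.ρ (K.ex f) : ℝ) < K.ρ v := by linarith
      exact_mod_cast this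
    have a2 : K.ρ v < K.ρ (K.ey f) := by
      have : (K.ρ v : ℝ) < K.ρ (K.ey f) := by linarith
      exact_mod_cast this
    exact K.vis f hf v hP a1 a2

theorem cross (e : Sym2 V) (he : e ∈ G.edgeSet) (f : Sym2 V) (hf : f ∈ G.edgeSet) (hef : e ≠ f)
    (z : ℝ × ℝ) (h1 : z ∈ chain (K.path e)) (h2 : z ∈ chain (K.path f)) :
    ∃ w : V, w ∈ e ∧ w ∈ f ∧ z = pt (K.pos w) := by
  have hc : K.ec e ≠ K.ec f := fun h => hef (K.col_inj e he f hf h)
  have hcR : (K.ec e : ℝ) ≠ K.ec f := by exact_mod_cast hc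
  have mex : K.ex e ∈ e := by
    have := Sym2.mem_mk_left (K.ex e) (K.ey e)
    rwa [← K.edge_eq e he] at this
  have mey : K.ey e ∈ e := by
    have := Sym2.mem_mk_right (K.ex e) (K.ey e)
    rwa [← K.edge_eq e he] at this
  have mfx : K.ex f ∈ f := by
    have := Sym2.mem_mk_left (K.ex f) (K.ey f)
    rwa [← K.edge_eq f hf] at this
  have mfy : K.ey f ∈ f := by
    have := Sym2.mem_mk_right (K.ex f) (K.ey f)
    rwa [← K.edge_eq f hf] at this
  have k1 := K.kind e he z h1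
  have k2 := K.kind f hf z h2
  cases k1 with
  | lower t h0 h1 hx hy =>
    cases k2 with
    | lower t' h0' h1' hx' hy' =>
      have hr : K.ρ (K.ex e) = K.ρ (K.ex f) := by
        have a1 : (3 * K.ρ (K.ex e) : ℤ) ≤ 3 * K.ρ (K.ex f) + 1 := by
          have : (3 * K.ρ (K.ex e) : ℝ) ≤ 3 * K.ρ (K.ex f) + 1 := by linarith
          exact_mod_cast this
        have a2 : (3 * K.ρ (K.ex f) : ℤ) ≤ 3 * K.ρ (K.ex e) + 1 := by
          have : (3 * K.ρ (K.ex f) : ℝ) ≤ 3 * K.ρ (K.ex e) + 1 := by linarith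
          exact_mod_cast this
        omega
      have hv := K.same_bar (K.Px e he) (K.Px f hf) hr h0 h1 h0' h1' hx hx'
      have htt : t = t' := by rw [hr] at hy; linarith
      subst htt
      rw [hv] at hx
      have : ((K.ec e : ℝ) - K.ec f) * t = 0 := by linarith
      have ht : t = 0 := by
        rcases mul_eq_zero.1 this with h | h
        · exact absurd (sub_eq_zero.1 h) hcR
        · exact h
      subst ht
      refine ⟨K.ex e, mex, by rw [hv]; exact mfx, ?_⟩
      refine Prod.ext ?_ ?_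
      · simp only [pt, pos]; rw [hv, hx']; ring
      · simp only [pt, pos]; rw [hy]; push_cast; ring
    | middle hx' g0 g1 =>
      exact (K.slant_middle (K.Px e he) hf hc h0 h1 hx (Or.inl hy) hx' g0 g1).elim
    | upper t' h0' h1' hx' hy' =>
      have hr : K.ρ (K.ex e) = K.ρ (K.ey f) := by
        have a1 : (3 * K.ρ (K.ex e) : ℤ) ≤ 3 * K.ρ (K.ey f) := by
          have : (3 * K.ρ (K.ex e) : ℝ) ≤ 3 * K.ρ (K.ey f) := by linarith
          exact_mod_cast this
        have a2 : (3 * K.ρ (K.ey f) : ℤ) ≤ 3 * K.ρ (K.ex e) + 2 := by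
          have : (3 * K.ρ (K.ey f) : ℝ) ≤ 3 * K.ρ (K.ex e) + 2 := by linarith
          exact_mod_cast this
        omega
      have ht : t = 0 := by rw [hr] at hy; linarith
      have ht' : t' = 0 := by rw [hr] at hy; linarith
      have hv := K.same_bar (K.Px e he) (K.Py f hf) hr h0 h1 h0' h1' hx hx'
      subst ht
      refine ⟨K.ex e, mex, by rw [hv]; exact mfy, ?_⟩
      refine Prod.ext ?_ ?_
      · simp only [pt, pos]; rw [hx]; ring
      · simp only [pt, pos]; rw [hy]; push_cast; ring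
  | middle hx g0 g1 =>
    cases k2 with
    | lower t' h0' h1' hx' hy' =>
      exact (K.slant_middle (K.Px f hf) he hc.symm h0' h1' hx' (Or.inl hy') hx g0 g1).elim
    | middle hx' g0' g1' => exact absurd (hx.symm.trans hx') hcR
    | upper t' h0' h1' hx' hy' =>
      exact (K.slant_middle (K.Py f hf) he hc.symm h0' h1' hx' (Or.inr hy') hx g0 g1).elim
  | upper t h0 h1 hx hy =>
    cases k2 with
    | lower t' h0' h1' hx' hy' =>
      have hr : K.ρ (K.ey e) = K.ρ (K.ex f) := by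
        have a1 : (3 * K.ρ (K.ex f) : ℤ) ≤ 3 * K.ρ (K.ey e) := by
          have : (3 * K.ρ (K.ex f) : ℝ) ≤ 3 * K.ρ (K.ey e) := by linarith
          exact_mod_cast this
        have a2 : (3 * K.ρ (K.ey e) : ℤ) ≤ 3 * K.ρ (K.ex f) + 2 := by
          have : (3 * K.ρ (K.ey e) : ℝ) ≤ 3 * K.ρ (K.ex f) + 2 := by linarith
          exact_mod_cast this
        omega
      have ht : t = 0 := by rw [hr] at hy; linarith
      have ht' : t' = 0 := by rw [hr] at hy; linarith
      have hv := K.same_bar (K.Py e he) (K.Px f hf) hr h0 h1 h0' h1' hx hx'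
      subst ht
      refine ⟨K.ey e, mey, by rw [hv]; exact mfx, ?_⟩
      refine Prod.ext ?_ ?_
      · simp only [pt, pos]; rw [hx]; ring
      · simp only [pt, pos]; rw [hy]; push_cast; ring
    | middle hx' g0 g1 =>
      exact (K.slant_middle (K.Py e he) hf hc h0 h1 hx (Or.inr hy) hx' g0 g1).elim
    | upper t' h0' h1' hx' hy' =>
      have hr : K.ρ (K.ey e) = K.ρ (K.ey f) := by
        have a1 : (3 * K.ρ (K.ey e) : ℤ) ≤ 3 * K.ρ (K.ey f) + 1 := by
          have : (3 * K.ρ (K.ey e) : ℝ) ≤ 3 * K.ρ (K.ey f) + 1 := by linarith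
          exact_mod_cast this
        have a2 : (3 * K.ρ (K.ey f) : ℤ) ≤ 3 * K.ρ (K.ey e) + 1 := by
          have : (3 * K.ρ (K.ey f) : ℝ) ≤ 3 * K.ρ (K.ey e) + 1 := by linarith
          exact_mod_cast this
        omega
      have hv := K.same_bar (K.Py e he) (K.Py f hf) hr h0 h1 h0' h1' hx hx'
      have htt : t = t' := by rw [hr] at hy; linarith
      subst htt
      rw [hv] at hx
      have : ((K.ec e : ℝ) - K.ec f) * t = 0 := by linarith
      have ht : t = 0 := by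
        rcases mul_eq_zero.1 this with h | h
        · exact absurd (sub_eq_zero.1 h) hcR
        · exact h
      subst ht
      refine ⟨K.ey e, mey, by rw [hv]; exact mfy, ?_⟩
      refine Prod.ext ?_ ?_
      · simp only [pt, pos]; rw [hv, hx']; ring
      · simp only [pt, pos]; rw [hy]; push_cast; ring

/-- The poly-line grid drawing of a layout. -/
def drawing : PolylineDrawing G where
  pos := K.pos
  path := K.path
  pos_injective := K.pos_injective
  ends := fun e he => ⟨K.ex e, K.ey e, K.edge_eq e he, rfl, rfl⟩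
  proper := by
    intro e he i hi
    have hlt := K.lt e he
    simp only [path, List.length_cons, List.length_nil] at hi
    have hi' : i < 3 := by omega
    simp only [path]
    interval_cases i <;> simp only [List.getElem_cons_succ, List.getElem_cons_zero, ne_eq,
      Prod.mk.injEq, not_and] <;> omega
  simple := K.simple
  vertex := K.vertex
  cross := K.cross

theorem drawing_inBox {W H : ℕ} (hl : ∀ v, 0 ≤ K.l v) (hP : ∀ v c, K.P v c → c ≤ W)
    (hρ : ∀ v, 0 ≤ K.ρ v ∧ K.ρ v ≤ H) : K.drawing.InBox W (3 * H) := by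
  have hlW : ∀ v, K.l v ≤ W := fun v => hP v _ (K.P_l v)
  refine ⟨0, 0, ?_, ?_⟩
  · intro v
    have h1 := hl v
    have h2 := hlW v
    have h3 := hρ v
    simp only [drawing, pos]
    push_cast
    omega
  · intro e he q hq
    have h1 := hl (K.ex e)
    have h2 := hlW (K.ex e)
    have h3 := hρ (K.ex e)
    have h4 := hl (K.ey e)
    have h5 := hlW (K.ey e)
    have h6 := hρ (K.ey e)
    have h7 := K.lt e he
    have h8 := hP _ _ (K.Px e he)
    have h9 := K.le_of_P _ _ (K.Px e he)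
    simp only [drawing, path, List.mem_cons, List.not_mem_nil, or_false] at hq
    push_cast
    rcases hq with rfl | rfl | rfl | rfl <;> simp only <;> omega

end Layout

end Pool.Agent.W2helper91.SP
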