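import Pool.Agent.W2helper91.SP.Spine
import Pool.Agent.W2helper91.SP.Draw

/-!
# From sweeps to visibility layouts
-/

set_option autoImplicit false

namespace Pool.Agent.W2helper91.SP

variable {V : Type*}

/-- A column: the bars that are present and the edge that is drawn (its lower and upper end). -/
abbrev Column (V : Type*) := Set (V × ℤ) × V × V

/-- Properties of the columns drawn so far (the newest column is the first one). -/
structure Hist (lo hi : ℤ) (S : Set (V × ℤ)) (Used : Set V) (cols : List (Column V)) : Prop where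
  edge : ∀ c ∈ cols, ∃ rx ry : ℤ, (c.2.1, rx) ∈ c.1 ∧ (c.2.2, ry) ∈ c.1 ∧ lo ≤ rx ∧ rx < ry ∧
    ry ≤ hi ∧ ∀ p ∈ c.1, ¬ (rx < p.2 ∧ p.2 < ry)
  uniq : ∀ c ∈ cols, ∀ c' ∈ cols, ∀ p ∈ c.1, ∀ q ∈ c'.1, p.1 = q.1 → p = q
  rows : ∀ c ∈ cols, ∀ p ∈ c.1, ∀ q ∈ c.1, p.2 = q.2 → p = q
  contig : ∀ i j k : ℕ, ∀ hi : i < cols.length, ∀ hj : j < cols.length, ∀ hk : k < cols.length,
    i ≤ j → j ≤ k → ∀ p : V × ℤ, p ∈ (cols[i]).1 → p ∈ (cols[k]).1 → p ∈ (cols[j]).1
  rowsS : ∀ p ∈ S, ∀ q ∈ S, p.2 = q.2 → p = q
  uniqS : ∀ p ∈ S, ∀ q ∈ S, p.1 = q.1 → p = q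
  uniqS' : ∀ p ∈ S, ∀ c ∈ cols, ∀ q ∈ c.1, p.1 = q.1 → p = q
  openS : ∀ j k : ℕ, ∀ hj : j < cols.length, ∀ hk : k < cols.length, j ≤ k →
    ∀ p ∈ S, p ∈ (cols[k]).1 → p ∈ (cols[j]).1
  usedS : ∀ p ∈ S, p.1 ∈ Used
  used : ∀ c ∈ cols, ∀ p ∈ c.1, p.1 ∈ Used
  bounds : ∀ c ∈ cols, ∀ p ∈ c.1, lo ≤ p.2 ∧ p.2 ≤ hi
  boundsS : ∀ p ∈ S, lo ≤ p.2 ∧ p.2 ≤ hi

/-- The edges of a list of columns. -/
def colEdges (cols : List (Column V)) : Multiset (Sym2 V) :=
  Multiset.ofList (cols.map fun c => s(c.2.1, c.2.2))

theorem colEdges_cons (c : Column V) (cols : List (Column V)) :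
    colEdges (c :: cols) = {s(c.2.1, c.2.2)} + colEdges cols := rfl

theorem Hist.empty (lo hi : ℤ) : Hist (V := V) lo hi ∅ ∅ [] where
  edge := by simp
  uniq := by simp
  rows := by simp
  contig := by intro i j k hi; simp at hi
  rowsS := by simp
  uniqS := by simp
  uniqS' := by simp
  openS := by intro i j hi; simp at hi
  usedS := by simp
  used := by simp
  bounds := by simp
  boundsS := by simp

theorem Sweep.hist {lo hi : ℤ} {S S' : Set (V × ℤ)} {U : Multiset V} {E : Multiset (Sym2 V)}
    (h : Sweep lo hi S U E S') :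
    ∀ (Used : Set V) (cols : List (Column V)), Hist lo hi S Used cols → U.Nodup →
      (∀ v ∈ U, v ∉ Used) →
      ∃ cols', Hist lo hi S' (Used ∪ {v | v ∈ U}) cols' ∧
        colEdges cols' = colEdges cols + E := by
  induction h with
  | edge S x y rx ry hx hy hlo hlt hhi hvis =>
    intro Used cols H _ _
    refine ⟨(S, x, y) :: cols, ?_, ?_⟩
    · have hU : Used ∪ {v : V | v ∈ (0 : Multiset V)} = Used := by ext v; simp
      rw [hU]
      constructor
      · intro c hc
        rcases List.mem_cons.1 hc with rfl | hc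
        · exact ⟨rx, ry, hx, hy, hlo, hlt, hhi, hvis⟩
        · exact H.edge c hc
      · intro c hc c' hc' p hp q hq hpq
        rcases List.mem_cons.1 hc with rfl | hc
        · rcases List.mem_cons.1 hc' with rfl | hc'
          · exact H.uniqS p hp q hq hpq
          · exact H.uniqS' p hp c' hc' q hq hpq
        · rcases List.mem_cons.1 hc' with rfl | hc'
          · exact (H.uniqS' q hq c hc p hp hpq.symm).symm
          · exact H.uniq c hc c' hc' p hp q hq hpq
      · intro c hc p hp q hq hpq
        rcases List.mem_cons.1 hc with rfl | hc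
        · exact H.rowsS p hp q hq hpq
        · exact H.rows c hc p hp q hq hpq
      · intro i j k hi hj hk hij hjk p hpi hpk
        match i, j, k with
        | 0, 0, _ => exact hpi
        | 0, j + 1, 0 => omega
        | 0, j + 1, k + 1 =>
          simp only [List.getElem_cons_zero, List.getElem_cons_succ] at hpi hpk ⊢
          simp only [List.length_cons] at hj hk
          exact H.openS j k (by omega) (by omega) (by omega) p hpi hpk
        | i + 1, 0, _ => omega
        | i + 1, j + 1, 0 => omega
        | i + 1, j + 1, k + 1 =>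
          simp only [List.getElem_cons_succ] at hpi hpk ⊢
          simp only [List.length_cons] at hi hj hk
          exact H.contig i j k (by omega) (by omega) (by omega) (by omega) (by omega) p hpi hpk
      · exact H.rowsS
      · exact H.uniqS
      · intro p hp c hc q hq hpq
        rcases List.mem_cons.1 hc with rfl | hc
        · exact H.uniqS p hp q hq hpq
        · exact H.uniqS' p hp c hc q hq hpq
      · intro j k hj hk hjk p hp hpk
        match j, k with
        | 0, _ => exact hp
        | j + 1, 0 => omega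
        | j + 1, k + 1 =>
          simp only [List.getElem_cons_succ] at hpk ⊢
          simp only [List.length_cons] at hj hk
          exact H.openS j k (by omega) (by omega) (by omega) p hp hpk
      · exact H.usedS
      · intro c hc p hp
        rcases List.mem_cons.1 hc with rfl | hc
        · exact H.usedS p hp
        · exact H.used c hc p hp
      · intro c hc p hp
        rcases List.mem_cons.1 hc with rfl | hc
        · exact H.boundsS p hp
        · exact H.bounds c hc p hp
      · exact H.boundsS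
    · rw [colEdges_cons]
      abel
  | add S v y hlo hhi hfree =>
    intro Used cols H _ hU
    have hv : v ∉ Used := hU v (by simp)
    refine ⟨cols, ?_, by simp⟩
    constructor
    · exact H.edge
    · exact H.uniq
    · exact H.rows
    · exact H.contig
    · intro p hp q hq hpq
      rcases Set.mem_insert_iff.1 hp with rfl | hp
      · rcases Set.mem_insert_iff.1 hq with rfl | hq
        · rfl
        · exact absurd hpq.symm (hfree q hq)
      · rcases Set.mem_insert_iff.1 hq with rfl | hq
        · exact absurd hpq (hfree p hp)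
        · exact H.rowsS p hp q hq hpq
    · intro p hp q hq hpq
      rcases Set.mem_insert_iff.1 hp with rfl | hp
      · rcases Set.mem_insert_iff.1 hq with rfl | hq
        · rfl
        · exact absurd (by rw [show v = q.1 from hpq]; exact H.usedS q hq) hv
      · rcases Set.mem_insert_iff.1 hq with rfl | hq
        · exact absurd (by rw [show v = p.1 from hpq.symm]; exact H.usedS p hp) hv
        · exact H.uniqS p hp q hq hpq
    · intro p hp c hc q hq hpq
      rcases Set.mem_insert_iff.1 hp with rfl | hp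
      · exact absurd (by rw [show v = q.1 from hpq]; exact H.used c hc q hq) hv
      · exact H.uniqS' p hp c hc q hq hpq
    · intro j k hj hk hjk p hp hpk
      rcases Set.mem_insert_iff.1 hp with rfl | hp
      · exact absurd (H.used _ (List.getElem_mem hk) _ hpk) hv
      · exact H.openS j k hj hk hjk p hp hpk
    · intro p hp
      rcases Set.mem_insert_iff.1 hp with rfl | hp
      · right; simp
      · left; exact H.usedS p hp
    · intro c hc p hp
      left; exact H.used c hc p hp
    · exact H.bounds
    · intro p hp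
      rcases Set.mem_insert_iff.1 hp with rfl | hp
      · exact ⟨hlo, hhi⟩
      · exact H.boundsS p hp
  | drop S S' hS =>
    intro Used cols H _ _
    refine ⟨cols, ?_, by simp⟩
    have hU : Used ∪ {v : V | v ∈ (0 : Multiset V)} = Used := by ext v; simp
    rw [hU]
    exact ⟨H.edge, H.uniq, H.rows, H.contig,
      fun p hp q hq => H.rowsS p (hS hp) q (hS hq),
      fun p hp q hq => H.uniqS p (hS hp) q (hS hq),
      fun p hp => H.uniqS' p (hS hp),
      fun j k hj hk hjk p hp => H.openS j k hj hk hjk p (hS hp),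
      fun p hp => H.usedS p (hS hp), H.used, H.bounds, fun p hp => H.boundsS p (hS hp)⟩
  | trans S S' S'' U U' E E' _ _ ih ih' =>
    intro Used cols H hnd hU
    rw [Multiset.nodup_add] at hnd
    obtain ⟨h1, h2, h3⟩ := hnd
    obtain ⟨cols1, H1, e1⟩ := ih Used cols H h1 (fun v hv => hU v (Multiset.mem_add.2 (Or.inl hv)))
    obtain ⟨cols2, H2, e2⟩ := ih' _ cols1 H1 h2 (by
      intro v hv
      rintro (h | h)
      · exact hU v (Multiset.mem_add.2 (Or.inr hv)) h
      · exact Multiset.disjoint_left.1 h3 h hv)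
    refine ⟨cols2, ?_, ?_⟩
    · have : Used ∪ {v | v ∈ U + U'} = Used ∪ {v | v ∈ U} ∪ {v | v ∈ U'} := by
        ext v
        simp [Multiset.mem_add, or_assoc]
      rw [this]
      exact H2
    · rw [e2, e1, add_assoc]

open Classical in
/-- The drawing obtained from a sweep that starts with the empty state. -/
theorem exists_drawing (G : SimpleGraph V) {H : ℕ} {U : Multiset V} {E : Multiset (Sym2 V)}
    {S' : Set (V × ℤ)} (h : Sweep 0 H ∅ U E S') (hU : U.Nodup) (hE : ∀ e ∈ G.edgeSet, e ∈ E)
    (hV : ∀ v : V, ∃ e ∈ E, v ∈ e) :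
    ∃ D : PolylineDrawing G, D.InBox E.card (3 * H) := by
  obtain ⟨cols, K, hcols⟩ := h.hist ∅ [] (Hist.empty 0 H) hU (by simp)
  have hcols' : colEdges cols = E := by
    rw [hcols]
    simp [colEdges]
  have hmem : ∀ e ∈ E, ∃ i : ℕ, ∃ hi : i < cols.length,
      s((cols[i]).2.1, (cols[i]).2.2) = e := by
    intro e he
    rw [← hcols', colEdges, Multiset.mem_coe, List.mem_map] at he
    obtain ⟨c, hc, rfl⟩ := he
    obtain ⟨i, hi, rfl⟩ := List.mem_iff_getElem.1 hc
    exact ⟨i, hi, rfl⟩
  have hlen : cols.length = E.card := by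
    rw [← hcols', colEdges, Multiset.coe_card, List.length_map]
  have hrow : ∀ v : V, ∃ y : ℤ, ∃ i : ℕ, ∃ hi : i < cols.length, (v, y) ∈ (cols[i]).1 := by
    intro v
    obtain ⟨e, he, hve⟩ := hV v
    obtain ⟨i, hi, rfl⟩ := hmem e he
    obtain ⟨rx, ry, g1, g2, -⟩ := K.edge _ (List.getElem_mem hi)
    rcases Sym2.mem_iff.1 hve with rfl | rfl
    · exact ⟨rx, i, hi, g1⟩
    · exact ⟨ry, i, hi, g2⟩
  choose row hrow using hrow
  have huniq : ∀ v y i, ∀ hi : i < cols.length, (v, y) ∈ (cols[i]).1 → y = row v := by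
    intro v y i hi hv
    obtain ⟨j, hj, hv'⟩ := hrow v
    have := K.uniq _ (List.getElem_mem hi) _ (List.getElem_mem hj) _ hv _ hv' rfl
    exact (Prod.mk.inj this).2
  have hfind : ∀ v : V, ∃ i : ℕ, ∃ hi : i < cols.length, (v, row v) ∈ (cols[i]).1 := hrow
  choose! idx hidx using fun (e : Sym2 V) (he : e ∈ G.edgeSet) => hmem e (hE e he)
  let L : Layout G :=
    { l := fun v => (Nat.find (hfind v) : ℤ)
      ρ := row
      P := fun v c => ∃ i : ℕ, ∃ hi : i < cols.length, c = i ∧ (v, row v) ∈ (cols[i]).1
      ex := fun e => if h : idx e < cols.length then (cols[idx e]).2.1 else e.out.1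
      ey := fun e => if h : idx e < cols.length then (cols[idx e]).2.2 else e.out.1
      ec := fun e => (idx e : ℤ)
      le_of_P := by
        rintro v c ⟨i, hi, rfl, hv⟩
        have := Nat.find_min' (hfind v) ⟨hi, hv⟩
        exact_mod_cast this
      P_of_le := by
        rintro v c c' ⟨k, hk, rfl, hv⟩ h1 h2
        obtain ⟨j, rfl⟩ : ∃ j : ℕ, c' = j := ⟨c'.toNat, by omega⟩
        obtain ⟨hi, hvi⟩ := Nat.find_spec (hfind v)
        refine ⟨j, by omega, rfl, ?_⟩
        exact K.contig _ j k hi (by omega) hk (by exact_mod_cast h1) (by exact_mod_cast h2) _ hvi hv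
      row_inj := by
        rintro v w c ⟨i, hi, rfl, hv⟩ ⟨j, hj, hij, hw⟩ hr
        have : i = j := by exact_mod_cast hij
        subst this
        have := K.rows _ (List.getElem_mem hi) _ hv _ hw hr
        exact (Prod.mk.inj this).1
      exists_P := by
        intro v
        obtain ⟨i, hi, hv⟩ := hfind v
        exact ⟨i, i, hi, rfl, hv⟩
      edge_eq := by
        intro e he
        obtain ⟨hi, h⟩ := hidx e he
        simp only [hi, dif_pos]
        exact h.symm
      Px := by
        intro e he
        obtain ⟨hi, h⟩ := hidx e he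
        simp only [hi, dif_pos]
        obtain ⟨rx, ry, g1, g2, -⟩ := K.edge _ (List.getElem_mem hi)
        have := huniq _ _ _ hi g1
        subst this
        exact ⟨idx e, hi, rfl, g1⟩
      Py := by
        intro e he
        obtain ⟨hi, h⟩ := hidx e he
        simp only [hi, dif_pos]
        obtain ⟨rx, ry, g1, g2, -⟩ := K.edge _ (List.getElem_mem hi)
        have := huniq _ _ _ hi g2
        subst this
        exact ⟨idx e, hi, rfl, g2⟩
      lt := by
        intro e he
        obtain ⟨hi, h⟩ := hidx e he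
        simp only [hi, dif_pos]
        obtain ⟨rx, ry, g1, g2, g3, g4, g5, g6⟩ := K.edge _ (List.getElem_mem hi)
        have h1 := huniq _ _ _ hi g1
        have h2 := huniq _ _ _ hi g2
        rw [← h1, ← h2]
        exact g4
      vis := by
        intro e he
        obtain ⟨hi, h⟩ := hidx e he
        simp only [hi, dif_pos]
        obtain ⟨rx, ry, g1, g2, g3, g4, g5, g6⟩ := K.edge _ (List.getElem_mem hi)
        have h1 := huniq _ _ _ hi g1
        have h2 := huniq _ _ _ hi g2
        rw [← h1, ← h2]
        rintro v ⟨j, hj, hij, hv⟩ k1 k2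
        have : idx e = j := by exact_mod_cast hij
        subst this
        exact g6 _ hv ⟨k1, k2⟩
      col_inj := by
        intro e he f hf hef
        obtain ⟨hi, h⟩ := hidx e he
        obtain ⟨hj, h'⟩ := hidx f hf
        have : idx e = idx f := by exact_mod_cast hef
        rw [← h, ← h']
        simp only [this] }
  refine ⟨L.drawing, L.drawing_inBox ?_ ?_ ?_⟩
  · intro v
    exact Int.natCast_nonneg _
  · rintro v c ⟨i, hi, rfl, -⟩
    rw [← hlen]
    exact_mod_cast hi.le
  · intro v
    obtain ⟨i, hi, hv⟩ := hfind v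
    exact K.bounds _ (List.getElem_mem hi) _ hv

/-- Every inner vertex of a piece is on an edge of the piece. -/
theorem T.exists_edge (X : T V) (s t v : V) (hv : v ∈ X.verts) : ∃ e ∈ X.edges s t, v ∈ e := by
  induction X generalizing s t with
  | nil => simp [T.verts] at hv
  | node m L R N ihL ihR ihN =>
    simp only [T.verts, Multiset.mem_add, Multiset.mem_singleton] at hv
    simp only [T.edges, Multiset.mem_add, Multiset.mem_singleton]
    rcases hv with ((rfl | hv) | hv) | hv
    · exact ⟨s(s, v), by simp, by simp⟩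
    · obtain ⟨e, he, h⟩ := ihL s m hv
      exact ⟨e, by simp [he], h⟩
    · obtain ⟨e, he, h⟩ := ihR m t hv
      exact ⟨e, by simp [he], h⟩
    · obtain ⟨e, he, h⟩ := ihN s t hv
      exact ⟨e, by simp [he], h⟩

/-- The drawing of a subgraph of a 2-tree. -/
theorem exists_drawing_of_T (G : SimpleGraph V) {H n : ℕ} (hH : 0 < H) (hC : CFits V n H)
    (X : T V) (hX : X.size ≤ n) (s t : V) (hnd : ({s} + {t} + X.verts : Multiset V).Nodup)
    (hall : ∀ v : V, v ∈ ({s} + {t} + X.verts : Multiset V))
    (hE : ∀ e ∈ G.edgeSet, e ∈ ({s(s, t)} + X.edges s t : Multiset (Sym2 V))) :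
    ∃ D : PolylineDrawing G, D.InBox (2 * X.size + 1) (3 * H) := by
  have hHZ : (0 : ℤ) < H := by exact_mod_cast hH
  have s1 : Sweep 0 H (∅ : Set (V × ℤ)) {s} 0 (insert (s, 0) ∅) :=
    Sweep.add _ s 0 le_rfl hHZ.le (by simp)
  have s2 : Sweep 0 H (insert (s, 0) ∅ : Set (V × ℤ)) {t} 0 (insert (t, (H : ℤ)) (insert (s, 0) ∅)) :=
    Sweep.add _ t H hHZ.le le_rfl (by
      intro p hp
      simp only [Set.mem_insert_iff, Set.mem_empty_iff_false, or_false] at hp
      subst hp
      simp only
      omega)
  have s3 : Sweep 0 H (insert (t, (H : ℤ)) (insert (s, 0) ∅) : Set (V × ℤ)) 0 {s(s, t)}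
      (insert (t, (H : ℤ)) (insert (s, 0) ∅)) := by
    refine Sweep.edge _ s t 0 H (by simp) (by simp) le_rfl hHZ le_rfl ?_
    intro p hp
    simp only [Set.mem_insert_iff, Set.mem_empty_iff_false, or_false] at hp
    rcases hp with rfl | rfl <;> simp
  have s4 : Sweep 0 H (insert (t, (H : ℤ)) (insert (s, 0) ∅) : Set (V × ℤ)) X.verts (X.edges s t)
      (insert (t, (H : ℤ)) (insert (s, 0) ∅)) := by
    refine (hC.piece X hX s t).block (rx := 0) (ry := H) (by simp) (by simp) le_rfl hHZ le_rfl
      (by omega) ?_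
    intro p hp h1 h2
    simp only [Set.mem_insert_iff, Set.mem_empty_iff_false, or_false] at hp
    tauto
  have hs := (s1.trans _ _ _ _ _ _ _ (s2.trans _ _ _ _ _ _ _ (s3.trans _ _ _ _ _ _ _ s4)))
  have hs' := hs.congr (U1 := {s} + {t} + X.verts) (E1 := {s(s, t)} + X.edges s t) rfl (by abel)
    (by abel) rfl
  have := exists_drawing G hs' hnd hE (by
    intro v
    have hv := hall v
    simp only [Multiset.mem_add, Multiset.mem_singleton] at hv
    simp only [Multiset.mem_add, Multiset.mem_singleton]
    rcases hv with (rfl | rfl) | hv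
    · exact ⟨s(v, t), by simp, by simp⟩
    · exact ⟨s(s, v), by simp, by simp⟩
    · obtain ⟨e, he, h⟩ := X.exists_edge s t v hv
      exact ⟨e, Or.inr he, h⟩)
  rw [Multiset.card_add, Multiset.card_singleton, T.card_edges, add_comm] at this
  exact this

end Pool.Agent.W2helper91.SP
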