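import Pool.Agent.W2helper91.SP.Bridge

/-!
# One side of a drawing of `K_{2,n}` has length at least proportional to `n`
-/

set_option autoImplicit false

namespace Pool.Agent.W2helper91.SP

variable {V : Type*} {G : SimpleGraph V}

/-! ### Affine maps of the grid -/

/-- An injective affine map of the grid. -/
structure Aff where
  a : ℤ
  b : ℤ
  c : ℤ
  d : ℤ
  s : ℤ
  t : ℤ
  det : a * d - b * c ≠ 0

/-- The map on the grid. -/
def Aff.f (A : Aff) (q : ℤ × ℤ) : ℤ × ℤ := (A.a * q.1 + A.b * q.2 + A.s, A.c * q.1 + A.d * q.2 + A.t)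

/-- The map on the plane. -/
def Aff.F (A : Aff) (q : ℝ × ℝ) : ℝ × ℝ :=
  (A.a * q.1 + A.b * q.2 + A.s, A.c * q.1 + A.d * q.2 + A.t)

theorem Aff.F_pt (A : Aff) (q : ℤ × ℤ) : A.F (pt q) = pt (A.f q) := by
  simp only [Aff.F, Aff.f, pt]
  push_cast
  rfl

theorem Aff.F_inj (A : Aff) {p q : ℝ × ℝ} (h : A.F p = A.F q) : p = q := by
  have h1 := congrArg Prod.fst h
  have h2 := congrArg Prod.snd h
  simp only [Aff.F] at h1 h2
  have hdet : ((A.a : ℝ) * A.d - A.b * A.c) ≠ 0 := by exact_mod_cast A.det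
  have e1 : ((A.a : ℝ) * A.d - A.b * A.c) * (p.1 - q.1) = 0 := by
    linear_combination (A.d : ℝ) * h1 - A.b * h2
  have e2 : ((A.a : ℝ) * A.d - A.b * A.c) * (p.2 - q.2) = 0 := by
    linear_combination (A.a : ℝ) * h2 - A.c * h1
  refine Prod.ext ?_ ?_
  · rcases mul_eq_zero.1 e1 with h | h
    · exact absurd h hdet
    · linarith
  · rcases mul_eq_zero.1 e2 with h | h
    · exact absurd h hdet
    · linarith

theorem Aff.f_inj (A : Aff) {p q : ℤ × ℤ} (h : A.f p = A.f q) : p = q := by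
  have h1 : A.F (pt p) = A.F (pt q) := by rw [A.F_pt, A.F_pt, h]
  have := A.F_inj h1
  have k1 := congrArg Prod.fst this
  have k2 := congrArg Prod.snd this
  simp only [pt] at k1 k2
  exact Prod.ext (by exact_mod_cast k1) (by exact_mod_cast k2)

theorem Aff.mem_segment (A : Aff) {p q z : ℝ × ℝ} (h : z ∈ segment ℝ (A.F p) (A.F q)) :
    ∃ w ∈ segment ℝ p q, A.F w = z := by
  obtain ⟨s, t, hs, ht, hst, rfl⟩ := h
  refine ⟨s • p + t • q, ⟨s, t, hs, ht, hst, rfl⟩, ?_⟩
  have : s = 1 - t := by linarith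
  subst this
  refine Prod.ext ?_ ?_ <;>
    simp only [Aff.F, Prod.fst_add, Prod.snd_add, Prod.smul_fst, Prod.smul_snd, smul_eq_mul] <;>
    ring

theorem Aff.mem_chain (A : Aff) {l : List (ℤ × ℤ)} {z : ℝ × ℝ} (h : z ∈ chain (l.map A.f)) :
    ∃ w ∈ chain l, A.F w = z := by
  obtain ⟨i, hi, h⟩ := h
  have hi' : i + 1 < l.length := by simpa using hi
  simp only [List.getElem_map, ← A.F_pt] at h
  obtain ⟨w, hw, rfl⟩ := A.mem_segment h
  exact ⟨w, ⟨i, hi', hw⟩, rfl⟩

/-- The image of a drawing. -/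
def PolylineDrawing.map (D : PolylineDrawing G) (A : Aff) : PolylineDrawing G where
  pos v := A.f (D.pos v)
  path e := (D.path e).map A.f
  pos_injective := fun u v h => D.pos_injective (A.f_inj h)
  ends := by
    intro e he
    obtain ⟨u, v, h1, h2, h3⟩ := D.ends e he
    exact ⟨u, v, h1, by rw [List.head?_map, h2]; rfl, by rw [List.getLast?_map, h3]; rfl⟩
  proper := by
    intro e he i hi h
    rw [List.getElem_map, List.getElem_map] at h
    exact D.proper e he i (by simpa using hi) (A.f_inj h)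
  simple := by
    intro e he i j hi hj hij q h1 h2
    have hi' : i + 1 < (D.path e).length := by simpa using hi
    have hj' : j + 1 < (D.path e).length := by simpa using hj
    simp only [List.getElem_map, ← A.F_pt] at h1 h2 ⊢
    obtain ⟨w, hw, rfl⟩ := A.mem_segment h1
    obtain ⟨w', hw', e'⟩ := A.mem_segment h2
    have := A.F_inj e'
    subst this
    obtain ⟨k1, k2⟩ := D.simple e he i j hi' hj' hij _ hw hw'
    exact ⟨k1, by rw [k2]⟩
  vertex := by
    intro e he w h
    obtain ⟨z, hz, hz'⟩ := A.mem_chain h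
    rw [← A.F_pt] at hz'
    rw [A.F_inj hz'] at hz
    exact D.vertex e he w hz
  cross := by
    intro e he f hf hef q h1 h2
    obtain ⟨z, hz, rfl⟩ := A.mem_chain h1
    obtain ⟨z', hz', e'⟩ := A.mem_chain h2
    rw [A.F_inj e'] at hz'
    obtain ⟨w, k1, k2, k3⟩ := D.cross e he f hf hef z hz hz'
    exact ⟨w, k1, k2, by rw [k3, A.F_pt]⟩

@[simp] theorem map_pos (D : PolylineDrawing G) (A : Aff) (v : V) :
    (D.map A).pos v = A.f (D.pos v) := rfl

/-- The grid points of the path `x m y`. -/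
def pts (D : PolylineDrawing G) (x y m : V) : Set (ℤ × ℤ) :=
  {q | q ∈ D.path s(x, m) ∨ q ∈ D.path s(m, y)}

theorem pts_swap (D : PolylineDrawing G) (x y m : V) : pts D y x m = pts D x y m := by
  ext q
  simp only [pts, Set.mem_ofPred_eq]
  rw [Sym2.eq_swap (a := y) (b := m), Sym2.eq_swap (a := m) (b := x)]
  tauto

theorem mem_pts_map {D : PolylineDrawing G} {A : Aff} {x y m : V} {q : ℤ × ℤ}
    (h : q ∈ pts (D.map A) x y m) : ∃ q' ∈ pts D x y m, A.f q' = q := by
  simp only [pts, Set.mem_ofPred_eq, PolylineDrawing.map, List.mem_map] at h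
  rcases h with ⟨q', h1, h2⟩ | ⟨q', h1, h2⟩
  · exact ⟨q', Or.inl h1, h2⟩
  · exact ⟨q', Or.inr h1, h2⟩

theorem map_mem_pts {D : PolylineDrawing G} {A : Aff} {x y m : V} {q : ℤ × ℤ}
    (h : q ∈ pts D x y m) : A.f q ∈ pts (D.map A) x y m := by
  simp only [pts, Set.mem_ofPred_eq, PolylineDrawing.map, List.mem_map] at h ⊢
  rcases h with h | h
  · exact Or.inl ⟨q, h, rfl⟩
  · exact Or.inr ⟨q, h, rfl⟩

/-- Common neighbours. -/
def CN (G : SimpleGraph V) (x y : V) (M : Finset V) : Prop :=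
  ∀ m ∈ M, m ≠ x ∧ m ≠ y ∧ G.Adj x m ∧ G.Adj m y

theorem CN.swap {x y : V} {M : Finset V} (h : CN G x y M) : CN G y x M :=
  fun m hm => ⟨(h m hm).2.1, (h m hm).1, (h m hm).2.2.2.symm, (h m hm).2.2.1.symm⟩

theorem CN.mono {x y : V} {M M' : Finset V} (h : CN G x y M) (hM : M' ⊆ M) : CN G x y M' :=
  fun m hm => h m (hM hm)

theorem cin_of_cn {x y m : V} (hxy : x ≠ y) (h1 : m ≠ x) (h2 : m ≠ y) (h3 : G.Adj x m)
    (h4 : G.Adj m y) : CIn G x y m T.nil T.nil where
  edge := by
    intro e he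
    simp only [T.cedges, T.edges, add_zero, Multiset.mem_add, Multiset.mem_singleton] at he
    rcases he with rfl | rfl
    · exact h3
    · exact h4
  nodup := by
    simp only [T.cverts, T.verts, add_zero]
    rw [add_assoc, Multiset.singleton_add, Multiset.singleton_add]
    simp only [Multiset.nodup_cons, Multiset.mem_cons, Multiset.mem_singleton, not_or,
      Multiset.nodup_singleton, and_true]
    exact ⟨⟨hxy, h1.symm⟩, h2.symm⟩

/-- The nodes of the path `x m y`. -/
def kset (D : PolylineDrawing G) (x y m : V) : Set Pt := cset D.model x y m T.nil T.nil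

theorem kset_row {D : PolylineDrawing G} {x y m : V} {B : ℤ} (h : ∀ q ∈ pts D x y m, q.2 ≤ B) :
    ∀ p ∈ kset D x y m, p.2 ≤ B := by
  rintro p ⟨⟨e, he, i, hi, hp⟩, -, -⟩
  have hle := hp.le
  simp only [T.cedges, T.edges, add_zero, Multiset.mem_add, Multiset.mem_singleton] at he
  have h1 : (D.path e)[i].2 ≤ B := by
    rcases he with rfl | rfl
    · exact h _ (Or.inl (List.getElem_mem _))
    · exact h _ (Or.inr (List.getElem_mem _))
  have h2 : (D.path e)[i + 1].2 ≤ B := by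
    rcases he with rfl | rfl
    · exact h _ (Or.inl (List.getElem_mem _))
    · exact h _ (Or.inr (List.getElem_mem _))
  omega

theorem mem_lN_of_mem {l : List (ℤ × ℤ)} (hl : 2 ≤ l.length) {q : ℤ × ℤ} (hq : q ∈ l) :
    tp q ∈ lN l := by
  obtain ⟨i, hi, rfl⟩ := List.mem_iff_getElem.1 hq
  by_cases h : i + 1 < l.length
  · exact ⟨i, h, nd_left _ _⟩
  · obtain ⟨j, rfl⟩ : ∃ j, i = j + 1 := ⟨i - 1, by omega⟩
    exact ⟨j, hi, nd_right _ _⟩

theorem mem_kset {D : PolylineDrawing G} {x y m : V} (h3 : G.Adj x m) (h4 : G.Adj m y)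
    {q : ℤ × ℤ} (hq : q ∈ pts D x y m) (hx : q ≠ D.pos x) (hy : q ≠ D.pos y) :
    tp q ∈ kset D x y m := by
  refine ⟨?_, fun e => hx (tp_inj e), fun e => hy (tp_inj e)⟩
  rcases hq with hq | hq
  · exact ⟨s(x, m), by simp [T.cedges], mem_lN_of_mem (path_length D h3) hq⟩
  · exact ⟨s(m, y), by simp [T.cedges], mem_lN_of_mem (path_length D h4) hq⟩

theorem kset_blob {D : PolylineDrawing G} {x y m : V} (hxy : x ≠ y) (h1 : m ≠ x) (h2 : m ≠ y)
    (h3 : G.Adj x m) (h4 : G.Adj m y) :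
    Blob D.model.R (D.model.pos x) (D.model.pos y) (kset D x y m) := by
  have hc := cin_of_cn hxy h1 h2 h3 h4
  obtain ⟨⟨u, hu, hxu, -⟩, v, hv, hyv, -⟩ := adj_pole D.model hc
  exact ⟨fun h => h.2.1 rfl, fun h => h.2.2 rfl, cset_isConn D.model hc, ⟨u, hu, hxu⟩,
    v, hv, hyv⟩

theorem kset_disjoint {D : PolylineDrawing G} {x y : V} (hxy : x ≠ y) {M : Finset V}
    (hM : CN G x y M) {m m' : V} (hm : m ∈ M) (hm' : m' ∈ M) (hne : m ≠ m') :
    Disjoint (kset D x y m) (kset D x y m') := by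
  obtain ⟨a1, a2, a3, a4⟩ := hM m hm
  obtain ⟨b1, b2, b3, b4⟩ := hM m' hm'
  exact cset_disjoint D.model (cin_of_cn hxy a1 a2 a3 a4) (cin_of_cn hxy b1 b2 b3 b4)
    (by simp [T.cverts, T.verts, hne.symm])

open Classical in
/-- At most two paths have the same top row. -/
theorem same_top (D : PolylineDrawing G) {x y : V} (hxy : x ≠ y) {M : Finset V}
    (hM : CN G x y M) {T : ℤ} (hx : (D.pos x).2 ≤ T) (hy : (D.pos y).2 ≤ T) :
    (M.filter fun m => (∀ p ∈ kset D x y m, p.2 ≤ T) ∧ ∃ p ∈ kset D x y m, p.2 = T).card ≤ 2 := by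
  by_contra hcon
  push Not at hcon
  obtain ⟨f, hf, hinj⟩ := three_of_card hcon
  simp only [Finset.mem_filter] at hf
  have hb : ∀ i, Blob D.model.R (D.model.pos x) (D.model.pos y) (kset D x y (f i)) := by
    intro i
    obtain ⟨a1, a2, a3, a4⟩ := hM _ (hf i).1
    exact kset_blob hxy a1 a2 a3 a4
  exact form_a D.model.planar (fun e => hxy (D.model.pos_inj e)) hx hy
    (fun i => kset D x y (f i)) (fun i => (hb i).conn)
    (fun i j hij => kset_disjoint hxy hM (hf i).1 (hf j).1 (hinj i j hij)) (fun i => (hb i).hx)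
    (fun i => (hb i).hy) (fun i => (hb i).ax) (fun i => (hb i).ay) (fun i => (hf i).2.1)
    (fun i => (hf i).2.2)

open Classical in
/-- The number of paths that reach above both poles. -/
theorem top_count (D : PolylineDrawing G) {x y : V} (hxy : x ≠ y) {M : Finset V}
    (hM : CN G x y M) {B0 B1 : ℤ} (hx : (D.pos x).2 ≤ B0) (hy : (D.pos y).2 ≤ B0)
    (hB : ∀ m ∈ M, ∀ q ∈ pts D x y m, q.2 ≤ B1) :
    (M.filter fun m => ∃ q ∈ pts D x y m, B0 < q.2).card ≤ 2 * (B1 - B0).toNat := by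
  have htop : ∀ m, ∃ T : ℤ, m ∈ M → (∀ p ∈ kset D x y m, p.2 ≤ T) ∧ ∃ p ∈ kset D x y m, p.2 = T := by
    intro m
    by_cases hm : m ∈ M
    · obtain ⟨a1, a2, a3, a4⟩ := hM m hm
      obtain ⟨u, hu, -⟩ := (kset_blob (D := D) hxy a1 a2 a3 a4).ax
      obtain ⟨T, ⟨p, hp, hpT⟩, hT2⟩ := Int.exists_greatest_of_bdd
        (P := fun T => ∃ p ∈ kset D x y m, p.2 = T) ⟨B1, by
          rintro z ⟨p, hp, rfl⟩
          exact kset_row (hB m hm) p hp⟩ ⟨u.2, u, hu, rfl⟩
      exact ⟨T, fun _ => ⟨fun q hq => hT2 q.2 ⟨q, hq, rfl⟩, p, hp, hpT⟩⟩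
    · exact ⟨0, fun h => absurd h hm⟩
  choose t ht using htop
  have := Finset.card_le_mul_card_image_of_maps_to (f := t)
    (s := M.filter fun m => ∃ q ∈ pts D x y m, B0 < q.2)
    (t := Finset.Ioc B0 B1) (by
      intro m hm
      rw [Finset.mem_filter] at hm
      obtain ⟨hm, q, hq, hq'⟩ := hm
      obtain ⟨a1, a2, a3, a4⟩ := hM m hm
      obtain ⟨t1, p, hp, hpt⟩ := ht m hm
      rw [Finset.mem_Ioc]
      constructor
      · have hk := mem_kset (D := D) a3 a4 hq (fun e => by rw [e] at hq'; omega)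
          (fun e => by rw [e] at hq'; omega)
        have := t1 _ hk
        simp only [tp_snd] at this
        omega
      · rw [← hpt]
        exact kset_row (hB m hm) p hp) 2 (by
      intro T hT
      rw [Finset.mem_Ioc] at hT
      refine le_trans (Finset.card_le_card ?_) (same_top D hxy hM (T := T) (by omega) (by omega))
      intro m hm
      simp only [Finset.mem_filter] at hm ⊢
      obtain ⟨⟨hm, -⟩, rfl⟩ := hm
      exact ⟨hm, ht m hm⟩)
  rw [Int.card_Ioc] at this
  exact this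

open Classical in
/-- The main step: if all the paths from `x = (0, 0)` to `y = (a, b)` have their points in the
quarter plane `p ≥ 0`, `q ≤ b`, then almost all are on one side of the line `xy`. -/
theorem euclid (n : ℕ) : ∀ (a b : ℕ), a + b ≤ n → a ≤ b → ∀ (D : PolylineDrawing G) (x y : V)
    (M : Finset V), x ≠ y → CN G x y M → D.pos x = (0, 0) → D.pos y = ((a : ℤ), (b : ℤ)) →
    (∀ m ∈ M, ∀ q ∈ pts D x y m, 0 ≤ q.1 ∧ q.2 ≤ b) →
    (M.filter fun m => ∃ q ∈ pts D x y m, (b : ℤ) * q.1 - a * q.2 < 0).card ≤ 2 * (a + b) := by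
  induction n with
  | zero =>
    intro a b hab hle D x y M hxy hM hx hy hq
    have ha : a = 0 := by omega
    have hb : b = 0 := by omega
    subst ha hb
    exact absurd (D.pos_injective (hx.trans (by rw [hy]; simp))) hxy
  | succ n ih =>
    intro a b hab hle D x y M hxy hM hx hy hq
    rcases Nat.eq_zero_or_pos a with ha | ha
    · subst ha
      have : (M.filter fun m => ∃ q ∈ pts D x y m, (b : ℤ) * q.1 - ((0 : ℕ) : ℤ) * q.2 < 0) = ∅ := by
        rw [Finset.filter_eq_empty_iff]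
        rintro m hm ⟨q, hqm, hlt⟩
        have h1 := (hq m hm q hqm).1
        have : (0 : ℤ) ≤ (b : ℤ) * q.1 := by positivity
        simp at hlt
        omega
      rw [this]
      simp
    · -- the shear
      set β : ℕ := b / a with hβ
      set c : ℕ := b % a with hc
      have hdm : a * β + c = b := Nat.div_add_mod b a
      have hca : c < a := Nat.mod_lt _ ha
      have hdmZ : (a : ℤ) * β + c = b := by exact_mod_cast hdm
      let A : Aff := ⟨1, 0, -β, 1, 0, 0, by norm_num⟩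
      have hA : ∀ q, A.f q = (q.1, q.2 - β * q.1) := by
        intro q
        simp only [Aff.f, A]
        refine Prod.ext ?_ ?_
        · simp
        · simp only; ring
      set D1 := D.map A with hD1
      have hx1 : D1.pos x = (0, 0) := by rw [hD1, map_pos, hx, hA]; simp
      have hy1 : D1.pos y = ((a : ℤ), (c : ℤ)) := by
        rw [hD1, map_pos, hy, hA]
        refine Prod.ext rfl ?_
        simp only
        linarith
      have hβ0 : (0 : ℤ) ≤ β := Int.natCast_nonneg _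
      have hq1 : ∀ m ∈ M, ∀ q ∈ pts D1 x y m, 0 ≤ q.1 ∧ q.2 ≤ b := by
        intro m hm q hqm
        obtain ⟨q', hq', rfl⟩ := mem_pts_map hqm
        obtain ⟨k1, k2⟩ := hq m hm q' hq'
        rw [hA]
        refine ⟨k1, ?_⟩
        have : 0 ≤ (β : ℤ) * q'.1 := mul_nonneg hβ0 k1
        simp only
        omega
      have cnt1 := top_count D1 hxy hM (B0 := c) (B1 := b) (by rw [hx1]; simp)
        (by rw [hy1]) (fun m hm q hqm => (hq1 m hm q hqm).2)
      set M1 := M.filter fun m => ∃ q ∈ pts D1 x y m, (c : ℤ) < q.2 with hM1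
      set M2 := M.filter fun m => ¬ ∃ q ∈ pts D1 x y m, (c : ℤ) < q.2 with hM2
      -- the swap
      let A2 : Aff := ⟨0, -1, -1, 0, c, a, by norm_num⟩
      have hA2 : ∀ q, A2.f q = (c - q.2, a - q.1) := by
        intro q
        simp only [Aff.f, A2]
        refine Prod.ext ?_ ?_
        · simp only; ring
        · simp only; ring
      set D2 := D1.map A2 with hD2
      have hx2 : D2.pos x = ((c : ℤ), (a : ℤ)) := by rw [hD2, map_pos, hx1, hA2]; simp
      have hy2 : D2.pos y = (0, 0) := by rw [hD2, map_pos, hy1, hA2]; simp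
      have cnt2 := ih c a (by omega) hca.le D2 y x M2 hxy.symm
        (hM.swap.mono (Finset.filter_subset _ _)) hy2 hx2 (by
          intro m hm q hqm
          rw [pts_swap] at hqm
          obtain ⟨q', hq', rfl⟩ := mem_pts_map hqm
          rw [hM2, Finset.mem_filter] at hm
          have k1 := hq1 m hm.1 q' hq'
          have k2 : q'.2 ≤ c := by
            by_contra hcon
            exact hm.2 ⟨q', hq', by omega⟩
          rw [hA2]
          simp only
          omega)
      -- the union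
      have hsub : (M.filter fun m => ∃ q ∈ pts D x y m, (b : ℤ) * q.1 - a * q.2 < 0) ⊆
          M1 ∪ (M2.filter fun m => ∃ q ∈ pts D2 y x m, (a : ℤ) * q.1 - c * q.2 < 0) := by
        intro m hm
        rw [Finset.mem_filter] at hm
        obtain ⟨hm, q, hqm, hlt⟩ := hm
        rw [Finset.mem_union]
        by_cases hm1 : ∃ q ∈ pts D1 x y m, (c : ℤ) < q.2
        · left
          rw [hM1, Finset.mem_filter]
          exact ⟨hm, hm1⟩
        · right
          rw [Finset.mem_filter, hM2, Finset.mem_filter]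
          refine ⟨⟨hm, hm1⟩, A2.f (A.f q), ?_, ?_⟩
          · rw [pts_swap]
            exact map_mem_pts (map_mem_pts hqm)
          · rw [hA2, hA]
            simp only
            have : (a : ℤ) * (c - (q.2 - β * q.1)) - c * (a - q.1) =
                (a * β + c) * q.1 - a * q.2 := by ring
            rw [this, hdmZ]
            exact hlt
      have h1 := Finset.card_le_card hsub
      have h2 := Finset.card_union_le M1
        (M2.filter fun m => ∃ q ∈ pts D2 y x m, (a : ℤ) * q.1 - c * q.2 < 0)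
      have h3 : c ≤ b := hca.le.trans hle
      have h4 : ((b : ℤ) - c).toNat = b - c := by omega
      rw [h4] at cnt1
      omega

open Classical in
/-- The main step without the assumption `a ≤ b`. -/
theorem euclid' (a b : ℕ) (D : PolylineDrawing G) (x y : V)
    (M : Finset V) (hxy : x ≠ y) (hM : CN G x y M) (hx : D.pos x = (0, 0))
    (hy : D.pos y = ((a : ℤ), (b : ℤ)))
    (hq : ∀ m ∈ M, ∀ q ∈ pts D x y m, 0 ≤ q.1 ∧ q.2 ≤ b) :
    (M.filter fun m => ∃ q ∈ pts D x y m, (b : ℤ) * q.1 - a * q.2 < 0).card ≤ 2 * (a + b) := by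
  rcases le_total a b with hab | hab
  · exact euclid (a + b) a b le_rfl hab D x y M hxy hM hx hy hq
  · let A2 : Aff := ⟨0, -1, -1, 0, b, a, by norm_num⟩
    have hA2 : ∀ q, A2.f q = (b - q.2, a - q.1) := by
      intro q
      simp only [Aff.f, A2]
      refine Prod.ext ?_ ?_
      · simp only; ring
      · simp only; ring
    have h := euclid (b + a) b a le_rfl hab (D.map A2) y x M hxy.symm hM.swap
      (by rw [map_pos, hy, hA2]; simp) (by rw [map_pos, hx, hA2]; simp) (by
        intro m hm q hqm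
        rw [pts_swap] at hqm
        obtain ⟨q', hq', rfl⟩ := mem_pts_map hqm
        have := hq m hm q' hq'
        rw [hA2]
        simp only
        omega)
    rw [add_comm b a] at h
    refine le_trans (Finset.card_le_card ?_) h
    intro m hm
    simp only [Finset.mem_filter] at hm ⊢
    obtain ⟨hm, q, hqm, hlt⟩ := hm
    refine ⟨hm, A2.f q, by rw [pts_swap]; exact map_mem_pts hqm, ?_⟩
    rw [hA2]
    simp only
    linarith [mul_comm (a : ℤ) b]

theorem kset_row_ge {D : PolylineDrawing G} {x y m : V} {B : ℤ} (h : ∀ q ∈ pts D x y m, B ≤ q.2) :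
    ∀ p ∈ kset D x y m, B ≤ p.2 := by
  rintro p ⟨⟨e, he, i, hi, hp⟩, -, -⟩
  have hle := hp.le
  simp only [T.cedges, T.edges, add_zero, Multiset.mem_add, Multiset.mem_singleton] at he
  have h1 : B ≤ (D.path e)[i].2 := by
    rcases he with rfl | rfl
    · exact h _ (Or.inl (List.getElem_mem _))
    · exact h _ (Or.inr (List.getElem_mem _))
  have h2 : B ≤ (D.path e)[i + 1].2 := by
    rcases he with rfl | rfl
    · exact h _ (Or.inl (List.getElem_mem _))
    · exact h _ (Or.inr (List.getElem_mem _))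
  omega

open Classical in
/-- At most two paths stay on the line `xy`. -/
theorem on_line (a b : ℕ) (D : PolylineDrawing G) (x y : V)
    (M : Finset V) (hxy : x ≠ y) (hM : CN G x y M) (hx : D.pos x = (0, 0))
    (hy : D.pos y = ((a : ℤ), (b : ℤ))) :
    (M.filter fun m => ∀ q ∈ pts D x y m, (b : ℤ) * q.1 - a * q.2 = 0).card ≤ 2 := by
  have hab : ¬ (a = 0 ∧ b = 0) := by
    rintro ⟨rfl, rfl⟩
    exact hxy (D.pos_injective (hx.trans (by rw [hy]; simp)))
  let A : Aff := ⟨a, b, b, -a, 0, 0, by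
    intro h
    apply hab
    have h1 : (a : ℤ) * a + b * b = 0 := by linarith
    have h2 : (0 : ℤ) ≤ (a : ℤ) * a := mul_self_nonneg _
    have h3 : (0 : ℤ) ≤ (b : ℤ) * b := mul_self_nonneg _
    constructor
    · have : (a : ℤ) * a = 0 := by linarith
      simpa using this
    · have : (b : ℤ) * b = 0 := by linarith
      simpa using this⟩
  have hA : ∀ q, (A.f q).2 = b * q.1 - a * q.2 := by
    intro q
    simp only [Aff.f, A]
    ring
  refine le_trans (Finset.card_le_card ?_) (same_top (D.map A) hxy hM (T := 0)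
    (by rw [map_pos, hA, hx]; simp) (by rw [map_pos, hA, hy]; simp; linarith [mul_comm (a : ℤ) b]))
  intro m hm
  simp only [Finset.mem_filter] at hm ⊢
  obtain ⟨hm, hq⟩ := hm
  obtain ⟨a1, a2, a3, a4⟩ := hM m hm
  have hrow : ∀ q ∈ pts (D.map A) x y m, q.2 = 0 := by
    intro q hqm
    obtain ⟨q', hq', rfl⟩ := mem_pts_map hqm
    rw [hA]
    exact hq q' hq'
  have h1 := kset_row (D := D.map A) (B := 0) (fun q hq => (hrow q hq).le)
  have h2 := kset_row_ge (D := D.map A) (B := 0) (fun q hq => (hrow q hq).ge)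
  obtain ⟨u, hu, -⟩ := (kset_blob (D := D.map A) hxy a1 a2 a3 a4).ax
  exact ⟨hm, h1, u, hu, le_antisymm (h1 u hu) (h2 u hu)⟩

open Classical in
/-- The count in normal position. -/
theorem count_normal (a b : ℕ) (D : PolylineDrawing G) (x y : V)
    (M : Finset V) (hxy : x ≠ y) (hM : CN G x y M) (hx : D.pos x = (0, 0))
    (hy : D.pos y = ((a : ℤ), (b : ℤ))) {W H : ℕ} (haW : a ≤ W) (hbH : b ≤ H)
    (hq : ∀ m ∈ M, ∀ q ∈ pts D x y m, -(W : ℤ) ≤ q.1 ∧ q.1 ≤ W ∧ -(H : ℤ) ≤ q.2 ∧ q.2 ≤ H) :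
    M.card ≤ 8 * (W + H) + 2 := by
  -- above
  have c1 := top_count D hxy hM (B0 := b) (B1 := H) (by rw [hx]; simp) (by rw [hy])
    (fun m hm q hqm => (hq m hm q hqm).2.2.2)
  -- below
  let A2 : Aff := ⟨1, 0, 0, -1, 0, 0, by norm_num⟩
  have hA2 : ∀ q, (A2.f q).2 = -q.2 := by intro q; simp [Aff.f, A2]
  have c2 := top_count (D.map A2) hxy hM (B0 := 0) (B1 := H) (by rw [map_pos, hA2, hx]; simp)
    (by rw [map_pos, hA2, hy]; simp) (by
      intro m hm q hqm
      obtain ⟨q', hq', rfl⟩ := mem_pts_map hqm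
      have := hq m hm q' hq'
      rw [hA2]
      omega)
  -- left
  let A3 : Aff := ⟨0, 1, -1, 0, 0, 0, by norm_num⟩
  have hA3 : ∀ q, (A3.f q).2 = -q.1 := by intro q; simp [Aff.f, A3]
  have c3 := top_count (D.map A3) hxy hM (B0 := 0) (B1 := W) (by rw [map_pos, hA3, hx]; simp)
    (by rw [map_pos, hA3, hy]; simp) (by
      intro m hm q hqm
      obtain ⟨q', hq', rfl⟩ := mem_pts_map hqm
      have := hq m hm q' hq'
      rw [hA3]
      omega)
  -- right
  let A4 : Aff := ⟨0, 1, 1, 0, 0, 0, by norm_num⟩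
  have hA4 : ∀ q, (A4.f q).2 = q.1 := by intro q; simp [Aff.f, A4]
  have c4 := top_count (D.map A4) hxy hM (B0 := a) (B1 := W) (by rw [map_pos, hA4, hx]; simp)
    (by rw [map_pos, hA4, hy]) (by
      intro m hm q hqm
      obtain ⟨q', hq', rfl⟩ := mem_pts_map hqm
      have := hq m hm q' hq'
      rw [hA4]
      omega)
  -- the rest
  set M' := M.filter fun m => ∀ q ∈ pts D x y m, 0 ≤ q.1 ∧ q.1 ≤ a ∧ 0 ≤ q.2 ∧ q.2 ≤ b with hM'
  have hsub : M' ⊆ M := Finset.filter_subset _ _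
  have hq' : ∀ m ∈ M', ∀ q ∈ pts D x y m, 0 ≤ q.1 ∧ q.1 ≤ a ∧ 0 ≤ q.2 ∧ q.2 ≤ b :=
    fun m hm => (Finset.mem_filter.1 hm).2
  have c5 := euclid' a b D x y M' hxy (hM.mono hsub) hx hy (fun m hm q hqm =>
    ⟨(hq' m hm q hqm).1, (hq' m hm q hqm).2.2.2⟩)
  let A6 : Aff := ⟨-1, 0, 0, -1, a, b, by norm_num⟩
  have hA6 : ∀ q, A6.f q = (a - q.1, b - q.2) := by
    intro q
    simp only [Aff.f, A6]
    refine Prod.ext ?_ ?_
    · simp only; ring
    · simp only; ring
  have c6 := euclid' a b (D.map A6) y x M' hxy.symm (hM.mono hsub).swap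
    (by rw [map_pos, hA6, hy]; simp) (by rw [map_pos, hA6, hx]; simp) (by
      intro m hm q hqm
      rw [pts_swap] at hqm
      obtain ⟨q', h', rfl⟩ := mem_pts_map hqm
      have := hq' m hm q' h'
      rw [hA6]
      simp only
      omega)
  have c7 := on_line a b D x y M' hxy (hM.mono hsub) hx hy
  have hcov : M ⊆ ((M.filter fun m => ∃ q ∈ pts D x y m, (b : ℤ) < q.2) ∪
      (M.filter fun m => ∃ q ∈ pts (D.map A2) x y m, 0 < q.2)) ∪
      ((M.filter fun m => ∃ q ∈ pts (D.map A3) x y m, 0 < q.2) ∪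
      (M.filter fun m => ∃ q ∈ pts (D.map A4) x y m, (a : ℤ) < q.2)) ∪
      ((M'.filter fun m => ∃ q ∈ pts D x y m, (b : ℤ) * q.1 - a * q.2 < 0) ∪
      (M'.filter fun m => ∃ q ∈ pts (D.map A6) y x m, (b : ℤ) * q.1 - a * q.2 < 0)) ∪
      (M'.filter fun m => ∀ q ∈ pts D x y m, (b : ℤ) * q.1 - a * q.2 = 0) := by
    intro m hm
    simp only [Finset.mem_union]
    by_contra hcon
    push Not at hcon
    obtain ⟨⟨⟨⟨h1, h2⟩, h3, h4⟩, h5, h6⟩, h7⟩ := hcon
    have hmM' : m ∈ M' := by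
      rw [hM', Finset.mem_filter]
      refine ⟨hm, fun q hqm => ⟨?_, ?_, ?_, ?_⟩⟩
      · by_contra hc
        exact h3 (Finset.mem_filter.2 ⟨hm, A3.f q, map_mem_pts hqm, by rw [hA3]; omega⟩)
      · by_contra hc
        exact h4 (Finset.mem_filter.2 ⟨hm, A4.f q, map_mem_pts hqm, by rw [hA4]; omega⟩)
      · by_contra hc
        exact h2 (Finset.mem_filter.2 ⟨hm, A2.f q, map_mem_pts hqm, by rw [hA2]; omega⟩)
      · by_contra hc
        exact h1 (Finset.mem_filter.2 ⟨hm, q, hqm, by omega⟩)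
    refine h7 (Finset.mem_filter.2 ⟨hmM', fun q hqm => ?_⟩)
    refine le_antisymm ?_ ?_
    · by_contra hc
      refine h6 (Finset.mem_filter.2 ⟨hmM', A6.f q, by rw [pts_swap]; exact map_mem_pts hqm, ?_⟩)
      rw [hA6]
      simp only
      push Not at hc
      nlinarith [mul_comm (a : ℤ) b]
    · by_contra hc
      exact h5 (Finset.mem_filter.2 ⟨hmM', q, hqm, by push Not at hc; exact hc⟩)
  have hc := Finset.card_le_card hcov
  have u1 := Finset.card_union_le (((M.filter fun m => ∃ q ∈ pts D x y m, (b : ℤ) < q.2) ∪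
      (M.filter fun m => ∃ q ∈ pts (D.map A2) x y m, 0 < q.2)) ∪
      ((M.filter fun m => ∃ q ∈ pts (D.map A3) x y m, 0 < q.2) ∪
      (M.filter fun m => ∃ q ∈ pts (D.map A4) x y m, (a : ℤ) < q.2)) ∪
      ((M'.filter fun m => ∃ q ∈ pts D x y m, (b : ℤ) * q.1 - a * q.2 < 0) ∪
      (M'.filter fun m => ∃ q ∈ pts (D.map A6) y x m, (b : ℤ) * q.1 - a * q.2 < 0)))
      (M'.filter fun m => ∀ q ∈ pts D x y m, (b : ℤ) * q.1 - a * q.2 = 0)
  have u2 := Finset.card_union_le (((M.filter fun m => ∃ q ∈ pts D x y m, (b : ℤ) < q.2) ∪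
      (M.filter fun m => ∃ q ∈ pts (D.map A2) x y m, 0 < q.2)) ∪
      ((M.filter fun m => ∃ q ∈ pts (D.map A3) x y m, 0 < q.2) ∪
      (M.filter fun m => ∃ q ∈ pts (D.map A4) x y m, (a : ℤ) < q.2)))
      ((M'.filter fun m => ∃ q ∈ pts D x y m, (b : ℤ) * q.1 - a * q.2 < 0) ∪
      (M'.filter fun m => ∃ q ∈ pts (D.map A6) y x m, (b : ℤ) * q.1 - a * q.2 < 0))
  have u3 := Finset.card_union_le ((M.filter fun m => ∃ q ∈ pts D x y m, (b : ℤ) < q.2) ∪
      (M.filter fun m => ∃ q ∈ pts (D.map A2) x y m, 0 < q.2))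
      ((M.filter fun m => ∃ q ∈ pts (D.map A3) x y m, 0 < q.2) ∪
      (M.filter fun m => ∃ q ∈ pts (D.map A4) x y m, (a : ℤ) < q.2))
  have u4 := Finset.card_union_le (M.filter fun m => ∃ q ∈ pts D x y m, (b : ℤ) < q.2)
      (M.filter fun m => ∃ q ∈ pts (D.map A2) x y m, 0 < q.2)
  have u5 := Finset.card_union_le (M.filter fun m => ∃ q ∈ pts (D.map A3) x y m, 0 < q.2)
      (M.filter fun m => ∃ q ∈ pts (D.map A4) x y m, (a : ℤ) < q.2)
  have u6 := Finset.card_union_le
      (M'.filter fun m => ∃ q ∈ pts D x y m, (b : ℤ) * q.1 - a * q.2 < 0)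
      (M'.filter fun m => ∃ q ∈ pts (D.map A6) y x m, (b : ℤ) * q.1 - a * q.2 < 0)
  have e1 : ((H : ℤ) - b).toNat ≤ H := by omega
  have e2 : ((H : ℤ) - 0).toNat ≤ H := by omega
  have e3 : ((W : ℤ) - 0).toNat ≤ W := by omega
  have e4 : ((W : ℤ) - a).toNat ≤ W := by omega
  omega

/-- If `x` and `y` have many common neighbours then the sum of the side lengths is large. -/
theorem card_common_le (D : PolylineDrawing G) {W H : ℕ} (hD : D.InBox W H) {x y : V}
    (hxy : x ≠ y) {M : Finset V} (hM : CN G x y M) : M.card ≤ 8 * (W + H) + 2 := by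
  obtain ⟨x0, y0, hv, he⟩ := hD
  have hsgn : ∀ z : ℤ, ∃ e : ℤ, e ≠ 0 ∧ (e = 1 ∨ e = -1) ∧ e * z = z.natAbs := by
    intro z
    rcases le_total 0 z with h | h
    · exact ⟨1, by norm_num, Or.inl rfl, by omega⟩
    · exact ⟨-1, by norm_num, Or.inr rfl, by omega⟩
  obtain ⟨e1, h10, h11, h12⟩ := hsgn ((D.pos y).1 - (D.pos x).1)
  obtain ⟨e2, h20, h21, h22⟩ := hsgn ((D.pos y).2 - (D.pos x).2)
  let A : Aff := ⟨e1, 0, 0, e2, -(e1 * (D.pos x).1), -(e2 * (D.pos x).2), by
    simpa using ⟨h10, h20⟩⟩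
  have hA : ∀ q, A.f q = (e1 * (q.1 - (D.pos x).1), e2 * (q.2 - (D.pos x).2)) := by
    intro q
    simp only [Aff.f, A]
    refine Prod.ext ?_ ?_
    · simp only; ring
    · simp only; ring
  have hvx := hv x
  have hvy := hv y
  refine count_normal ((D.pos y).1 - (D.pos x).1).natAbs ((D.pos y).2 - (D.pos x).2).natAbs
    (D.map A) x y M hxy hM (by rw [map_pos, hA]; simp) (by rw [map_pos, hA, h12, h22])
    (by omega) (by omega) ?_
  intro m hm q hqm
  obtain ⟨q', hq', rfl⟩ := mem_pts_map hqm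
  obtain ⟨-, -, a3, a4⟩ := hM m hm
  have hbox : x0 ≤ q'.1 ∧ q'.1 ≤ x0 + W ∧ y0 ≤ q'.2 ∧ q'.2 ≤ y0 + H := by
    rcases hq' with h | h
    · exact he _ a3 _ h
    · exact he _ a4 _ h
  rw [hA]
  simp only
  rcases h11 with rfl | rfl <;> rcases h21 with rfl | rfl <;> omega

end Pool.Agent.W2helper91.SP
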