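import Pool.Agent.W2helper91.SP.Struct

/-!
# The bound `n * 2 ^ O(√(log n * log log n))`
-/

set_option autoImplicit false

namespace Pool.Agent.W2helper91.SP

open Real

/-- Choice of the parameters. -/
theorem exists_params (n : ℕ) (hn : 4 ≤ n) : ∃ g J : ℕ, n ≤ 2 ^ (g * J) - 1 ∧
    ((2 ^ g * (4 * g + 2) ^ J : ℕ) : ℝ) ≤
      (2 : ℝ) ^ (15 * √(logb 2 n * logb 2 (logb 2 n))) := by
  have hn' : (4 : ℝ) ≤ n := by exact_mod_cast hn
  set l : ℝ := logb 2 n with hl
  have hl2 : 2 ≤ l := by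
    rw [hl, Real.le_logb_iff_rpow_le one_lt_two (by linarith)]
    norm_num
    exact_mod_cast hn
  set m : ℝ := logb 2 l with hm
  have hm1 : 1 ≤ m := by
    rw [hm, Real.le_logb_iff_rpow_le one_lt_two (by linarith)]
    norm_num
    exact hl2
  have hml : m ≤ l := by
    rw [hm, Real.logb_le_iff_le_rpow one_lt_two (by linarith)]
    have h1 : l + 1 ≤ (2 : ℝ) ^ l := by
      have := one_add_mul_self_le_rpow_one_add (s := 1) (by norm_num) (p := l) (by linarith)
      rw [one_add_one_eq_two] at this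
      linarith
    linarith
  set s : ℝ := √(l * m) with hs
  have hs2 : s * s = l * m := Real.mul_self_sqrt (by positivity)
  have hs0 : 0 ≤ s := Real.sqrt_nonneg _
  have hs1 : 1 ≤ s := by nlinarith
  have hms : m ≤ s := by
    by_contra hcon
    push Not at hcon
    nlinarith
  have hsl : s ≤ l := by
    by_contra hcon
    push Not at hcon
    nlinarith
  obtain ⟨g, hg⟩ : ∃ g : ℕ, g = ⌈s⌉₊ := ⟨_, rfl⟩
  obtain ⟨J, hJ⟩ : ∃ J : ℕ, J = ⌈(l + 1) / s⌉₊ := ⟨_, rfl⟩
  have hg1 : s ≤ g := by rw [hg]; exact Nat.le_ceil s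
  have hg2 : (g : ℝ) ≤ s + 1 := by rw [hg]; exact (Nat.ceil_lt_add_one hs0).le
  have hJ1 : (l + 1) / s ≤ J := by rw [hJ]; exact Nat.le_ceil _
  have hJ2 : (J : ℝ) ≤ (l + 1) / s + 1 := by
    rw [hJ]; exact (Nat.ceil_lt_add_one (by positivity)).le
  refine ⟨g, J, ?_, ?_⟩
  · have h1 : l + 1 ≤ (g * J : ℕ) := by
      push_cast
      calc l + 1 = s * ((l + 1) / s) := by field_simp
        _ ≤ g * J := by gcongr
    have h2 : (n : ℝ) + 1 ≤ 2 ^ (g * J) := by
      calc (n : ℝ) + 1 ≤ n * 2 := by linarith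
        _ = 2 ^ (l + 1) := by
          rw [Real.rpow_add (by norm_num), hl, Real.rpow_logb (by norm_num) (by norm_num)
            (by linarith), Real.rpow_one]
        _ ≤ 2 ^ ((g * J : ℕ) : ℝ) := Real.rpow_le_rpow_of_exponent_le (by norm_num) h1
        _ = 2 ^ (g * J) := Real.rpow_natCast _ _
    have h3 : n + 1 ≤ 2 ^ (g * J) := by exact_mod_cast h2
    omega
  · have h1 : ((4 * g + 2 : ℕ) : ℝ) ≤ 2 ^ (5 * m) := by
      push_cast
      calc (4 * (g : ℝ) + 2) ≤ 2 ^ (4 : ℝ) * l := by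
            have : (2 : ℝ) ^ (4 : ℝ) = 16 := by norm_num
            rw [this]
            linarith
        _ = 2 ^ (4 + m) := by
            rw [Real.rpow_add (by norm_num), hm, Real.rpow_logb (by norm_num) (by norm_num)
              (by linarith)]
        _ ≤ 2 ^ (5 * m) := Real.rpow_le_rpow_of_exponent_le (by norm_num) (by linarith)
    have h2 : ((4 * g + 2 : ℕ) : ℝ) ^ J ≤ 2 ^ (5 * m * J) := by
      rw [Real.rpow_mul (by norm_num), Real.rpow_natCast]
      exact pow_le_pow_left₀ (by positivity) h1 J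
    have h3 : (g : ℝ) + 5 * m * J ≤ 15 * s := by
      have e1 : m * J ≤ m * ((l + 1) / s + 1) := by gcongr
      have e2 : m * ((l + 1) / s + 1) = (m * (l + 1)) / s + m := by ring
      have e3 : m * (l + 1) / s ≤ 3 / 2 * s := by
        rw [div_le_iff₀ (by linarith)]
        nlinarith
      linarith
    calc ((2 ^ g * (4 * g + 2) ^ J : ℕ) : ℝ)
        = (2 : ℝ) ^ (g : ℝ) * ((4 * g + 2 : ℕ) : ℝ) ^ J := by
          rw [Real.rpow_natCast]; push_cast; ring
      _ ≤ (2 : ℝ) ^ (g : ℝ) * 2 ^ (5 * m * J) := by gcongr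
      _ = 2 ^ ((g : ℝ) + 5 * m * J) := by rw [Real.rpow_add (by norm_num)]
      _ ≤ 2 ^ (15 * s) := Real.rpow_le_rpow_of_exponent_le (by norm_num) h3

theorem one_le_exponent {n : ℕ} (hn : 4 ≤ n) : 1 ≤ √(logb 2 n * logb 2 (logb 2 n)) := by
  have hn' : (4 : ℝ) ≤ n := by exact_mod_cast hn
  have hl2 : 2 ≤ logb 2 n := by
    rw [Real.le_logb_iff_rpow_le one_lt_two (by linarith)]
    norm_num
    exact_mod_cast hn
  have hm1 : 1 ≤ logb 2 (logb 2 n) := by
    rw [Real.le_logb_iff_rpow_le one_lt_two (by linarith)]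
    norm_num
    exact hl2
  rw [Real.one_le_sqrt]
  nlinarith

/-- Poly-line grid drawings of series-parallel graphs with small height. -/
theorem exists_small_drawing (n : ℕ) (hn : 4 ≤ n) (G : SimpleGraph (Fin n))
    (hG : SeriesParallel G) : ∃ D : PolylineDrawing G, ∃ H : ℕ, D.InBox (2 * n) H ∧
      (H : ℝ) ≤ 2 ^ (17 * √(logb 2 n * logb 2 (logb 2 n))) := by
  obtain ⟨g, J, h1, h2⟩ := exists_params n hn
  have hC : CFits (Fin n) n ((2 ^ g * (4 * g + 2) ^ J : ℕ) : ℤ) := by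
    have := (CFits.main (V := Fin n) g J).le h1
    push_cast
    exact this
  obtain ⟨D, hD⟩ := exists_drawing_of_SP (by omega) G hG (by positivity) hC
  refine ⟨D, _, hD, ?_⟩
  have hs := one_le_exponent hn
  set s := √(logb 2 n * logb 2 (logb 2 n))
  rw [Nat.cast_mul]
  calc ((3 : ℕ) : ℝ) * ((2 ^ g * (4 * g + 2) ^ J : ℕ) : ℝ)
      ≤ 2 ^ (2 : ℝ) * 2 ^ (15 * s) := by
        gcongr
        norm_num
    _ = 2 ^ (2 + 15 * s) := by rw [Real.rpow_add (by norm_num)]
    _ ≤ 2 ^ (17 * s) := Real.rpow_le_rpow_of_exponent_le (by norm_num) (by linarith)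

theorem minArea_le (n : ℕ) (hn : 4 ≤ n) (G : SimpleGraph (Fin n)) (hG : SeriesParallel G) :
    (minArea G : ℝ) ≤ n * 2 ^ (18 * √(logb 2 n * logb 2 (logb 2 n))) := by
  obtain ⟨D, H, hD, hH⟩ := exists_small_drawing n hn G hG
  have h1 : minArea G ≤ 2 * n * H := Nat.sInf_le ⟨D, 2 * n, H, hD, rfl⟩
  have hs := one_le_exponent hn
  set s := √(logb 2 n * logb 2 (logb 2 n))
  calc (minArea G : ℝ) ≤ ((2 * n * H : ℕ) : ℝ) := by exact_mod_cast h1
    _ = n * (2 ^ (1 : ℝ) * H) := by rw [Real.rpow_one]; push_cast; ring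
    _ ≤ n * (2 ^ (1 : ℝ) * 2 ^ (17 * s)) := by gcongr
    _ = n * 2 ^ (1 + 17 * s) := by rw [Real.rpow_add (by norm_num)]
    _ ≤ n * 2 ^ (18 * s) := by
        gcongr
        · norm_num
        · linarith

/-- The empty graph has no `K₄` minor. -/
theorem seriesParallel_bot {V : Type*} : SeriesParallel (⊥ : SimpleGraph V) := by
  rintro ⟨B, -, -, h⟩
  obtain ⟨x, -, y, -, hxy⟩ := h 0 1 (by decide)
  exact hxy

theorem Ap_le (n : ℕ) (hn : 4 ≤ n) :
    (Ap n : ℝ) ≤ n * 2 ^ (18 * √(logb 2 n * logb 2 (logb 2 n))) := by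
  have hfin : {a : ℕ | ∃ G : SimpleGraph (Fin n), SeriesParallel G ∧ a = minArea G}.Finite := by
    refine (Set.finite_range (fun G : SimpleGraph (Fin n) => minArea G)).subset ?_
    rintro a ⟨G, -, rfl⟩
    exact ⟨G, rfl⟩
  have hne : {a : ℕ | ∃ G : SimpleGraph (Fin n), SeriesParallel G ∧ a = minArea G}.Nonempty :=
    ⟨_, ⊥, seriesParallel_bot, rfl⟩
  obtain ⟨G, hG, h⟩ := Nat.sSup_mem hne hfin.bddAbove
  rw [Ap, h]
  exact minArea_le n hn G hG

end Pool.Agent.W2helper91.SP
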