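import Pool.Agent.W2helper91.SP.K2n
import Pool.Agent.W2helper91.SP.Build
import Pool.Agent.W2helper91.SP.Numeric

/-!
# The lower bound `n * 2 ^ Ω(√(log n * log log n))`
-/

set_option autoImplicit false

namespace Pool.Agent.W2helper91.SP

open Real Filter

section
variable {V : Type*} {G : SimpleGraph V}

theorem win_model (D : PolylineDrawing G) {W H : ℕ} (hD : D.InBox W H) :
    ∃ lo, Win D.model.R lo (H + 1) := by
  obtain ⟨x0, y0, -, he⟩ := hD
  refine ⟨y0, ?_⟩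
  rintro p q ⟨e, hee, -, -, i, hi, h1, -⟩
  have h2 := h1.le
  have h3 := he e hee _ (List.getElem_mem (show i < (D.path e).length by omega))
  have h4 := he e hee _ (List.getElem_mem hi)
  push_cast
  omega

/-- The lower bound for the height. -/
theorem height_bound (D : PolylineDrawing G) {W H : ℕ} (hD : D.InBox W H) {x y : V} {X : T V}
    (hX : PIn G x y X) (hxy : x ≠ y) {c P k J : ℕ} (hR : Rich (P :: rs c P k J) X)
    (hP : 4 * (k + 1) ^ J + 5 ≤ P) (hc : 4 * (k + 1) + 1 ≤ c) : (k + 1) ^ J ≤ H := by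
  by_contra hcon
  push Not at hcon
  obtain ⟨lo, hw⟩ := win_model D hD
  have := rows_lower D.model.planar hw (by omega) hc (fun h => hxy (D.model.pos_inj h))
    (piece_of_rich D.model _ x y X hX hR)
  omega

/-- Exchange of the coordinates. -/
def swapA : Aff := ⟨0, 1, 1, 0, 0, 0, by norm_num⟩

theorem swapA_f (q : ℤ × ℤ) : swapA.f q = (q.2, q.1) := by
  simp [Aff.f, swapA]

theorem inBox_swap (D : PolylineDrawing G) {W H : ℕ} (hD : D.InBox W H) :
    (D.map swapA).InBox H W := by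
  obtain ⟨x0, y0, hv, he⟩ := hD
  refine ⟨y0, x0, ?_, ?_⟩
  · intro v
    rw [map_pos, swapA_f]
    have := hv v
    simp only
    omega
  · intro e hee q hq
    simp only [PolylineDrawing.map, List.mem_map] at hq
    obtain ⟨q', hq', rfl⟩ := hq
    rw [swapA_f]
    have := he e hee q' hq'
    simp only
    omega

theorem width_bound (D : PolylineDrawing G) {W H : ℕ} (hD : D.InBox W H) {x y : V} {X : T V}
    (hX : PIn G x y X) (hxy : x ≠ y) {c P k J : ℕ} (hR : Rich (P :: rs c P k J) X)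
    (hP : 4 * (k + 1) ^ J + 5 ≤ P) (hc : 4 * (k + 1) + 1 ≤ c) : (k + 1) ^ J ≤ W :=
  height_bound (D.map swapA) (inBox_swap D hD) hX hxy hR hP hc

end

theorem two_fs (qs : List ℕ) : 2 * fs qs + 1 = (qs.map fun q => 2 * q + 1).prod := by
  induction qs with
  | nil => rfl
  | cons q qs ih =>
    rw [List.map_cons, List.prod_cons, ← ih, fs]
    ring

theorem prod_rs (c P k J : ℕ) : ((rs c P k J).map fun q => 2 * q + 1).prod =
    ((2 * c + 1) ^ k * (2 * P + 1)) ^ J := by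
  induction J with
  | zero => rfl
  | succ J ih =>
    rw [rs, st, List.map_append, List.prod_append, List.map_cons, List.prod_cons, ih,
      List.map_replicate, List.prod_replicate, pow_succ]
    ring

/-- The size of the rich pieces. -/
theorem two_fs_le {m : ℕ} (hm : 1 ≤ m) :
    2 * fs ((4 * (m + 1) ^ m + 5) :: rs (4 * m + 5) (4 * (m + 1) ^ m + 5) m m) + 1 ≤
      (19 * (m + 1)) ^ (3 * m ^ 2) := by
  rw [two_fs, List.map_cons, List.prod_cons, prod_rs]
  have h1 : 2 * (4 * (m + 1) ^ m + 5) + 1 ≤ (19 * (m + 1)) ^ m := by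
    rw [mul_pow]
    have e1 : 19 ≤ 19 ^ m := by
      calc 19 = 19 ^ 1 := rfl
        _ ≤ 19 ^ m := Nat.pow_le_pow_right (by norm_num) hm
    have e2 : 1 ≤ (m + 1) ^ m := Nat.one_le_pow _ _ (by omega)
    calc 2 * (4 * (m + 1) ^ m + 5) + 1 ≤ 19 * (m + 1) ^ m := by omega
      _ ≤ 19 ^ m * (m + 1) ^ m := Nat.mul_le_mul_right _ e1
  have h2 : 2 * (4 * m + 5) + 1 ≤ 19 * (m + 1) := by omega
  calc (2 * (4 * (m + 1) ^ m + 5) + 1) *
        ((2 * (4 * m + 5) + 1) ^ m * (2 * (4 * (m + 1) ^ m + 5) + 1)) ^ m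
      ≤ (19 * (m + 1)) ^ m * ((19 * (m + 1)) ^ m * (19 * (m + 1)) ^ m) ^ m := by
        gcongr
    _ = (19 * (m + 1)) ^ (m + (m + m) * m) := by
        rw [← pow_add, ← pow_mul, ← pow_add]
    _ ≤ (19 * (m + 1)) ^ (3 * m ^ 2) := by
        refine Nat.pow_le_pow_right (by omega) ?_
        nlinarith

/-- The hard graphs. -/
theorem exists_hard_graph {n m : ℕ} (hm : 1 ≤ m) (hn : 2 * (19 * (m + 1)) ^ (3 * m ^ 2) ≤ n)
    (hn16 : 16 ≤ n) :
    ∃ G : SimpleGraph (Fin n), SeriesParallel G ∧ ∀ (D : PolylineDrawing G) (W H : ℕ),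
      D.InBox W H → (m + 1) ^ m ≤ W ∧ (m + 1) ^ m ≤ H ∧ n ≤ 16 * (W + H) := by
  set qs := (4 * (m + 1) ^ m + 5) :: rs (4 * m + 5) (4 * (m + 1) ^ m + 5) m m with hqs
  have hfs : 2 * fs qs + 1 ≤ (19 * (m + 1)) ^ (3 * m ^ 2) := two_fs_le hm
  obtain ⟨N, hN⟩ : ∃ N, n = 2 + (N + fs qs) := ⟨n - 2 - fs qs, by omega⟩
  obtain ⟨s, t, X, h1, h2, h3, h4, M, h5, h6⟩ := exists_hard hN
  refine ⟨tG s t X, h1, fun D W H hD => ⟨?_, ?_, ?_⟩⟩
  · exact width_bound D hD h2 h4 h3 le_rfl (by omega)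
  · exact height_bound D hD h2 h4 h3 le_rfl (by omega)
  · have := card_common_le D hD h4 (M := M) h6
    omega

theorem le_area {n W H K : ℕ} (h1 : K ≤ W) (h2 : K ≤ H) (h3 : n ≤ 16 * (W + H)) :
    K * n ≤ 32 * (W * H) := by
  rcases le_total W H with h | h
  · calc K * n ≤ W * (32 * H) := Nat.mul_le_mul h1 (by omega)
      _ = 32 * (W * H) := by ring
  · calc K * n ≤ H * (32 * W) := Nat.mul_le_mul h2 (by omega)
      _ = 32 * (W * H) := by ring

/-- The parameters. -/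
theorem eventually_params : ∀ᶠ n : ℕ in atTop, ∃ m : ℕ, 1 ≤ m ∧
    2 * (19 * (m + 1)) ^ (3 * m ^ 2) ≤ n ∧ 16 ≤ n ∧
    (2 : ℝ) ^ (1 / 24 * √(logb 2 n * logb 2 (logb 2 n))) ≤ ((m + 1) ^ m : ℕ) := by
  have hl : Tendsto (fun n : ℕ => logb 2 (n : ℝ)) atTop atTop :=
    (tendsto_logb_atTop one_lt_two).comp tendsto_natCast_atTop_atTop
  have hlam : Tendsto (fun n : ℕ => logb 2 (logb 2 (n : ℝ))) atTop atTop :=
    (tendsto_logb_atTop one_lt_two).comp hl
  have hsq : ∀ᶠ z : ℝ in atTop, 9 * logb 2 z ≤ z ^ (1 / 2 : ℝ) := by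
    have h := (isLittleO_log_rpow_atTop (r := 1 / 2) (by norm_num)).bound
      (c := Real.log 2 / 9) (by have := Real.log_pos one_lt_two; positivity)
    filter_upwards [h, eventually_ge_atTop 1] with z hz hz1
    rw [Real.norm_eq_abs, Real.norm_eq_abs, abs_of_nonneg (Real.log_nonneg hz1),
      abs_of_nonneg (by positivity)] at hz
    have := Real.log_pos one_lt_two
    rw [logb]
    have e : 9 * (Real.log z / Real.log 2) = Real.log z * 9 / Real.log 2 := by ring
    rw [e, div_le_iff₀ this]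
    calc Real.log z * 9 ≤ Real.log 2 / 9 * z ^ (1 / 2 : ℝ) * 9 := by gcongr
      _ = z ^ (1 / 2 : ℝ) * Real.log 2 := by ring
  filter_upwards [hl.eventually hsq, hl.eventually (eventually_ge_atTop 169),
    hlam.eventually (eventually_ge_atTop 1), eventually_ge_atTop 16] with n h1 h2 h3 h4
  set l : ℝ := logb 2 n with hldef
  set lam : ℝ := logb 2 l with hlamdef
  have hn0 : (0 : ℝ) < n := by exact_mod_cast (show 0 < n by omega)
  have hnl : (n : ℝ) = 2 ^ l := by
    rw [hldef, Real.rpow_logb (by norm_num) (by norm_num) hn0]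
  have hl0 : 0 < l := by linarith
  have hllam : l = 2 ^ lam := by
    rw [hlamdef, Real.rpow_logb (by norm_num) (by norm_num) hl0]
  have hlam0 : 0 < lam := by linarith
  set r : ℝ := √(l / lam) with hr
  have hr0 : 0 ≤ r := Real.sqrt_nonneg _
  have hr2 : r * r = l / lam := Real.mul_self_sqrt (by positivity)
  have hsl : l ^ (1 / 2 : ℝ) = √l := (Real.sqrt_eq_rpow l).symm
  rw [hsl] at h1
  have hsl2 : √l * √l = l := Real.mul_self_sqrt hl0.le
  have hsl0 : 0 ≤ √l := Real.sqrt_nonneg _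
  have hsl13 : 13 ≤ √l := by
    rw [Real.le_sqrt' (by norm_num)]
    linarith
  -- `r` is large
  have hr9 : 9 * √l ≤ r * r := by
    rw [hr2, le_div_iff₀ hlam0]
    nlinarith
  have hrl : r ≤ √l := by
    rw [hr]
    apply Real.sqrt_le_sqrt
    rw [div_le_iff₀ hlam0]
    nlinarith
  have hr3 : 3 ≤ r := by
    by_contra hcon
    push Not at hcon
    nlinarith
  obtain ⟨m, hm⟩ : ∃ m : ℕ, m = ⌊r / 3⌋₊ := ⟨_, rfl⟩
  have hm1 : (m : ℝ) ≤ r / 3 := by rw [hm]; exact Nat.floor_le (by positivity)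
  have hm2 : r / 3 ≤ m + 1 := by rw [hm]; exact (Nat.lt_floor_add_one _).le
  have hm3 : 1 ≤ m := by
    rw [hm]
    exact Nat.le_floor (by push_cast; linarith)
  have hm3' : (1 : ℝ) ≤ m := by exact_mod_cast hm3
  refine ⟨m, hm3, ?_, h4, ?_⟩
  · -- the size
    have e1 : ((19 * (m + 1) : ℕ) : ℝ) ≤ 2 ^ lam := by
      rw [← hllam]
      push_cast
      nlinarith
    have e2 : lam * (3 * m ^ 2 : ℕ) ≤ l - 1 := by
      push_cast
      have : (m : ℝ) ^ 2 ≤ (l / lam) / 9 := by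
        rw [← hr2]
        nlinarith
      calc lam * (3 * (m : ℝ) ^ 2) ≤ lam * (3 * ((l / lam) / 9)) := by gcongr
        _ = l / 3 := by field_simp; norm_num
        _ ≤ l - 1 := by linarith
    have e3 : ((2 * (19 * (m + 1)) ^ (3 * m ^ 2) : ℕ) : ℝ) ≤ n := by
      calc ((2 * (19 * (m + 1)) ^ (3 * m ^ 2) : ℕ) : ℝ)
          = 2 * ((19 * (m + 1) : ℕ) : ℝ) ^ (3 * m ^ 2) := by push_cast; ring
        _ ≤ 2 * (2 ^ lam) ^ (3 * m ^ 2) := by gcongr
        _ = 2 ^ (1 : ℝ) * 2 ^ (lam * (3 * m ^ 2 : ℕ)) := by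
          rw [Real.rpow_one, Real.rpow_mul (by norm_num), Real.rpow_natCast]
        _ ≤ 2 ^ (1 : ℝ) * 2 ^ (l - 1) := by
          gcongr
          norm_num
        _ = n := by rw [← Real.rpow_add (by norm_num), hnl]; congr 1; ring
    exact_mod_cast e3
  · -- the value
    have e1 : (2 : ℝ) ^ (lam / 4) ≤ m + 1 := by
      have f1 : (2 : ℝ) ^ (lam / 4) * 2 ^ (lam / 4) = √l := by
        rw [← Real.rpow_add (by norm_num), ← hsl, hllam, ← Real.rpow_mul (by norm_num)]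
        congr 1
        ring
      have f2 : (0 : ℝ) ≤ 2 ^ (lam / 4) := by positivity
      by_contra hcon
      push Not at hcon
      have f3 : r / 3 < 2 ^ (lam / 4) := hm2.trans_lt hcon
      nlinarith
    have e2 : √(l * lam) = lam * r := by
      rw [hr, Real.sqrt_eq_iff_mul_self_eq (by positivity) (by positivity)]
      symm
      calc lam * √(l / lam) * (lam * √(l / lam)) = lam * lam * (√(l / lam) * √(l / lam)) := by ring
        _ = lam * lam * (l / lam) := by rw [Real.mul_self_sqrt (by positivity)]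
        _ = l * lam := by field_simp
    rw [e2]
    push_cast
    calc (2 : ℝ) ^ (1 / 24 * (lam * r)) ≤ 2 ^ (lam / 4 * m) := by
          apply Real.rpow_le_rpow_of_exponent_le (by norm_num)
          nlinarith
      _ = (2 ^ (lam / 4)) ^ m := by rw [Real.rpow_mul (by norm_num), Real.rpow_natCast]
      _ ≤ ((m : ℝ) + 1) ^ m := by gcongr

/-- Graphs with large width and height. -/
theorem eventually_hard : ∀ᶠ n : ℕ in atTop, ∃ G : SimpleGraph (Fin n), SeriesParallel G ∧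
    ∀ (D : PolylineDrawing G) (W H : ℕ), D.InBox W H →
      (2 : ℝ) ^ (1 / 24 * √(logb 2 n * logb 2 (logb 2 n))) ≤ W ∧
      (2 : ℝ) ^ (1 / 24 * √(logb 2 n * logb 2 (logb 2 n))) ≤ H ∧
      n * (2 : ℝ) ^ (1 / 24 * √(logb 2 n * logb 2 (logb 2 n))) ≤ 32 * (W * H) := by
  filter_upwards [eventually_params] with n hn
  obtain ⟨m, h1, h2, h3, h4⟩ := hn
  obtain ⟨G, hG, hD⟩ := exists_hard_graph h1 h2 h3
  refine ⟨G, hG, fun D W H hbox => ?_⟩
  obtain ⟨g1, g2, g3⟩ := hD D W H hbox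
  refine ⟨h4.trans (by exact_mod_cast g1), h4.trans (by exact_mod_cast g2), ?_⟩
  have := le_area g1 g2 g3
  calc (n : ℝ) * 2 ^ (1 / 24 * √(logb 2 n * logb 2 (logb 2 n)))
      ≤ n * ((m + 1) ^ m : ℕ) := by gcongr
    _ = (((m + 1) ^ m * n : ℕ) : ℝ) := by push_cast; ring
    _ ≤ ((32 * (W * H) : ℕ) : ℝ) := by exact_mod_cast this
    _ = 32 * (W * H) := by push_cast; ring

/-- The minimum area is attained. -/
theorem minArea_mem {n : ℕ} (hn : 4 ≤ n) {G : SimpleGraph (Fin n)} (hG : SeriesParallel G) :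
    ∃ (D : PolylineDrawing G) (W H : ℕ), D.InBox W H ∧ minArea G = W * H := by
  obtain ⟨D, H, hD, -⟩ := exists_small_drawing n hn G hG
  exact Nat.sInf_mem (s := {a : ℕ | ∃ D : PolylineDrawing G, ∃ W H : ℕ, D.InBox W H ∧ a = W * H})
    ⟨_, D, _, H, hD, rfl⟩

theorem le_Ap {n : ℕ} {G : SimpleGraph (Fin n)} (hG : SeriesParallel G) : minArea G ≤ Ap n := by
  have hfin : {a : ℕ | ∃ G : SimpleGraph (Fin n), SeriesParallel G ∧ a = minArea G}.Finite := by
    refine (Set.finite_range (fun G : SimpleGraph (Fin n) => minArea G)).subset ?_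
    rintro a ⟨G, -, rfl⟩
    exact ⟨G, rfl⟩
  exact le_csSup hfin.bddAbove ⟨G, hG, rfl⟩

/-- The lower bound. -/
theorem eventually_le_Ap : ∀ᶠ n : ℕ in atTop,
    n * (2 : ℝ) ^ (1 / 48 * √(logb 2 n * logb 2 (logb 2 n))) ≤ Ap n := by
  have hl : Tendsto (fun n : ℕ => logb 2 (n : ℝ)) atTop atTop :=
    (tendsto_logb_atTop one_lt_two).comp tendsto_natCast_atTop_atTop
  have hlam : Tendsto (fun n : ℕ => logb 2 (logb 2 (n : ℝ))) atTop atTop :=
    (tendsto_logb_atTop one_lt_two).comp hl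
  filter_upwards [eventually_hard, hl.eventually (eventually_ge_atTop (240 ^ 2)),
    hlam.eventually (eventually_ge_atTop 1), eventually_ge_atTop 4] with n h1 h2 h3 h4
  obtain ⟨G, hG, hD⟩ := h1
  obtain ⟨D, W, H, hbox, hA⟩ := minArea_mem h4 hG
  obtain ⟨-, -, hWH⟩ := hD D W H hbox
  have hs : 240 ≤ √(logb 2 n * logb 2 (logb 2 n)) := by
    rw [Real.le_sqrt' (by norm_num)]
    nlinarith
  set s := √(logb 2 n * logb 2 (logb 2 n)) with hsdef
  have h5 : (minArea G : ℝ) ≤ Ap n := by exact_mod_cast le_Ap hG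
  rw [hA] at h5
  push_cast at h5
  have h6 : (2 : ℝ) ^ (1 / 24 * s) = 2 ^ (1 / 48 * s) * 2 ^ (1 / 48 * s) := by
    rw [← Real.rpow_add (by norm_num)]
    congr 1
    ring
  have h7 : (32 : ℝ) ≤ 2 ^ (1 / 48 * s) := by
    calc (32 : ℝ) = 2 ^ (5 : ℝ) := by norm_num
      _ ≤ 2 ^ (1 / 48 * s) := Real.rpow_le_rpow_of_exponent_le (by norm_num) (by linarith)
  have h8 : (0 : ℝ) ≤ n * 2 ^ (1 / 48 * s) := by positivity
  nlinarith

end Pool.Agent.W2helper91.SP
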