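import Pool.Agent.W2helper91.SP.Stage

/-!
# The stage lemma with local windows
-/

set_option autoImplicit false

namespace Pool.Agent.W2helper91.SP

section
variable {R : SimpleGraph Pt} (hR : RowPlanar R)
include hR

open Classical in
/-- At most `2 h` sets reach above both poles. -/
theorem card_above_le2 {lo : ℤ} {h P : ℕ} {x y : Pt} (hxy : x ≠ y)
    {K : Fin P → Set Pt} (hw : ∀ i, ∀ p ∈ K i, lo ≤ p.2 ∧ p.2 < lo + h) (hd : ∀ i j, i ≠ j → Disjoint (K i) (K j))
    (hb : ∀ i, Blob R x y (K i)) :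
    (Finset.univ.filter fun i => ∃ p ∈ K i, max x.2 y.2 < p.2).card ≤ 2 * h := by
  have htop : ∀ i, ∃ T : ℤ, (∀ p ∈ K i, p.2 ≤ T) ∧ ∃ p ∈ K i, p.2 = T := by
    intro i
    obtain ⟨u, hu, -⟩ := (hb i).ax
    obtain ⟨T, ⟨p, hp, hpT⟩, hT2⟩ := Int.exists_greatest_of_bdd
      (P := fun T => ∃ p ∈ K i, p.2 = T) ⟨lo + h, by
        rintro z ⟨p, hp, rfl⟩
        exact (hw i p hp).2.le⟩ ⟨u.2, u, hu, rfl⟩
    exact ⟨T, fun q hq => hT2 q.2 ⟨q, hq, rfl⟩, p, hp, hpT⟩
  choose T hT hT' using htop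
  have := Finset.card_le_mul_card_image_of_maps_to (f := T)
    (s := Finset.univ.filter fun i => ∃ p ∈ K i, max x.2 y.2 < p.2)
    (t := Finset.Ico lo (lo + h)) (by
      intro i _
      obtain ⟨p, hp, hpT⟩ := hT' i
      have := hw i p hp
      rw [Finset.mem_Ico]
      omega) 2 (by
      intro t _
      by_cases ht : max x.2 y.2 < t
      · refine le_trans (Finset.card_le_card ?_)
          (card_top_le hR hxy hd hb (T := t) (by omega) (by omega))
        intro i hi
        simp only [Finset.mem_filter, Finset.mem_univ, true_and] at hi ⊢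
        rw [← hi.2]
        exact ⟨hT i, hT' i⟩
      · have : ((Finset.univ.filter fun i => ∃ p ∈ K i, max x.2 y.2 < p.2).filter
            (fun i => T i = t)) = ∅ := by
          rw [Finset.filter_eq_empty_iff]
          intro i hi hti
          simp only [Finset.mem_filter, Finset.mem_univ, true_and] at hi
          obtain ⟨p, hp, hpm⟩ := hi
          have := hT i p hp
          omega
        rw [this]
        simp)
  rw [Int.card_Ico] at this
  simpa using this

open Classical in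
theorem card_below_le2 {lo : ℤ} {h P : ℕ} {x y : Pt} (hxy : x ≠ y)
    {K : Fin P → Set Pt} (hw : ∀ i, ∀ p ∈ K i, lo ≤ p.2 ∧ p.2 < lo + h) (hd : ∀ i j, i ≠ j → Disjoint (K i) (K j))
    (hb : ∀ i, Blob R x y (K i)) :
    (Finset.univ.filter fun i => ∃ p ∈ K i, p.2 < min x.2 y.2).card ≤ 2 * h := by
  have := card_above_le2 hR.flip (lo := -lo - h + 1) (h := h) (x := fl x) (y := fl y)
    (fun e => hxy (fl_inj e)) (K := fun i => flS (K i)) (by
      intro i p hp
      have := hw i _ hp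
      simp only [fl_snd] at this
      omega) (by
      intro i j hij
      rw [Set.disjoint_left]
      intro p hp hp'
      exact Set.disjoint_left.1 (hd i j hij) hp hp') (fun i => (hb i).flip)
  refine le_trans (Finset.card_le_card ?_) this
  intro i hi
  simp only [Finset.mem_filter, Finset.mem_univ, true_and] at hi ⊢
  obtain ⟨p, hp, hpm⟩ := hi
  refine ⟨fl p, by simpa using hp, ?_⟩
  simp only [fl_snd]
  omega

open Classical in
/-- Thick bundles. -/
theorem thick_of_piece2 {lo : ℤ} {h P : ℕ} {rest : List ℕ} {F : ℤ}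
    (hP : 4 * h + 5 ≤ P) (hdist : Dist R rest F) {x y : Pt} (hxy : x ≠ y) {Ω : Set Pt}
    (hw : ∀ p ∈ Ω, lo ≤ p.2 ∧ p.2 < lo + h)
    (hp : Piece R (P :: rest) x y Ω) :
    x.2 ≠ y.2 ∧ F ≤ |x.2 - y.2| ∧ ∃ S ⊆ Ω, Thick R x y S := by
  rw [piece_cons] at hp
  obtain ⟨-, m, K, hd, hK⟩ := hp
  have hb : ∀ i, Blob R x y (K i) := fun i => (hK i).2.blob
  have hw' : ∀ i, ∀ p ∈ K i, lo ≤ p.2 ∧ p.2 < lo + h := fun i p hp => hw p ((hK i).1 hp)
  set A := Finset.univ.filter fun i => ∃ p ∈ K i, max x.2 y.2 < p.2 with hA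
  set B := Finset.univ.filter fun i => ∃ p ∈ K i, p.2 < min x.2 y.2 with hB
  set C := Finset.univ.filter fun i => ∃ u ∈ K i, R.Adj x u ∧ u.2 = x.2 with hC
  set D := Finset.univ.filter fun i => ∃ u ∈ K i, R.Adj y u ∧ u.2 = y.2 with hD
  have cA : A.card ≤ 2 * h := card_above_le2 hR hxy hw' hd hb
  have cB : B.card ≤ 2 * h := card_below_le2 hR hxy hw' hd hb
  have cC : C.card ≤ 2 := card_hor_le hR hd
  have cD : D.card ≤ 2 := card_hor_le hR hd
  have hstrict : ∀ i, i ∉ A → i ∉ B → Strict x y (K i) := by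
    intro i hiA hiB p hp
    simp only [hA, hB, Finset.mem_filter, Finset.mem_univ, true_and, not_exists, not_and,
      not_lt] at hiA hiB
    exact ⟨hiB p hp, hiA p hp⟩
  have hrow : x.2 ≠ y.2 := by
    intro heq
    -- all strict sets are in the row of the poles
    have h1 := card_top_le hR hxy hd hb (T := x.2) le_rfl heq.ge
    have h2 : (A ∪ B)ᶜ ⊆
        Finset.univ.filter fun i => (∀ p ∈ K i, p.2 ≤ x.2) ∧ ∃ p ∈ K i, p.2 = x.2 := by
      intro i hi
      rw [Finset.mem_compl, Finset.mem_union, not_or] at hi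
      have hs := hstrict i hi.1 hi.2
      simp only [Finset.mem_filter, Finset.mem_univ, true_and]
      have hs' : ∀ p ∈ K i, p.2 = x.2 := by
        intro p hp
        have := hs p hp
        omega
      obtain ⟨u, hu, -⟩ := (hb i).ax
      exact ⟨fun p hp => (hs' p hp).le, u, hu, hs' u hu⟩
    have h3 := Finset.card_le_card h2
    rw [Finset.card_compl, Fintype.card_fin] at h3
    have h4 := Finset.card_union_le A B
    omega
  have hex : ∃ i, i ∉ A ∧ i ∉ B ∧ i ∉ C ∧ i ∉ D := by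
    by_contra hcon
    push Not at hcon
    have h1 : (Finset.univ : Finset (Fin P)) ⊆ ((A ∪ B) ∪ C) ∪ D := by
      intro i _
      simp only [Finset.mem_union]
      by_cases e1 : i ∈ A
      · simp [e1]
      · by_cases e2 : i ∈ B
        · simp [e2]
        · by_cases e3 : i ∈ C
          · simp [e3]
          · simp [hcon i e1 e2 e3]
    have h2 := Finset.card_le_card h1
    rw [Finset.card_univ, Fintype.card_fin] at h2
    have h3 := Finset.card_union_le ((A ∪ B) ∪ C) D
    have h4 := Finset.card_union_le (A ∪ B) C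
    have h5 := Finset.card_union_le A B
    omega
  obtain ⟨i, iA, iB, iC, iD⟩ := hex
  have hs := hstrict i iA iB
  refine ⟨hrow, hdist x y (m i) (K i) hxy (hK i).2 hs, K i, (hK i).1, (hb i).conn, hs, ?_, ?_⟩
  · obtain ⟨u, hu, hxu⟩ := (hb i).ax
    refine ⟨u, hu, hxu, fun e => iC ?_⟩
    simp only [hC, Finset.mem_filter, Finset.mem_univ, true_and]
    exact ⟨u, hu, hxu, e⟩
  · obtain ⟨u, hu, hxu⟩ := (hb i).ay
    refine ⟨u, hu, hxu, fun e => iD ?_⟩
    simp only [hD, Finset.mem_filter, Finset.mem_univ, true_and]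
    exact ⟨u, hu, hxu, e⟩

end

/-- Fixed data of a stage. -/
structure Data2 (R : SimpleGraph Pt) (h c P : ℕ) (rest : List ℕ) (F : ℤ) : Prop where
  hR : RowPlanar R
  hP : 4 * h + 5 ≤ P
  hF : 1 ≤ F
  hdist : F = 1 ∨ Dist R rest F

theorem Data2.flip {R : SimpleGraph Pt} {h c P : ℕ} {rest : List ℕ} {F : ℤ}
    (D : Data2 R h c P rest F) : Data2 (flG R) h c P rest F :=
  ⟨D.hR.flip, D.hP, D.hF, D.hdist.imp id Dist.flip⟩

section
variable {R : SimpleGraph Pt} {h c P : ℕ} {rest : List ℕ} {F : ℤ}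
  (D : Data2 R h c P rest F)
include D

theorem Data2.thick {n : ℕ} {lo : ℤ} {x y : Pt} (hxy : x ≠ y) {Ω : Set Pt}
    (hw : ∀ p ∈ Ω, lo ≤ p.2 ∧ p.2 < lo + h)
    (hp : Piece R (st c P rest n) x y Ω) :
    x.2 ≠ y.2 ∧ F ≤ |x.2 - y.2| ∧ ∃ S ⊆ Ω, Thick R x y S := by
  rcases D.hdist with h | h
  · have h0 : Dist R rest 0 := fun x y m K _ _ _ => abs_nonneg _
    obtain ⟨h1, -, h2⟩ := thick_of_piece2 D.hR D.hP h0 hxy hw (piece_of_st hp)
    refine ⟨h1, ?_, h2⟩
    rw [h]
    exact Int.one_le_abs (sub_ne_zero.2 h1)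
  · exact thick_of_piece2 D.hR D.hP h hxy hw (piece_of_st hp)

/-- The main claim: `x` is below `v`; either a component on `(x, v)` is strict, or there is a
vertex high above `v`. -/
theorem Data2.claim {n : ℕ} (hc : 4 * (n + 3) + 1 ≤ c) {s0 s1 : ℤ}
    (hd1 : Dist R (st c P rest (n + 1)) s1) (hd0 : Dist R (st c P rest n) s0) {x v : Pt}
    (hlt : x.2 < v.2) {Ω : Set Pt} {B : ℤ} (hp : Piece R (st c P rest (n + 2)) x v Ω)
    (hΩ : ∀ p ∈ Ω, x.2 ≤ p.2 ∧ p.2 ≤ B) (hB : B - v.2 < (n + 3) * F) (hBh : B < x.2 + h) :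
    s1 ≤ v.2 - x.2 ∨ ∃ w ∈ Ω, s0 ≤ w.2 - v.2 := by
  classical
  have hR := D.hR
  have hF := D.hF
  have hxv : x ≠ v := fun e => by rw [e] at hlt; exact lt_irrefl _ hlt
  have hwin : ∀ p ∈ Ω, x.2 ≤ p.2 ∧ p.2 < x.2 + h := by
    intro p hp
    have := hΩ p hp
    omega
  rw [st_succ, piece_cons] at hp
  obtain ⟨-, m, K, hd, hK⟩ := hp
  by_cases hs : ∃ i, Strict x v (K i)
  · left
    obtain ⟨i, hi⟩ := hs
    have := hd1 x v (m i) (K i) hxv (hK i).2 hi
    rw [abs_of_neg (by omega)] at this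
    omega
  right
  push Not at hs
  have hb : ∀ i, Blob R x v (K i) := fun i => (hK i).2.blob
  -- the top rows
  have htop : ∀ i, ∃ T : ℤ, (∀ p ∈ K i, p.2 ≤ T) ∧ (∃ p ∈ K i, p.2 = T) ∧ v.2 < T ∧ T ≤ B := by
    intro i
    obtain ⟨T, ⟨p, hp, hpT⟩, hT2⟩ := Int.exists_greatest_of_bdd
      (P := fun T => ∃ p ∈ K i, p.2 = T) ⟨B, by
        rintro z ⟨p, hp, rfl⟩
        exact (hΩ p ((hK i).1 hp)).2⟩ ⟨(m i).2, m i, (hK i).2.hm, rfl⟩
    refine ⟨T, fun q hq => hT2 q.2 ⟨q, hq, rfl⟩, ⟨p, hp, hpT⟩, ?_, ?_⟩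
    · by_contra hcon
      apply hs i
      intro q hq
      have h1 := hT2 q.2 ⟨q, hq, rfl⟩
      have h2 := (hΩ q ((hK i).1 hq)).1
      omega
    · rw [← hpT]
      exact (hΩ p ((hK i).1 hp)).2
  choose t ht1 ht2 ht3 ht4 using htop
  -- thick sets
  have hmx : ∀ i, x ≠ m i := fun i e => (hK i).2.hx (by rw [e]; exact (hK i).2.hm)
  have hmv : ∀ i, m i ≠ v := fun i e => (hK i).2.hy (by rw [← e]; exact (hK i).2.hm)
  have thx := fun i => D.thick (hmx i) (lo := x.2) (Ω := K i \ {m i})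
    (fun p hp => hwin p ((hK i).1 hp.1)) (hK i).2.left
  have thv := fun i => D.thick (hmv i) (lo := x.2) (Ω := K i \ {m i})
    (fun p hp => hwin p ((hK i).1 hp.1)) (hK i).2.right
  have hSx : ∀ i, ∃ S ⊆ K i, Thick R x (m i) S := by
    intro i
    obtain ⟨-, -, S, hS, h⟩ := thx i
    exact ⟨S, hS.trans Set.sdiff_subset, h⟩
  have hSv : ∀ i, ∃ S ⊆ K i, Thick R v (m i) S := by
    intro i
    obtain ⟨-, -, S, hS, h⟩ := thv i
    exact ⟨S, hS.trans Set.sdiff_subset, h.symm⟩
  -- pigeonhole on the blocks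
  obtain ⟨g0, hg0, hfib⟩ := Finset.exists_lt_card_fiber_of_mul_lt_card_of_maps_to
    (s := (Finset.univ : Finset (Fin c))) (t := Finset.Ico (0 : ℤ) (n + 3))
    (f := fun i => (t i - v.2 - 1) / F) (n := 4) (by
      intro i _
      rw [Finset.mem_Ico]
      have h1 := ht3 i
      have h2 := ht4 i
      constructor
      · exact Int.ediv_nonneg (by omega) (by omega)
      · rw [Int.ediv_lt_iff_lt_mul (by omega)]
        omega) (by
      rw [Int.card_Ico, Finset.card_univ, Fintype.card_fin]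
      have : ((n : ℤ) + 3 - 0).toNat = n + 3 := by omega
      rw [this]
      omega)
  set b : ℤ := v.2 + 1 + g0 * F with hb_def
  have hg0' : 0 ≤ g0 := (Finset.mem_Ico.1 hg0).1
  have hbv : v.2 < b := by
    have : 0 ≤ g0 * F := by positivity
    omega
  have hblock : ∀ i, (t i - v.2 - 1) / F = g0 → b ≤ t i ∧ t i < b + F := by
    intro i hi
    have h1 := Int.mul_ediv_self_le (x := t i - v.2 - 1) (k := F) (by omega)
    have h2 := Int.lt_mul_ediv_self_add (x := t i - v.2 - 1) (k := F) (by omega)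
    rw [hi] at h1 h2
    have : F * g0 = g0 * F := mul_comm _ _
    omega
  -- three of them have `m` in the block
  have hlow := card_reach_le hR hxv (T := b) (by omega) hbv.le hd hb (fun i => (hK i).2.hm)
    hSx hSv
  have hthree : 2 < ((Finset.univ.filter fun i => (t i - v.2 - 1) / F = g0).filter
      fun i => b ≤ (m i).2).card := by
    have h1 := Finset.card_filter_add_card_filter_not
      (s := Finset.univ.filter fun i => (t i - v.2 - 1) / F = g0) (fun i => b ≤ (m i).2)
    have h2 : ((Finset.univ.filter fun i => (t i - v.2 - 1) / F = g0).filter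
        fun i => ¬ b ≤ (m i).2).card ≤ 2 := by
      refine le_trans (Finset.card_le_card ?_) hlow
      intro i hi
      simp only [Finset.mem_filter, Finset.mem_univ, true_and] at hi ⊢
      obtain ⟨p, hp, hpt⟩ := ht2 i
      exact ⟨by omega, p, hp, by rw [hpt]; exact (hblock i hi.1).1⟩
    omega
  obtain ⟨f, hf, hinj⟩ := three_of_card hthree
  simp only [Finset.mem_filter, Finset.mem_univ, true_and] at hf
  -- one of them does not touch `v` from below
  obtain ⟨i0, hi0⟩ := form_c hR hxv (fun i => K (f i)) (fun i => (hb (f i)).conn)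
    (fun i j hij => hd _ _ (hinj i j hij)) (fun i => (hb (f i)).hx) (fun i => (hb (f i)).hy)
    (fun i => (hb (f i)).ax) (by
      intro i
      obtain ⟨S, hS, hth⟩ := hSv (f i)
      obtain ⟨u, hu, hvu, hu2⟩ := hth.ax
      refine ⟨u, hS hu, hvu, ?_⟩
      have h1 := hth.strict u hu
      have h2 := hR.row v u hvu
      have h3 := (hf i).2
      omega)
  set m' := m (f i0) with hm'
  set K' := K (f i0) with hK'
  have hm'b : b ≤ m'.2 := (hf i0).2
  have htop' : ∀ p ∈ K', p.2 < m'.2 + F := by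
    intro p hp
    have h1 := ht1 (f i0) p hp
    have h2 := (hblock _ (hf i0).1).2
    omega
  have hcomp := (hK (f i0)).2
  have hm'v : m' ≠ v := hmv (f i0)
  refine ⟨m', (hK (f i0)).1 hcomp.hm, ?_⟩
  have hpr := hcomp.right
  rw [st_succ, piece_cons] at hpr
  obtain ⟨-, m2, K2, hd2, hK2⟩ := hpr
  have hb2 : ∀ l, Blob R m' v (K2 l) := fun l => (hK2 l).2.blob
  have hsub : ∀ l, K2 l ⊆ K' := fun l => (hK2 l).1.trans Set.sdiff_subset
  have hmm : ∀ l, m' ≠ m2 l := fun l e => (hK2 l).2.hx (by rw [← hm', e]; exact (hK2 l).2.hm)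
  have hmv2 : ∀ l, m2 l ≠ v := fun l e => (hK2 l).2.hy (by rw [← e]; exact (hK2 l).2.hm)
  have th1 := fun l => D.thick (hmm l) (lo := x.2) (Ω := K2 l \ {m2 l})
    (fun p hp => hwin p ((hK (f i0)).1 (hsub l hp.1))) (hK2 l).2.left
  have th2 := fun l => D.thick (hmv2 l) (lo := x.2) (Ω := K2 l \ {m2 l})
    (fun p hp => hwin p ((hK (f i0)).1 (hsub l hp.1))) (hK2 l).2.right
  have hS1 : ∀ l, ∃ S ⊆ K2 l, Thick R m' (m2 l) S := by
    intro l
    obtain ⟨-, -, S, hS, h⟩ := th1 l
    exact ⟨S, hS.trans Set.sdiff_subset, h⟩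
  have hS2 : ∀ l, ∃ S ⊆ K2 l, Thick R v (m2 l) S := by
    intro l
    obtain ⟨-, -, S, hS, h⟩ := th2 l
    exact ⟨S, hS.trans Set.sdiff_subset, h.symm⟩
  have hpos : ∀ l, v.2 < (m2 l).2 := by
    intro l
    obtain ⟨S, hS, hth⟩ := hS2 l
    obtain ⟨u, hu, hvu, hu2⟩ := hth.ax
    have h1 := hth.strict u hu
    have h2 := hR.row v u hvu
    have h3 := (th2 l).1
    by_contra hcon
    exact hi0 u (hsub l (hS hu)) hvu (by omega)
  have hpos2 : ∀ l, (m2 l).2 < m'.2 := by
    intro l
    have h1 := (th1 l).2.1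
    have h2 := htop' (m2 l) (hsub l (hK2 l).2.hm)
    by_contra hcon
    rw [abs_sub_comm, abs_of_nonneg (by omega)] at h1
    omega
  have cA := card_reach_le hR hm'v (T := m'.2 + 1) (by omega) (by omega) hd2 hb2
    (fun l => (hK2 l).2.hm) hS1 hS2
  have cB := card_reach_le' hR hm'v (T := v.2 - 1) (by omega) (by omega) hd2 hb2
    (fun l => (hK2 l).2.hm) hS1 hS2
  have hex : ∃ l, l ∉ (Finset.univ.filter fun l => (m2 l).2 ≤ m'.2 + 1 ∧
        ∃ p ∈ K2 l, m'.2 + 1 ≤ p.2) ∧
      l ∉ (Finset.univ.filter fun l => v.2 - 1 ≤ (m2 l).2 ∧ ∃ p ∈ K2 l, p.2 ≤ v.2 - 1) := by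
    by_contra hcon
    push Not at hcon
    have h1 : (Finset.univ : Finset (Fin c)) ⊆ (Finset.univ.filter fun l => (m2 l).2 ≤ m'.2 + 1 ∧
        ∃ p ∈ K2 l, m'.2 + 1 ≤ p.2) ∪
        (Finset.univ.filter fun l => v.2 - 1 ≤ (m2 l).2 ∧ ∃ p ∈ K2 l, p.2 ≤ v.2 - 1) := by
      intro l _
      rw [Finset.mem_union]
      by_cases e : l ∈ (Finset.univ.filter fun l => (m2 l).2 ≤ m'.2 + 1 ∧
        ∃ p ∈ K2 l, m'.2 + 1 ≤ p.2)
      · exact Or.inl e
      · exact Or.inr (hcon l e)
    have h2 := Finset.card_le_card h1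
    rw [Finset.card_univ, Fintype.card_fin] at h2
    have h3 := Finset.card_union_le (Finset.univ.filter fun l => (m2 l).2 ≤ m'.2 + 1 ∧
        ∃ p ∈ K2 l, m'.2 + 1 ≤ p.2)
        (Finset.univ.filter fun l => v.2 - 1 ≤ (m2 l).2 ∧ ∃ p ∈ K2 l, p.2 ≤ v.2 - 1)
    omega
  obtain ⟨l, hl1, hl2⟩ := hex
  simp only [Finset.mem_filter, Finset.mem_univ, true_and, not_and, not_exists] at hl1 hl2
  have hstrict : Strict m' v (K2 l) := by
    intro p hp
    have e1 := hl1 (by have := hpos2 l; omega) p hp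
    have e2 := hl2 (by have := hpos l; omega) p hp
    omega
  have := hd0 m' v (m2 l) (K2 l) hm'v (hK2 l).2 hstrict
  rw [abs_of_nonneg (by omega)] at this
  exact this

/-- The stage lemma. -/
theorem Data2.stage : ∀ (i : ℕ), 4 * (i + 1) + 1 ≤ c → max 2 ((i : ℤ) + 1) * F ≤ h →
    Dist R (st c P rest i) (max 2 ((i : ℤ) + 1) * F) := by
  intro i
  induction i using Nat.strong_induction_on with
  | _ i ih =>
    intro hc hh
    -- it is enough to treat the case of `x` below `y`
    have key : ∀ (x y m : Pt) (K : Set Pt), x ≠ y → Comp R (st c P rest i) x y m K →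
        Strict x y K → x.2 ≤ y.2 → max 2 ((i : ℤ) + 1) * F ≤ y.2 - x.2 := by
      intro x y m K hxy hcomp hs hle
      have hF := D.hF
      have hmx : x ≠ m := fun e => hcomp.hx (by rw [e]; exact hcomp.hm)
      have hmy : m ≠ y := fun e => hcomp.hy (by rw [← e]; exact hcomp.hm)
      by_contra hcon
      push Not at hcon
      have hwin : ∀ p ∈ K \ {m}, x.2 ≤ p.2 ∧ p.2 < x.2 + h := by
        intro p hp
        have := hs p hp.1
        omega
      obtain ⟨n1, d1, -⟩ := D.thick hmx hwin hcomp.left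
      obtain ⟨n2, d2, -⟩ := D.thick hmy hwin hcomp.right
      have hm := hs m hcomp.hm
      rw [abs_of_neg (by omega)] at d1 d2
      match i, ih, hc, hh, hcon, hcomp with
      | 0, _, _, _, hcon, _ =>
        norm_num at hcon
        linarith
      | 1, _, _, _, hcon, _ =>
        norm_num at hcon
        linarith
      | n + 2, ih, hc, hh, hcon, hcomp =>
        have h3 : max 2 (((n + 2 : ℕ) : ℤ) + 1) = n + 3 := by
          push_cast
          omega
        rw [h3] at hcon hh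
        have hm0 : max 2 ((n : ℤ) + 1) * F ≤ h := by
          refine le_trans ?_ hh
          have : max 2 ((n : ℤ) + 1) ≤ n + 3 := by omega
          nlinarith
        have hm1 : max 2 (((n + 1 : ℕ) : ℤ) + 1) * F ≤ h := by
          refine le_trans ?_ hh
          have : max 2 (((n + 1 : ℕ) : ℤ) + 1) ≤ n + 3 := by omega
          nlinarith
        have hd1 := ih (n + 1) (by omega) (by omega) hm1
        have hd0 := ih n (by omega) (by omega) hm0
        have hrows : ∀ p ∈ K \ {m}, x.2 ≤ p.2 ∧ p.2 ≤ y.2 := by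
          intro p hp
          have := hs p hp.1
          omega
        have c1 := D.claim (by omega) hd1 hd0 (x := x) (v := m) (by omega) (B := y.2)
          hcomp.left hrows (by omega) (by omega)
        have c2 := D.flip.claim (by omega) hd1.flip hd0.flip (x := fl y) (v := fl m)
          (by simp only [fl_snd]; omega) (B := -x.2) (Ω := flS (K \ {m}))
          (Piece.flip _ (Piece.symm _ hcomp.right)) (by
            intro p hp
            have := hrows _ hp
            simp only [fl_snd] at this ⊢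
            omega) (by simp only [fl_snd]; omega) (by simp only [fl_snd]; omega)
        have e1 : max 2 (((n + 1 : ℕ) : ℤ) + 1) = n + 2 := by
          push_cast
          omega
        rw [e1] at c1 c2
        have hn0 : (0 : ℤ) ≤ n := Int.natCast_nonneg n
        rcases c1 with c1 | ⟨w1, hw1, c1⟩
        · have : ((n : ℤ) + 3) * F = (n + 2) * F + F := by ring
          omega
        · rcases c2 with c2 | ⟨w2, hw2, c2⟩
          · simp only [fl_snd] at c2
            have : ((n : ℤ) + 3) * F = (n + 2) * F + F := by ring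
            omega
          · have h4 := (hrows w1 hw1).2
            have h5 := (hrows _ hw2).1
            simp only [fl_snd] at c2 h5
            have h6 : ((n : ℤ) + 3) * F ≤ 2 * (max 2 ((n : ℤ) + 1) * F) := by
              have : (n : ℤ) + 3 ≤ 2 * max 2 ((n : ℤ) + 1) := by omega
              nlinarith
            omega
    intro x y m K hxy hcomp hs
    rcases le_total x.2 y.2 with hle | hle
    · have := key x y m K hxy hcomp hs hle
      rw [abs_of_nonpos (by omega)]
      omega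
    · have := key y x m K hxy.symm hcomp.symm hs.symm hle
      rw [abs_of_nonneg (by omega)]
      omega

end

/-! ### All stages -/

/-- The sequence of parameters of `J` stages. -/
def rs2 (c k : ℕ) : ℕ → List ℕ
  | 0 => []
  | J + 1 => st c (4 * (k + 1) ^ (J + 1) + 5) (rs2 c k J) k

theorem data_all2 {R : SimpleGraph Pt} (hR : RowPlanar R) {c k : ℕ} (hk : 1 ≤ k)
    (hc : 4 * (k + 1) + 1 ≤ c) (J : ℕ) :
    Data2 R ((k + 1) ^ (J + 1)) c (4 * (k + 1) ^ (J + 1) + 5) (rs2 c k J)
      (((k : ℤ) + 1) ^ J) := by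
  have hmax : max 2 ((k : ℤ) + 1) = k + 1 := by omega
  induction J with
  | zero => exact ⟨hR, le_rfl, by simp, Or.inl (by simp)⟩
  | succ J ih =>
    refine ⟨hR, le_rfl, ?_, Or.inr ?_⟩
    · exact one_le_pow₀ (by omega)
    · have h := ih.stage k hc (by
        rw [hmax]
        push_cast
        rw [pow_succ, mul_comm])
      rw [hmax] at h
      rw [pow_succ, mul_comm]
      exact h

/-- The lower bound for the number of rows. -/
theorem rows_lower2 {R : SimpleGraph Pt} (hR : RowPlanar R) {lo : ℤ} {h c P k J : ℕ}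
    (hk : 1 ≤ k) (hw : Win R lo h) (hP : 4 * h + 5 ≤ P) (hc : 4 * (k + 1) + 1 ≤ c) {x y : Pt}
    (hxy : x ≠ y) {Ω : Set Pt} (hp : Piece R (P :: rs2 c k J) x y Ω) : (k + 1) ^ J < h := by
  have hd : (((k : ℤ) + 1) ^ J) ≤ |x.2 - y.2| := by
    rcases (data_all2 hR hk hc J).hdist with h1 | h1
    · obtain ⟨h2, -, -⟩ := thick_of_piece hR hw hP (F := 0) (rest := rs2 c k J)
        (fun x y m K _ _ _ => abs_nonneg _) hxy hp
      rw [h1]
      exact Int.one_le_abs (sub_ne_zero.2 h2)
    · exact (thick_of_piece hR hw hP h1 hxy hp).2.1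
  have hP0 : 0 < P := by omega
  rw [piece_cons] at hp
  obtain ⟨-, m, K, -, hK⟩ := hp
  obtain ⟨u, -, hxu⟩ := (hK ⟨0, hP0⟩).2.ax
  obtain ⟨v, -, hyv⟩ := (hK ⟨0, hP0⟩).2.ay
  have h2 := hw x u hxu
  have h3 := hw y v hyv
  have h4 : |x.2 - y.2| < h := by
    rw [abs_lt]
    omega
  have h6 : (((k + 1) ^ J : ℕ) : ℤ) < h := by
    push_cast
    omega
  exact_mod_cast h6

end Pool.Agent.W2helper91.SP
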