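import Pool.Agent.W2helper91.SP.Low
import Pool.Agent.W2helper91.SP.Stage2

/-!
# The lower bound with the sharp constant
-/

set_option autoImplicit false

namespace Pool.Agent.W2helper91.SP

open Real Filter

section
variable {V : Type*} {G : SimpleGraph V}

/-- The lower bound for the height. -/
theorem height_bound2 (D : PolylineDrawing G) {W H : ℕ} (hD : D.InBox W H) {x y : V} {X : T V}
    (hX : PIn G x y X) (hxy : x ≠ y) {c P k J : ℕ} (hk : 1 ≤ k) (hR : Rich (P :: rs2 c k J) X)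
    (hP : 4 * (k + 1) ^ J + 5 ≤ P) (hc : 4 * (k + 1) + 1 ≤ c) : (k + 1) ^ J ≤ H := by
  by_contra hcon
  push Not at hcon
  obtain ⟨lo, hw⟩ := win_model D hD
  have := rows_lower2 D.model.planar hk hw (by omega) hc (fun h => hxy (D.model.pos_inj h))
    (piece_of_rich D.model _ x y X hX hR)
  omega

theorem width_bound2 (D : PolylineDrawing G) {W H : ℕ} (hD : D.InBox W H) {x y : V} {X : T V}
    (hX : PIn G x y X) (hxy : x ≠ y) {c P k J : ℕ} (hk : 1 ≤ k) (hR : Rich (P :: rs2 c k J) X)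
    (hP : 4 * (k + 1) ^ J + 5 ≤ P) (hc : 4 * (k + 1) + 1 ≤ c) : (k + 1) ^ J ≤ W :=
  height_bound2 (D.map swapA) (inBox_swap D hD) hX hxy hk hR hP hc

end

theorem prod_rs2 (c k J : ℕ) : ((rs2 c k J).map fun q => 2 * q + 1).prod =
    (2 * c + 1) ^ (k * J) * ∏ j ∈ Finset.range J, (8 * (k + 1) ^ (j + 1) + 11) := by
  induction J with
  | zero => rfl
  | succ J ih =>
    rw [rs2, st, List.map_append, List.prod_append, List.map_cons, List.prod_cons, ih,
      List.map_replicate, List.prod_replicate, Finset.prod_range_succ, Nat.mul_succ, pow_add]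
    ring

/-- The size of the rich pieces: the exponent of the base `k + 1` is `J ^ 2 / 2` up to lower order
terms. -/
theorem two_fs_le2 (k J : ℕ) :
    2 * fs ((4 * (k + 1) ^ J + 5) :: rs2 (4 * k + 5) k J) + 1 ≤
      19 ^ (J + 1) * (11 * (k + 1)) ^ (k * J) * (k + 1) ^ (J * (J + 3) / 2) := by
  rw [two_fs, List.map_cons, List.prod_cons, prod_rs2]
  have h1 : 2 * (4 * (k + 1) ^ J + 5) + 1 ≤ 19 * (k + 1) ^ J := by
    have e2 : 1 ≤ (k + 1) ^ J := Nat.one_le_pow _ _ (by omega)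
    omega
  have h2 : (2 * (4 * k + 5) + 1) ^ (k * J) ≤ (11 * (k + 1)) ^ (k * J) :=
    Nat.pow_le_pow_left (by omega) _
  have h3 : ∏ j ∈ Finset.range J, (8 * (k + 1) ^ (j + 1) + 11) ≤
      19 ^ J * (k + 1) ^ (J * (J + 1) / 2) := by
    calc ∏ j ∈ Finset.range J, (8 * (k + 1) ^ (j + 1) + 11)
        ≤ ∏ j ∈ Finset.range J, (19 * (k + 1) ^ (j + 1)) := by
          refine Finset.prod_le_prod' fun j _ => ?_
          have e2 : 1 ≤ (k + 1) ^ (j + 1) := Nat.one_le_pow _ _ (by omega)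
          omega
      _ = 19 ^ J * (k + 1) ^ (J * (J + 1) / 2) := by
          rw [Finset.prod_mul_distrib, Finset.prod_const, Finset.card_range,
            Finset.prod_pow_eq_pow_sum]
          congr 2
          have := Finset.sum_range_succ' (fun i => i) J
          have h4 := Finset.sum_range_id (J + 1)
          simp only [Nat.add_sub_cancel] at h4
          rw [mul_comm J (J + 1)]
          rw [← h4, this]
          simp
  have h4 : J * (J + 3) / 2 = J + J * (J + 1) / 2 := by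
    rw [show J * (J + 3) = J * (J + 1) + 2 * J by ring, Nat.add_mul_div_left _ _ (by norm_num)]
    ring
  calc (2 * (4 * (k + 1) ^ J + 5) + 1) *
        ((2 * (4 * k + 5) + 1) ^ (k * J) * ∏ j ∈ Finset.range J, (8 * (k + 1) ^ (j + 1) + 11))
      ≤ (19 * (k + 1) ^ J) * ((11 * (k + 1)) ^ (k * J) * (19 ^ J * (k + 1) ^ (J * (J + 1) / 2))) := by
        gcongr
    _ = 19 ^ (J + 1) * (11 * (k + 1)) ^ (k * J) * (k + 1) ^ (J * (J + 3) / 2) := by
        rw [h4, pow_add (k + 1) J, pow_succ]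
        ring

/-- The hard graphs. -/
theorem exists_hard_graph2 {n k J : ℕ} (hk : 1 ≤ k)
    (hn : 2 * (19 ^ (J + 1) * (11 * (k + 1)) ^ (k * J) * (k + 1) ^ (J * (J + 3) / 2)) ≤ n)
    (hn16 : 16 ≤ n) :
    ∃ G : SimpleGraph (Fin n), SeriesParallel G ∧ ∀ (D : PolylineDrawing G) (W H : ℕ),
      D.InBox W H → (k + 1) ^ J ≤ W ∧ (k + 1) ^ J ≤ H ∧ n ≤ 16 * (W + H) := by
  set qs := (4 * (k + 1) ^ J + 5) :: rs2 (4 * k + 5) k J with hqs
  have hfs : 2 * fs qs + 1 ≤ _ := two_fs_le2 k J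
  obtain ⟨N, hN⟩ : ∃ N, n = 2 + (N + fs qs) := ⟨n - 2 - fs qs, by omega⟩
  obtain ⟨s, t, X, h1, h2, h3, h4, M, h5, h6⟩ := exists_hard hN
  refine ⟨tG s t X, h1, fun D W H hD => ⟨?_, ?_, ?_⟩⟩
  · exact width_bound2 D hD h2 h4 hk h3 le_rfl (by omega)
  · exact height_bound2 D hD h2 h4 hk h3 le_rfl (by omega)
  · have := card_common_le D hD h4 (M := M) h6
    omega

end Pool.Agent.W2helper91.SP
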