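import Mathlib

/-!
# Row-planar graphs and parities

Points are pairs `(x, r)` with a real abscissa `x` and an integral row `r`.  A graph on the points
is row-planar if its edges join points whose rows differ by at most one, edges between two
consecutive rows do not cross and horizontal edges do not jump over vertices.
-/

set_option autoImplicit false

namespace Pool.Agent.W2helper91.SP

/-- Points with integral row. -/
abbrev Pt := ℝ × ℤ

/-- Row-planar graphs. -/
structure RowPlanar (R : SimpleGraph Pt) : Prop where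
  row : ∀ p q, R.Adj p q → p.2 = q.2 ∨ p.2 = q.2 + 1 ∨ q.2 = p.2 + 1
  strip : ∀ p q p' q', R.Adj p q → R.Adj p' q' → q.2 = p.2 + 1 → p'.2 = p.2 → q'.2 = p.2 + 1 →
    p.1 < p'.1 → q.1 ≤ q'.1
  horiz : ∀ p q w w', R.Adj p q → p.2 = q.2 → R.Adj w w' → w.2 = p.2 → p.1 < w.1 → w.1 < q.1 →
    False

open Classical in
/-- Is `p` in the row of `z`, to the left of `z`? -/
noncomputable def lf (z p : Pt) : ZMod 2 := if p.2 = z.2 ∧ p.1 < z.1 then 1 else 0

/-- Is the edge `pq` an edge between the rows `z.2` and `z.2 + 1`, to the left of `z`? -/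
noncomputable def upc (z p q : Pt) : ZMod 2 :=
  if q.2 = p.2 + 1 then lf z p else if p.2 = q.2 + 1 then lf z q else 0

/-- Is the edge `pq` an edge between the rows `z.2 - 1` and `z.2`, to the left of `z`? -/
noncomputable def dnc (z p q : Pt) : ZMod 2 :=
  if q.2 = p.2 + 1 then lf z q else if p.2 = q.2 + 1 then lf z p else 0

theorem zadd (a : ZMod 2) : a + a = 0 := CharTwo.add_self_eq_zero a

theorem lf_of_ne {z p : Pt} (h : p.2 ≠ z.2) : lf z p = 0 := by
  unfold lf
  rw [if_neg]
  exact fun h' => h h'.1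

theorem upc_up {z p q : Pt} (h : q.2 = p.2 + 1) : upc z p q = lf z p := by
  unfold upc
  rw [if_pos h]

theorem dnc_up {z p q : Pt} (h : q.2 = p.2 + 1) : dnc z p q = lf z q := by
  unfold dnc
  rw [if_pos h]

theorem upc_eq {z p q : Pt} (h : p.2 = q.2) : upc z p q = 0 := by
  unfold upc
  rw [if_neg (by omega), if_neg (by omega)]

theorem dnc_eq {z p q : Pt} (h : p.2 = q.2) : dnc z p q = 0 := by
  unfold dnc
  rw [if_neg (by omega), if_neg (by omega)]

theorem upc_comm (z p q : Pt) : upc z p q = upc z q p := by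
  unfold upc
  by_cases h1 : q.2 = p.2 + 1
  · rw [if_pos h1, if_neg (by omega), if_pos h1]
  · by_cases h2 : p.2 = q.2 + 1
    · rw [if_neg h1, if_pos h2, if_pos h2]
    · rw [if_neg h1, if_neg h2, if_neg h2, if_neg h1]

theorem dnc_comm (z p q : Pt) : dnc z p q = dnc z q p := by
  unfold dnc
  by_cases h1 : q.2 = p.2 + 1
  · rw [if_pos h1, if_neg (by omega), if_pos h1]
  · by_cases h2 : p.2 = q.2 + 1
    · rw [if_neg h1, if_pos h2, if_pos h2]
    · rw [if_neg h1, if_neg h2, if_neg h2, if_neg h1]

section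
variable {R : SimpleGraph Pt} (hR : RowPlanar R)
include hR

theorem local_rule {z p q : Pt} (hpq : R.Adj p q) (hz : ∃ z', R.Adj z z')
    (h1 : z = p → q.2 ≠ z.2) (h2 : z = q → p.2 ≠ z.2) :
    upc z p q + dnc z p q = lf z p + lf z q := by
  obtain ⟨z', hz⟩ := hz
  rcases hR.row p q hpq with h | h | h
  · rw [upc_eq h, dnc_eq h, add_zero]
    by_cases e : p.2 = z.2
    · have e' : q.2 = z.2 := by omega
      have hp : z.1 ≠ p.1 := fun k => h1 (Prod.ext k e.symm) e'
      have hq : z.1 ≠ q.1 := fun k => h2 (Prod.ext k e'.symm) e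
      have key : p.1 < z.1 ↔ q.1 < z.1 := by
        constructor
        · intro k
          by_contra hcon
          exact hR.horiz p q z z' hpq h hz e.symm k (lt_of_le_of_ne (not_lt.1 hcon) hq)
        · intro k
          by_contra hcon
          exact hR.horiz q p z z' hpq.symm h.symm hz e'.symm k
            (lt_of_le_of_ne (not_lt.1 hcon) hp)
      have : lf z p = lf z q := by
        unfold lf
        simp only [e, e', true_and, key]
      rw [this, zadd]
    · rw [lf_of_ne e, lf_of_ne (by omega), add_zero]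
  · rw [upc_comm, dnc_comm, upc_up h, dnc_up h, add_comm]
  · rw [upc_up h, dnc_up h]

/-- Moving to the next row. -/
theorem strip_rule {z z' p q : Pt} (hz : R.Adj z z') (hzz : z'.2 = z.2 + 1) (hpq : R.Adj p q)
    (h1 : z ≠ p) (h2 : z ≠ q) (h3 : z' ≠ p) (h4 : z' ≠ q) : upc z p q = dnc z' p q := by
  have key : ∀ a b : Pt, R.Adj a b → b.2 = a.2 + 1 → z ≠ a → z' ≠ b → lf z a = lf z' b := by
    intro a b hab e n1 n2
    by_cases ha : a.2 = z.2
    · have hb : b.2 = z'.2 := by omega
      have m1 : z.1 ≠ a.1 := fun h => n1 (Prod.ext h ha.symm)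
      have m2 : z'.1 ≠ b.1 := fun h => n2 (Prod.ext h hb.symm)
      have k : a.1 < z.1 ↔ b.1 < z'.1 := by
        constructor
        · intro h
          exact lt_of_le_of_ne (hR.strip a b z z' hab hz (by omega) ha.symm (by omega) h) m2.symm
        · intro h
          by_contra hcon
          have h' : z.1 < a.1 := lt_of_le_of_ne (not_lt.1 hcon) m1
          have := hR.strip z z' a b hz hab hzz ha (by omega) h'
          linarith
      unfold lf
      simp only [ha, hb, true_and, k]
    · rw [lf_of_ne ha, lf_of_ne (by omega)]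
  rcases hR.row p q hpq with h | h | h
  · rw [upc_eq h, dnc_eq h]
  · rw [upc_comm, dnc_comm, upc_up h, dnc_up h]
    exact key q p hpq.symm h h2 h3
  · rw [upc_up h, dnc_up h]
    exact key p q hpq h h1 h4

/-- Moving inside a row. -/
theorem horiz_rule {z z' p q : Pt} (hz : R.Adj z z') (hzz : z.2 = z'.2) (hpq : R.Adj p q)
    (h1 : z ≠ p) (h2 : z ≠ q) (h3 : z' ≠ p) (h4 : z' ≠ q) : dnc z p q = dnc z' p q := by
  have key : ∀ a b : Pt, R.Adj a b → z ≠ a → z' ≠ a → lf z a = lf z' a := by
    intro a b hab n1 n2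
    by_cases ha : a.2 = z.2
    · have hb : a.2 = z'.2 := by omega
      have m1 : z.1 ≠ a.1 := fun h => n1 (Prod.ext h ha.symm)
      have m2 : z'.1 ≠ a.1 := fun h => n2 (Prod.ext h hb.symm)
      have k : a.1 < z.1 ↔ a.1 < z'.1 := by
        constructor
        · intro h
          by_contra hcon
          exact hR.horiz z' z a b hz.symm hzz.symm hab hb
            (lt_of_le_of_ne (not_lt.1 hcon) m2) h
        · intro h
          by_contra hcon
          exact hR.horiz z z' a b hz hzz hab ha
            (lt_of_le_of_ne (not_lt.1 hcon) m1) h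
      unfold lf
      simp only [ha, hzz, true_and, k]
    · rw [lf_of_ne ha, lf_of_ne (by omega)]
  rcases hR.row p q hpq with h | h | h
  · rw [dnc_eq h, dnc_eq h]
  · rw [dnc_comm z, dnc_comm z', dnc_up h, dnc_up h]
    exact key p q hpq h1 h3
  · rw [dnc_up h, dnc_up h]
    exact key q p hpq.symm h2 h4

end

/-! ### Walks -/

/-- Number (modulo two) of edges of the walk between the rows `z.2`, `z.2 + 1`, left of `z`. -/
noncomputable def up {R : SimpleGraph Pt} (z : Pt) : {a b : Pt} → R.Walk a b → ZMod 2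
  | _, _, .nil => 0
  | a, _, .cons (v := v) _ w => upc z a v + up z w

/-- Number (modulo two) of edges of the walk between the rows `z.2 - 1`, `z.2`, left of `z`. -/
noncomputable def dn {R : SimpleGraph Pt} (z : Pt) : {a b : Pt} → R.Walk a b → ZMod 2
  | _, _, .nil => 0
  | a, _, .cons (v := v) _ w => dnc z a v + dn z w

section
variable {R : SimpleGraph Pt}

@[simp] theorem up_nil (z a : Pt) : up z (SimpleGraph.Walk.nil : R.Walk a a) = 0 := rfl
@[simp] theorem dn_nil (z a : Pt) : dn z (SimpleGraph.Walk.nil : R.Walk a a) = 0 := rfl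
@[simp] theorem up_cons (z : Pt) {a b c : Pt} (h : R.Adj a b) (w : R.Walk b c) :
    up z (w.cons h) = upc z a b + up z w := rfl
@[simp] theorem dn_cons (z : Pt) {a b c : Pt} (h : R.Adj a b) (w : R.Walk b c) :
    dn z (w.cons h) = dnc z a b + dn z w := rfl

theorem up_append (z : Pt) {a b c : Pt} (w : R.Walk a b) (w' : R.Walk b c) :
    up z (w.append w') = up z w + up z w' := by
  induction w with
  | nil => simp
  | cons h w ih => simp only [SimpleGraph.Walk.cons_append, up_cons, ih, add_assoc]

theorem dn_append (z : Pt) {a b c : Pt} (w : R.Walk a b) (w' : R.Walk b c) :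
    dn z (w.append w') = dn z w + dn z w' := by
  induction w with
  | nil => simp
  | cons h w ih => simp only [SimpleGraph.Walk.cons_append, dn_cons, ih, add_assoc]

theorem dn_reverse (z : Pt) {a b : Pt} (w : R.Walk a b) : dn z w.reverse = dn z w := by
  induction w with
  | nil => simp
  | cons h w ih =>
    rw [SimpleGraph.Walk.reverse_cons, dn_append, ih, dn_cons, dn_cons, dn_nil, dnc_comm]
    ring

theorem up_reverse (z : Pt) {a b : Pt} (w : R.Walk a b) : up z w.reverse = up z w := by
  induction w with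
  | nil => simp
  | cons h w ih =>
    rw [SimpleGraph.Walk.reverse_cons, up_append, ih, up_cons, up_cons, up_nil, upc_comm]
    ring

variable (hR : RowPlanar R)
include hR

/-- Telescoping. -/
theorem up_add_dn {z : Pt} (hz : ∃ z', R.Adj z z') {a b : Pt} (w : R.Walk a b)
    (hw : z ∉ w.support) : up z w + dn z w = lf z a + lf z b := by
  induction w with
  | nil => simp [zadd]
  | @cons a b c h w ih =>
    rw [SimpleGraph.Walk.support_cons, List.mem_cons, not_or] at hw
    have hb : z ≠ b := fun e => hw.2 (e ▸ w.start_mem_support)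
    have h1 := local_rule hR h hz (fun e => absurd e hw.1) (fun e => absurd e hb)
    have h2 := ih hw.2
    rw [up_cons, dn_cons]
    calc upc z a b + up z w + (dnc z a b + dn z w)
        = (upc z a b + dnc z a b) + (up z w + dn z w) := by ring
      _ = (lf z a + lf z b) + (lf z b + lf z c) := by rw [h1, h2]
      _ = lf z a + lf z c + (lf z b + lf z b) := by ring
      _ = lf z a + lf z c := by rw [zadd, add_zero]

theorem up_eq_dn {z z' : Pt} (hz : R.Adj z z') (hzz : z'.2 = z.2 + 1) {a b : Pt} (w : R.Walk a b)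
    (hw : z ∉ w.support) (hw' : z' ∉ w.support) : up z w = dn z' w := by
  induction w with
  | nil => simp
  | @cons a b c h w ih =>
    rw [SimpleGraph.Walk.support_cons, List.mem_cons, not_or] at hw hw'
    have hb : z ≠ b := fun e => hw.2 (e ▸ w.start_mem_support)
    have hb' : z' ≠ b := fun e => hw'.2 (e ▸ w.start_mem_support)
    rw [up_cons, dn_cons, ih hw.2 hw'.2, strip_rule hR hz hzz h hw.1 hb hw'.1 hb']

theorem dn_eq_dn {z z' : Pt} (hz : R.Adj z z') (hzz : z.2 = z'.2) {a b : Pt} (w : R.Walk a b)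
    (hw : z ∉ w.support) (hw' : z' ∉ w.support) : dn z w = dn z' w := by
  induction w with
  | nil => simp
  | @cons a b c h w ih =>
    rw [SimpleGraph.Walk.support_cons, List.mem_cons, not_or] at hw hw'
    have hb : z ≠ b := fun e => hw.2 (e ▸ w.start_mem_support)
    have hb' : z' ≠ b := fun e => hw'.2 (e ▸ w.start_mem_support)
    rw [dn_cons, dn_cons, ih hw.2 hw'.2, horiz_rule hR hz hzz h hw.1 hb hw'.1 hb']

end

/-! ### Connected sets -/

/-- The point `b` can be reached from `a` inside the set `S`. -/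
def Conn (R : SimpleGraph Pt) (S : Set Pt) (a b : Pt) : Prop :=
  ∃ w : R.Walk a b, ∀ z ∈ w.support, z ∈ S

section
variable {R : SimpleGraph Pt} {S S' : Set Pt} {a b c : Pt}

theorem Conn.refl (h : a ∈ S) : Conn R S a a := ⟨.nil, by simpa using h⟩

theorem Conn.symm (h : Conn R S a b) : Conn R S b a := by
  obtain ⟨w, hw⟩ := h
  exact ⟨w.reverse, by simpa using hw⟩

theorem Conn.trans (h : Conn R S a b) (h' : Conn R S b c) : Conn R S a c := by
  obtain ⟨w, hw⟩ := h
  obtain ⟨w', hw'⟩ := h'
  refine ⟨w.append w', ?_⟩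
  intro z hz
  rw [SimpleGraph.Walk.mem_support_append_iff] at hz
  rcases hz with hz | hz
  · exact hw z hz
  · exact hw' z hz

theorem Conn.mono (h : Conn R S a b) (hS : S ⊆ S') : Conn R S' a b := by
  obtain ⟨w, hw⟩ := h
  exact ⟨w, fun z hz => hS (hw z hz)⟩

theorem Conn.left (h : Conn R S a b) : a ∈ S := by
  obtain ⟨w, hw⟩ := h
  exact hw a w.start_mem_support

theorem Conn.right (h : Conn R S a b) : b ∈ S := by
  obtain ⟨w, hw⟩ := h
  exact hw b w.end_mem_support

theorem Conn.of_adj (h : R.Adj a b) (ha : a ∈ S) (hb : b ∈ S) : Conn R S a b :=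
  ⟨.cons h .nil, by simp [ha, hb]⟩

/-- Induction along a connection. -/
theorem Conn.induct (h : Conn R S a b) (P : Pt → Prop) (ha : P a)
    (hstep : ∀ z z', z ∈ S → z' ∈ S → R.Adj z z' → P z → P z') : P b := by
  obtain ⟨w, hw⟩ := h
  induction w with
  | nil => exact ha
  | @cons a b c h w ih =>
    rw [SimpleGraph.Walk.support_cons] at hw
    exact ih (hstep _ _ (hw _ (List.mem_cons_self))
      (hw _ (List.mem_cons_of_mem _ w.start_mem_support)) h ha)
      (fun z hz => hw z (List.mem_cons_of_mem _ hz))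

/-- A connected set. -/
def IsConn (R : SimpleGraph Pt) (S : Set Pt) : Prop := ∀ a ∈ S, ∀ b ∈ S, Conn R S a b

end

/-! ### The two forms of the nonplanarity of `K₃,₃` -/

section
variable {R : SimpleGraph Pt} (hR : RowPlanar R)
include hR

/-- The parity is constant below the top row. -/
theorem dn_const {T : ℤ} {a b : Pt} (w : R.Walk a b) (ha : a.2 = T) (hb : b.2 = T)
    {S : Set Pt} (hS : ∀ z ∈ S, z.2 ≤ T)
    (hdisj : ∀ z ∈ S, z ∉ w.support) {u v : Pt} (huv : Conn R S u v) : dn u w = dn v w := by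
  refine huv.induct (fun z => dn u w = dn z w) rfl ?_
  intro z z' hz hz' hzz ih
  rw [ih]
  have aux : ∀ z z' : Pt, z ∈ S → z' ∈ S → R.Adj z z' → z'.2 = z.2 + 1 → dn z w = dn z' w := by
    intro z z' hz hz' hzz h
    have h1 := up_add_dn hR ⟨z', hzz⟩ w (hdisj z hz)
    have hlt : z.2 < T := by
      have := hS z' hz'
      omega
    rw [lf_of_ne (by omega), lf_of_ne (by omega), add_zero] at h1
    have h2 : up z w = dn z w := by
      have := congrArg (· + dn z w) h1
      simpa [add_assoc, zadd] using this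
    rw [← h2]
    exact up_eq_dn hR hzz h w (hdisj z hz) (hdisj z' hz')
  rcases hR.row z z' hzz with h | h | h
  · exact dn_eq_dn hR hzz h w (hdisj z hz) (hdisj z' hz')
  · exact (aux z' z hz' hz hzz.symm h).symm
  · exact aux z z' hz hz' hzz h

/-- The parity at a point of the top row. -/
theorem dn_top {T : ℤ} {a b z : Pt} (w : R.Walk a b) 
    (hw : ∀ z ∈ w.support, z.2 ≤ T) (hz : z.2 = T) (hz' : ∃ z', R.Adj z z')
    (hzw : z ∉ w.support) : dn z w = lf z a + lf z b := by
  have h1 := up_add_dn hR hz' w hzw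
  have h2 : up z w = 0 := by
    clear h1 hzw
    induction w with
    | nil => simp
    | @cons a b c h w ih =>
      rw [SimpleGraph.Walk.support_cons] at hw
      have ha := hw a List.mem_cons_self
      have hb := hw b (List.mem_cons_of_mem _ w.start_mem_support)
      rw [up_cons, ih (fun z hz => hw z (List.mem_cons_of_mem _ hz)), add_zero]
      rcases hR.row a b h with h | h | h
      · exact upc_eq h
      · rw [upc_comm, upc_up h, lf_of_ne (by omega)]
      · rw [upc_up h, lf_of_ne (by omega)]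
  rw [h2, zero_add] at h1
  exact h1

/-- Form (a): three disjoint connected sets that are adjacent to `x` and `y`, lie in the rows up
to `T` and all reach the row `T` do not exist. -/
theorem form_a {T : ℤ} {x y : Pt} (hxy : x ≠ y) (hx : x.2 ≤ T) (hy : y.2 ≤ T)
    (K : Fin 3 → Set Pt) (hK : ∀ i, IsConn R (K i)) (hdisj : ∀ i j, i ≠ j → Disjoint (K i) (K j))
    (hxK : ∀ i, x ∉ K i) (hyK : ∀ i, y ∉ K i) (hxa : ∀ i, ∃ u ∈ K i, R.Adj x u)
    (hya : ∀ i, ∃ u ∈ K i, R.Adj y u) (hrow : ∀ i, ∀ z ∈ K i, z.2 ≤ T)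
    (htop : ∀ i, ∃ p ∈ K i, p.2 = T) : False := by
  choose p hp hpT using htop
  choose u hu hxu using hxa
  choose v hv hyv using hya
  -- walks from `x` to `p i`
  have hwalk : ∀ i, ∃ w : R.Walk x (p i), ∀ z ∈ w.support, z = x ∨ z ∈ K i := by
    intro i
    obtain ⟨w, hw⟩ := hK i (u i) (hu i) (p i) (hp i)
    refine ⟨.cons (hxu i) w, ?_⟩
    intro z hz
    rw [SimpleGraph.Walk.support_cons, List.mem_cons] at hz
    rcases hz with rfl | hz
    · exact Or.inl rfl
    · exact Or.inr (hw z hz)
  choose w hw using hwalk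
  -- the parity of the point `y`
  have main : ∀ i j l : Fin 3, i ≠ j → i ≠ l → j ≠ l →
      dn y (w i) + dn y (w j) = lf (p l) (p i) + lf (p l) (p j) := by
    intro i j l hij hil hjl
    set W := (w i).reverse.append (w j) with hW
    have hsupp : ∀ z ∈ W.support, z = x ∨ z ∈ K i ∨ z ∈ K j := by
      intro z hz
      rw [hW, SimpleGraph.Walk.mem_support_append_iff, SimpleGraph.Walk.support_reverse,
        List.mem_reverse] at hz
      rcases hz with hz | hz
      · rcases hw i z hz with h | h
        · exact Or.inl h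
        · exact Or.inr (Or.inl h)
      · rcases hw j z hz with h | h
        · exact Or.inl h
        · exact Or.inr (Or.inr h)
    have hsT : ∀ z ∈ W.support, z.2 ≤ T := by
      intro z hz
      rcases hsupp z hz with rfl | h | h
      · exact hx
      · exact hrow i z h
      · exact hrow j z h
    have hS : ∀ z ∈ insert y (K l), z ∉ W.support := by
      intro z hz hz'
      rcases hz with rfl | hz
      · rcases hsupp z hz' with h | h | h
        · exact hxy h.symm
        · exact hyK i h
        · exact hyK j h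
      · rcases hsupp z hz' with h | h | h
        · exact hxK l (h ▸ hz)
        · exact Set.disjoint_left.1 (hdisj i l hil) h hz
        · exact Set.disjoint_left.1 (hdisj j l hjl) h hz
    have hconn : Conn R (insert y (K l)) y (p l) :=
      (Conn.of_adj (hyv l) (Set.mem_insert _ _) (Set.mem_insert_of_mem _ (hv l))).trans
        ((hK l (v l) (hv l) (p l) (hp l)).mono (Set.subset_insert _ _))
    have h1 := dn_const hR W (hpT i) (hpT j) (S := insert y (K l)) (by
      intro z hz
      rcases hz with rfl | hz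
      · exact hy
      · exact hrow l z hz) hS hconn
    have hnb : ∃ z', R.Adj (p l) z' := by
      obtain ⟨w', hw'⟩ := hconn
      cases hrev : w'.reverse with
      | nil => exact absurd (hp l) (by
          have := hyK l
          exact this)
      | cons h _ => exact ⟨_, h⟩
    have h2 := dn_top hR W hsT (hpT l) hnb (hS _ (Set.mem_insert_of_mem _ (hp l)))
    rw [← h1, hW, dn_append, dn_reverse] at h2
    exact h2
  have hne : ∀ i j, i ≠ j → (p i).1 ≠ (p j).1 := by
    intro i j hij h
    have : p i = p j := Prod.ext h ((hpT i).trans (hpT j).symm)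
    exact Set.disjoint_left.1 (hdisj i j hij) (hp i) (this ▸ hp j)
  have h01 := main 0 1 2 (by decide) (by decide) (by decide)
  have h02 := main 0 2 1 (by decide) (by decide) (by decide)
  have h12 := main 1 2 0 (by decide) (by decide) (by decide)
  -- the sum of the left sides is zero, the sum of the right sides is one
  have hsum : lf (p 2) (p 0) + lf (p 2) (p 1) + (lf (p 1) (p 0) + lf (p 1) (p 2)) +
      (lf (p 0) (p 1) + lf (p 0) (p 2)) = 0 := by
    rw [← h01, ← h02, ← h12]
    have : dn y (w 0) + dn y (w 1) + (dn y (w 0) + dn y (w 2)) + (dn y (w 1) + dn y (w 2)) =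
      (dn y (w 0) + dn y (w 0)) + (dn y (w 1) + dn y (w 1)) + (dn y (w 2) + dn y (w 2)) := by ring
    rw [this]
    simp only [zadd, add_zero]
  have pair : ∀ i j, i ≠ j → lf (p i) (p j) + lf (p j) (p i) = 1 := by
    intro i j hij
    have h := hne i j hij
    unfold lf
    simp only [hpT, true_and]
    rcases lt_or_gt_of_ne h with h' | h'
    · rw [if_neg (not_lt.2 h'.le), if_pos h', zero_add]
    · rw [if_pos h', if_neg (not_lt.2 h'.le), add_zero]
  have h3 : lf (p 2) (p 0) + lf (p 2) (p 1) + (lf (p 1) (p 0) + lf (p 1) (p 2)) +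
      (lf (p 0) (p 1) + lf (p 0) (p 2)) = (lf (p 2) (p 0) + lf (p 0) (p 2)) +
      (lf (p 2) (p 1) + lf (p 1) (p 2)) + (lf (p 1) (p 0) + lf (p 0) (p 1)) := by ring
  rw [h3, pair 2 0 (by decide), pair 2 1 (by decide), pair 1 0 (by decide)] at hsum
  exact absurd hsum (by decide)

/-- The parity of a closed walk is constant. -/
theorem closed_const {a : Pt} (w : R.Walk a a) {S : Set Pt} (hdisj : ∀ z ∈ S, z ∉ w.support)
    {u v : Pt} (huv : Conn R S u v) : dn u w = dn v w := by
  refine huv.induct (fun z => dn u w = dn z w) rfl ?_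
  intro z z' hz hz' hzz ih
  rw [ih]
  have aux : ∀ z z' : Pt, z ∈ S → z' ∈ S → R.Adj z z' → z'.2 = z.2 + 1 → dn z w = dn z' w := by
    intro z z' hz hz' hzz h
    have h1 := up_add_dn hR ⟨z', hzz⟩ w (hdisj z hz)
    rw [zadd] at h1
    have h2 : up z w = dn z w := by
      have := congrArg (· + dn z w) h1
      simpa [add_assoc, zadd] using this
    rw [← h2]
    exact up_eq_dn hR hzz h w (hdisj z hz) (hdisj z' hz')
  rcases hR.row z z' hzz with h | h | h
  · exact dn_eq_dn hR hzz h w (hdisj z hz) (hdisj z' hz')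
  · exact (aux z' z hz' hz hzz.symm h).symm
  · exact aux z z' hz hz' hzz h

theorem form_c_aux {x y : Pt} (hxy : x ≠ y)
    (K : Fin 3 → Set Pt) (hK : ∀ i, IsConn R (K i)) (hdisj : ∀ i j, i ≠ j → Disjoint (K i) (K j))
    (hxK : ∀ i, x ∉ K i) (hyK : ∀ i, y ∉ K i) (hxa : ∀ i, ∃ u ∈ K i, R.Adj x u)
    (u d : Fin 3 → Pt) (hu : ∀ i, u i ∈ K i) (hyu : ∀ i, R.Adj y (u i))
    (hu2 : ∀ i, (u i).2 = y.2 + 1) (hd : ∀ i, d i ∈ K i) (hyd : ∀ i, R.Adj y (d i))
    (hd2 : ∀ i, y.2 = (d i).2 + 1) {i j l : Fin 3} (hij : i ≠ j) (hjl : j ≠ l)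
    (h1 : (u i).1 < (u j).1) (h2 : (u j).1 < (u l).1) : False := by
  obtain ⟨a, ha, hxa1⟩ := hxa i
  obtain ⟨b, hb, hxb⟩ := hxa l
  have hconn : Conn R (insert x (K i ∪ K l)) (u i) (u l) := by
    have c1 : Conn R (insert x (K i ∪ K l)) (u i) a :=
      (hK i _ (hu i) _ ha).mono (fun z hz => Set.mem_insert_of_mem _ (Or.inl hz))
    have c2 : Conn R (insert x (K i ∪ K l)) b (u l) :=
      (hK l _ hb _ (hu l)).mono (fun z hz => Set.mem_insert_of_mem _ (Or.inr hz))
    have c3 : Conn R (insert x (K i ∪ K l)) a x :=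
      Conn.of_adj hxa1.symm (Set.mem_insert_of_mem _ (Or.inl ha)) (Set.mem_insert _ _)
    have c4 : Conn R (insert x (K i ∪ K l)) x b :=
      Conn.of_adj hxb (Set.mem_insert _ _) (Set.mem_insert_of_mem _ (Or.inr hb))
    exact ((c1.trans c3).trans c4).trans c2
  obtain ⟨W, hW⟩ := hconn
  have hyW : y ∉ W.support := by
    intro h
    rcases hW y h with h | h | h
    · exact hxy h.symm
    · exact hyK i h
    · exact hyK l h
  have hKW : ∀ z ∈ K j, z ∉ W.support := by
    intro z hz h
    rcases hW z h with h | h | h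
    · exact hxK j (h ▸ hz)
    · exact Set.disjoint_left.1 (hdisj i j hij) h hz
    · exact Set.disjoint_left.1 (hdisj j l hjl) hz h
  set Γ : R.Walk y y := (W.append (.cons (hyu l).symm .nil)).cons (hyu i) with hΓ
  have hKΓ : ∀ z ∈ K j, z ∉ Γ.support := by
    intro z hz h
    have hzy : z ≠ y := fun e => hyK j (e ▸ hz)
    rw [hΓ, SimpleGraph.Walk.support_cons, List.mem_cons,
      SimpleGraph.Walk.mem_support_append_iff] at h
    rcases h with h | h | h
    · exact hzy h
    · exact hKW z hz h
    · simp only [SimpleGraph.Walk.support_cons, SimpleGraph.Walk.support_nil, List.mem_cons,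
        List.not_mem_nil, or_false] at h
      rcases h with h | h
      · exact Set.disjoint_left.1 (hdisj j l hjl) hz (h ▸ hu l)
      · exact hzy h
  have e1 := closed_const hR Γ (S := K j) hKΓ (hK j _ (hu j) _ (hd j))
  have e2 : dn (u j) Γ = 1 + dn (u j) W := by
    rw [hΓ, dn_cons, dn_append, dn_cons, dn_nil, dnc_up (hu2 i), dnc_comm, dnc_up (hu2 l)]
    have l1 : lf (u j) (u i) = 1 := by
      unfold lf
      rw [if_pos ⟨by rw [hu2, hu2], h1⟩]
    have l2 : lf (u j) (u l) = 0 := by
      unfold lf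
      rw [if_neg]
      rintro ⟨-, h⟩
      linarith
    rw [l1, l2]
    ring
  have e3 := up_eq_dn hR (hyu j) (hu2 j) W hyW (hKW _ (hu j))
  have e4 := up_add_dn hR ⟨_, hyu j⟩ W hyW
  rw [lf_of_ne (by rw [hu2]; omega), lf_of_ne (by rw [hu2]; omega), add_zero] at e4
  have e5 := up_eq_dn hR (hyd j).symm (hd2 j) W (hKW _ (hd j)) hyW
  have e6 : up (d j) Γ = up (d j) W := by
    rw [hΓ, up_cons, up_append, up_cons, up_nil, upc_up (hu2 i), upc_comm, upc_up (hu2 l),
      lf_of_ne (by rw [hd2 j]; omega)]
    ring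
  have e7 := up_add_dn hR ⟨_, (hyd j).symm⟩ Γ (hKΓ _ (hd j))
  rw [zadd] at e7
  have f1 : up y W = dn y W := by
    have := congrArg (· + dn y W) e4
    simpa [add_assoc, zadd] using this
  have f2 : up (d j) Γ = dn (d j) Γ := by
    have := congrArg (· + dn (d j) Γ) e7
    simpa [add_assoc, zadd] using this
  rw [e2, ← e3, f1, ← e5, ← e6, f2] at e1
  have : (1 : ZMod 2) = 0 := by
    have := congrArg (· + dn (d j) Γ) e1
    simpa [add_assoc, zadd] using this
  exact absurd this (by decide)

/-- Form (c): of three disjoint connected sets that are adjacent to `x` and have a point above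
`y` adjacent to `y`, at least one has no point below `y` adjacent to `y`. -/
theorem form_c {x y : Pt} (hxy : x ≠ y)
    (K : Fin 3 → Set Pt) (hK : ∀ i, IsConn R (K i)) (hdisj : ∀ i j, i ≠ j → Disjoint (K i) (K j))
    (hxK : ∀ i, x ∉ K i) (hyK : ∀ i, y ∉ K i) (hxa : ∀ i, ∃ u ∈ K i, R.Adj x u)
    (hup : ∀ i, ∃ u ∈ K i, R.Adj y u ∧ u.2 = y.2 + 1) :
    ∃ i, ∀ d ∈ K i, R.Adj y d → y.2 ≠ d.2 + 1 := by
  by_contra hcon
  push Not at hcon
  choose u hu hyu hu2 using hup
  choose d hd hyd hd2 using hcon
  have aux := fun {i j l : Fin 3} (hij : i ≠ j) (hjl : j ≠ l) h1 h2 =>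
    form_c_aux hR hxy K hK hdisj hxK hyK hxa u d hu hyu hu2 hd hyd hd2 (i := i) (j := j) (l := l)
      hij hjl h1 h2
  have hne : ∀ i j, i ≠ j → (u i).1 ≠ (u j).1 := by
    intro i j hij h
    have : u i = u j := Prod.ext h ((hu2 i).trans (hu2 j).symm)
    exact Set.disjoint_left.1 (hdisj i j hij) (hu i) (this ▸ hu j)
  rcases lt_or_gt_of_ne (hne 0 1 (by decide)) with h01 | h01 <;>
    rcases lt_or_gt_of_ne (hne 0 2 (by decide)) with h02 | h02 <;>
      rcases lt_or_gt_of_ne (hne 1 2 (by decide)) with h12 | h12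
  · exact aux (i := 0) (j := 1) (l := 2) (by decide) (by decide) h01 h12
  · exact aux (i := 0) (j := 2) (l := 1) (by decide) (by decide) h02 h12
  · linarith
  · exact aux (i := 2) (j := 0) (l := 1) (by decide) (by decide) h02 h01
  · exact aux (i := 1) (j := 0) (l := 2) (by decide) (by decide) h01 h02
  · linarith
  · exact aux (i := 1) (j := 2) (l := 0) (by decide) (by decide) h12 h02
  · exact aux (i := 2) (j := 1) (l := 0) (by decide) (by decide) h12 h01

end

end Pool.Agent.W2helper91.SP
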