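import Pool.Agent.W2helper91.SP.Stage
import Pool.Agent.W2helper91.SP.Draw

/-!
# The row-planar graph of a poly-line grid drawing
-/

set_option autoImplicit false

namespace Pool.Agent.W2helper91.SP

/-- The real point. -/
def rp (p : Pt) : ℝ × ℝ := (p.1, (p.2 : ℝ))

/-- A grid point as a point with integral row. -/
def tp (a : ℤ × ℤ) : Pt := ((a.1 : ℝ), a.2)

@[simp] theorem rp_tp (a : ℤ × ℤ) : rp (tp a) = pt a := rfl
@[simp] theorem tp_fst (a : ℤ × ℤ) : (tp a).1 = a.1 := rfl
@[simp] theorem tp_snd (a : ℤ × ℤ) : (tp a).2 = a.2 := rfl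

theorem tp_inj {a b : ℤ × ℤ} (h : tp a = tp b) : a = b := by
  have h1 := congrArg Prod.fst h
  have h2 := congrArg Prod.snd h
  simp only [tp_fst, tp_snd] at h1 h2
  exact Prod.ext (by exact_mod_cast h1) h2

theorem rp_inj {p q : Pt} (h : rp p = rp q) : p = q := by
  have h1 := congrArg Prod.fst h
  have h2 := congrArg Prod.snd h
  simp only [rp] at h1 h2
  exact Prod.ext h1 (by exact_mod_cast h2)

theorem mem_segment_of {a b z : ℝ × ℝ} (t : ℝ) (h0 : 0 ≤ t) (h1 : t ≤ 1)
    (hx : z.1 = a.1 + (b.1 - a.1) * t) (hy : z.2 = a.2 + (b.2 - a.2) * t) : z ∈ segment ℝ a b := by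
  refine ⟨1 - t, t, by linarith, h0, by ring, ?_⟩
  refine Prod.ext ?_ ?_
  · simp only [Prod.fst_add, Prod.smul_fst, smul_eq_mul]
    rw [hx]; ring
  · simp only [Prod.snd_add, Prod.smul_snd, smul_eq_mul]
    rw [hy]; ring

/-- The nodes on a segment between grid points: all points with integral row, except that a
horizontal segment has only its ends as nodes. -/
def Nd (a b : ℤ × ℤ) (p : Pt) : Prop :=
  rp p ∈ segment ℝ (pt a) (pt b) ∧ (a.2 = b.2 → p = tp a ∨ p = tp b)

theorem Nd.swap {a b : ℤ × ℤ} {p : Pt} (h : Nd a b p) : Nd b a p :=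
  ⟨by rw [segment_symm]; exact h.1, fun e => (h.2 e.symm).symm⟩

theorem nd_left (a b : ℤ × ℤ) : Nd a b (tp a) := ⟨left_mem_segment ℝ _ _, fun _ => Or.inl rfl⟩

theorem nd_right (a b : ℤ × ℤ) : Nd a b (tp b) := ⟨right_mem_segment ℝ _ _, fun _ => Or.inr rfl⟩

/-- The point of the line `ab` in the row `r`. -/
noncomputable def onl (a b : ℤ × ℤ) (r : ℤ) : Pt :=
  ((a.1 : ℝ) + ((b.1 : ℝ) - a.1) * (((r : ℝ) - a.2) / ((b.2 : ℝ) - a.2)), r)

theorem Nd.eq_onl {a b : ℤ × ℤ} {p : Pt} (h : Nd a b p) (hab : a.2 ≠ b.2) :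
    p = onl a b p.2 := by
  obtain ⟨t, h0, h1, h2, h3⟩ := mem_segment_pt h.1
  have hne : (b.2 : ℝ) - a.2 ≠ 0 := by
    intro e
    apply hab
    have : (b.2 : ℝ) = a.2 := by linarith
    exact_mod_cast this.symm
  refine Prod.ext ?_ rfl
  simp only [rp] at h2 h3
  simp only [onl]
  rw [h2, h3]
  field_simp
  ring

theorem Nd.le {a b : ℤ × ℤ} {p : Pt} (h : Nd a b p) : min a.2 b.2 ≤ p.2 ∧ p.2 ≤ max a.2 b.2 := by
  obtain ⟨t, h0, h1, h2, h3⟩ := mem_segment_pt h.1
  simp only [rp] at h3
  constructor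
  · have : (min (a.2 : ℝ) b.2) ≤ p.2 := by
      rw [h3]
      rcases le_total (a.2 : ℝ) b.2 with h | h
      · rw [min_eq_left h]; nlinarith
      · rw [min_eq_right h]; nlinarith
    exact_mod_cast this
  · have : (p.2 : ℝ) ≤ max (a.2 : ℝ) b.2 := by
      rw [h3]
      rcases le_total (a.2 : ℝ) b.2 with h | h
      · rw [max_eq_right h]; nlinarith
      · rw [max_eq_left h]; nlinarith
    exact_mod_cast this

theorem nd_onl {a b : ℤ × ℤ} {r : ℤ} (hab : a.2 ≠ b.2) (h1 : min a.2 b.2 ≤ r)
    (h2 : r ≤ max a.2 b.2) : Nd a b (onl a b r) := by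
  refine ⟨?_, fun e => absurd e hab⟩
  have hne : (b.2 : ℝ) - a.2 ≠ 0 := by
    intro e
    apply hab
    have : (b.2 : ℝ) = a.2 := by linarith
    exact_mod_cast this.symm
  refine mem_segment_of (((r : ℝ) - a.2) / ((b.2 : ℝ) - a.2)) ?_ ?_ rfl ?_
  · rcases lt_or_gt_of_ne hab with h | h
    · have k1 : (0 : ℝ) < b.2 - a.2 := by
        have : (a.2 : ℝ) < b.2 := by exact_mod_cast h
        linarith
      have k2 : (a.2 : ℝ) ≤ r := by
        have : a.2 ≤ r := by omega
        exact_mod_cast this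
      exact div_nonneg (by linarith) k1.le
    · have k1 : (b.2 : ℝ) - a.2 < 0 := by
        have : (b.2 : ℝ) < a.2 := by exact_mod_cast h
        linarith
      have k2 : (r : ℝ) ≤ a.2 := by
        have : r ≤ a.2 := by omega
        exact_mod_cast this
      exact div_nonneg_of_nonpos (by linarith) k1.le
  · rcases lt_or_gt_of_ne hab with h | h
    · have k1 : (0 : ℝ) < b.2 - a.2 := by
        have : (a.2 : ℝ) < b.2 := by exact_mod_cast h
        linarith
      have k2 : (r : ℝ) ≤ b.2 := by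
        have : r ≤ b.2 := by omega
        exact_mod_cast this
      rw [div_le_one k1]
      linarith
    · have k1 : (b.2 : ℝ) - a.2 < 0 := by
        have : (b.2 : ℝ) < a.2 := by exact_mod_cast h
        linarith
      have k2 : (b.2 : ℝ) ≤ r := by
        have : b.2 ≤ r := by omega
        exact_mod_cast this
      rw [div_le_one_of_neg k1]
      linarith
  · simp only [rp, onl, pt]
    field_simp
    ring

theorem Nd.eq_of_row {a b : ℤ × ℤ} {p q : Pt} (hp : Nd a b p) (hq : Nd a b q) (hab : a.2 ≠ b.2)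
    (h : p.2 = q.2) : p = q := by
  rw [hp.eq_onl hab, hq.eq_onl hab, h]

/-- The points of a segment of nodes are on the segment. -/
theorem Nd.seg {a b : ℤ × ℤ} {p q : Pt} (hp : Nd a b p) (hq : Nd a b q) {z : ℝ × ℝ}
    (hz : z ∈ segment ℝ (rp p) (rp q)) : z ∈ segment ℝ (pt a) (pt b) :=
  (convex_segment (pt a) (pt b)).segment_subset hp.1 hq.1 hz

/-- The graph of a list of grid points. -/
def lG (l : List (ℤ × ℤ)) : SimpleGraph Pt where
  Adj p q := p ≠ q ∧ (p.2 = q.2 ∨ p.2 = q.2 + 1 ∨ q.2 = p.2 + 1) ∧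
    ∃ i, ∃ h : i + 1 < l.length, Nd l[i] l[i + 1] p ∧ Nd l[i] l[i + 1] q
  symm := ⟨by
    rintro p q ⟨h1, h2, i, h, h3, h4⟩
    exact ⟨h1.symm, by omega, i, h, h4, h3⟩⟩
  loopless := ⟨fun p h => h.1 rfl⟩

/-- The nodes of a list of grid points. -/
def lN (l : List (ℤ × ℤ)) : Set Pt := {p | ∃ i, ∃ h : i + 1 < l.length, Nd l[i] l[i + 1] p}

theorem lN_cons {a b : ℤ × ℤ} {l : List (ℤ × ℤ)} {p : Pt} :
    p ∈ lN (a :: b :: l) ↔ Nd a b p ∨ p ∈ lN (b :: l) := by
  constructor
  · rintro ⟨i, h, hp⟩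
    cases i with
    | zero => exact Or.inl hp
    | succ i => exact Or.inr ⟨i, by simpa using h, hp⟩
  · rintro (hp | ⟨i, h, hp⟩)
    · exact ⟨0, by simp, hp⟩
    · exact ⟨i + 1, by simpa using h, hp⟩

theorem lG_le {a b : ℤ × ℤ} {l : List (ℤ × ℤ)} : lG (b :: l) ≤ lG (a :: b :: l) := by
  rintro p q ⟨h1, h2, i, h, h3, h4⟩
  exact ⟨h1, h2, i + 1, by simpa using h, h3, h4⟩

theorem Conn.mono_graph {R R' : SimpleGraph Pt} (hR : R ≤ R') {S : Set Pt} {a b : Pt}
    (h : Conn R S a b) : Conn R' S a b := by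
  obtain ⟨w, hw⟩ := h
  induction w with
  | nil => exact Conn.refl (by simpa using hw)
  | @cons a b c h w ih =>
    have ha : a ∈ S := hw a (by simp)
    have hw' : ∀ z ∈ w.support, z ∈ S := fun z hz => hw z (by simp [hz])
    exact (Conn.of_adj (hR h) ha (hw' b w.start_mem_support)).trans (ih hw')

/-- Walking along a segment. -/
theorem seg_conn {a b : ℤ × ℤ} {R : SimpleGraph Pt}
    (hR : ∀ p q, Nd a b p → Nd a b q → p ≠ q → (p.2 = q.2 ∨ p.2 = q.2 + 1 ∨ q.2 = p.2 + 1) →
      R.Adj p q) (n : ℕ) :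
    ∀ p, Nd a b p → (p.2 - a.2).natAbs = n → p ≠ tp b →
      Conn R ({p | Nd a b p} \ {tp b}) (tp a) p := by
  induction n with
  | zero =>
    intro p hp hn hpb
    by_cases hab : a.2 = b.2
    · rcases hp.2 hab with rfl | rfl
      · exact Conn.refl ⟨hp, hpb⟩
      · exact absurd rfl hpb
    · have : p = tp a := hp.eq_of_row (nd_left a b) hab (by simp only [tp_snd]; omega)
      subst this
      exact Conn.refl ⟨hp, hpb⟩
  | succ n ih =>
    intro p hp hn hpb
    by_cases hab : a.2 = b.2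
    · rcases hp.2 hab with rfl | rfl
      · exact Conn.refl ⟨hp, hpb⟩
      · exact absurd rfl hpb
    · have hle := hp.le
      have hpb2 : p.2 ≠ b.2 := fun e => hpb (hp.eq_of_row (nd_right a b) hab e)
      -- one step towards `a`
      set r : ℤ := if a.2 < p.2 then p.2 - 1 else p.2 + 1 with hr
      have hr' : (r - a.2).natAbs = n ∧ min a.2 b.2 ≤ r ∧ r ≤ max a.2 b.2 ∧ r ≠ b.2 ∧
          (r = p.2 + 1 ∨ p.2 = r + 1) := by
        rw [hr]
        split_ifs with h
        · omega
        · omega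
      obtain ⟨g1, g2, g3, g4, g5⟩ := hr'
      have hq : Nd a b (onl a b r) := nd_onl hab g2 g3
      have hqb : onl a b r ≠ tp b := fun e => g4 (congrArg Prod.snd e)
      have h1 := ih (onl a b r) hq g1 hqb
      refine h1.trans (Conn.of_adj (hR _ _ hq hp ?_ ?_) ⟨hq, hqb⟩ ⟨hp, hpb⟩)
      · intro e
        have : r = p.2 := congrArg Prod.snd e
        omega
      · show r = p.2 ∨ r = p.2 + 1 ∨ p.2 = r + 1
        omega

theorem seg_last {a b : ℤ × ℤ} (hab : a ≠ b) {R : SimpleGraph Pt}
    (hR : ∀ p q, Nd a b p → Nd a b q → p ≠ q → (p.2 = q.2 ∨ p.2 = q.2 + 1 ∨ q.2 = p.2 + 1) →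
      R.Adj p q) : ∃ p, Nd a b p ∧ p ≠ tp b ∧ R.Adj p (tp b) := by
  by_cases h2 : a.2 = b.2
  · have hne : tp a ≠ tp b := fun e => hab (tp_inj e)
    exact ⟨tp a, nd_left a b, hne, hR _ _ (nd_left a b) (nd_right a b) hne (Or.inl h2)⟩
  · set r : ℤ := if a.2 < b.2 then b.2 - 1 else b.2 + 1 with hr
    have hr' : min a.2 b.2 ≤ r ∧ r ≤ max a.2 b.2 ∧ (r = b.2 + 1 ∨ b.2 = r + 1) := by
      rw [hr]
      split_ifs with h
      · omega
      · omega
    obtain ⟨g2, g3, g5⟩ := hr'
    have hq : Nd a b (onl a b r) := nd_onl h2 g2 g3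
    have hqb : onl a b r ≠ tp b := by
      intro e
      have : r = b.2 := congrArg Prod.snd e
      omega
    exact ⟨_, hq, hqb, hR _ _ hq (nd_right a b) hqb (Or.inr g5)⟩

/-- All nodes are connected. -/
theorem list_conn : ∀ (l : List (ℤ × ℤ)) (a : ℤ × ℤ), ∀ p ∈ lN (a :: l),
    Conn (lG (a :: l)) (lN (a :: l)) (tp a) p := by
  intro l
  induction l with
  | nil =>
    rintro a p ⟨i, h, -⟩
    simp at h
  | cons b l ih =>
    intro a p hp
    have hR : ∀ p q, Nd a b p → Nd a b q → p ≠ q →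
        (p.2 = q.2 ∨ p.2 = q.2 + 1 ∨ q.2 = p.2 + 1) → (lG (a :: b :: l)).Adj p q :=
      fun p q h1 h2 h3 h4 => ⟨h3, h4, 0, by simp, h1, h2⟩
    have hsub : ({p | Nd a b p} \ {tp b} : Set Pt) ⊆ lN (a :: b :: l) :=
      fun q hq => lN_cons.2 (Or.inl hq.1)
    have hab : Conn (lG (a :: b :: l)) (lN (a :: b :: l)) (tp a) (tp b) := by
      by_cases e : a = b
      · subst e
        exact Conn.refl (lN_cons.2 (Or.inl (nd_left _ _)))
      · obtain ⟨q, hq, hqb, hadj⟩ := seg_last e hR
        have := (seg_conn hR _ q hq rfl hqb).mono hsub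
        exact this.trans (Conn.of_adj hadj (lN_cons.2 (Or.inl hq))
          (lN_cons.2 (Or.inl (nd_right _ _))))
    rcases lN_cons.1 hp with hp | hp
    · by_cases e : p = tp b
      · rw [e]; exact hab
      · exact (seg_conn hR _ p hp rfl e).mono hsub
    · have := (ih b p hp).mono_graph (lG_le (a := a))
      exact hab.trans (this.mono (fun q hq => lN_cons.2 (Or.inr hq)))

theorem tail_simple {a b : ℤ × ℤ} {l : List (ℤ × ℤ)} (h : IsSimpleChain (a :: b :: l)) :
    IsSimpleChain (b :: l) := by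
  intro i j hi hj hij q h1 h2
  have := h (i + 1) (j + 1) (by simpa using hi) (by simpa using hj) (by omega) q h1 h2
  exact ⟨by omega, this.2⟩

/-- The last point is not on the first segment. -/
theorem last_notMem_aux {L : List (ℤ × ℤ)} (hlen : 3 ≤ L.length) (h : IsSimpleChain L)
    (hd : ∀ i : ℕ, ∀ h : i + 1 < L.length, L[i] ≠ L[i + 1]) {z : ℤ × ℤ}
    (hz : L.getLast? = some z) : ¬ Nd L[0] L[1] (tp z) := by
  intro hnd
  have hlast : L[L.length - 1] = z := by
    rw [List.getLast?_eq_getElem?, List.getElem?_eq_getElem (by omega)] at hz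
    exact Option.some.inj hz
  obtain ⟨n, hn⟩ : ∃ n, L.length = n + 3 := ⟨L.length - 3, by omega⟩
  have hlast' : L[n + 2]'(by omega) = z := by
    rw [← hlast]
    congr 1
    omega
  have := h 0 (n + 1) (by omega) (by omega) (by omega) (pt z) hnd.1 (by
    rw [hlast']
    exact right_mem_segment ℝ _ _)
  have h2 : z = L[n + 1] := tp_inj (rp_inj (p := tp z) (q := tp (L[n + 1])) this.2)
  exact hd (n + 1) (by omega) (by rw [← h2, hlast'])

theorem last_notMem {a b c : ℤ × ℤ} {l : List (ℤ × ℤ)} (h : IsSimpleChain (a :: b :: c :: l))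
    (hd : ∀ i : ℕ, ∀ h : i + 1 < (a :: b :: c :: l).length,
      (a :: b :: c :: l)[i] ≠ (a :: b :: c :: l)[i + 1]) {z : ℤ × ℤ}
    (hz : (a :: b :: c :: l).getLast? = some z) : ¬ Nd a b (tp z) :=
  last_notMem_aux (L := a :: b :: c :: l) (by simp) h hd hz

/-- From the first point, avoiding the last point. -/
theorem list_conn_first : ∀ (l : List (ℤ × ℤ)) (a z : ℤ × ℤ), IsSimpleChain (a :: l) →
    (∀ i : ℕ, ∀ h : i + 1 < (a :: l).length, (a :: l)[i] ≠ (a :: l)[i + 1]) →
    (a :: l).getLast? = some z → ∀ p ∈ lN (a :: l), p ≠ tp z →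
    Conn (lG (a :: l)) (lN (a :: l) \ {tp z}) (tp a) p := by
  intro l
  induction l with
  | nil =>
    rintro a z - - - p ⟨i, h, -⟩
    simp at h
  | cons b l ih =>
    intro a z hs hd hz p hp hpz
    have hR : ∀ p q, Nd a b p → Nd a b q → p ≠ q →
        (p.2 = q.2 ∨ p.2 = q.2 + 1 ∨ q.2 = p.2 + 1) → (lG (a :: b :: l)).Adj p q :=
      fun p q h1 h2 h3 h4 => ⟨h3, h4, 0, by simp, h1, h2⟩
    cases l with
    | nil =>
      have hbz : b = z := by simpa using hz
      subst hbz
      have hsub : ({p | Nd a b p} \ {tp b} : Set Pt) ⊆ lN [a, b] \ {tp b} :=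
        fun q hq => ⟨lN_cons.2 (Or.inl hq.1), hq.2⟩
      rcases lN_cons.1 hp with hp | ⟨i, h, -⟩
      · exact (seg_conn hR _ p hp rfl hpz).mono hsub
      · simp at h
    | cons c l =>
      have hnot := last_notMem hs hd hz
      have hsub : ({p | Nd a b p} : Set Pt) ⊆ lN (a :: b :: c :: l) \ {tp z} := by
        intro q hq
        refine ⟨lN_cons.2 (Or.inl hq), ?_⟩
        intro e
        rw [Set.mem_singleton_iff] at e
        subst e
        exact hnot hq
      have hne : a ≠ b := hd 0 (by simp)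
      have hab : Conn (lG (a :: b :: c :: l)) (lN (a :: b :: c :: l) \ {tp z}) (tp a) (tp b) := by
        obtain ⟨q, hq, hqb, hadj⟩ := seg_last hne hR
        have := (seg_conn hR _ q hq rfl hqb).mono (Set.sdiff_subset.trans hsub)
        exact this.trans (Conn.of_adj hadj (hsub hq) (hsub (nd_right _ _)))
      rcases lN_cons.1 hp with hp | hp
      · by_cases e : p = tp b
        · rw [e]; exact hab
        · exact (seg_conn hR _ p hp rfl e).mono (Set.sdiff_subset.trans hsub)
      · have := (ih b z (tail_simple hs) (fun i h => hd (i + 1) (by simpa using h))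
          (by simpa using hz) p hp hpz).mono_graph (lG_le (a := a))
        refine hab.trans (this.mono ?_)
        intro q hq
        exact ⟨lN_cons.2 (Or.inr hq.1), hq.2⟩

/-- From the last point, avoiding the first point. -/
theorem list_conn_last : ∀ (l : List (ℤ × ℤ)) (a z : ℤ × ℤ), IsSimpleChain (a :: l) →
    (∀ i : ℕ, ∀ h : i + 1 < (a :: l).length, (a :: l)[i] ≠ (a :: l)[i + 1]) →
    (a :: l).getLast? = some z → ∀ p ∈ lN (a :: l), p ≠ tp a →
    Conn (lG (a :: l)) (lN (a :: l) \ {tp a}) (tp z) p := by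
  intro l a z hs hd hz p hp hpa
  cases l with
  | nil =>
    obtain ⟨i, h, -⟩ := hp
    simp at h
  | cons b l =>
    have hne : a ≠ b := hd 0 (by simp)
    have hR : ∀ p q, Nd b a p → Nd b a q → p ≠ q →
        (p.2 = q.2 ∨ p.2 = q.2 + 1 ∨ q.2 = p.2 + 1) → (lG (a :: b :: l)).Adj p q :=
      fun p q h1 h2 h3 h4 => ⟨h3, h4, 0, by simp, h1.swap, h2.swap⟩
    -- the first point is not on the rest
    have hnot : ∀ q ∈ lN (b :: l), q ≠ tp a := by
      rintro q ⟨i, h, hq⟩ e
      subst e
      have := hs 0 (i + 1) (by simp) (by simpa using h) (by omega) (pt a)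
        (left_mem_segment ℝ _ _) hq.1
      have h0 : i = 0 := by omega
      subst h0
      have h2 : a = b := tp_inj (rp_inj (p := tp a) (q := tp b) this.2)
      exact hne h2
    have hsub2 : lN (b :: l) ⊆ lN (a :: b :: l) \ {tp a} :=
      fun q hq => ⟨lN_cons.2 (Or.inr hq), hnot q hq⟩
    -- from `b` to the last point
    have hbz : Conn (lG (a :: b :: l)) (lN (a :: b :: l) \ {tp a}) (tp b) (tp z) := by
      cases l with
      | nil =>
        have hbz : b = z := by simpa using hz
        subst hbz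
        refine Conn.refl ⟨lN_cons.2 (Or.inl (nd_right _ _)), ?_⟩
        intro e
        exact hne (tp_inj (show tp b = tp a from e)).symm
      | cons c l =>
        have hmem : tp z ∈ lN (b :: c :: l) := by
          set L := b :: c :: l with hL
          have hz' : L.getLast? = some z := by simpa [hL] using hz
          have hlen : 2 ≤ L.length := by simp [hL]
          obtain ⟨n, hn⟩ : ∃ n, L.length = n + 2 := ⟨L.length - 2, by omega⟩
          refine ⟨n, by omega, ?_⟩
          have hlast : L[n + 1]'(by omega) = z := by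
            rw [List.getLast?_eq_getElem?, List.getElem?_eq_getElem (by omega)] at hz'
            rw [← Option.some.inj hz']
            congr 1
            omega
          rw [hlast]
          exact nd_right _ _
        exact ((list_conn (c :: l) b (tp z) hmem).mono_graph (lG_le (a := a))).mono hsub2
    refine hbz.symm.trans ?_
    rcases lN_cons.1 hp with hp | hp
    · have := seg_conn hR _ p hp.swap rfl hpa
      refine this.mono ?_
      intro q hq
      exact ⟨lN_cons.2 (Or.inl hq.1.swap), hq.2⟩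
    · cases l with
      | nil =>
        obtain ⟨i, h, -⟩ := hp
        simp at h
      | cons c l =>
        exact ((list_conn (c :: l) b p hp).mono_graph (lG_le (a := a))).mono hsub2

/-! ### The graph of a drawing -/

theorem cross_point {p q p' q' : Pt} (h1 : q.2 = p.2 + 1) (h2 : p'.2 = p.2) (h3 : q'.2 = p.2 + 1)
    (h4 : p.1 < p'.1) (h5 : q'.1 < q.1) : ∃ z : ℝ × ℝ, z ∈ segment ℝ (rp p) (rp q) ∧
      z ∈ segment ℝ (rp p') (rp q') ∧ ∀ a : ℤ × ℤ, z ≠ pt a := by
  have hpos : 0 < (p'.1 - p.1) + (q.1 - q'.1) := by linarith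
  set t : ℝ := (p'.1 - p.1) / ((p'.1 - p.1) + (q.1 - q'.1)) with ht
  have t0 : 0 < t := div_pos (by linarith) hpos
  have t1 : t < 1 := by
    rw [ht, div_lt_one hpos]
    linarith
  have hts : t * ((p'.1 - p.1) + (q.1 - q'.1)) = p'.1 - p.1 := by
    rw [ht]
    field_simp
  have c1 : ((q.2 : ℤ) : ℝ) = p.2 + 1 := by rw [h1]; push_cast; ring
  have c2 : ((p'.2 : ℤ) : ℝ) = p.2 := by rw [h2]
  have c3 : ((q'.2 : ℤ) : ℝ) = p.2 + 1 := by rw [h3]; push_cast; ring
  refine ⟨(p.1 + (q.1 - p.1) * t, p.2 + t), mem_segment_of t t0.le t1.le rfl ?_,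
    mem_segment_of t t0.le t1.le ?_ ?_, ?_⟩
  · simp only [rp]
    rw [c1]; ring
  · simp only [rp]
    linear_combination hts
  · simp only [rp]
    rw [c2, c3]; ring
  · intro a ha
    have h := congrArg Prod.snd ha
    simp only [pt] at h
    have e1 : (p.2 : ℝ) < a.2 := by linarith
    have e2 : (a.2 : ℝ) < p.2 + 1 := by linarith
    have e1' : p.2 < a.2 := by exact_mod_cast e1
    have e2' : a.2 < p.2 + 1 := by exact_mod_cast e2
    omega

theorem getLast_eq {l : List (ℤ × ℤ)} {z : ℤ × ℤ} (h : l.getLast? = some z)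
    (hl : 0 < l.length) : l[l.length - 1] = z := by
  rw [List.getLast?_eq_getElem?, List.getElem?_eq_getElem (by omega)] at h
  exact Option.some.inj h

theorem head_eq {l : List (ℤ × ℤ)} {z : ℤ × ℤ} (h : l.head? = some z)
    (hl : 0 < l.length) : l[0] = z := by
  cases l with
  | nil => simp at hl
  | cons a l => simpa using h

/-- In a simple chain, an end of the chain is in a segment only as an end of the segment. -/
theorem end_of_seg {l : List (ℤ × ℤ)} (hs : IsSimpleChain l) {i : ℕ} (h : i + 1 < l.length)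
    {z : ℤ × ℤ} (hz : l.head? = some z ∨ l.getLast? = some z)
    (hmem : pt z ∈ segment ℝ (pt l[i]) (pt l[i + 1])) : pt z = pt l[i] ∨ pt z = pt l[i + 1] := by
  rcases hz with hz | hz
  · have h0 := head_eq hz (by omega)
    by_cases hi : i = 0
    · subst hi
      left
      rw [h0]
    · have := hs 0 i (by omega) h (by omega) (pt z) (by
        rw [h0]
        exact left_mem_segment ℝ _ _) hmem
      exact Or.inl this.2
  · have h0 := getLast_eq hz (by omega)
    obtain ⟨n, hn⟩ : ∃ n, l.length = n + 2 := ⟨l.length - 2, by omega⟩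
    have h0' : l[n + 1]'(by omega) = z := by
      rw [← h0]
      congr 1
      omega
    by_cases hi : i = n
    · subst hi
      right
      rw [h0']
    · have := hs i n h (by omega) (by omega) (pt z) hmem (by
        rw [h0']
        exact right_mem_segment ℝ _ _)
      right
      rw [this.2]
      congr 1
      congr 1
      omega

section
variable {V : Type*} {G : SimpleGraph V} (D : PolylineDrawing G)

/-- The graph of the nodes of a drawing. -/
def dG : SimpleGraph Pt where
  Adj p q := ∃ e ∈ G.edgeSet, (lG (D.path e)).Adj p q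
  symm := ⟨by
    rintro p q ⟨e, he, h⟩
    exact ⟨e, he, h.symm⟩⟩
  loopless := ⟨by
    rintro p ⟨e, he, h⟩
    exact h.ne rfl⟩

theorem list_conn_first' {L : List (ℤ × ℤ)} {a z : ℤ × ℤ} (ha : L.head? = some a)
    (hs : IsSimpleChain L) (hd : ∀ i : ℕ, ∀ h : i + 1 < L.length, L[i] ≠ L[i + 1])
    (hz : L.getLast? = some z) {p : Pt} (hp : p ∈ lN L) (hpz : p ≠ tp z) :
    Conn (lG L) (lN L \ {tp z}) (tp a) p := by
  cases L with
  | nil => simp at ha
  | cons b l =>
    have : b = a := by simpa using ha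
    subst this
    exact list_conn_first l b z hs hd hz p hp hpz

theorem list_conn_last' {L : List (ℤ × ℤ)} {a z : ℤ × ℤ} (ha : L.head? = some a)
    (hs : IsSimpleChain L) (hd : ∀ i : ℕ, ∀ h : i + 1 < L.length, L[i] ≠ L[i + 1])
    (hz : L.getLast? = some z) {p : Pt} (hp : p ∈ lN L) (hpa : p ≠ tp a) :
    Conn (lG L) (lN L \ {tp a}) (tp z) p := by
  cases L with
  | nil => simp at ha
  | cons b l =>
    have : b = a := by simpa using ha
    subst this
    exact list_conn_last l b z hs hd hz p hp hpa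

theorem D_head_or_last {e : Sym2 V} (he : e ∈ G.edgeSet) {w : V} (hw : w ∈ e) :
    (D.path e).head? = some (D.pos w) ∨ (D.path e).getLast? = some (D.pos w) := by
  obtain ⟨u, v, h1, h2, h3⟩ := D.ends e he
  rw [h1] at hw
  rcases Sym2.mem_iff.1 hw with rfl | rfl
  · exact Or.inl h2
  · exact Or.inr h3

theorem rowPlanar_dG : RowPlanar (dG D) where
  row := by
    rintro p q ⟨e, he, h1, h2, -⟩
    exact h2
  strip := by
    rintro p q p' q' ⟨e, he, h1, h2, i, hi, n1, n2⟩ ⟨f, hf, h1', h2', j, hj, n1', n2'⟩ e1 e2 e3 hlt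
    by_contra hcon
    push Not at hcon
    obtain ⟨z, z1, z2, z3⟩ := cross_point e1 e2 e3 hlt hcon
    have m1 := n1.seg n2 z1
    have m2 := n1'.seg n2' z2
    by_cases hef : e = f
    · subst hef
      rcases lt_trichotomy i j with hij | hij | hij
      · exact z3 _ (D.simple e he i j hi hj hij z m1 m2).2
      · subst hij
        have hab : (D.path e)[i].2 ≠ (D.path e)[i + 1].2 := by
          intro hab
          have k1 := n1.le
          have k2 := n2.le
          omega
        have := n1.eq_of_row n1' hab e2.symm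
        rw [this] at hlt
        exact lt_irrefl _ hlt
      · exact z3 _ (D.simple e he j i hj hi hij z m2 m1).2
    · obtain ⟨w, -, -, hw⟩ := D.cross e he f hf hef z ⟨i, hi, m1⟩ ⟨j, hj, m2⟩
      exact z3 _ hw
  horiz := by
    rintro p q w w' ⟨e, he, h1, h2, i, hi, n1, n2⟩ e1 ⟨f, hf, h1', h2', j, hj, n1', n2'⟩ e2 hl hr
    have hab : (D.path e)[i].2 = (D.path e)[i + 1].2 := by
      by_contra hab
      exact h1 (n1.eq_of_row n2 hab e1)
    -- `w` is on the segment
    have hwseg : rp w ∈ segment ℝ (rp p) (rp q) := by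
      have hpos : 0 < q.1 - p.1 := by linarith
      refine mem_segment_of ((w.1 - p.1) / (q.1 - p.1)) (div_nonneg (by linarith) hpos.le) ?_ ?_ ?_
      · rw [div_le_one hpos]; linarith
      · simp only [rp]; field_simp; ring
      · simp only [rp]
        rw [e2, e1]; ring
    have m1 := n1.seg n2 hwseg
    -- `w` is not an end of the segment
    have hnot : ¬ (rp w = pt (D.path e)[i] ∨ rp w = pt (D.path e)[i + 1]) := by
      intro hw
      have hw' : w = tp (D.path e)[i] ∨ w = tp (D.path e)[i + 1] :=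
        hw.imp (fun h => rp_inj h) (fun h => rp_inj h)
      have hp := n1.2 hab
      have hq := n2.2 hab
      have key1 : p = w → False := fun e => by rw [e] at hl; exact lt_irrefl _ hl
      have key2 : w = q → False := fun e => by rw [e] at hr; exact lt_irrefl _ hr
      rcases hw' with hw' | hw'
      · rcases hp with hp | hp
        · exact key1 (hp.trans hw'.symm)
        · rcases hq with hq | hq
          · exact key2 (hw'.trans hq.symm)
          · exact h1 (hp.trans hq.symm)
      · rcases hp with hp | hp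
        · rcases hq with hq | hq
          · exact h1 (hp.trans hq.symm)
          · exact key2 (hw'.trans hq.symm)
        · exact key1 (hp.trans hw'.symm)
    by_cases hef : e = f
    · subst hef
      rcases lt_trichotomy i j with hij | hij | hij
      · obtain ⟨k1, k2⟩ := D.simple e he i j hi hj hij _ m1 n1'.1
        subst k1
        exact hnot (Or.inr k2)
      · subst hij
        have := n1'.2 hab
        exact hnot (this.imp (fun h => by rw [h]; rfl) (fun h => by rw [h]; rfl))
      · obtain ⟨k1, k2⟩ := D.simple e he j i hj hi hij _ n1'.1 m1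
        exact hnot (Or.inl k2)
    · obtain ⟨v, hv1, hv2, hv⟩ := D.cross e he f hf hef _ ⟨i, hi, m1⟩ ⟨j, hj, n1'.1⟩
      have := end_of_seg (D.simple e he) hi (D_head_or_last D he hv1) (by rw [← hv]; exact m1)
      rw [← hv] at this
      exact hnot this

/-- The combinatorial content of a drawing. -/
structure RowModel {V : Type*} (G : SimpleGraph V) where
  R : SimpleGraph Pt
  planar : RowPlanar R
  pos : V → Pt
  seg : Sym2 V → Set Pt
  pos_inj : Function.Injective pos
  vertex : ∀ e ∈ G.edgeSet, ∀ w, pos w ∈ seg e → w ∈ e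
  inter : ∀ e ∈ G.edgeSet, ∀ f ∈ G.edgeSet, e ≠ f → ∀ p, p ∈ seg e → p ∈ seg f →
    ∃ w, w ∈ e ∧ w ∈ f ∧ p = pos w
  conn : ∀ u v, G.Adj u v → ∀ p ∈ seg s(u, v), p ≠ pos v →
    Conn R (seg s(u, v) \ {pos v}) (pos u) p
  last : ∀ u v, G.Adj u v → ∃ p ∈ seg s(u, v), p ≠ pos v ∧ R.Adj p (pos v)

theorem path_length {e : Sym2 V} (he : e ∈ G.edgeSet) : 2 ≤ (D.path e).length := by
  obtain ⟨u, v, h1, h2, h3⟩ := D.ends e he
  have huv : u ≠ v := by
    rintro rfl
    rw [h1] at he
    exact G.irrefl he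
  match hl : D.path e with
  | [] => rw [hl] at h2; simp at h2
  | [a] =>
    rw [hl] at h2 h3
    simp at h2 h3
    exact absurd (D.pos_injective (h2.symm.trans h3)) huv
  | a :: b :: l => simp

/-- The model of a drawing. -/
def PolylineDrawing.model : RowModel G where
  R := dG D
  planar := rowPlanar_dG D
  pos v := tp (D.pos v)
  seg e := lN (D.path e)
  pos_inj := fun u v h => D.pos_injective (tp_inj h)
  vertex := by
    rintro e he w ⟨i, hi, h⟩
    exact D.vertex e he w ⟨i, hi, h.1⟩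
  inter := by
    rintro e he f hf hef p ⟨i, hi, h⟩ ⟨j, hj, h'⟩
    obtain ⟨w, h1, h2, h3⟩ := D.cross e he f hf hef (rp p) ⟨i, hi, h.1⟩ ⟨j, hj, h'.1⟩
    exact ⟨w, h1, h2, rp_inj h3⟩
  conn := by
    intro u v huv p hp hpv
    have he : s(u, v) ∈ G.edgeSet := huv
    have hle : lG (D.path s(u, v)) ≤ dG D := fun p q h => ⟨_, he, h⟩
    obtain ⟨u', v', h1, h2, h3⟩ := D.ends _ he
    have hs := D.simple _ he
    have hd := D.proper _ he
    rcases Sym2.eq_iff.1 h1 with ⟨rfl, rfl⟩ | ⟨rfl, rfl⟩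
    · exact (list_conn_first' h2 hs hd h3 hp hpv).mono_graph hle
    · exact (list_conn_last' h2 hs hd h3 hp hpv).mono_graph hle
  last := by
    intro u v huv
    have he : s(u, v) ∈ G.edgeSet := huv
    obtain ⟨u', v', h1, h2, h3⟩ := D.ends _ he
    have hd := D.proper _ he
    have hlen := path_length D he
    have hadj : ∀ i, ∀ h : i + 1 < (D.path s(u, v)).length, ∀ p q,
        Nd (D.path s(u, v))[i] (D.path s(u, v))[i + 1] p →
        Nd (D.path s(u, v))[i] (D.path s(u, v))[i + 1] q → p ≠ q →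
        (p.2 = q.2 ∨ p.2 = q.2 + 1 ∨ q.2 = p.2 + 1) → (dG D).Adj p q :=
      fun i h p q n1 n2 n3 n4 => ⟨_, he, n3, n4, i, h, n1, n2⟩
    rcases Sym2.eq_iff.1 h1 with ⟨rfl, rfl⟩ | ⟨rfl, rfl⟩
    · obtain ⟨n, hn⟩ : ∃ n, (D.path s(u, v)).length = n + 2 :=
        ⟨(D.path s(u, v)).length - 2, by omega⟩
      have h0 := getLast_eq h3 (by omega)
      have h0' : (D.path s(u, v))[n + 1]'(by omega) = D.pos v := by
        rw [← h0]
        congr 1
        omega
      obtain ⟨p, hp, hpv, ha⟩ := seg_last (hd n (by omega)) (hadj n (by omega))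
      rw [h0'] at hpv ha
      exact ⟨p, ⟨n, by omega, hp⟩, hpv, ha⟩
    · have h0 := head_eq h2 (by omega)
      obtain ⟨p, hp, hpv, ha⟩ := seg_last (hd 0 (by omega)).symm
        (fun p q n1 n2 => hadj 0 (by omega) p q n1.swap n2.swap)
      rw [h0] at hpv ha
      exact ⟨p, ⟨0, by omega, hp.swap⟩, hpv, ha⟩

end

end Pool.Agent.W2helper91.SP
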