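import Pool.Agent.W2helper91.SP.Low2

/-!
# The sharp constant in the exponent
-/

set_option autoImplicit false

namespace Pool.Agent.W2helper91.SP

open Real Filter Asymptotics

/-! ### Facts about the logarithm -/

theorem ev_logb_le {c r : ℝ} (hc : 0 < c) (hr : 0 < r) :
    ∀ᶠ z : ℝ in atTop, logb 2 z ≤ c * z ^ r := by
  have h := (isLittleO_log_rpow_atTop (r := r) hr).bound (c := c * Real.log 2)
    (by have := Real.log_pos one_lt_two; positivity)
  filter_upwards [h, eventually_ge_atTop 1] with z hz hz1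
  rw [Real.norm_eq_abs, Real.norm_eq_abs, abs_of_nonneg (Real.log_nonneg hz1),
    abs_of_nonneg (by positivity)] at hz
  have := Real.log_pos one_lt_two
  rw [logb, div_le_iff₀ this]
  linarith

theorem ev_rpow_ge {c r : ℝ} (hr : 0 < r) : ∀ᶠ z : ℝ in atTop, c ≤ z ^ r :=
  (tendsto_rpow_atTop hr).eventually (eventually_ge_atTop c)

theorem ev_logb_ge (c : ℝ) : ∀ᶠ z : ℝ in atTop, c ≤ logb 2 z :=
  (tendsto_logb_atTop one_lt_two).eventually (eventually_ge_atTop c)

theorem tendsto_logb_nat : Tendsto (fun n : ℕ => logb 2 (n : ℝ)) atTop atTop :=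
  (tendsto_logb_atTop one_lt_two).comp tendsto_natCast_atTop_atTop

/-- The parameters for the lower bound. -/
theorem ev_low_params {ε : ℝ} (h0 : 0 < ε) (h1 : ε < 1 / 4) : ∀ᶠ l : ℝ in atTop,
    ∃ a J : ℕ, 1 ≤ a ∧ 1 + 5 * ((J : ℝ) + 1) + (a + 4) * (2 ^ a * J) + a * (J * (J + 3) / 2) ≤ l ∧
      (1 - 3 * ε) * √(l * logb 2 l) ≤ a * J := by
  filter_upwards [ev_logb_ge (2 / ε), ev_logb_ge 8, ev_logb_le (c := ε / 10) (r := ε / 2)
    (by positivity) (by positivity), ev_rpow_ge (c := 48 / ε) (r := ε / 2) (by positivity),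
    ev_logb_le (c := ε ^ 2) (r := 1) (by positivity) (by norm_num), eventually_ge_atTop 1]
    with l e1 e1' e2 e3 e4 e5
  set lam : ℝ := logb 2 l with hlam
  have hl0 : 0 < l := by linarith
  have hllam : l = 2 ^ lam := by
    rw [hlam, Real.rpow_logb (by norm_num) (by norm_num) hl0]
  rw [div_le_iff₀ h0] at e1
  rw [div_le_iff₀ h0] at e3
  rw [Real.rpow_one] at e4
  obtain ⟨a, ha⟩ : ∃ a : ℕ, a = ⌊(1 - ε) * lam / 2⌋₊ := ⟨_, rfl⟩
  have ha1 : (a : ℝ) ≤ (1 - ε) * lam / 2 := by
    rw [ha]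
    exact Nat.floor_le (by nlinarith)
  have ha2 : (1 - 2 * ε) * lam / 2 ≤ a := by
    have : (1 - ε) * lam / 2 < a + 1 := by rw [ha]; exact Nat.lt_floor_add_one _
    nlinarith
  have ha3 : 1 ≤ a := by
    have : (1 : ℝ) ≤ a := by nlinarith
    exact_mod_cast this
  have ha3' : (1 : ℝ) ≤ a := by exact_mod_cast ha3
  set r : ℝ := √(2 * (1 - ε) * l / a) with hr
  have hr0 : 0 ≤ r := Real.sqrt_nonneg _
  have hr2 : r * r = 2 * (1 - ε) * l / a := Real.mul_self_sqrt (by
    have : 0 < 1 - ε := by linarith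
    positivity)
  obtain ⟨J, hJ⟩ : ∃ J : ℕ, J = ⌊r⌋₊ := ⟨_, rfl⟩
  have hJ1 : (J : ℝ) ≤ r := by rw [hJ]; exact Nat.floor_le hr0
  have hJ2 : r ≤ J + 1 := by rw [hJ]; exact (Nat.lt_floor_add_one _).le
  have hJ0 : (0 : ℝ) ≤ J := Nat.cast_nonneg _
  refine ⟨a, J, ha3, ?_, ?_⟩
  · -- size
    have hsl : √l * √l = l := Real.mul_self_sqrt hl0.le
    have hsl0 : 0 ≤ √l := Real.sqrt_nonneg _
    have hrl : r ≤ 2 * √l := by
      have : r * r ≤ 2 * l := by
        rw [hr2, div_le_iff₀ (by linarith)]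
        nlinarith
      by_contra hcon
      push Not at hcon
      nlinarith
    have hJl : (J : ℝ) ≤ 2 * √l := hJ1.trans hrl
    have hJa : (a : ℝ) * (J * J) ≤ 2 * (1 - ε) * l := by
      have : (J : ℝ) * J ≤ 2 * (1 - ε) * l / a := by
        rw [← hr2]
        nlinarith
      rw [le_div_iff₀ (by linarith)] at this
      linarith
    have h2a : (2 : ℝ) ^ a ≤ l ^ ((1 - ε) / 2) := by
      rw [← Real.rpow_natCast]
      calc (2 : ℝ) ^ (a : ℝ) ≤ 2 ^ (lam * ((1 - ε) / 2)) :=
            Real.rpow_le_rpow_of_exponent_le (by norm_num) (by linarith)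
        _ = l ^ ((1 - ε) / 2) := by rw [Real.rpow_mul (by norm_num), ← hllam]
    set w : ℝ := l ^ (1 - ε / 2) with hw
    have hw1 : l ^ ((1 - ε) / 2) * √l = w := by
      rw [Real.sqrt_eq_rpow, ← Real.rpow_add hl0, hw]
      congr 1
      ring
    have hw2 : w * l ^ (ε / 2) = l := by
      rw [hw, ← Real.rpow_add hl0]
      calc l ^ (1 - ε / 2 + ε / 2) = l ^ (1 : ℝ) := by congr 1; ring
        _ = l := Real.rpow_one l
    have hw0 : 0 < w := by rw [hw]; positivity
    have hsw : √l ≤ w := by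
      rw [Real.sqrt_eq_rpow, hw]
      exact Real.rpow_le_rpow_of_exponent_le e5 (by linarith)
    have h1w : 1 ≤ w := by
      rw [hw]
      exact Real.one_le_rpow e5 (by linarith)
    have hlam4 : (a : ℝ) + 4 ≤ lam := by nlinarith
    have hlam0 : 0 ≤ lam := by linarith
    have hmid : ((a : ℝ) + 4) * (2 ^ a * J) ≤ 2 * lam * w := by
      calc ((a : ℝ) + 4) * (2 ^ a * J) ≤ lam * (l ^ ((1 - ε) / 2) * (2 * √l)) := by gcongr
        _ = 2 * lam * (l ^ ((1 - ε) / 2) * √l) := by ring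
        _ = 2 * lam * w := by rw [hw1]
    have hlast : (a : ℝ) * (J * (J + 3) / 2) ≤ (1 - ε) * l + 3 / 2 * lam * w := by
      have f1 : (a : ℝ) * (J * (J + 3) / 2) = a * (J * J) / 2 + 3 / 2 * (a * J) := by ring
      have f2 : (a : ℝ) * J ≤ (lam / 2) * (2 * w) := by
        have : (a : ℝ) ≤ lam / 2 := by nlinarith
        have h3 : (J : ℝ) ≤ 2 * w := by linarith
        gcongr
      rw [f1]
      linarith
    have hfirst : 1 + 5 * ((J : ℝ) + 1) ≤ 16 * w := by linarith
    have hfin : (16 + 7 / 2 * lam) * w ≤ ε * l := by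
      have g1 : 16 + 7 / 2 * lam ≤ ε * l ^ (ε / 2) := by linarith
      calc (16 + 7 / 2 * lam) * w ≤ ε * l ^ (ε / 2) * w := by gcongr
        _ = ε * (w * l ^ (ε / 2)) := by ring
        _ = ε * l := by rw [hw2]
    linarith
  · -- value
    set s : ℝ := √(l * lam) with hs
    have hs0 : 0 ≤ s := Real.sqrt_nonneg _
    have hs2 : s * s = l * lam := Real.mul_self_sqrt (by nlinarith)
    have hlams : lam ≤ ε * s := by
      by_contra hcon
      push Not at hcon
      have : (ε * s) * (ε * s) < lam * lam := by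
        apply mul_self_lt_mul_self (by positivity) hcon
      have h3 : (ε * s) * (ε * s) = ε ^ 2 * l * lam := by
        calc (ε * s) * (ε * s) = ε ^ 2 * (s * s) := by ring
          _ = ε ^ 2 * l * lam := by rw [hs2]; ring
      have h4 : lam * lam ≤ ε ^ 2 * l * lam := mul_le_mul_of_nonneg_right e4 (by linarith)
      linarith
    have har : (1 - 2 * ε) * s ≤ a * r := by
      by_contra hcon
      push Not at hcon
      have g := mul_self_lt_mul_self (show (0 : ℝ) ≤ a * r by positivity) hcon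
      have f1 : (a * r) * (a * r) = a * (2 * (1 - ε) * l) := by
        calc (a * r) * (a * r) = a * a * (r * r) := by ring
          _ = a * a * (2 * (1 - ε) * l / a) := by rw [hr2]
          _ = a * (2 * (1 - ε) * l) := by field_simp
      have f2 : ((1 - 2 * ε) * s) * ((1 - 2 * ε) * s) =
          (1 - 2 * ε) * l * ((1 - 2 * ε) * lam) := by
        calc ((1 - 2 * ε) * s) * ((1 - 2 * ε) * s) = (1 - 2 * ε) * (1 - 2 * ε) * (s * s) := by ring
          _ = (1 - 2 * ε) * l * ((1 - 2 * ε) * lam) := by rw [hs2]; ring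
      rw [f1, f2] at g
      have f3 : (1 - 2 * ε) * lam ≤ 2 * a := by linarith
      have f0 : (1 - 2 * ε) * l ≤ (1 - ε) * l := mul_le_mul_of_nonneg_right (by linarith) hl0.le
      have f4 : (1 - 2 * ε) * l * ((1 - 2 * ε) * lam) ≤ (1 - ε) * l * (2 * a) :=
        mul_le_mul f0 f3 (mul_nonneg (by linarith) (by linarith))
          (mul_nonneg (by linarith) hl0.le)
      linarith
    have f5 : (a : ℝ) * r ≤ a * (J + 1) := mul_le_mul_of_nonneg_left hJ2 (by linarith)
    have f6 : (a : ℝ) ≤ lam := by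
      have : (1 - ε) * lam ≤ 1 * lam := mul_le_mul_of_nonneg_right (by linarith) (by linarith)
      linarith
    linarith

/-- The parameters for the upper bound. -/
theorem ev_up_params {ε : ℝ} (h0 : 0 < ε) (h1 : ε < 1) : ∀ᶠ l : ℝ in atTop,
    ∃ a J : ℕ, 1 ≤ J ∧ l + 1 ≤ a * (J * ((J : ℝ) - 1) / 2) ∧ 4 * ((J : ℝ) * a) + 2 ≤ 2 ^ a ∧
      a * (J : ℝ) + 3 ≤ (1 + 2 * ε) * √(l * logb 2 l) := by
  filter_upwards [ev_logb_ge (5 / ε), ev_logb_ge 8, ev_logb_le (c := 1 / 64) (r := ε / 2)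
    (by positivity) (by positivity),
    ev_logb_le (c := ε ^ 2 / 16) (r := 1) (by positivity) (by norm_num), eventually_ge_atTop 16]
    with l e1 e1' e2 e4 e5
  set lam : ℝ := logb 2 l with hlam
  have hl0 : 0 < l := by linarith
  have hllam : l = 2 ^ lam := by
    rw [hlam, Real.rpow_logb (by norm_num) (by norm_num) hl0]
  rw [div_le_iff₀ h0] at e1
  rw [Real.rpow_one] at e4
  obtain ⟨a, ha⟩ : ∃ a : ℕ, a = ⌈(1 + ε) * lam / 2⌉₊ := ⟨_, rfl⟩
  have ha1 : (1 + ε) * lam / 2 ≤ a := by rw [ha]; exact Nat.le_ceil _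
  have ha2 : (a : ℝ) ≤ (1 + ε) * lam / 2 + 1 := by
    rw [ha]; exact (Nat.ceil_lt_add_one (by nlinarith)).le
  have ha3 : (1 : ℝ) ≤ a := by nlinarith
  set r : ℝ := √(2 * (l + 1) / a) with hr
  have hr0 : 0 ≤ r := Real.sqrt_nonneg _
  have hr2 : r * r = 2 * (l + 1) / a := Real.mul_self_sqrt (by positivity)
  obtain ⟨J, hJ⟩ : ∃ J : ℕ, J = ⌈r⌉₊ + 1 := ⟨_, rfl⟩
  have hJ1 : r ≤ (J : ℝ) - 1 := by
    rw [hJ]
    push_cast
    have := Nat.le_ceil r
    linarith
  have hJ2 : (J : ℝ) ≤ r + 2 := by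
    rw [hJ]
    push_cast
    have := Nat.ceil_lt_add_one hr0
    linarith
  have hsl : √l * √l = l := Real.mul_self_sqrt hl0.le
  have hsl0 : 0 ≤ √l := Real.sqrt_nonneg _
  have hsl4 : 4 ≤ √l := by
    rw [Real.le_sqrt' (by norm_num)]
    linarith
  refine ⟨a, J, by omega, ?_, ?_, ?_⟩
  · -- size
    have f1 : 2 * (l + 1) ≤ a * (((J : ℝ) - 1) * (J - 1)) := by
      have f2 : 2 * (l + 1) / a ≤ ((J : ℝ) - 1) * (J - 1) := by
        rw [← hr2]
        nlinarith
      rw [div_le_iff₀ (by linarith)] at f2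
      linarith
    have f3 : (a : ℝ) * (((J : ℝ) - 1) * (J - 1)) ≤ a * (J * ((J : ℝ) - 1)) := by
      have : ((J : ℝ) - 1) * (J - 1) ≤ J * (J - 1) := by nlinarith
      gcongr
    have f4 : a * (J * ((J : ℝ) - 1) / 2) = (a * (J * ((J : ℝ) - 1))) / 2 := by ring
    rw [f4]
    linarith
  · -- the threshold
    have h2a : l ^ ((1 + ε) / 2) ≤ (2 : ℝ) ^ a := by
      rw [← Real.rpow_natCast]
      calc l ^ ((1 + ε) / 2) = 2 ^ (lam * ((1 + ε) / 2)) := by
            rw [Real.rpow_mul (by norm_num), ← hllam]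
        _ ≤ (2 : ℝ) ^ (a : ℝ) :=
            Real.rpow_le_rpow_of_exponent_le (by norm_num) (by linarith)
    have hsplit : l ^ ((1 + ε) / 2) = √l * l ^ (ε / 2) := by
      rw [Real.sqrt_eq_rpow, ← Real.rpow_add hl0]
      congr 1
      ring
    have hrl : r ≤ 2 * √l := by
      have : r * r ≤ 4 * l := by
        rw [hr2, div_le_iff₀ (by linarith)]
        nlinarith
      by_contra hcon
      push Not at hcon
      nlinarith
    have hJl : (J : ℝ) ≤ 3 * √l := by linarith
    have hal : (a : ℝ) ≤ 5 / 4 * lam := by nlinarith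
    have f1 : (J : ℝ) * a ≤ (3 * √l) * (5 / 4 * lam) := by gcongr
    have f2 : 64 * lam ≤ l ^ (ε / 2) := by linarith
    have f3 : √l * (64 * lam) ≤ √l * l ^ (ε / 2) := by gcongr
    have f4 : 32 ≤ √l * lam := by nlinarith
    nlinarith
  · -- the value
    set s : ℝ := √(l * lam) with hs
    have hs0 : 0 ≤ s := Real.sqrt_nonneg _
    have hs2 : s * s = l * lam := Real.mul_self_sqrt (by nlinarith)
    have hlams : 4 * lam ≤ ε * s := by
      by_contra hcon
      push Not at hcon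
      have : (ε * s) * (ε * s) < (4 * lam) * (4 * lam) := by
        apply mul_self_lt_mul_self (by positivity) hcon
      have h3 : (ε * s) * (ε * s) = ε ^ 2 * l * lam := by
        calc (ε * s) * (ε * s) = ε ^ 2 * (s * s) := by ring
          _ = ε ^ 2 * l * lam := by rw [hs2]; ring
      have h4 : lam * lam ≤ ε ^ 2 / 16 * l * lam := mul_le_mul_of_nonneg_right e4 (by linarith)
      linarith
    have har : a * r ≤ (1 + ε) * s := by
      by_contra hcon
      push Not at hcon
      have g := mul_self_lt_mul_self (show (0 : ℝ) ≤ (1 + ε) * s by positivity) hcon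
      have f1 : (a * r) * (a * r) = a * (2 * (l + 1)) := by
        calc (a * r) * (a * r) = a * a * (r * r) := by ring
          _ = a * a * (2 * (l + 1) / a) := by rw [hr2]
          _ = a * (2 * (l + 1)) := by field_simp
      have f2 : ((1 + ε) * s) * ((1 + ε) * s) = (1 + ε) * (l * lam) + (1 + ε) * (ε * (l * lam)) := by
        calc ((1 + ε) * s) * ((1 + ε) * s) = (1 + ε) * (1 + ε) * (s * s) := by ring
          _ = (1 + ε) * (l * lam) + (1 + ε) * (ε * (l * lam)) := by rw [hs2]; ring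
      rw [f1, f2] at g
      have he2 : ε ^ 2 / 16 ≤ 1 := by nlinarith
      have hlaml : lam ≤ l := e4.trans (by
        calc ε ^ 2 / 16 * l ≤ 1 * l := mul_le_mul_of_nonneg_right he2 hl0.le
          _ = l := one_mul l)
      have f3 : (a : ℝ) * (2 * (l + 1)) ≤ ((1 + ε) * lam / 2 + 1) * (2 * (l + 1)) :=
        mul_le_mul_of_nonneg_right ha2 (by linarith)
      have f4 : ((1 + ε) * lam / 2 + 1) * (2 * (l + 1)) =
        (1 + ε) * (l * lam) + (1 + ε) * lam + 2 * l + 2 := by ring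
      have f5 : 5 * l ≤ ε * (l * lam) := by
        have := mul_le_mul_of_nonneg_right e1 hl0.le
        linarith
      have f6 : ε * (l * lam) ≤ (1 + ε) * (ε * (l * lam)) := by
        have : 0 ≤ ε * (ε * (l * lam)) := by
          have : 0 ≤ lam := by linarith
          positivity
        linarith
      have f7 : (1 + ε) * lam ≤ 2 * lam := mul_le_mul_of_nonneg_right (by linarith) (by linarith)
      linarith
    have f5 : (a : ℝ) * J ≤ a * (r + 2) := mul_le_mul_of_nonneg_left hJ2 (by linarith)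
    have f6 : (a : ℝ) ≤ 5 / 4 * lam := by
      have f7 : (1 + ε) * lam ≤ 2 * lam := mul_le_mul_of_nonneg_right (by linarith) (by linarith)
      linarith
    linarith

end Pool.Agent.W2helper91.SP
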