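import Pool.Agent.W2helper91.SP.Sharp

/-!
# The sharp constant in the exponent: the bounds
-/

set_option autoImplicit false

namespace Pool.Agent.W2helper91.SP

open Real Filter Asymptotics

/-- `s n = √(log n * log log n)`. -/
noncomputable def sq (n : ℕ) : ℝ := √(logb 2 n * logb 2 (logb 2 n))

/-! ### The upper bound -/

/-- Stages of increasing length. -/
theorem CFits.stages {V : Type*} (a J : ℕ) (h : 4 * (J * a) + 2 ≤ 2 ^ a) :
    CFits V (2 ^ (a * ∑ j ∈ Finset.range J, j) - 1) (2 ^ (a * J)) := by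
  induction J with
  | zero => exact CFits.zero _
  | succ J ih =>
    have h' : 4 * (J * a) + 2 ≤ 2 ^ a := by nlinarith
    have h2 := (ih h').iterate (by positivity) (a * J)
    have h1 : 2 ^ (a * ∑ j ∈ Finset.range J, j) - 1 + 1 = 2 ^ (a * ∑ j ∈ Finset.range J, j) :=
      Nat.sub_add_cancel Nat.one_le_two_pow
    rw [h1] at h2
    refine (h2.le ?_).mono ?_
    · rw [Finset.sum_range_succ, Nat.mul_add, pow_add, mul_comm (2 ^ (a * J))]
    · have h3 : ((4 * (J * a) + 2 : ℕ) : ℤ) ≤ ((2 ^ a : ℕ) : ℤ) := by exact_mod_cast h'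
      push_cast at h3
      have h4 : (0 : ℤ) < 2 ^ (a * J) := by positivity
      rw [Nat.mul_succ, pow_add]
      push_cast
      nlinarith

theorem ev_drawing {ε : ℝ} (h0 : 0 < ε) (h1 : ε < 1) : ∀ᶠ n : ℕ in atTop,
    ∀ G : SimpleGraph (Fin n), SeriesParallel G → ∃ D : PolylineDrawing G, ∃ H : ℕ,
      D.InBox (2 * n) H ∧ (2 : ℝ) * H ≤ 2 ^ ((1 + 2 * ε) * sq n) := by
  filter_upwards [tendsto_logb_nat.eventually (ev_up_params h0 h1), eventually_ge_atTop 4]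
    with n hn hn4
  obtain ⟨a, J, hJ, e1, e2, e3⟩ := hn
  intro G hG
  have hn0 : (0 : ℝ) < n := by exact_mod_cast (show 0 < n by omega)
  have hn1 : (1 : ℝ) ≤ n := by exact_mod_cast (show 1 ≤ n by omega)
  have e2' : 4 * (J * a) + 2 ≤ 2 ^ a := by exact_mod_cast e2
  have hC := CFits.stages (V := Fin n) a J e2'
  have hsum : ((∑ j ∈ Finset.range J, j : ℕ) : ℝ) = J * ((J : ℝ) - 1) / 2 := by
    have h := Finset.sum_range_id_mul_two J
    have h2 : (((∑ j ∈ Finset.range J, j) * 2 : ℕ) : ℝ) = ((J * (J - 1) : ℕ) : ℝ) := by rw [h]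
    rw [Nat.cast_mul, Nat.cast_mul, Nat.cast_sub hJ] at h2
    push_cast at h2 ⊢
    linarith
  have hle : n ≤ 2 ^ (a * ∑ j ∈ Finset.range J, j) - 1 := by
    have h3 : (n : ℝ) + 1 ≤ 2 ^ (a * ∑ j ∈ Finset.range J, j) := by
      calc (n : ℝ) + 1 ≤ n * 2 := by linarith
        _ = 2 ^ (logb 2 n + 1) := by
          rw [Real.rpow_add (by norm_num), Real.rpow_logb (by norm_num) (by norm_num) hn0,
            Real.rpow_one]
        _ ≤ 2 ^ ((a * ∑ j ∈ Finset.range J, j : ℕ) : ℝ) := by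
          refine Real.rpow_le_rpow_of_exponent_le (by norm_num) ?_
          rw [Nat.cast_mul, hsum]
          exact e1
        _ = 2 ^ (a * ∑ j ∈ Finset.range J, j) := Real.rpow_natCast _ _
    have h4 : n + 1 ≤ 2 ^ (a * ∑ j ∈ Finset.range J, j) := by exact_mod_cast h3
    omega
  have hC' : CFits (Fin n) n ((2 ^ (a * J) : ℕ) : ℤ) := by
    push_cast
    exact hC.le hle
  obtain ⟨D, hD⟩ := exists_drawing_of_SP (by omega) G hG (by positivity) hC'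
  refine ⟨D, _, hD, ?_⟩
  rw [Nat.cast_mul]
  calc (2 : ℝ) * (((3 : ℕ) : ℝ) * ((2 ^ (a * J) : ℕ) : ℝ))
      ≤ 2 ^ (3 : ℝ) * 2 ^ ((a * J : ℕ) : ℝ) := by
        rw [Real.rpow_natCast]
        push_cast
        have : (0 : ℝ) < 2 ^ (a * J) := by positivity
        have h8 : (2 : ℝ) ^ (3 : ℝ) = 8 := by norm_num
        rw [h8]
        linarith
    _ = 2 ^ (3 + (a : ℝ) * J) := by rw [← Real.rpow_add (by norm_num)]; push_cast; ring_nf
    _ ≤ 2 ^ ((1 + 2 * ε) * sq n) := by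
        refine Real.rpow_le_rpow_of_exponent_le (by norm_num) ?_
        rw [sq]
        linarith

theorem exists_eq_Ap (n : ℕ) : ∃ G : SimpleGraph (Fin n), SeriesParallel G ∧ Ap n = minArea G := by
  have hfin : {a : ℕ | ∃ G : SimpleGraph (Fin n), SeriesParallel G ∧ a = minArea G}.Finite := by
    refine (Set.finite_range (fun G : SimpleGraph (Fin n) => minArea G)).subset ?_
    rintro a ⟨G, -, rfl⟩
    exact ⟨G, rfl⟩
  have hne : {a : ℕ | ∃ G : SimpleGraph (Fin n), SeriesParallel G ∧ a = minArea G}.Nonempty :=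
    ⟨_, ⊥, seriesParallel_bot, rfl⟩
  exact Nat.sSup_mem hne hfin.bddAbove

theorem ev_Ap_le {ε : ℝ} (h0 : 0 < ε) (h1 : ε < 1) : ∀ᶠ n : ℕ in atTop,
    (Ap n : ℝ) ≤ n * 2 ^ ((1 + 2 * ε) * sq n) := by
  filter_upwards [ev_drawing h0 h1] with n hn
  obtain ⟨G, hG, hA⟩ := exists_eq_Ap n
  obtain ⟨D, H, hD, hH⟩ := hn G hG
  have h2 : minArea G ≤ 2 * n * H := Nat.sInf_le ⟨D, 2 * n, H, hD, rfl⟩
  rw [hA]
  calc (minArea G : ℝ) ≤ ((2 * n * H : ℕ) : ℝ) := by exact_mod_cast h2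
    _ = n * (2 * H) := by push_cast; ring
    _ ≤ n * 2 ^ ((1 + 2 * ε) * sq n) := by gcongr

/-! ### The lower bound -/

theorem tendsto_sq : Tendsto sq atTop atTop := by
  have hlam : Tendsto (fun n : ℕ => logb 2 (logb 2 (n : ℝ))) atTop atTop :=
    (tendsto_logb_atTop one_lt_two).comp tendsto_logb_nat
  refine tendsto_atTop.2 fun b => ?_
  filter_upwards [tendsto_logb_nat.eventually (eventually_ge_atTop (b ^ 2)),
    hlam.eventually (eventually_ge_atTop 1)] with n h1 h2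
  have h3 : b ^ 2 ≤ logb 2 n * logb 2 (logb 2 n) := by
    have : 0 ≤ logb 2 (n : ℝ) := (by positivity : 0 ≤ b ^ 2).trans h1
    calc b ^ 2 ≤ logb 2 n * 1 := by linarith
      _ ≤ logb 2 n * logb 2 (logb 2 n) := by gcongr
  calc b ≤ |b| := le_abs_self b
    _ = √(b ^ 2) := (Real.sqrt_sq_eq_abs b).symm
    _ ≤ sq n := Real.sqrt_le_sqrt h3

theorem ev_hard {ε : ℝ} (h0 : 0 < ε) (h1 : ε < 1 / 4) : ∀ᶠ n : ℕ in atTop,
    ∃ G : SimpleGraph (Fin n), SeriesParallel G ∧ ∀ (D : PolylineDrawing G) (W H : ℕ),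
      D.InBox W H → (2 : ℝ) ^ ((1 - 3 * ε) * sq n) ≤ W ∧ (2 : ℝ) ^ ((1 - 3 * ε) * sq n) ≤ H ∧
        n * (2 : ℝ) ^ ((1 - 3 * ε) * sq n) ≤ 32 * (W * H) := by
  filter_upwards [tendsto_logb_nat.eventually (ev_low_params h0 h1), eventually_ge_atTop 16]
    with n hn hn16
  obtain ⟨a, J, ha, e1, e2⟩ := hn
  have hn0 : (0 : ℝ) < n := by exact_mod_cast (show 0 < n by omega)
  obtain ⟨k, hk⟩ : ∃ k, k + 1 = 2 ^ a := ⟨2 ^ a - 1, Nat.sub_add_cancel Nat.one_le_two_pow⟩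
  have hk1 : 1 ≤ k := by
    have : 2 ^ 1 ≤ 2 ^ a := Nat.pow_le_pow_right (by norm_num) ha
    omega
  have hsize : 2 * (19 ^ (J + 1) * (11 * (k + 1)) ^ (k * J) * (k + 1) ^ (J * (J + 3) / 2)) ≤ n := by
    have g1 : 2 * (19 ^ (J + 1) * (11 * (k + 1)) ^ (k * J) * (k + 1) ^ (J * (J + 3) / 2)) ≤
        2 ^ (1 + 5 * (J + 1) + (a + 4) * (2 ^ a * J) + a * (J * (J + 3) / 2)) := by
      rw [hk]
      calc 2 * (19 ^ (J + 1) * (11 * 2 ^ a) ^ (k * J) * (2 ^ a) ^ (J * (J + 3) / 2))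
          ≤ 2 * ((2 ^ 5) ^ (J + 1) * (2 ^ 4 * 2 ^ a) ^ (2 ^ a * J) *
              (2 ^ a) ^ (J * (J + 3) / 2)) := by
            have e4 : 11 * 2 ^ a ≤ 2 ^ 4 * 2 ^ a := Nat.mul_le_mul_right _ (by norm_num)
            have e5 : (11 * 2 ^ a) ^ (k * J) ≤ (2 ^ 4 * 2 ^ a) ^ (2 ^ a * J) :=
              (Nat.pow_le_pow_left e4 _).trans (Nat.pow_le_pow_right (by positivity)
                (Nat.mul_le_mul_right _ (by omega)))
            have e6 : 19 ^ (J + 1) ≤ (2 ^ 5) ^ (J + 1) := Nat.pow_le_pow_left (by norm_num) _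
            gcongr
        _ = 2 ^ (1 + 5 * (J + 1) + (a + 4) * (2 ^ a * J) + a * (J * (J + 3) / 2)) := by
            rw [← pow_mul, ← pow_add 2 4 a, ← pow_mul, ← pow_mul, pow_add, pow_add, pow_add]
            ring
    have g2 : ((1 + 5 * (J + 1) + (a + 4) * (2 ^ a * J) + a * (J * (J + 3) / 2) : ℕ) : ℝ) ≤
        logb 2 n := by
      refine le_trans ?_ e1
      push_cast
      have : ((J * (J + 3) / 2 : ℕ) : ℝ) ≤ J * (J + 3) / 2 := by
        refine Nat.cast_div_le.trans (le_of_eq ?_)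
        push_cast
        ring
      have ha0 : (0 : ℝ) ≤ a := Nat.cast_nonneg _
      have := mul_le_mul_of_nonneg_left this ha0
      linarith
    have g3 : ((2 ^ (1 + 5 * (J + 1) + (a + 4) * (2 ^ a * J) + a * (J * (J + 3) / 2)) : ℕ) : ℝ) ≤
        n := by
      rw [Nat.cast_pow, Nat.cast_ofNat, ← Real.rpow_natCast,
        ← Real.le_logb_iff_rpow_le one_lt_two hn0]
      exact g2
    exact g1.trans (by exact_mod_cast g3)
  obtain ⟨G, hG, hD⟩ := exists_hard_graph2 hk1 hsize hn16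
  have hval : (2 : ℝ) ^ ((1 - 3 * ε) * sq n) ≤ (((k + 1) ^ J : ℕ) : ℝ) := by
    rw [hk, ← pow_mul, Nat.cast_pow, Nat.cast_ofNat, ← Real.rpow_natCast]
    refine Real.rpow_le_rpow_of_exponent_le (by norm_num) ?_
    rw [sq]
    push_cast
    exact e2
  refine ⟨G, hG, fun D W H hbox => ?_⟩
  obtain ⟨g1, g2, g3⟩ := hD D W H hbox
  refine ⟨hval.trans (by exact_mod_cast g1), hval.trans (by exact_mod_cast g2), ?_⟩
  have := le_area g1 g2 g3
  calc (n : ℝ) * 2 ^ ((1 - 3 * ε) * sq n)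
      ≤ n * (((k + 1) ^ J : ℕ) : ℝ) := by gcongr
    _ = (((k + 1) ^ J * n : ℕ) : ℝ) := by push_cast; ring
    _ ≤ ((32 * (W * H) : ℕ) : ℝ) := by exact_mod_cast this
    _ = 32 * (W * H) := by push_cast; ring

/-- The lower bound, clean form. -/
theorem ev_hard' {ε : ℝ} (h0 : 0 < ε) : ∀ᶠ n : ℕ in atTop,
    ∃ G : SimpleGraph (Fin n), SeriesParallel G ∧ ∀ (D : PolylineDrawing G) (W H : ℕ),
      D.InBox W H → (2 : ℝ) ^ ((1 - ε) * sq n) ≤ W ∧ (2 : ℝ) ^ ((1 - ε) * sq n) ≤ H ∧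
        n * (2 : ℝ) ^ ((1 - ε) * sq n) ≤ W * H := by
  obtain ⟨δ, hδ⟩ : ∃ δ, δ = min ε 1 / 8 := ⟨_, rfl⟩
  have hδ0 : 0 < δ := by
    rw [hδ]
    have : 0 < min ε 1 := lt_min h0 one_pos
    positivity
  have hδ1 : δ ≤ 1 / 8 := by
    rw [hδ]
    have : min ε 1 ≤ 1 := min_le_right _ _
    linarith
  have hδ2 : 8 * δ ≤ ε := by
    rw [hδ]
    have : min ε 1 ≤ ε := min_le_left _ _
    linarith
  filter_upwards [ev_hard hδ0 (by linarith),
    tendsto_sq.eventually (eventually_ge_atTop (5 / δ))] with n hn hs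
  obtain ⟨G, hG, hD⟩ := hn
  have hs0 : 0 ≤ sq n := Real.sqrt_nonneg _
  rw [div_le_iff₀ hδ0] at hs
  have hle : (2 : ℝ) ^ ((1 - ε) * sq n) ≤ 2 ^ ((1 - 3 * δ) * sq n) := by
    refine Real.rpow_le_rpow_of_exponent_le (by norm_num) ?_
    exact mul_le_mul_of_nonneg_right (by linarith) hs0
  refine ⟨G, hG, fun D W H hbox => ?_⟩
  obtain ⟨g1, g2, g3⟩ := hD D W H hbox
  refine ⟨hle.trans g1, hle.trans g2, ?_⟩
  have h32 : (32 : ℝ) * 2 ^ ((1 - ε) * sq n) ≤ 2 ^ ((1 - 3 * δ) * sq n) := by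
    calc (32 : ℝ) * 2 ^ ((1 - ε) * sq n) = 2 ^ (5 : ℝ) * 2 ^ ((1 - ε) * sq n) := by norm_num
      _ = 2 ^ (5 + (1 - ε) * sq n) := by rw [← Real.rpow_add (by norm_num)]
      _ ≤ 2 ^ ((1 - 3 * δ) * sq n) := by
          refine Real.rpow_le_rpow_of_exponent_le (by norm_num) ?_
          have : (1 - ε) * sq n ≤ (1 - 8 * δ) * sq n :=
            mul_le_mul_of_nonneg_right (by linarith) hs0
          nlinarith
  have hn0 : (0 : ℝ) ≤ n := Nat.cast_nonneg _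
  have := mul_le_mul_of_nonneg_left h32 hn0
  linarith

theorem ev_le_Ap {ε : ℝ} (h0 : 0 < ε) : ∀ᶠ n : ℕ in atTop,
    n * (2 : ℝ) ^ ((1 - ε) * sq n) ≤ Ap n := by
  filter_upwards [ev_hard' h0, eventually_ge_atTop 4] with n hn hn4
  obtain ⟨G, hG, hD⟩ := hn
  obtain ⟨D, W, H, hbox, hA⟩ := minArea_mem hn4 hG
  obtain ⟨-, -, hWH⟩ := hD D W H hbox
  have h5 : (minArea G : ℝ) ≤ Ap n := by exact_mod_cast le_Ap hG
  rw [hA] at h5
  push_cast at h5
  linarith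

theorem ev_Ap_le' {ε : ℝ} (h0 : 0 < ε) : ∀ᶠ n : ℕ in atTop,
    (Ap n : ℝ) ≤ n * 2 ^ ((1 + ε) * sq n) := by
  obtain ⟨δ, hδ⟩ : ∃ δ, δ = min ε 1 / 4 := ⟨_, rfl⟩
  have hδ0 : 0 < δ := by
    rw [hδ]
    have : 0 < min ε 1 := lt_min h0 one_pos
    positivity
  have hδ1 : δ ≤ 1 / 4 := by
    rw [hδ]
    have : min ε 1 ≤ 1 := min_le_right _ _
    linarith
  have hδ2 : 4 * δ ≤ ε := by
    rw [hδ]
    have : min ε 1 ≤ ε := min_le_left _ _
    linarith
  filter_upwards [ev_Ap_le hδ0 (by linarith)] with n hn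
  have hs0 : 0 ≤ sq n := Real.sqrt_nonneg _
  refine hn.trans ?_
  refine mul_le_mul_of_nonneg_left ?_ (Nat.cast_nonneg _)
  refine Real.rpow_le_rpow_of_exponent_le (by norm_num) ?_
  exact mul_le_mul_of_nonneg_right (by linarith) hs0

theorem ev_drawing' {ε : ℝ} (h0 : 0 < ε) : ∀ᶠ n : ℕ in atTop,
    ∀ G : SimpleGraph (Fin n), SeriesParallel G → ∃ D : PolylineDrawing G, ∃ H : ℕ,
      D.InBox (2 * n) H ∧ (H : ℝ) ≤ 2 ^ ((1 + ε) * sq n) := by
  obtain ⟨δ, hδ⟩ : ∃ δ, δ = min ε 1 / 4 := ⟨_, rfl⟩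
  have hδ0 : 0 < δ := by
    rw [hδ]
    have : 0 < min ε 1 := lt_min h0 one_pos
    positivity
  have hδ1 : δ ≤ 1 / 4 := by
    rw [hδ]
    have : min ε 1 ≤ 1 := min_le_right _ _
    linarith
  have hδ2 : 4 * δ ≤ ε := by
    rw [hδ]
    have : min ε 1 ≤ ε := min_le_left _ _
    linarith
  filter_upwards [ev_drawing hδ0 (by linarith)] with n hn G hG
  obtain ⟨D, H, hD, hH⟩ := hn G hG
  have hs0 : 0 ≤ sq n := Real.sqrt_nonneg _
  have hH0 : (0 : ℝ) ≤ H := Nat.cast_nonneg _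
  refine ⟨D, H, hD, ?_⟩
  calc (H : ℝ) ≤ 2 * H := by linarith
    _ ≤ 2 ^ ((1 + 2 * δ) * sq n) := hH
    _ ≤ 2 ^ ((1 + ε) * sq n) := by
      refine Real.rpow_le_rpow_of_exponent_le (by norm_num) ?_
      exact mul_le_mul_of_nonneg_right (by linarith) hs0

/-- The exponent of `Ap n / n` is asymptotically equivalent to `√(log n * log log n)`. -/
theorem equivalent : (fun n : ℕ => logb 2 (Ap n / n)) ~[atTop] sq := by
  rw [IsEquivalent, isLittleO_iff]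
  intro c hc
  filter_upwards [ev_le_Ap hc, ev_Ap_le' hc, eventually_ge_atTop 1] with n h1 h2 h3
  have hn : (0 : ℝ) < n := by exact_mod_cast (show 0 < n by omega)
  have hs0 : 0 ≤ sq n := Real.sqrt_nonneg _
  have g1 : (2 : ℝ) ^ ((1 - c) * sq n) ≤ Ap n / n := by
    rw [le_div_iff₀ hn]
    linarith
  have g2 : (Ap n : ℝ) / n ≤ 2 ^ ((1 + c) * sq n) := by
    rw [div_le_iff₀ hn]
    linarith
  have g3 : (0 : ℝ) < Ap n / n := lt_of_lt_of_le (by positivity) g1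
  rw [← Real.le_logb_iff_rpow_le one_lt_two g3] at g1
  rw [← Real.logb_le_iff_le_rpow one_lt_two g3] at g2
  rw [Pi.sub_apply, Real.norm_eq_abs, Real.norm_eq_abs, abs_of_nonneg hs0, abs_le]
  constructor <;> linarith

end Pool.Agent.W2helper91.SP
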