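import Pool.Agent.W2helper91.SP.Par

/-!
# The stage lemma: lower bounds for the number of rows
-/

set_option autoImplicit false

namespace Pool.Agent.W2helper91.SP

/-! ### Turning upside down -/

/-- Turning a point upside down. -/
def fl (p : Pt) : Pt := (p.1, -p.2)

@[simp] theorem fl_fl (p : Pt) : fl (fl p) = p := by simp [fl]
@[simp] theorem fl_fst (p : Pt) : (fl p).1 = p.1 := rfl
@[simp] theorem fl_snd (p : Pt) : (fl p).2 = -p.2 := rfl

theorem fl_inj {p q : Pt} (h : fl p = fl q) : p = q := by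
  have := congrArg fl h
  simpa using this

/-- Turning a graph upside down. -/
def flG (R : SimpleGraph Pt) : SimpleGraph Pt := R.comap fl

@[simp] theorem flG_adj {R : SimpleGraph Pt} {p q : Pt} :
    (flG R).Adj p q ↔ R.Adj (fl p) (fl q) := Iff.rfl

theorem flG_flG (R : SimpleGraph Pt) : flG (flG R) = R := by
  ext p q
  simp

/-- Turning a set upside down. -/
def flS (S : Set Pt) : Set Pt := {p | fl p ∈ S}

@[simp] theorem mem_flS {S : Set Pt} {p : Pt} : p ∈ flS S ↔ fl p ∈ S := Iff.rfl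

theorem flS_flS (S : Set Pt) : flS (flS S) = S := by
  ext p
  simp

theorem RowPlanar.flip {R : SimpleGraph Pt} (hR : RowPlanar R) : RowPlanar (flG R) where
  row := by
    intro p q h
    have := hR.row _ _ h
    simp only [fl_snd] at this
    omega
  strip := by
    intro p q p' q' h h' e1 e2 e3 hlt
    by_contra hcon
    push Not at hcon
    have := hR.strip (fl q') (fl p') (fl q) (fl p) h'.symm h.symm
      (by simp only [fl_snd]; omega) (by simp only [fl_snd]; omega) (by simp only [fl_snd]; omega)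
      hcon
    simp only [fl_fst] at this
    linarith
  horiz := by
    intro p q w w' h e1 h' e2 h1 h2
    exact hR.horiz (fl p) (fl q) (fl w) (fl w') h (by simp only [fl_snd]; omega) h'
      (by simp only [fl_snd]; omega) h1 h2

theorem Conn.flip {R : SimpleGraph Pt} {S : Set Pt} {a b : Pt} (h : Conn R S a b) :
    Conn (flG R) (flS S) (fl a) (fl b) := by
  obtain ⟨w, hw⟩ := h
  induction w with
  | nil => exact Conn.refl (by simpa using hw)
  | @cons a b c h w ih =>
    have ha : a ∈ S := hw a (by simp)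
    have hw' : ∀ z ∈ w.support, z ∈ S := fun z hz => hw z (by simp [hz])
    exact (Conn.of_adj (by simpa using h) (by simpa using ha)
      (by simpa using hw' b w.start_mem_support)).trans (ih hw')

theorem IsConn.flip {R : SimpleGraph Pt} {S : Set Pt} (h : IsConn R S) :
    IsConn (flG R) (flS S) := by
  intro a ha b hb
  have := (h (fl a) ha (fl b) hb).flip
  simpa using this

/-! ### Pieces -/

/-- The set lies in the rows between `x` and `y`. -/
def Strict (x y : Pt) (K : Set Pt) : Prop := ∀ p ∈ K, min x.2 y.2 ≤ p.2 ∧ p.2 ≤ max x.2 y.2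

theorem Strict.symm {x y : Pt} {K : Set Pt} (h : Strict x y K) : Strict y x K := by
  intro p hp
  rw [min_comm, max_comm]
  exact h p hp

theorem Strict.flip {x y : Pt} {K : Set Pt} (h : Strict x y K) :
    Strict (fl x) (fl y) (flS K) := by
  intro p hp
  have := h (fl p) hp
  simp only [fl_snd] at this ⊢
  omega

/-- Nested families of connected sets. -/
def Piece (R : SimpleGraph Pt) : List ℕ → Pt → Pt → Set Pt → Prop
  | [], _, _, _ => True
  | q :: qs, x, y, Ω => Piece R qs x y Ω ∧ ∃ (m : Fin q → Pt) (K : Fin q → Set Pt),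
      (∀ i j, i ≠ j → Disjoint (K i) (K j)) ∧ ∀ i, K i ⊆ Ω ∧ x ∉ K i ∧ y ∉ K i ∧ m i ∈ K i ∧
        IsConn R (K i) ∧ (∃ u ∈ K i, R.Adj x u) ∧ (∃ u ∈ K i, R.Adj y u) ∧
        Piece R qs x (m i) (K i \ {m i}) ∧ Piece R qs (m i) y (K i \ {m i})

/-- A component. -/
structure Comp (R : SimpleGraph Pt) (qs : List ℕ) (x y m : Pt) (K : Set Pt) : Prop where
  hx : x ∉ K
  hy : y ∉ K
  hm : m ∈ K
  conn : IsConn R K
  ax : ∃ u ∈ K, R.Adj x u
  ay : ∃ u ∈ K, R.Adj y u
  left : Piece R qs x m (K \ {m})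
  right : Piece R qs m y (K \ {m})

theorem piece_cons {R : SimpleGraph Pt} {q : ℕ} {qs : List ℕ} {x y : Pt} {Ω : Set Pt} :
    Piece R (q :: qs) x y Ω ↔ Piece R qs x y Ω ∧ ∃ (m : Fin q → Pt) (K : Fin q → Set Pt),
      (∀ i j, i ≠ j → Disjoint (K i) (K j)) ∧ ∀ i, K i ⊆ Ω ∧ Comp R qs x y (m i) (K i) := by
  constructor
  · rintro ⟨h, m, K, h1, h2⟩
    refine ⟨h, m, K, h1, fun i => ?_⟩
    obtain ⟨g1, g2, g3, g4, g5, g6, g7, g8, g9⟩ := h2 i
    exact ⟨g1, g2, g3, g4, g5, g6, g7, g8, g9⟩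
  · rintro ⟨h, m, K, h1, h2⟩
    refine ⟨h, m, K, h1, fun i => ?_⟩
    obtain ⟨g1, g2, g3, g4, g5, g6, g7, g8, g9⟩ := h2 i
    exact ⟨g1, g2, g3, g4, g5, g6, g7, g8, g9⟩

theorem Piece.symm {R : SimpleGraph Pt} (qs : List ℕ) : ∀ {x y : Pt} {Ω : Set Pt},
    Piece R qs x y Ω → Piece R qs y x Ω := by
  induction qs with
  | nil => intro x y Ω _; trivial
  | cons q qs ih =>
    rintro x y Ω ⟨h, m, K, h1, h2⟩
    refine ⟨ih h, m, K, h1, fun i => ?_⟩
    obtain ⟨g1, g2, g3, g4, g5, g6, g7, g8, g9⟩ := h2 i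
    exact ⟨g1, g3, g2, g4, g5, g7, g6, ih g9, ih g8⟩

theorem Comp.symm {R : SimpleGraph Pt} {qs : List ℕ} {x y m : Pt} {K : Set Pt}
    (h : Comp R qs x y m K) : Comp R qs y x m K :=
  ⟨h.hy, h.hx, h.hm, h.conn, h.ay, h.ax, Piece.symm _ h.right, Piece.symm _ h.left⟩

theorem Piece.flip {R : SimpleGraph Pt} (qs : List ℕ) : ∀ {x y : Pt} {Ω : Set Pt},
    Piece R qs x y Ω → Piece (flG R) qs (fl x) (fl y) (flS Ω) := by
  induction qs with
  | nil => intro x y Ω _; trivial
  | cons q qs ih =>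
    rintro x y Ω ⟨h, m, K, h1, h2⟩
    refine ⟨ih h, fun i => fl (m i), fun i => flS (K i), ?_, fun i => ?_⟩
    · intro i j hij
      rw [Set.disjoint_left]
      intro p hp hp'
      exact Set.disjoint_left.1 (h1 i j hij) hp hp'
    · obtain ⟨g1, g2, g3, g4, g5, ⟨u, hu, hu'⟩, ⟨v, hv, hv'⟩, g8, g9⟩ := h2 i
      refine ⟨fun p hp => g1 hp, by simpa using g2, by simpa using g3, by simpa using g4,
        g5.flip, ⟨fl u, by simpa using hu, by simpa using hu'⟩,
        ⟨fl v, by simpa using hv, by simpa using hv'⟩, ?_, ?_⟩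
      · have := ih g8
        convert this using 1
        ext p
        simp only [Set.mem_sdiff, mem_flS, Set.mem_singleton_iff]
        constructor
        · rintro ⟨k1, k2⟩
          exact ⟨k1, fun e => k2 (by rw [← e, fl_fl])⟩
        · rintro ⟨k1, k2⟩
          exact ⟨k1, fun e => k2 (by rw [e, fl_fl])⟩
      · have := ih g9
        convert this using 1
        ext p
        simp only [Set.mem_sdiff, mem_flS, Set.mem_singleton_iff]
        constructor
        · rintro ⟨k1, k2⟩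
          exact ⟨k1, fun e => k2 (by rw [← e, fl_fl])⟩
        · rintro ⟨k1, k2⟩
          exact ⟨k1, fun e => k2 (by rw [e, fl_fl])⟩

theorem flS_diff (K : Set Pt) (m : Pt) : flS (K \ {m}) = flS K \ {fl m} := by
  ext p
  simp only [Set.mem_sdiff, mem_flS, Set.mem_singleton_iff]
  constructor
  · rintro ⟨k1, k2⟩
    exact ⟨k1, fun e => k2 (by rw [e, fl_fl])⟩
  · rintro ⟨k1, k2⟩
    exact ⟨k1, fun e => k2 (by rw [← e, fl_fl])⟩

theorem Comp.flip {R : SimpleGraph Pt} {qs : List ℕ} {x y m : Pt} {K : Set Pt}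
    (h : Comp R qs x y m K) : Comp (flG R) qs (fl x) (fl y) (fl m) (flS K) where
  hx := by simpa using h.hx
  hy := by simpa using h.hy
  hm := by simpa using h.hm
  conn := h.conn.flip
  ax := by
    obtain ⟨u, hu, hu'⟩ := h.ax
    exact ⟨fl u, by simpa using hu, by simpa using hu'⟩
  ay := by
    obtain ⟨u, hu, hu'⟩ := h.ay
    exact ⟨fl u, by simpa using hu, by simpa using hu'⟩
  left := by
    rw [← flS_diff]
    exact Piece.flip _ h.left
  right := by
    rw [← flS_diff]
    exact Piece.flip _ h.right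

/-- The distance of the poles of strict components is at least `F`. -/
def Dist (R : SimpleGraph Pt) (qs : List ℕ) (F : ℤ) : Prop :=
  ∀ (x y m : Pt) (K : Set Pt), x ≠ y → Comp R qs x y m K → Strict x y K → F ≤ |x.2 - y.2|

theorem Dist.flip {R : SimpleGraph Pt} {qs : List ℕ} {F : ℤ} (h : Dist R qs F) :
    Dist (flG R) qs F := by
  intro x y m K hxy hc hs
  have h1 := hc.flip
  rw [flG_flG] at h1
  have h2 := h (fl x) (fl y) (fl m) (flS K) (fun e => hxy (fl_inj e)) h1 hs.flip
  simp only [fl_snd] at h2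
  rw [show -x.2 - -y.2 = -(x.2 - y.2) by ring, abs_neg] at h2
  exact h2

/-- All the vertices are in `h` rows. -/
def Win (R : SimpleGraph Pt) (lo : ℤ) (h : ℕ) : Prop := ∀ p q, R.Adj p q → lo ≤ p.2 ∧ p.2 < lo + h

theorem Win.flip {R : SimpleGraph Pt} {lo : ℤ} {h : ℕ} (hw : Win R lo h) :
    Win (flG R) (-lo - h + 1) h := by
  intro p q hpq
  have := hw _ _ hpq
  simp only [fl_snd] at this
  omega

/-- Thick sets. -/
structure Thick (R : SimpleGraph Pt) (x y : Pt) (S : Set Pt) : Prop where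
  conn : IsConn R S
  strict : Strict x y S
  ax : ∃ u ∈ S, R.Adj x u ∧ u.2 ≠ x.2
  ay : ∃ u ∈ S, R.Adj y u ∧ u.2 ≠ y.2

theorem Thick.symm {R : SimpleGraph Pt} {x y : Pt} {S : Set Pt} (h : Thick R x y S) :
    Thick R y x S := ⟨h.conn, h.strict.symm, h.ay, h.ax⟩

theorem Thick.flip {R : SimpleGraph Pt} {x y : Pt} {S : Set Pt} (h : Thick R x y S) :
    Thick (flG R) (fl x) (fl y) (flS S) where
  conn := h.conn.flip
  strict := h.strict.flip
  ax := by
    obtain ⟨u, hu, hu', hu2⟩ := h.ax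
    exact ⟨fl u, by simpa using hu, by simpa using hu', by simpa using hu2⟩
  ay := by
    obtain ⟨u, hu, hu', hu2⟩ := h.ay
    exact ⟨fl u, by simpa using hu, by simpa using hu', by simpa using hu2⟩

/-! ### Counting -/

theorem three_of_card {ι : Type*} [DecidableEq ι] {s : Finset ι} (h : 2 < s.card) :
    ∃ f : Fin 3 → ι, (∀ i, f i ∈ s) ∧ ∀ i j, i ≠ j → f i ≠ f j := by
  obtain ⟨a, ha, b, hb, c, hc, hab, hac, hbc⟩ := Finset.two_lt_card.1 h
  refine ⟨![a, b, c], ?_, ?_⟩
  · intro i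
    fin_cases i
    · exact ha
    · exact hb
    · exact hc
  · intro i j hij
    fin_cases i <;> fin_cases j
    · exact absurd rfl hij
    · exact hab
    · exact hac
    · exact hab.symm
    · exact absurd rfl hij
    · exact hbc
    · exact hac.symm
    · exact hbc.symm
    · exact absurd rfl hij

/-- A connected set attached to a point. -/
structure Blob (R : SimpleGraph Pt) (x y : Pt) (K : Set Pt) : Prop where
  hx : x ∉ K
  hy : y ∉ K
  conn : IsConn R K
  ax : ∃ u ∈ K, R.Adj x u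
  ay : ∃ u ∈ K, R.Adj y u

theorem Comp.blob {R : SimpleGraph Pt} {qs : List ℕ} {x y m : Pt} {K : Set Pt}
    (h : Comp R qs x y m K) : Blob R x y K := ⟨h.hx, h.hy, h.conn, h.ax, h.ay⟩

theorem Blob.flip {R : SimpleGraph Pt} {x y : Pt} {K : Set Pt}
    (h : Blob R x y K) : Blob (flG R) (fl x) (fl y) (flS K) where
  hx := by simpa using h.hx
  hy := by simpa using h.hy
  conn := h.conn.flip
  ax := by
    obtain ⟨u, hu, hu'⟩ := h.ax
    exact ⟨fl u, by simpa using hu, by simpa using hu'⟩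
  ay := by
    obtain ⟨u, hu, hu'⟩ := h.ay
    exact ⟨fl u, by simpa using hu, by simpa using hu'⟩

theorem Blob.nb {R : SimpleGraph Pt} {x y : Pt} {K : Set Pt} (h : Blob R x y K) {p : Pt}
    (hp : p ∈ K) : ∃ q, R.Adj p q := by
  obtain ⟨u, hu, hxu⟩ := h.ax
  obtain ⟨w, -⟩ := h.conn p hp u hu
  cases w with
  | nil => exact ⟨x, hxu.symm⟩
  | cons h _ => exact ⟨_, h⟩

section
variable {R : SimpleGraph Pt} (hR : RowPlanar R)
include hR

open Classical in
/-- At most two of the sets have the same top row, above both poles (or in the row of the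
poles). -/
theorem card_top_le {P : ℕ} {x y : Pt} (hxy : x ≠ y) {K : Fin P → Set Pt}
    (hd : ∀ i j, i ≠ j → Disjoint (K i) (K j)) (hb : ∀ i, Blob R x y (K i)) {T : ℤ}
    (hx : x.2 ≤ T) (hy : y.2 ≤ T) :
    (Finset.univ.filter fun i => (∀ p ∈ K i, p.2 ≤ T) ∧ ∃ p ∈ K i, p.2 = T).card ≤ 2 := by
  by_contra hcon
  push Not at hcon
  obtain ⟨f, hf, hinj⟩ := three_of_card hcon
  simp only [Finset.mem_filter, Finset.mem_univ, true_and] at hf
  exact form_a hR hxy hx hy (fun i => K (f i)) (fun i => (hb (f i)).conn)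
    (fun i j hij => hd _ _ (hinj i j hij)) (fun i => (hb (f i)).hx) (fun i => (hb (f i)).hy)
    (fun i => (hb (f i)).ax) (fun i => (hb (f i)).ay) (fun i => (hf i).1) (fun i => (hf i).2)

open Classical in
/-- At most `2 h` sets reach above both poles. -/
theorem card_above_le {lo : ℤ} {h P : ℕ} (hw : Win R lo h) {x y : Pt} (hxy : x ≠ y)
    {K : Fin P → Set Pt} (hd : ∀ i j, i ≠ j → Disjoint (K i) (K j))
    (hb : ∀ i, Blob R x y (K i)) :
    (Finset.univ.filter fun i => ∃ p ∈ K i, max x.2 y.2 < p.2).card ≤ 2 * h := by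
  have htop : ∀ i, ∃ T : ℤ, (∀ p ∈ K i, p.2 ≤ T) ∧ ∃ p ∈ K i, p.2 = T := by
    intro i
    obtain ⟨u, hu, -⟩ := (hb i).ax
    obtain ⟨T, ⟨p, hp, hpT⟩, hT2⟩ := Int.exists_greatest_of_bdd
      (P := fun T => ∃ p ∈ K i, p.2 = T) ⟨lo + h, by
        rintro z ⟨p, hp, rfl⟩
        obtain ⟨q, hq⟩ := (hb i).nb hp
        exact (hw p q hq).2.le⟩ ⟨u.2, u, hu, rfl⟩
    exact ⟨T, fun q hq => hT2 q.2 ⟨q, hq, rfl⟩, p, hp, hpT⟩
  choose T hT hT' using htop
  have := Finset.card_le_mul_card_image_of_maps_to (f := T)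
    (s := Finset.univ.filter fun i => ∃ p ∈ K i, max x.2 y.2 < p.2)
    (t := Finset.Ico lo (lo + h)) (by
      intro i _
      obtain ⟨p, hp, hpT⟩ := hT' i
      obtain ⟨q, hq⟩ := (hb i).nb hp
      have := hw p q hq
      rw [Finset.mem_Ico]
      omega) 2 (by
      intro t _
      by_cases ht : max x.2 y.2 < t
      · refine le_trans (Finset.card_le_card ?_)
          (card_top_le hR hxy hd hb (T := t) (by omega) (by omega))
        intro i hi
        simp only [Finset.mem_filter, Finset.mem_univ, true_and] at hi ⊢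
        rw [← hi.2]
        exact ⟨hT i, hT' i⟩
      · have : ((Finset.univ.filter fun i => ∃ p ∈ K i, max x.2 y.2 < p.2).filter
            (fun i => T i = t)) = ∅ := by
          rw [Finset.filter_eq_empty_iff]
          intro i hi hti
          simp only [Finset.mem_filter, Finset.mem_univ, true_and] at hi
          obtain ⟨p, hp, hpm⟩ := hi
          have := hT i p hp
          omega
        rw [this]
        simp)
  rw [Int.card_Ico] at this
  simpa using this

open Classical in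
theorem card_below_le {lo : ℤ} {h P : ℕ} (hw : Win R lo h) {x y : Pt} (hxy : x ≠ y)
    {K : Fin P → Set Pt} (hd : ∀ i j, i ≠ j → Disjoint (K i) (K j))
    (hb : ∀ i, Blob R x y (K i)) :
    (Finset.univ.filter fun i => ∃ p ∈ K i, p.2 < min x.2 y.2).card ≤ 2 * h := by
  have := card_above_le hR.flip hw.flip (x := fl x) (y := fl y) (fun e => hxy (fl_inj e))
    (K := fun i => flS (K i)) (by
      intro i j hij
      rw [Set.disjoint_left]
      intro p hp hp'
      exact Set.disjoint_left.1 (hd i j hij) hp hp') (fun i => (hb i).flip)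
  refine le_trans (Finset.card_le_card ?_) this
  intro i hi
  simp only [Finset.mem_filter, Finset.mem_univ, true_and] at hi ⊢
  obtain ⟨p, hp, hpm⟩ := hi
  refine ⟨fl p, by simpa using hp, ?_⟩
  simp only [fl_snd]
  omega

open Classical in
/-- At most two sets contain a horizontal neighbour of `x`. -/
theorem card_hor_le {P : ℕ} {x : Pt} {K : Fin P → Set Pt}
    (hd : ∀ i j, i ≠ j → Disjoint (K i) (K j)) :
    (Finset.univ.filter fun i => ∃ u ∈ K i, R.Adj x u ∧ u.2 = x.2).card ≤ 2 := by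
  by_contra hcon
  push Not at hcon
  obtain ⟨f, hf, hinj⟩ := three_of_card hcon
  simp only [Finset.mem_filter, Finset.mem_univ, true_and] at hf
  choose u hu hxu hux using hf
  have hne : ∀ i j, i ≠ j → (u i).1 ≠ (u j).1 := by
    intro i j hij h
    have : u i = u j := Prod.ext h ((hux i).trans (hux j).symm)
    exact Set.disjoint_left.1 (hd _ _ (hinj i j hij)) (hu i) (this ▸ hu j)
  -- two neighbours on the right
  have right : ∀ i j, x.1 < (u i).1 → (u i).1 < (u j).1 → False := by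
    intro i j h1 h2
    exact hR.horiz x (u j) (u i) x (hxu j) (hux j).symm (hxu i).symm (hux i) h1 h2
  have left : ∀ i j, (u i).1 < x.1 → (u j).1 < (u i).1 → False := by
    intro i j h1 h2
    exact hR.horiz (u j) x (u i) x (hxu j).symm (hux j) (hxu i).symm
      ((hux i).trans (hux j).symm) h2 h1
  have hx : ∀ i, (u i).1 ≠ x.1 := by
    intro i h
    exact (hxu i).ne (Prod.ext h.symm (hux i).symm)
  have key : ∀ i j, i ≠ j → ¬ ((x.1 < (u i).1) ↔ (x.1 < (u j).1)) := by
    intro i j hij hiff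
    by_cases h : x.1 < (u i).1
    · have h' := hiff.1 h
      rcases lt_or_gt_of_ne (hne i j hij) with h2 | h2
      · exact right i j h h2
      · exact right j i h' h2
    · have h' : ¬ x.1 < (u j).1 := fun k => h (hiff.2 k)
      have e1 : (u i).1 < x.1 := lt_of_le_of_ne (not_lt.1 h) (hx i)
      have e2 : (u j).1 < x.1 := lt_of_le_of_ne (not_lt.1 h') (hx j)
      rcases lt_or_gt_of_ne (hne i j hij) with h2 | h2
      · exact left j i e2 h2
      · exact left i j e1 h2
  have k1 := key 0 1 (by decide)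
  have k2 := key 0 2 (by decide)
  have k3 := key 1 2 (by decide)
  tauto

open Classical in
/-- Thick bundles. -/
theorem thick_of_piece {lo : ℤ} {h P : ℕ} {rest : List ℕ} {F : ℤ} (hw : Win R lo h)
    (hP : 4 * h + 5 ≤ P) (hdist : Dist R rest F) {x y : Pt} (hxy : x ≠ y) {Ω : Set Pt}
    (hp : Piece R (P :: rest) x y Ω) :
    x.2 ≠ y.2 ∧ F ≤ |x.2 - y.2| ∧ ∃ S ⊆ Ω, Thick R x y S := by
  rw [piece_cons] at hp
  obtain ⟨-, m, K, hd, hK⟩ := hp
  have hb : ∀ i, Blob R x y (K i) := fun i => (hK i).2.blob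
  set A := Finset.univ.filter fun i => ∃ p ∈ K i, max x.2 y.2 < p.2 with hA
  set B := Finset.univ.filter fun i => ∃ p ∈ K i, p.2 < min x.2 y.2 with hB
  set C := Finset.univ.filter fun i => ∃ u ∈ K i, R.Adj x u ∧ u.2 = x.2 with hC
  set D := Finset.univ.filter fun i => ∃ u ∈ K i, R.Adj y u ∧ u.2 = y.2 with hD
  have cA : A.card ≤ 2 * h := card_above_le hR hw hxy hd hb
  have cB : B.card ≤ 2 * h := card_below_le hR hw hxy hd hb
  have cC : C.card ≤ 2 := card_hor_le hR hd
  have cD : D.card ≤ 2 := card_hor_le hR hd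
  have hstrict : ∀ i, i ∉ A → i ∉ B → Strict x y (K i) := by
    intro i hiA hiB p hp
    simp only [hA, hB, Finset.mem_filter, Finset.mem_univ, true_and, not_exists, not_and,
      not_lt] at hiA hiB
    exact ⟨hiB p hp, hiA p hp⟩
  have hrow : x.2 ≠ y.2 := by
    intro heq
    -- all strict sets are in the row of the poles
    have h1 := card_top_le hR hxy hd hb (T := x.2) le_rfl heq.ge
    have h2 : (A ∪ B)ᶜ ⊆
        Finset.univ.filter fun i => (∀ p ∈ K i, p.2 ≤ x.2) ∧ ∃ p ∈ K i, p.2 = x.2 := by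
      intro i hi
      rw [Finset.mem_compl, Finset.mem_union, not_or] at hi
      have hs := hstrict i hi.1 hi.2
      simp only [Finset.mem_filter, Finset.mem_univ, true_and]
      have hs' : ∀ p ∈ K i, p.2 = x.2 := by
        intro p hp
        have := hs p hp
        omega
      obtain ⟨u, hu, -⟩ := (hb i).ax
      exact ⟨fun p hp => (hs' p hp).le, u, hu, hs' u hu⟩
    have h3 := Finset.card_le_card h2
    rw [Finset.card_compl, Fintype.card_fin] at h3
    have h4 := Finset.card_union_le A B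
    omega
  have hex : ∃ i, i ∉ A ∧ i ∉ B ∧ i ∉ C ∧ i ∉ D := by
    by_contra hcon
    push Not at hcon
    have h1 : (Finset.univ : Finset (Fin P)) ⊆ ((A ∪ B) ∪ C) ∪ D := by
      intro i _
      simp only [Finset.mem_union]
      by_cases e1 : i ∈ A
      · simp [e1]
      · by_cases e2 : i ∈ B
        · simp [e2]
        · by_cases e3 : i ∈ C
          · simp [e3]
          · simp [hcon i e1 e2 e3]
    have h2 := Finset.card_le_card h1
    rw [Finset.card_univ, Fintype.card_fin] at h2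
    have h3 := Finset.card_union_le ((A ∪ B) ∪ C) D
    have h4 := Finset.card_union_le (A ∪ B) C
    have h5 := Finset.card_union_le A B
    omega
  obtain ⟨i, iA, iB, iC, iD⟩ := hex
  have hs := hstrict i iA iB
  refine ⟨hrow, hdist x y (m i) (K i) hxy (hK i).2 hs, K i, (hK i).1, (hb i).conn, hs, ?_, ?_⟩
  · obtain ⟨u, hu, hxu⟩ := (hb i).ax
    refine ⟨u, hu, hxu, fun e => iC ?_⟩
    simp only [hC, Finset.mem_filter, Finset.mem_univ, true_and]
    exact ⟨u, hu, hxu, e⟩
  · obtain ⟨u, hu, hxu⟩ := (hb i).ay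
    refine ⟨u, hu, hxu, fun e => iD ?_⟩
    simp only [hD, Finset.mem_filter, Finset.mem_univ, true_and]
    exact ⟨u, hu, hxu, e⟩

end

/-! ### Reaching a row -/

section
variable {R : SimpleGraph Pt}

theorem Conn.self {S : Set Pt} {a b : Pt} (h : Conn R S a b) :
    Conn R {p | Conn R S a p} a b := by
  refine h.induct (fun z => Conn R {p | Conn R S a p} a z) (Conn.refl (Conn.refl h.left)) ?_
  intro z z' _ hz' hzz ih
  exact ih.trans (Conn.of_adj hzz ih.right (ih.right.trans (Conn.of_adj hzz ih.right.right hz')))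

theorem isConn_reach (S : Set Pt) (a : Pt) : IsConn R {p | Conn R S a p} := by
  intro b hb c hc
  exact (Conn.self hb).symm.trans (Conn.self hc)

variable (hR : RowPlanar R)
include hR

theorem first_hit {K : Set Pt} {m p : Pt} {T : ℤ} (h : Conn R K m p) (hm : m.2 ≤ T)
    (hp : T ≤ p.2) : ∃ q, Conn R (K ∩ {z | z.2 ≤ T}) m q ∧ q.2 = T := by
  have h1 := h.induct (fun z => Conn R (K ∩ {z | z.2 ≤ T}) m z ∨
    ∃ q, Conn R (K ∩ {z | z.2 ≤ T}) m q ∧ q.2 = T) (Or.inl (Conn.refl (show m ∈ K ∩ {z | z.2 ≤ T} from ⟨h.left, hm⟩))) (by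
      intro z z' _ hz' hzz ih
      rcases ih with ih | ih
      · by_cases hzT : z.2 = T
        · exact Or.inr ⟨z, ih, hzT⟩
        · left
          have h1 : z.2 ≤ T := ih.right.2
          have h2 := hR.row z z' hzz
          exact ih.trans (Conn.of_adj hzz ih.right ⟨hz', show z'.2 ≤ T by omega⟩)
      · exact Or.inr ih)
  rcases h1 with h1 | h1
  · exact ⟨p, h1, le_antisymm h1.right.2 hp⟩
  · exact h1

theorem three_reach {x y : Pt} (hxy : x ≠ y) {T : ℤ} (hx : x.2 ≤ T) (hy : y.2 ≤ T)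
    {m : Fin 3 → Pt} {K : Fin 3 → Set Pt} (hd : ∀ i j, i ≠ j → Disjoint (K i) (K j))
    (hb : ∀ i, Blob R x y (K i)) (hm : ∀ i, m i ∈ K i) (hmT : ∀ i, (m i).2 ≤ T)
    (hSx : ∀ i, ∃ S ⊆ K i, Thick R x (m i) S) (hSy : ∀ i, ∃ S ⊆ K i, Thick R y (m i) S)
    (htop : ∀ i, ∃ p ∈ K i, T ≤ p.2) : False := by
  have hsub : ∀ i, {p | Conn R (K i ∩ {z | z.2 ≤ T}) (m i) p} ⊆ K i ∩ {z | z.2 ≤ T} :=
    fun i p hp => Conn.right hp
  have hadj : ∀ (w : Pt) (i : Fin 3), w.2 ≤ T → (∃ S ⊆ K i, Thick R w (m i) S) →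
      ∃ u ∈ {p | Conn R (K i ∩ {z | z.2 ≤ T}) (m i) p}, R.Adj w u := by
    rintro w i hw ⟨S, hS, hth⟩
    obtain ⟨u, hu, hwu, -⟩ := hth.ax
    obtain ⟨v, hv, hmv, -⟩ := hth.ay
    have hS' : S ⊆ K i ∩ {z | z.2 ≤ T} := by
      intro p hp
      refine ⟨hS hp, ?_⟩
      have h1 := hth.strict p hp
      have h2 := hmT i
      show p.2 ≤ T
      omega
    have hmi : m i ∈ K i ∩ {z | z.2 ≤ T} := ⟨hm i, hmT i⟩
    exact ⟨u, (Conn.of_adj hmv hmi (hS' hv)).trans ((hth.conn v hv u hu).mono hS'), hwu⟩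
  refine form_a hR hxy hx hy (fun i => {p | Conn R (K i ∩ {z | z.2 ≤ T}) (m i) p})
    (fun i => isConn_reach _ _) ?_ (fun i h => (hb i).hx (hsub i h).1)
    (fun i h => (hb i).hy (hsub i h).1) (fun i => hadj x i hx (hSx i))
    (fun i => hadj y i hy (hSy i)) (fun i z hz => (hsub i hz).2) ?_
  · intro i j hij
    rw [Set.disjoint_left]
    intro p hp hp'
    exact Set.disjoint_left.1 (hd i j hij) (hsub i hp).1 (hsub j hp').1
  · intro i
    obtain ⟨p, hp, hpT⟩ := htop i
    obtain ⟨q, hq, hqT⟩ := first_hit hR ((hb i).conn _ (hm i) p hp) (hmT i) hpT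
    exact ⟨q, hq, hqT⟩

open Classical in
theorem card_reach_le {P : ℕ} {x y : Pt} (hxy : x ≠ y) {T : ℤ} (hx : x.2 ≤ T) (hy : y.2 ≤ T)
    {m : Fin P → Pt} {K : Fin P → Set Pt} (hd : ∀ i j, i ≠ j → Disjoint (K i) (K j))
    (hb : ∀ i, Blob R x y (K i)) (hm : ∀ i, m i ∈ K i)
    (hSx : ∀ i, ∃ S ⊆ K i, Thick R x (m i) S) (hSy : ∀ i, ∃ S ⊆ K i, Thick R y (m i) S) :
    (Finset.univ.filter fun i => (m i).2 ≤ T ∧ ∃ p ∈ K i, T ≤ p.2).card ≤ 2 := by
  by_contra hcon
  push Not at hcon
  obtain ⟨f, hf, hinj⟩ := three_of_card hcon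
  simp only [Finset.mem_filter, Finset.mem_univ, true_and] at hf
  exact three_reach hR hxy hx hy (m := fun i => m (f i)) (K := fun i => K (f i))
    (fun i j hij => hd _ _ (hinj i j hij)) (fun i => hb (f i)) (fun i => hm (f i))
    (fun i => (hf i).1) (fun i => hSx (f i)) (fun i => hSy (f i)) (fun i => (hf i).2)

open Classical in
theorem card_reach_le' {P : ℕ} {x y : Pt} (hxy : x ≠ y) {T : ℤ} (hx : T ≤ x.2) (hy : T ≤ y.2)
    {m : Fin P → Pt} {K : Fin P → Set Pt} (hd : ∀ i j, i ≠ j → Disjoint (K i) (K j))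
    (hb : ∀ i, Blob R x y (K i)) (hm : ∀ i, m i ∈ K i)
    (hSx : ∀ i, ∃ S ⊆ K i, Thick R x (m i) S) (hSy : ∀ i, ∃ S ⊆ K i, Thick R y (m i) S) :
    (Finset.univ.filter fun i => T ≤ (m i).2 ∧ ∃ p ∈ K i, p.2 ≤ T).card ≤ 2 := by
  have := card_reach_le hR.flip (x := fl x) (y := fl y) (fun e => hxy (fl_inj e)) (T := -T)
    (by simp only [fl_snd]; omega) (by simp only [fl_snd]; omega) (m := fun i => fl (m i))
    (K := fun i => flS (K i)) (by
      intro i j hij
      rw [Set.disjoint_left]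
      intro p hp hp'
      exact Set.disjoint_left.1 (hd i j hij) hp hp') (fun i => (hb i).flip)
    (fun i => by simpa using hm i)
    (fun i => by
      obtain ⟨S, hS, h⟩ := hSx i
      exact ⟨flS S, fun p hp => hS hp, h.flip⟩)
    (fun i => by
      obtain ⟨S, hS, h⟩ := hSy i
      exact ⟨flS S, fun p hp => hS hp, h.flip⟩)
  refine le_trans (Finset.card_le_card ?_) this
  intro i hi
  simp only [Finset.mem_filter, Finset.mem_univ, true_and] at hi ⊢
  obtain ⟨h1, p, hp, hpm⟩ := hi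
  refine ⟨by simp only [fl_snd]; omega, fl p, by simpa using hp, ?_⟩
  simp only [fl_snd]
  omega

end

/-! ### The stage -/

/-- The sequence of parameters of a stage. -/
def st (c P : ℕ) (rest : List ℕ) (n : ℕ) : List ℕ := List.replicate n c ++ (P :: rest)

theorem st_succ (c P : ℕ) (rest : List ℕ) (n : ℕ) : st c P rest (n + 1) = c :: st c P rest n := by
  simp [st, List.replicate_succ]

theorem piece_of_st {R : SimpleGraph Pt} {c P : ℕ} {rest : List ℕ} {n : ℕ} {x y : Pt} {Ω : Set Pt}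
    (h : Piece R (st c P rest n) x y Ω) : Piece R (P :: rest) x y Ω := by
  induction n with
  | zero => simpa [st] using h
  | succ n ih =>
    rw [st_succ] at h
    exact ih h.1

/-- Fixed data of a stage. -/
structure Data (R : SimpleGraph Pt) (lo : ℤ) (h c P : ℕ) (rest : List ℕ) (F : ℤ) : Prop where
  hR : RowPlanar R
  hw : Win R lo h
  hP : 4 * h + 5 ≤ P
  hF : 1 ≤ F
  hdist : F = 1 ∨ Dist R rest F

theorem Data.flip {R : SimpleGraph Pt} {lo : ℤ} {h c P : ℕ} {rest : List ℕ} {F : ℤ}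
    (D : Data R lo h c P rest F) : Data (flG R) (-lo - h + 1) h c P rest F :=
  ⟨D.hR.flip, D.hw.flip, D.hP, D.hF, D.hdist.imp id Dist.flip⟩

section
variable {R : SimpleGraph Pt} {lo : ℤ} {h c P : ℕ} {rest : List ℕ} {F : ℤ}
  (D : Data R lo h c P rest F)
include D

theorem Data.thick {n : ℕ} {x y : Pt} (hxy : x ≠ y) {Ω : Set Pt}
    (hp : Piece R (st c P rest n) x y Ω) :
    x.2 ≠ y.2 ∧ F ≤ |x.2 - y.2| ∧ ∃ S ⊆ Ω, Thick R x y S := by
  rcases D.hdist with h | h
  · have h0 : Dist R rest 0 := fun x y m K _ _ _ => abs_nonneg _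
    obtain ⟨h1, -, h2⟩ := thick_of_piece D.hR D.hw D.hP h0 hxy (piece_of_st hp)
    refine ⟨h1, ?_, h2⟩
    rw [h]
    exact Int.one_le_abs (sub_ne_zero.2 h1)
  · exact thick_of_piece D.hR D.hw D.hP h hxy (piece_of_st hp)

/-- The main claim: `x` is below `v`; either a component on `(x, v)` is strict, or there is a
vertex high above `v`. -/
theorem Data.claim {n : ℕ} (hc : 4 * (n + 3) + 1 ≤ c) {s0 s1 : ℤ}
    (hd1 : Dist R (st c P rest (n + 1)) s1) (hd0 : Dist R (st c P rest n) s0) {x v : Pt}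
    (hlt : x.2 < v.2) {Ω : Set Pt} {B : ℤ} (hp : Piece R (st c P rest (n + 2)) x v Ω)
    (hΩ : ∀ p ∈ Ω, x.2 ≤ p.2 ∧ p.2 ≤ B) (hB : B - v.2 < (n + 3) * F) :
    s1 ≤ v.2 - x.2 ∨ ∃ w ∈ Ω, s0 ≤ w.2 - v.2 := by
  classical
  have hR := D.hR
  have hF := D.hF
  have hxv : x ≠ v := fun e => by rw [e] at hlt; exact lt_irrefl _ hlt
  rw [st_succ, piece_cons] at hp
  obtain ⟨-, m, K, hd, hK⟩ := hp
  by_cases hs : ∃ i, Strict x v (K i)
  · left
    obtain ⟨i, hi⟩ := hs
    have := hd1 x v (m i) (K i) hxv (hK i).2 hi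
    rw [abs_of_neg (by omega)] at this
    omega
  right
  push Not at hs
  have hb : ∀ i, Blob R x v (K i) := fun i => (hK i).2.blob
  -- the top rows
  have htop : ∀ i, ∃ T : ℤ, (∀ p ∈ K i, p.2 ≤ T) ∧ (∃ p ∈ K i, p.2 = T) ∧ v.2 < T ∧ T ≤ B := by
    intro i
    obtain ⟨T, ⟨p, hp, hpT⟩, hT2⟩ := Int.exists_greatest_of_bdd
      (P := fun T => ∃ p ∈ K i, p.2 = T) ⟨B, by
        rintro z ⟨p, hp, rfl⟩
        exact (hΩ p ((hK i).1 hp)).2⟩ ⟨(m i).2, m i, (hK i).2.hm, rfl⟩
    refine ⟨T, fun q hq => hT2 q.2 ⟨q, hq, rfl⟩, ⟨p, hp, hpT⟩, ?_, ?_⟩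
    · by_contra hcon
      apply hs i
      intro q hq
      have h1 := hT2 q.2 ⟨q, hq, rfl⟩
      have h2 := (hΩ q ((hK i).1 hq)).1
      omega
    · rw [← hpT]
      exact (hΩ p ((hK i).1 hp)).2
  choose t ht1 ht2 ht3 ht4 using htop
  -- thick sets
  have hmx : ∀ i, x ≠ m i := fun i e => (hK i).2.hx (by rw [e]; exact (hK i).2.hm)
  have hmv : ∀ i, m i ≠ v := fun i e => (hK i).2.hy (by rw [← e]; exact (hK i).2.hm)
  have thx := fun i => D.thick (hmx i) (hK i).2.left
  have thv := fun i => D.thick (hmv i) (hK i).2.right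
  have hSx : ∀ i, ∃ S ⊆ K i, Thick R x (m i) S := by
    intro i
    obtain ⟨-, -, S, hS, h⟩ := thx i
    exact ⟨S, hS.trans Set.sdiff_subset, h⟩
  have hSv : ∀ i, ∃ S ⊆ K i, Thick R v (m i) S := by
    intro i
    obtain ⟨-, -, S, hS, h⟩ := thv i
    exact ⟨S, hS.trans Set.sdiff_subset, h.symm⟩
  -- pigeonhole on the blocks
  obtain ⟨g0, hg0, hfib⟩ := Finset.exists_lt_card_fiber_of_mul_lt_card_of_maps_to
    (s := (Finset.univ : Finset (Fin c))) (t := Finset.Ico (0 : ℤ) (n + 3))
    (f := fun i => (t i - v.2 - 1) / F) (n := 4) (by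
      intro i _
      rw [Finset.mem_Ico]
      have h1 := ht3 i
      have h2 := ht4 i
      constructor
      · exact Int.ediv_nonneg (by omega) (by omega)
      · rw [Int.ediv_lt_iff_lt_mul (by omega)]
        omega) (by
      rw [Int.card_Ico, Finset.card_univ, Fintype.card_fin]
      have : ((n : ℤ) + 3 - 0).toNat = n + 3 := by omega
      rw [this]
      omega)
  set b : ℤ := v.2 + 1 + g0 * F with hb_def
  have hg0' : 0 ≤ g0 := (Finset.mem_Ico.1 hg0).1
  have hbv : v.2 < b := by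
    have : 0 ≤ g0 * F := by positivity
    omega
  have hblock : ∀ i, (t i - v.2 - 1) / F = g0 → b ≤ t i ∧ t i < b + F := by
    intro i hi
    have h1 := Int.mul_ediv_self_le (x := t i - v.2 - 1) (k := F) (by omega)
    have h2 := Int.lt_mul_ediv_self_add (x := t i - v.2 - 1) (k := F) (by omega)
    rw [hi] at h1 h2
    have : F * g0 = g0 * F := mul_comm _ _
    omega
  -- three of them have `m` in the block
  have hlow := card_reach_le hR hxv (T := b) (by omega) hbv.le hd hb (fun i => (hK i).2.hm)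
    hSx hSv
  have hthree : 2 < ((Finset.univ.filter fun i => (t i - v.2 - 1) / F = g0).filter
      fun i => b ≤ (m i).2).card := by
    have h1 := Finset.card_filter_add_card_filter_not
      (s := Finset.univ.filter fun i => (t i - v.2 - 1) / F = g0) (fun i => b ≤ (m i).2)
    have h2 : ((Finset.univ.filter fun i => (t i - v.2 - 1) / F = g0).filter
        fun i => ¬ b ≤ (m i).2).card ≤ 2 := by
      refine le_trans (Finset.card_le_card ?_) hlow
      intro i hi
      simp only [Finset.mem_filter, Finset.mem_univ, true_and] at hi ⊢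
      obtain ⟨p, hp, hpt⟩ := ht2 i
      exact ⟨by omega, p, hp, by rw [hpt]; exact (hblock i hi.1).1⟩
    omega
  obtain ⟨f, hf, hinj⟩ := three_of_card hthree
  simp only [Finset.mem_filter, Finset.mem_univ, true_and] at hf
  -- one of them does not touch `v` from below
  obtain ⟨i0, hi0⟩ := form_c hR hxv (fun i => K (f i)) (fun i => (hb (f i)).conn)
    (fun i j hij => hd _ _ (hinj i j hij)) (fun i => (hb (f i)).hx) (fun i => (hb (f i)).hy)
    (fun i => (hb (f i)).ax) (by
      intro i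
      obtain ⟨S, hS, hth⟩ := hSv (f i)
      obtain ⟨u, hu, hvu, hu2⟩ := hth.ax
      refine ⟨u, hS hu, hvu, ?_⟩
      have h1 := hth.strict u hu
      have h2 := hR.row v u hvu
      have h3 := (hf i).2
      omega)
  set m' := m (f i0) with hm'
  set K' := K (f i0) with hK'
  have hm'b : b ≤ m'.2 := (hf i0).2
  have htop' : ∀ p ∈ K', p.2 < m'.2 + F := by
    intro p hp
    have h1 := ht1 (f i0) p hp
    have h2 := (hblock _ (hf i0).1).2
    omega
  have hcomp := (hK (f i0)).2
  have hm'v : m' ≠ v := hmv (f i0)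
  refine ⟨m', (hK (f i0)).1 hcomp.hm, ?_⟩
  have hpr := hcomp.right
  rw [st_succ, piece_cons] at hpr
  obtain ⟨-, m2, K2, hd2, hK2⟩ := hpr
  have hb2 : ∀ l, Blob R m' v (K2 l) := fun l => (hK2 l).2.blob
  have hsub : ∀ l, K2 l ⊆ K' := fun l => (hK2 l).1.trans Set.sdiff_subset
  have hmm : ∀ l, m' ≠ m2 l := fun l e => (hK2 l).2.hx (by rw [← hm', e]; exact (hK2 l).2.hm)
  have hmv2 : ∀ l, m2 l ≠ v := fun l e => (hK2 l).2.hy (by rw [← e]; exact (hK2 l).2.hm)
  have th1 := fun l => D.thick (hmm l) (hK2 l).2.left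
  have th2 := fun l => D.thick (hmv2 l) (hK2 l).2.right
  have hS1 : ∀ l, ∃ S ⊆ K2 l, Thick R m' (m2 l) S := by
    intro l
    obtain ⟨-, -, S, hS, h⟩ := th1 l
    exact ⟨S, hS.trans Set.sdiff_subset, h⟩
  have hS2 : ∀ l, ∃ S ⊆ K2 l, Thick R v (m2 l) S := by
    intro l
    obtain ⟨-, -, S, hS, h⟩ := th2 l
    exact ⟨S, hS.trans Set.sdiff_subset, h.symm⟩
  have hpos : ∀ l, v.2 < (m2 l).2 := by
    intro l
    obtain ⟨S, hS, hth⟩ := hS2 l
    obtain ⟨u, hu, hvu, hu2⟩ := hth.ax
    have h1 := hth.strict u hu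
    have h2 := hR.row v u hvu
    have h3 := (th2 l).1
    by_contra hcon
    exact hi0 u (hsub l (hS hu)) hvu (by omega)
  have hpos2 : ∀ l, (m2 l).2 < m'.2 := by
    intro l
    have h1 := (th1 l).2.1
    have h2 := htop' (m2 l) (hsub l (hK2 l).2.hm)
    by_contra hcon
    rw [abs_sub_comm, abs_of_nonneg (by omega)] at h1
    omega
  have cA := card_reach_le hR hm'v (T := m'.2 + 1) (by omega) (by omega) hd2 hb2
    (fun l => (hK2 l).2.hm) hS1 hS2
  have cB := card_reach_le' hR hm'v (T := v.2 - 1) (by omega) (by omega) hd2 hb2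
    (fun l => (hK2 l).2.hm) hS1 hS2
  have hex : ∃ l, l ∉ (Finset.univ.filter fun l => (m2 l).2 ≤ m'.2 + 1 ∧
        ∃ p ∈ K2 l, m'.2 + 1 ≤ p.2) ∧
      l ∉ (Finset.univ.filter fun l => v.2 - 1 ≤ (m2 l).2 ∧ ∃ p ∈ K2 l, p.2 ≤ v.2 - 1) := by
    by_contra hcon
    push Not at hcon
    have h1 : (Finset.univ : Finset (Fin c)) ⊆ (Finset.univ.filter fun l => (m2 l).2 ≤ m'.2 + 1 ∧
        ∃ p ∈ K2 l, m'.2 + 1 ≤ p.2) ∪
        (Finset.univ.filter fun l => v.2 - 1 ≤ (m2 l).2 ∧ ∃ p ∈ K2 l, p.2 ≤ v.2 - 1) := by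
      intro l _
      rw [Finset.mem_union]
      by_cases e : l ∈ (Finset.univ.filter fun l => (m2 l).2 ≤ m'.2 + 1 ∧
        ∃ p ∈ K2 l, m'.2 + 1 ≤ p.2)
      · exact Or.inl e
      · exact Or.inr (hcon l e)
    have h2 := Finset.card_le_card h1
    rw [Finset.card_univ, Fintype.card_fin] at h2
    have h3 := Finset.card_union_le (Finset.univ.filter fun l => (m2 l).2 ≤ m'.2 + 1 ∧
        ∃ p ∈ K2 l, m'.2 + 1 ≤ p.2)
        (Finset.univ.filter fun l => v.2 - 1 ≤ (m2 l).2 ∧ ∃ p ∈ K2 l, p.2 ≤ v.2 - 1)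
    omega
  obtain ⟨l, hl1, hl2⟩ := hex
  simp only [Finset.mem_filter, Finset.mem_univ, true_and, not_and, not_exists] at hl1 hl2
  have hstrict : Strict m' v (K2 l) := by
    intro p hp
    have e1 := hl1 (by have := hpos2 l; omega) p hp
    have e2 := hl2 (by have := hpos l; omega) p hp
    omega
  have := hd0 m' v (m2 l) (K2 l) hm'v (hK2 l).2 hstrict
  rw [abs_of_nonneg (by omega)] at this
  exact this

/-- The stage lemma. -/
theorem Data.stage : ∀ (i : ℕ), 4 * (i + 1) + 1 ≤ c →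
    Dist R (st c P rest i) (max 2 ((i : ℤ) + 1) * F) := by
  intro i
  induction i using Nat.strong_induction_on with
  | _ i ih =>
    intro hc
    -- it is enough to treat the case of `x` below `y`
    have key : ∀ (x y m : Pt) (K : Set Pt), x ≠ y → Comp R (st c P rest i) x y m K →
        Strict x y K → x.2 ≤ y.2 → max 2 ((i : ℤ) + 1) * F ≤ y.2 - x.2 := by
      intro x y m K hxy hcomp hs hle
      have hF := D.hF
      have hmx : x ≠ m := fun e => hcomp.hx (by rw [e]; exact hcomp.hm)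
      have hmy : m ≠ y := fun e => hcomp.hy (by rw [← e]; exact hcomp.hm)
      obtain ⟨n1, d1, -⟩ := D.thick hmx hcomp.left
      obtain ⟨n2, d2, -⟩ := D.thick hmy hcomp.right
      have hm := hs m hcomp.hm
      rw [abs_of_neg (by omega)] at d1 d2
      match i, ih, hc, hcomp with
      | 0, _, _, _ =>
        norm_num
        linarith
      | 1, _, _, _ =>
        norm_num
        linarith
      | n + 2, ih, hc, hcomp =>
        by_contra hcon
        push Not at hcon
        have h3 : max 2 (((n + 2 : ℕ) : ℤ) + 1) = n + 3 := by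
          push_cast
          omega
        rw [h3] at hcon
        have hd1 := ih (n + 1) (by omega) (by omega)
        have hd0 := ih n (by omega) (by omega)
        have hrows : ∀ p ∈ K \ {m}, x.2 ≤ p.2 ∧ p.2 ≤ y.2 := by
          intro p hp
          have := hs p hp.1
          omega
        have c1 := D.claim (by omega) hd1 hd0 (x := x) (v := m) (by omega) (B := y.2)
          hcomp.left hrows (by omega)
        have c2 := D.flip.claim (by omega) hd1.flip hd0.flip (x := fl y) (v := fl m)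
          (by simp only [fl_snd]; omega) (B := -x.2) (Ω := flS (K \ {m}))
          (Piece.flip _ (Piece.symm _ hcomp.right)) (by
            intro p hp
            have := hrows _ hp
            simp only [fl_snd] at this ⊢
            omega) (by simp only [fl_snd]; omega)
        have e1 : max 2 (((n + 1 : ℕ) : ℤ) + 1) = n + 2 := by
          push_cast
          omega
        rw [e1] at c1 c2
        have hn0 : (0 : ℤ) ≤ n := Int.natCast_nonneg n
        rcases c1 with c1 | ⟨w1, hw1, c1⟩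
        · have : ((n : ℤ) + 3) * F = (n + 2) * F + F := by ring
          omega
        · rcases c2 with c2 | ⟨w2, hw2, c2⟩
          · simp only [fl_snd] at c2
            have : ((n : ℤ) + 3) * F = (n + 2) * F + F := by ring
            omega
          · have h4 := (hrows w1 hw1).2
            have h5 := (hrows _ hw2).1
            simp only [fl_snd] at c2 h5
            have h6 : ((n : ℤ) + 3) * F ≤ 2 * (max 2 ((n : ℤ) + 1) * F) := by
              have : (n : ℤ) + 3 ≤ 2 * max 2 ((n : ℤ) + 1) := by omega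
              nlinarith
            omega
    intro x y m K hxy hcomp hs
    rcases le_total x.2 y.2 with hle | hle
    · have := key x y m K hxy hcomp hs hle
      rw [abs_of_nonpos (by omega)]
      omega
    · have := key y x m K hxy.symm hcomp.symm hs.symm hle
      rw [abs_of_nonneg (by omega)]
      omega

end

/-! ### All stages -/

/-- The sequence of parameters of `J` stages. -/
def rs (c P k : ℕ) : ℕ → List ℕ
  | 0 => []
  | J + 1 => st c P (rs c P k J) k

theorem data_all {R : SimpleGraph Pt} (hR : RowPlanar R) {lo : ℤ} {h c P k : ℕ} (hw : Win R lo h)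
    (hP : 4 * h + 5 ≤ P) (hc : 4 * (k + 1) + 1 ≤ c) (J : ℕ) :
    Data R lo h c P (rs c P k J) ((max 2 ((k : ℤ) + 1)) ^ J) := by
  induction J with
  | zero => exact ⟨hR, hw, hP, by simp, Or.inl (by simp)⟩
  | succ J ih =>
    refine ⟨hR, hw, hP, ?_, Or.inr ?_⟩
    · exact one_le_pow₀ (by omega)
    · rw [pow_succ, mul_comm]
      exact ih.stage k hc

/-- The lower bound for the number of rows. -/
theorem rows_lower {R : SimpleGraph Pt} (hR : RowPlanar R) {lo : ℤ} {h c P k J : ℕ}
    (hw : Win R lo h) (hP : 4 * h + 5 ≤ P) (hc : 4 * (k + 1) + 1 ≤ c) {x y : Pt} (hxy : x ≠ y)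
    {Ω : Set Pt} (hp : Piece R (P :: rs c P k J) x y Ω) : (k + 1) ^ J < h := by
  obtain ⟨-, h1, -⟩ := (data_all hR hw hP hc J).thick (n := 0) hxy (by simpa [st] using hp)
  have hP0 : 0 < P := by omega
  rw [piece_cons] at hp
  obtain ⟨-, m, K, -, hK⟩ := hp
  obtain ⟨u, -, hxu⟩ := (hK ⟨0, hP0⟩).2.ax
  obtain ⟨v, -, hyv⟩ := (hK ⟨0, hP0⟩).2.ay
  have h2 := hw x u hxu
  have h3 := hw y v hyv
  have h4 : |x.2 - y.2| < h := by
    rw [abs_lt]
    omega
  have h5 : (((k + 1) ^ J : ℕ) : ℤ) ≤ (max 2 ((k : ℤ) + 1)) ^ J := by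
    push_cast
    exact pow_le_pow_left₀ (by positivity) (le_max_right _ _) J
  have h6 : (((k + 1) ^ J : ℕ) : ℤ) < h := by omega
  exact_mod_cast h6

end Pool.Agent.W2helper91.SP
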