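import Pool.Agent.W2helper91.SP.Low

/-!
# Straight-line grid drawings
-/

set_option autoImplicit false

namespace Pool.Agent.W2helper91.SP

open Real Filter

/-- Straight-line grid drawings: the vertices are at distinct grid points, every edge is the
segment between its ends and contains no other vertices, and two different edges meet only in
common ends. -/
structure StraightDrawing {V : Type*} (G : SimpleGraph V) where
  /-- The positions of the vertices. -/
  pos : V → ℤ × ℤ
  pos_injective : Function.Injective pos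
  vertex : ∀ u v w : V, G.Adj u v → pt (pos w) ∈ segment ℝ (pt (pos u)) (pt (pos v)) →
    w = u ∨ w = v
  cross : ∀ u v u' v' : V, G.Adj u v → G.Adj u' v' → s(u, v) ≠ s(u', v') → ∀ q : ℝ × ℝ,
    q ∈ segment ℝ (pt (pos u)) (pt (pos v)) → q ∈ segment ℝ (pt (pos u')) (pt (pos v')) →
    ∃ w : V, w ∈ s(u, v) ∧ w ∈ s(u', v') ∧ q = pt (pos w)

/-- The drawing lies in an axis-parallel rectangle with width `W` and height `H`. -/
def StraightDrawing.InBox {V : Type*} {G : SimpleGraph V} (D : StraightDrawing G) (W H : ℕ) :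
    Prop :=
  ∃ x y : ℤ, ∀ v : V, x ≤ (D.pos v).1 ∧ (D.pos v).1 ≤ x + W ∧ y ≤ (D.pos v).2 ∧
    (D.pos v).2 ≤ y + H

/-- The minimum area (width times height) of a straight-line grid drawing of `G`
(`⊤` if there is none). -/
noncomputable def minAreaS {V : Type*} (G : SimpleGraph V) : ℕ∞ :=
  ⨅ (D : StraightDrawing G) (W : ℕ) (H : ℕ) (_ : D.InBox W H), ((W * H : ℕ) : ℕ∞)

/-- `As n` is the maximum, over all series-parallel graphs with `n` vertices, of the minimum area
of a straight-line grid drawing. -/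
noncomputable def As (n : ℕ) : ℕ∞ :=
  ⨆ (G : SimpleGraph (Fin n)) (_ : SeriesParallel G), minAreaS G

section
variable {V : Type*} {G : SimpleGraph V}

theorem chain_pair (a b : ℤ × ℤ) : chain [a, b] = segment ℝ (pt a) (pt b) := by
  ext q
  constructor
  · rintro ⟨i, hi, h⟩
    have : i = 0 := by simp at hi; omega
    subst this
    exact h
  · intro h
    exact ⟨0, by simp, h⟩

theorem sym2_eq_out {V : Type*} (e : Sym2 V) : e = s((Quot.out e).1, (Quot.out e).2) :=
  (Quot.out_eq e).symm

/-- A straight-line drawing is a poly-line drawing. -/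
noncomputable def StraightDrawing.toPolyline (D : StraightDrawing G) : PolylineDrawing G where
  pos := D.pos
  path e := [D.pos (Quot.out e).1, D.pos (Quot.out e).2]
  pos_injective := D.pos_injective
  ends := by
    intro e he
    exact ⟨(Quot.out e).1, (Quot.out e).2, sym2_eq_out e, rfl, rfl⟩
  proper := by
    intro e he i hi
    have : i = 0 := by simp at hi; omega
    subst this
    simp only [List.getElem_cons_zero, List.getElem_cons_succ]
    intro h
    have h1 := D.pos_injective h
    have h2 : e = s((Quot.out e).1, (Quot.out e).2) := sym2_eq_out e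
    rw [h2, SimpleGraph.mem_edgeSet] at he
    exact he.ne h1
  simple := by
    intro e he i j hi hj hij
    simp at hi hj
    omega
  vertex := by
    intro e he w hw
    have h2 : e = s((Quot.out e).1, (Quot.out e).2) := sym2_eq_out e
    rw [chain_pair] at hw
    have he' := he
    rw [h2, SimpleGraph.mem_edgeSet] at he'
    have := D.vertex _ _ w he' hw
    rw [h2, Sym2.mem_iff]
    exact this
  cross := by
    intro e he f hf hef q hq1 hq2
    have h2 : e = s((Quot.out e).1, (Quot.out e).2) := sym2_eq_out e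
    have h3 : f = s((Quot.out f).1, (Quot.out f).2) := sym2_eq_out f
    rw [chain_pair] at hq1 hq2
    have he' := he
    have hf' := hf
    rw [h2, SimpleGraph.mem_edgeSet] at he'
    rw [h3, SimpleGraph.mem_edgeSet] at hf'
    obtain ⟨w, k1, k2, k3⟩ := D.cross _ _ _ _ he' hf' (by rw [← h2, ← h3]; exact hef) q hq1 hq2
    exact ⟨w, by rw [h2]; exact k1, by rw [h3]; exact k2, k3⟩

theorem StraightDrawing.toPolyline_inBox (D : StraightDrawing G) {W H : ℕ} (h : D.InBox W H) :
    D.toPolyline.InBox W H := by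
  obtain ⟨x, y, h⟩ := h
  refine ⟨x, y, h, ?_⟩
  intro e he q hq
  simp only [StraightDrawing.toPolyline, List.mem_cons, List.not_mem_nil, or_false] at hq
  rcases hq with rfl | rfl
  · exact h _
  · exact h _

end

theorem eventually_hard_straight : ∀ᶠ n : ℕ in atTop, ∃ G : SimpleGraph (Fin n),
    SeriesParallel G ∧ ∀ (D : StraightDrawing G) (W H : ℕ), D.InBox W H →
      (2 : ℝ) ^ (1 / 24 * √(logb 2 n * logb 2 (logb 2 n))) ≤ W ∧
      (2 : ℝ) ^ (1 / 24 * √(logb 2 n * logb 2 (logb 2 n))) ≤ H ∧
      n * (2 : ℝ) ^ (1 / 24 * √(logb 2 n * logb 2 (logb 2 n))) ≤ 32 * (W * H) := by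
  filter_upwards [eventually_hard] with n hn
  obtain ⟨G, hG, h⟩ := hn
  exact ⟨G, hG, fun D W H hD => h D.toPolyline W H (D.toPolyline_inBox hD)⟩

theorem eventually_le_As : ∀ᶠ n : ℕ in atTop,
    ((⌈n * (2 : ℝ) ^ (1 / 48 * √(logb 2 n * logb 2 (logb 2 n)))⌉₊ : ℕ) : ℕ∞) ≤ As n := by
  have hl : Tendsto (fun n : ℕ => logb 2 (n : ℝ)) atTop atTop :=
    (tendsto_logb_atTop one_lt_two).comp tendsto_natCast_atTop_atTop
  have hlam : Tendsto (fun n : ℕ => logb 2 (logb 2 (n : ℝ))) atTop atTop :=
    (tendsto_logb_atTop one_lt_two).comp hl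
  filter_upwards [eventually_hard_straight, hl.eventually (eventually_ge_atTop (240 ^ 2)),
    hlam.eventually (eventually_ge_atTop 1), eventually_ge_atTop 4] with n h1 h2 h3 h4
  obtain ⟨G, hG, hD⟩ := h1
  refine le_trans ?_ (le_iSup₂_of_le G hG le_rfl)
  refine le_iInf fun D => le_iInf fun W => le_iInf fun H => le_iInf fun hbox => ?_
  obtain ⟨-, -, hWH⟩ := hD D W H hbox
  have hs : 240 ≤ √(logb 2 n * logb 2 (logb 2 n)) := by
    rw [Real.le_sqrt' (by norm_num)]
    nlinarith
  set s := √(logb 2 n * logb 2 (logb 2 n)) with hsdef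
  have h6 : (2 : ℝ) ^ (1 / 24 * s) = 2 ^ (1 / 48 * s) * 2 ^ (1 / 48 * s) := by
    rw [← Real.rpow_add (by norm_num)]
    congr 1
    ring
  have h7 : (32 : ℝ) ≤ 2 ^ (1 / 48 * s) := by
    calc (32 : ℝ) = 2 ^ (5 : ℝ) := by norm_num
      _ ≤ 2 ^ (1 / 48 * s) := Real.rpow_le_rpow_of_exponent_le (by norm_num) (by linarith)
  have h8 : (0 : ℝ) ≤ n * 2 ^ (1 / 48 * s) := by positivity
  have h9 : n * (2 : ℝ) ^ (1 / 48 * s) ≤ ((W * H : ℕ) : ℝ) := by
    push_cast
    nlinarith
  exact_mod_cast Nat.ceil_le.2 h9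

end Pool.Agent.W2helper91.SP
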