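import Pool.Agent.W2helper91.SP.Straight
import Pool.Agent.W2helper91.SP.Sharp2

/-!
# Straight-line grid drawings: the lower bound with constant `1`
-/

set_option autoImplicit false

namespace Pool.Agent.W2helper91.SP

open Real Filter

theorem ev_hard_straight {ε : ℝ} (h0 : 0 < ε) : ∀ᶠ n : ℕ in atTop, ∃ G : SimpleGraph (Fin n),
    SeriesParallel G ∧ ∀ (D : StraightDrawing G) (W H : ℕ), D.InBox W H →
      (2 : ℝ) ^ ((1 - ε) * sq n) ≤ W ∧ (2 : ℝ) ^ ((1 - ε) * sq n) ≤ H ∧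
      n * (2 : ℝ) ^ ((1 - ε) * sq n) ≤ W * H := by
  filter_upwards [ev_hard' h0] with n hn
  obtain ⟨G, hG, h⟩ := hn
  exact ⟨G, hG, fun D W H hD => h D.toPolyline W H (D.toPolyline_inBox hD)⟩

theorem ev_le_As {ε : ℝ} (h0 : 0 < ε) : ∀ᶠ n : ℕ in atTop,
    ((⌈n * (2 : ℝ) ^ ((1 - ε) * sq n)⌉₊ : ℕ) : ℕ∞) ≤ As n := by
  filter_upwards [ev_hard_straight h0] with n hn
  obtain ⟨G, hG, hD⟩ := hn
  refine le_trans ?_ (le_iSup₂_of_le G hG le_rfl)
  refine le_iInf fun D => le_iInf fun W => le_iInf fun H => le_iInf fun hbox => ?_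
  obtain ⟨-, -, hWH⟩ := hD D W H hbox
  have h9 : n * (2 : ℝ) ^ ((1 - ε) * sq n) ≤ ((W * H : ℕ) : ℝ) := by
    push_cast
    exact hWH
  exact_mod_cast Nat.ceil_le.2 h9

end Pool.Agent.W2helper91.SP
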