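import Pool.Agent.W2helper91.SP.Minor
import Pool.Agent.W2helper91.SP.Extract

/-!
# Graphs without a `K₄` minor are subgraphs of 2-trees
-/

set_option autoImplicit false

namespace Pool.Agent.W2helper91.SP

variable {V : Type*}

/-- Add a vertex on an edge of a 2-tree. -/
theorem T.insert (v : V) (X : T V) : ∀ (s t : V) (e : Sym2 V),
    (e = s(s, t) ∨ e ∈ X.edges s t) → ∃ X' : T V, X'.verts = {v} + X.verts ∧
      (∀ f ∈ X.edges s t, f ∈ X'.edges s t) ∧ ∀ w ∈ e, s(v, w) ∈ X'.edges s t := by
  have base : ∀ (X : T V) (s t : V) (e : Sym2 V), e = s(s, t) →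
      ∃ X' : T V, X'.verts = {v} + X.verts ∧
      (∀ f ∈ X.edges s t, f ∈ X'.edges s t) ∧ ∀ w ∈ e, s(v, w) ∈ X'.edges s t := by
    rintro X s t e rfl
    refine ⟨T.node v T.nil T.nil X, by simp [T.verts], ?_, ?_⟩
    · intro f hf
      simp [T.edges, hf]
    · intro w hw
      rcases Sym2.mem_iff.1 hw with rfl | rfl
      · simp [T.edges, Sym2.eq_swap]
      · simp [T.edges]
  induction X with
  | nil =>
    intro s t e he
    rcases he with he | he
    · exact base _ s t e he
    · simp [T.edges] at he
  | node m L R N ihL ihR ihN =>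
    intro s t e he
    rcases he with he | he
    · exact base _ s t e he
    · simp only [T.edges, Multiset.mem_add, Multiset.mem_singleton] at he
      have hL : (e = s(s, m) ∨ e ∈ L.edges s m) → ∃ X' : T V,
          X'.verts = {v} + (T.node m L R N).verts ∧
          (∀ f ∈ (T.node m L R N).edges s t, f ∈ X'.edges s t) ∧
          ∀ w ∈ e, s(v, w) ∈ X'.edges s t := by
        intro h
        obtain ⟨L', h1, h2, h3⟩ := ihL s m e h
        refine ⟨T.node m L' R N, ?_, ?_, ?_⟩
        · simp only [T.verts, h1]; abel
        · intro f hf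
          simp only [T.edges, Multiset.mem_add, Multiset.mem_singleton] at hf ⊢
          rcases hf with (((hf | hf) | hf) | hf) | hf
          · exact Or.inl (Or.inl (Or.inl (Or.inl hf)))
          · exact Or.inl (Or.inl (Or.inl (Or.inr hf)))
          · exact Or.inl (Or.inl (Or.inr (h2 f hf)))
          · exact Or.inl (Or.inr hf)
          · exact Or.inr hf
        · intro w hw
          simp only [T.edges, Multiset.mem_add, Multiset.mem_singleton]
          exact Or.inl (Or.inl (Or.inr (h3 w hw)))
      have hR : (e = s(m, t) ∨ e ∈ R.edges m t) → ∃ X' : T V,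
          X'.verts = {v} + (T.node m L R N).verts ∧
          (∀ f ∈ (T.node m L R N).edges s t, f ∈ X'.edges s t) ∧
          ∀ w ∈ e, s(v, w) ∈ X'.edges s t := by
        intro h
        obtain ⟨R', h1, h2, h3⟩ := ihR m t e h
        refine ⟨T.node m L R' N, ?_, ?_, ?_⟩
        · simp only [T.verts, h1]; abel
        · intro f hf
          simp only [T.edges, Multiset.mem_add, Multiset.mem_singleton] at hf ⊢
          rcases hf with (((hf | hf) | hf) | hf) | hf
          · exact Or.inl (Or.inl (Or.inl (Or.inl hf)))
          · exact Or.inl (Or.inl (Or.inl (Or.inr hf)))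
          · exact Or.inl (Or.inl (Or.inr hf))
          · exact Or.inl (Or.inr (h2 f hf))
          · exact Or.inr hf
        · intro w hw
          simp only [T.edges, Multiset.mem_add, Multiset.mem_singleton]
          exact Or.inl (Or.inr (h3 w hw))
      rcases he with (((he | he) | he) | he) | he
      · exact hL (Or.inl he)
      · exact hR (Or.inl he)
      · exact hL (Or.inr he)
      · exact hR (Or.inr he)
      · obtain ⟨N', h1, h2, h3⟩ := ihN s t e (Or.inr he)
        refine ⟨T.node m L R N', ?_, ?_, ?_⟩
        · simp only [T.verts, h1]; abel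
        · intro f hf
          simp only [T.edges, Multiset.mem_add, Multiset.mem_singleton] at hf ⊢
          rcases hf with hf | hf
          · exact Or.inl hf
          · exact Or.inr (h2 f hf)
        · intro w hw
          simp only [T.edges, Multiset.mem_add, Multiset.mem_singleton]
          exact Or.inr (h3 w hw)

open Classical in
/-- A graph without a `K₄` minor is a subgraph of a 2-tree. -/
theorem exists_T (n : ℕ) : ∀ A : Finset V, A.card = n + 2 → ∀ G : SimpleGraph V,
    (∀ x y, G.Adj x y → x ∈ A) → ¬ HasK4Minor G →
    ∃ (s t : V) (X : T V), ({s} + {t} + X.verts : Multiset V) = A.val ∧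
      ∀ e ∈ G.edgeSet, e = s(s, t) ∨ e ∈ X.edges s t := by
  induction n with
  | zero =>
    intro A hA G hG hK
    obtain ⟨s, t, hst, rfl⟩ := Finset.card_eq_two.1 hA
    refine ⟨s, t, T.nil, ?_, ?_⟩
    · simp only [T.verts, add_zero]
      rw [Finset.insert_val_of_notMem (by simpa using hst), Finset.singleton_val,
        Multiset.singleton_add]
    · intro e he
      left
      induction e using Sym2.ind with
      | _ x y =>
        have hxy : G.Adj x y := he
        have h1 := hG x y hxy
        have h2 := hG y x hxy.symm
        have h3 := hxy.ne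
        simp only [Finset.mem_insert, Finset.mem_singleton] at h1 h2
        rcases h1 with rfl | rfl <;> rcases h2 with rfl | rfl
        · exact absurd rfl h3
        · rfl
        · exact Sym2.eq_swap
        · exact absurd rfl h3
  | succ n ih =>
    intro A hA G hG hK
    obtain ⟨v, hvA, hv⟩ := exists_low (A.card) A rfl G hG (by rw [← Finset.card_pos]; omega) hK
    have hA' : (A.erase v).card = n + 2 := by rw [Finset.card_erase_of_mem hvA]; omega
    -- it suffices to find a suitable graph on the other vertices
    have main : ∀ G' : SimpleGraph V, (∀ x y, G'.Adj x y → x ∈ A.erase v) → ¬ HasK4Minor G' →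
        (∀ x y, G.Adj x y → x ≠ v → y ≠ v → G'.Adj x y) →
        (∀ (s t : V) (X : T V), ({s} + {t} + X.verts : Multiset V) = (A.erase v).val →
          (∀ e ∈ G'.edgeSet, e = s(s, t) ∨ e ∈ X.edges s t) →
          ∃ e, (e = s(s, t) ∨ e ∈ X.edges s t) ∧ ∀ w, G.Adj v w → w ∈ e) →
        ∃ (s t : V) (X : T V), ({s} + {t} + X.verts : Multiset V) = A.val ∧
          ∀ e ∈ G.edgeSet, e = s(s, t) ∨ e ∈ X.edges s t := by
      intro G' hG' hK' hGG hloc
      obtain ⟨s, t, X, h1, h2⟩ := ih (A.erase v) hA' G' hG' hK'
      obtain ⟨e0, he0, hw⟩ := hloc s t X h1 h2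
      obtain ⟨X', k1, k2, k3⟩ := T.insert v X s t e0 he0
      refine ⟨s, t, X', ?_, ?_⟩
      · rw [k1]
        have : ({s} + {t} + ({v} + X.verts) : Multiset V) = {v} + ({s} + {t} + X.verts) := by abel
        rw [this, h1, Multiset.singleton_add, ← Finset.insert_val_of_notMem (Finset.notMem_erase v A),
          Finset.insert_erase hvA]
      · intro e he
        induction e using Sym2.ind with
        | _ x y =>
          have hxy : G.Adj x y := he
          by_cases hx : x = v
          · subst hx
            right
            exact k3 y (hw y hxy)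
          · by_cases hy : y = v
            · subst hy
              right
              rw [Sym2.eq_swap]
              exact k3 x (hw x hxy.symm)
            · rcases h2 s(x, y) (hGG x y hxy hx hy) with h | h
              · exact Or.inl h
              · exact Or.inr (k2 _ h)
    by_cases hne : (nb G A v).Nonempty
    · obtain ⟨p, hp⟩ := hne
      have hvp : G.Adj v p := (mem_nb.1 hp).2
      have hpA : p ∈ A := (mem_nb.1 hp).1
      refine main (contract G p v) ?_ (fun h => hK (h.of_contract hvp.symm)) ?_ ?_
      · rintro x y ⟨g1, g2, g3, g4⟩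
        refine Finset.mem_erase.2 ⟨g2, ?_⟩
        rcases g4 with h | ⟨rfl, h⟩ | ⟨rfl, h⟩
        · exact hG x y h
        · exact hpA
        · exact hG x v h.symm
      · intro x y hxy hx hy
        exact ⟨hxy.ne, hx, hy, Or.inl hxy⟩
      · intro s t X h1 h2
        by_cases hq : ∃ q, G.Adj v q ∧ q ≠ p
        · obtain ⟨q, hvq, hqp⟩ := hq
          refine ⟨s(p, q), h2 _ (show (contract G p v).Adj p q from
            ⟨hqp.symm, hvp.ne.symm, hvq.ne.symm, Or.inr (Or.inl ⟨rfl, hvq⟩)⟩), ?_⟩
          intro w hw
          by_contra hcon
          simp only [Sym2.mem_iff, not_or] at hcon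
          have hsub : ({p, q, w} : Finset V) ⊆ nb G A v := by
            intro y hy
            simp only [Finset.mem_insert, Finset.mem_singleton] at hy
            rcases hy with rfl | rfl | rfl
            · exact hp
            · exact mem_nb.2 ⟨hG _ _ hvq.symm, hvq⟩
            · exact mem_nb.2 ⟨hG _ _ hw.symm, hw⟩
          have hc3 : ({p, q, w} : Finset V).card = 3 := by
            rw [Finset.card_eq_three]
            exact ⟨p, q, w, hqp.symm, Ne.symm hcon.1, Ne.symm hcon.2, rfl⟩
          have := Finset.card_le_card hsub
          omega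
        · push Not at hq
          have hpm : p ∈ ({s} + {t} + X.verts : Multiset V) := by
            rw [h1]
            exact Finset.mem_erase.2 ⟨hvp.ne.symm, hpA⟩
          simp only [Multiset.mem_add, Multiset.mem_singleton] at hpm
          obtain ⟨e, he, hpe⟩ : ∃ e, (e = s(s, t) ∨ e ∈ X.edges s t) ∧ p ∈ e := by
            rcases hpm with (rfl | rfl) | hpm
            · exact ⟨s(p, t), Or.inl rfl, by simp⟩
            · exact ⟨s(s, p), Or.inl rfl, by simp⟩
            · obtain ⟨e, he, h⟩ := X.exists_edge s t p hpm
              exact ⟨e, Or.inr he, h⟩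
          refine ⟨e, he, ?_⟩
          intro w hw
          rw [hq w hw]
          exact hpe
    · have hno : ∀ w, ¬ G.Adj v w := by
        intro w hw
        exact hne ⟨w, mem_nb.2 ⟨hG _ _ hw.symm, hw⟩⟩
      refine main G ?_ hK (fun x y h _ _ => h) ?_
      · intro x y hxy
        refine Finset.mem_erase.2 ⟨?_, hG x y hxy⟩
        rintro rfl
        exact hno y hxy
      · intro s t X h1 h2
        exact ⟨s(s, t), Or.inl rfl, fun w hw => absurd hw (hno w)⟩

/-- Series-parallel graphs have poly-line grid drawings whose height is bounded by the height of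
the layouts of 2-trees. -/
theorem exists_drawing_of_SP {n : ℕ} (hn : 2 ≤ n) (G : SimpleGraph (Fin n))
    (hG : SeriesParallel G) {H : ℕ} (hH : 0 < H) (hC : CFits (Fin n) n H) :
    ∃ D : PolylineDrawing G, D.InBox (2 * n) (3 * H) := by
  obtain ⟨s, t, X, h1, h2⟩ := exists_T (n - 2) (Finset.univ : Finset (Fin n))
    (by rw [Finset.card_univ, Fintype.card_fin]; omega) G (fun x y _ => Finset.mem_univ x) hG
  have hcard : X.size + 2 = n := by
    have := congrArg Multiset.card h1
    rw [Multiset.card_add, Multiset.card_add, Multiset.card_singleton, Multiset.card_singleton,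
      X.card_verts] at this
    have h3 : (Finset.univ : Finset (Fin n)).val.card = n := by
      rw [Finset.card_val, Finset.card_univ, Fintype.card_fin]
    omega
  obtain ⟨D, hD⟩ := exists_drawing_of_T G hH hC X (by omega) s t
    (by rw [h1]; exact Finset.nodup _) (by intro v; rw [h1]; exact Finset.mem_univ v)
    (by
      intro e he
      rcases h2 e he with h | h
      · rw [h]; simp
      · simp [h])
  refine ⟨D, ?_⟩
  obtain ⟨x, y, g1, g2⟩ := hD
  refine ⟨x, y, ?_, ?_⟩
  · intro v
    have := g1 v
    push_cast at this ⊢
    omega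
  · intro e he q hq
    have := g2 e he q hq
    push_cast at this ⊢
    omega

end Pool.Agent.W2helper91.SP
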