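import Mathlib

/-!
# Sweeps: left-to-right visibility layouts

A state is a set of bars `(v, y)` (vertex `v` currently occupies row `y`).  A sweep transforms a
state into another one by drawing vertical edges between visible bars, opening bars and closing
bars.  `U` records the vertices whose bars are opened, `E` the edges that are drawn.
-/

set_option autoImplicit false

namespace Pool.Agent.W2helper91.SP

variable {V : Type*}

/-- Sweeps, inside the rows `lo, …, hi`. -/
inductive Sweep (lo hi : ℤ) :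
    Set (V × ℤ) → Multiset V → Multiset (Sym2 V) → Set (V × ℤ) → Prop
  | edge (S : Set (V × ℤ)) (x y : V) (rx ry : ℤ) (hx : (x, rx) ∈ S) (hy : (y, ry) ∈ S)
      (hlo : lo ≤ rx) (hlt : rx < ry) (hhi : ry ≤ hi)
      (hvis : ∀ p ∈ S, ¬ (rx < p.2 ∧ p.2 < ry)) : Sweep lo hi S 0 {s(x, y)} S
  | add (S : Set (V × ℤ)) (v : V) (y : ℤ) (hlo : lo ≤ y) (hhi : y ≤ hi)
      (hfree : ∀ p ∈ S, p.2 ≠ y) : Sweep lo hi S {v} 0 (insert (v, y) S)
  | drop (S S' : Set (V × ℤ)) (h : S' ⊆ S) : Sweep lo hi S 0 0 S'
  | trans (S S' S'' : Set (V × ℤ)) (U U' : Multiset V) (E E' : Multiset (Sym2 V))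
      (h : Sweep lo hi S U E S') (h' : Sweep lo hi S' U' E' S'') :
      Sweep lo hi S (U + U') (E + E') S''

namespace Sweep

variable {lo hi lo' hi' : ℤ} {S S' S'' : Set (V × ℤ)} {U U' : Multiset V}
  {E E' : Multiset (Sym2 V)}

theorem refl (S : Set (V × ℤ)) : Sweep lo hi S 0 0 S := drop S S (le_refl _)

theorem mono (h : Sweep lo hi S U E S') (h1 : lo' ≤ lo) (h2 : hi ≤ hi') :
    Sweep lo' hi' S U E S' := by
  induction h with
  | edge S x y rx ry hx hy hlo hlt hhi hvis =>
    exact edge S x y rx ry hx hy (h1.trans hlo) hlt (hhi.trans h2) hvis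
  | add S v y hlo hhi hfree => exact add S v y (h1.trans hlo) (hhi.trans h2) hfree
  | drop S S' h => exact drop S S' h
  | trans S S' S'' U U' E E' _ _ ih ih' => exact trans S S' S'' U U' E E' ih ih'

theorem frame (h : Sweep lo hi S U E S') (Γ : Set (V × ℤ))
    (hΓ : ∀ p ∈ Γ, p.2 < lo ∨ hi < p.2) : Sweep lo hi (S ∪ Γ) U E (S' ∪ Γ) := by
  induction h with
  | edge S x y rx ry hx hy hlo hlt hhi hvis =>
    refine edge _ x y rx ry (Or.inl hx) (Or.inl hy) hlo hlt hhi ?_
    rintro p (hp | hp)
    · exact hvis p hp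
    · have := hΓ p hp
      omega
  | add S v y hlo hhi hfree =>
    rw [Set.insert_union]
    refine add _ v y hlo hhi ?_
    rintro p (hp | hp)
    · exact hfree p hp
    · have := hΓ p hp
      omega
  | drop S S' h => exact drop _ _ (Set.union_subset_union_left _ h)
  | trans S S' S'' U U' E E' _ _ ih ih' => exact trans _ _ _ U U' E E' ih ih'

/-- Turning a state upside down. -/
def flip (S : Set (V × ℤ)) : Set (V × ℤ) := {p | (p.1, -p.2) ∈ S}

@[simp] theorem mem_flip (p : V × ℤ) : p ∈ flip S ↔ (p.1, -p.2) ∈ S := Iff.rfl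

theorem neg (h : Sweep lo hi S U E S') : Sweep (-hi) (-lo) (flip S) U E (flip S') := by
  induction h with
  | edge S x y rx ry hx hy hlo hlt hhi hvis =>
    rw [Sym2.eq_swap]
    refine edge _ y x (-ry) (-rx) (by simpa using hy) (by simpa using hx) (by omega) (by omega)
      (by omega) ?_
    intro p hp
    have := hvis _ hp
    simp only at this
    omega
  | add S v y hlo hhi hfree =>
    have : flip (insert (v, y) S) = insert (v, -y) (flip S) := by
      ext ⟨a, b⟩
      simp only [mem_flip, Set.mem_insert_iff, Prod.mk.injEq]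
      constructor
      · rintro (⟨h1, h2⟩ | h)
        · left; exact ⟨h1, by omega⟩
        · right; exact h
      · rintro (⟨h1, h2⟩ | h)
        · left; exact ⟨h1, by omega⟩
        · right; exact h
    rw [this]
    refine add _ v (-y) (by omega) (by omega) ?_
    intro p hp
    have := hfree _ hp
    simp only at this
    omega
  | drop S S' h => exact drop _ _ (fun p hp => h hp)
  | trans S S' S'' U U' E E' _ _ ih ih' => exact trans _ _ _ U U' E E' ih ih'

/-- Moving a state. -/
def move (c : ℤ) (S : Set (V × ℤ)) : Set (V × ℤ) := {p | (p.1, p.2 - c) ∈ S}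

@[simp] theorem mem_move (c : ℤ) (p : V × ℤ) : p ∈ move c S ↔ (p.1, p.2 - c) ∈ S := Iff.rfl

theorem shift (h : Sweep lo hi S U E S') (c : ℤ) :
    Sweep (lo + c) (hi + c) (move c S) U E (move c S') := by
  induction h with
  | edge S x y rx ry hx hy hlo hlt hhi hvis =>
    refine edge _ x y (rx + c) (ry + c) (by simpa using hx) (by simpa using hy) (by omega)
      (by omega) (by omega) ?_
    intro p hp
    have := hvis _ hp
    simp only at this
    omega
  | add S v y hlo hhi hfree =>
    have : move c (insert (v, y) S) = insert (v, y + c) (move c S) := by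
      ext ⟨a, b⟩
      simp only [mem_move, Set.mem_insert_iff, Prod.mk.injEq]
      constructor
      · rintro (⟨h1, h2⟩ | h)
        · left; exact ⟨h1, by omega⟩
        · right; exact h
      · rintro (⟨h1, h2⟩ | h)
        · left; exact ⟨h1, by omega⟩
        · right; exact h
    rw [this]
    refine add _ v (y + c) (by omega) (by omega) ?_
    intro p hp
    have := hfree _ hp
    simp only at this
    omega
  | drop S S' h => exact drop _ _ (fun p hp => h hp)
  | trans S S' S'' U U' E E' _ _ ih ih' => exact trans _ _ _ U U' E E' ih ih'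

theorem move_pair (c : ℤ) (x y : V) (r s : ℤ) :
    move c ({(x, r), (y, s)} : Set (V × ℤ)) = {(x, r + c), (y, s + c)} := by
  ext ⟨a, b⟩
  simp only [mem_move, Set.mem_insert_iff, Set.mem_singleton_iff, Prod.mk.injEq, sub_eq_iff_eq_add]

theorem congr (h : Sweep lo hi S U E S') {T T' : Set (V × ℤ)} {U1 : Multiset V}
    {E1 : Multiset (Sym2 V)} (h1 : S = T) (h2 : U = U1) (h3 : E = E1) (h4 : S' = T') :
    Sweep lo hi T U1 E1 T' := by
  subst h1 h2 h3 h4; exact h

end Sweep

/-- The piece with vertices `U` and edges `E` fits between the bars of `x` and `y`, whenever their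
rows are at least `d` apart. -/
def Fits (U : Multiset V) (E : Multiset (Sym2 V)) (x y : V) (d : ℤ) : Prop :=
  ∀ rx ry : ℤ, d ≤ |rx - ry| →
    Sweep (min rx ry) (max rx ry) {(x, rx), (y, ry)} U E {(x, rx), (y, ry)}

namespace Fits

variable {U U' : Multiset V} {E E' : Multiset (Sym2 V)} {x y : V} {d d' : ℤ}

theorem symm (h : Fits U E x y d) : Fits U E y x d := by
  intro rx ry hd
  have := h ry rx (by rw [abs_sub_comm]; exact hd)
  rwa [min_comm, max_comm, Set.pair_comm] at this

theorem mono (h : Fits U E x y d) (hd : d ≤ d') : Fits U E x y d' :=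
  fun rx ry h' => h rx ry (hd.trans h')

theorem zero (x y : V) (d : ℤ) : Fits (0 : Multiset V) 0 x y d :=
  fun _ _ _ => Sweep.refl _

theorem add (h : Fits U E x y d) (h' : Fits U' E' x y d) : Fits (U + U') (E + E') x y d :=
  fun rx ry hd => Sweep.trans _ _ _ _ _ _ _ (h rx ry hd) (h' rx ry hd)

/-- It is enough to draw the piece with `x` above `y`. -/
theorem of_top (h : ∀ rx ry : ℤ, ry < rx → d ≤ rx - ry →
    Sweep ry rx {(x, rx), (y, ry)} U E {(x, rx), (y, ry)}) (hd : 0 < d) : Fits U E x y d := by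
  intro rx ry hd'
  rcases lt_trichotomy rx ry with hlt | heq | hgt
  · have h1 := (h (-rx) (-ry) (by omega) (by rw [abs_of_neg (by omega)] at hd'; omega)).neg
    have h2 : Sweep.flip ({(x, -rx), (y, -ry)} : Set (V × ℤ)) = {(x, rx), (y, ry)} := by
      ext ⟨a, b⟩
      simp only [Sweep.mem_flip, Set.mem_insert_iff, Set.mem_singleton_iff, Prod.mk.injEq,
        neg_inj]
    rw [h2, neg_neg, neg_neg] at h1
    rw [min_eq_left hlt.le, max_eq_right hlt.le]
    exact h1
  · subst heq
    simp at hd'
    omega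
  · rw [min_eq_right hgt.le, max_eq_left hgt.le]
    exact h rx ry hgt (by rw [abs_of_pos (by omega)] at hd'; exact hd')

/-- Insert a piece into a state. -/
theorem block (h : Fits U E x y d) {lo hi rx ry : ℤ} {S : Set (V × ℤ)} (hx : (x, rx) ∈ S)
    (hy : (y, ry) ∈ S) (hlo : lo ≤ rx) (hlt : rx < ry) (hhi : ry ≤ hi) (hd : d ≤ ry - rx)
    (hvis : ∀ p ∈ S, p ≠ (x, rx) → p ≠ (y, ry) → p.2 < rx ∨ ry < p.2) :
    Sweep lo hi S U E S := by
  have h1 := h rx ry (by rw [abs_sub_comm, abs_of_pos (by omega)]; exact hd)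
  rw [min_eq_left hlt.le, max_eq_right hlt.le] at h1
  have h2 := (h1.frame (S \ {(x, rx), (y, ry)}) (by
    rintro p ⟨hp, hp'⟩
    simp only [Set.mem_insert_iff, Set.mem_singleton_iff, not_or] at hp'
    exact hvis p hp hp'.1 hp'.2)).mono hlo hhi
  have h3 : ({(x, rx), (y, ry)} ∪ (S \ {(x, rx), (y, ry)}) : Set (V × ℤ)) = S := by
    apply Set.union_sdiff_cancel
    intro p hp
    simp only [Set.mem_insert_iff, Set.mem_singleton_iff] at hp
    rcases hp with rfl | rfl
    · exact hx
    · exact hy
  rwa [h3] at h2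

end Fits

end Pool.Agent.W2helper91.SP
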